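import Pool.Agent.Helper557.Rz.Base

set_option autoImplicit false

open MeasureTheory Set

namespace Pool.Agent.Helper557.Rz

/-- the coordinates of `x` in the block `e` -/
noncomputable def pr {d : ℕ} (e : Fin 3 ↪ Fin d) (x : E d) : E 3 :=
  WithLp.toLp 2 (fun i => x (e i))

open Classical in
/-- replace the coordinates of `x` in the block `e` by `v` -/
noncomputable def setB {d : ℕ} (e : Fin 3 ↪ Fin d) (x : E d) (v : E 3) : E d :=
  WithLp.toLp 2 (fun j => if j ∈ Set.range e then v (Function.invFun e j) else x j)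

lemma pr_apply {d : ℕ} (e : Fin 3 ↪ Fin d) (x : E d) (i : Fin 3) : pr e x i = x (e i) := rfl

lemma setB_mem {d : ℕ} (e : Fin 3 ↪ Fin d) (x : E d) (v : E 3) (i : Fin 3) :
    setB e x v (e i) = v i := by
  have h1 : Function.invFun e (e i) = i := Function.leftInverse_invFun e.injective i
  simp [setB, h1]

lemma setB_notMem {d : ℕ} (e : Fin 3 ↪ Fin d) (x : E d) (v : E 3) (j : Fin d)
    (hj : j ∉ Set.range e) : setB e x v j = x j := by
  simp only [setB, if_neg hj]

lemma pr_setB {d : ℕ} (e : Fin 3 ↪ Fin d) (x : E d) (v : E 3) : pr e (setB e x v) = v := by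
  ext i
  rw [pr_apply, setB_mem]

lemma setB_pr {d : ℕ} (e : Fin 3 ↪ Fin d) (x : E d) : setB e x (pr e x) = x := by
  ext j
  by_cases hj : j ∈ Set.range e
  · obtain ⟨i, rfl⟩ := hj
    rw [setB_mem, pr_apply]
  · rw [setB_notMem _ _ _ _ hj]

lemma setB_setB {d : ℕ} (e : Fin 3 ↪ Fin d) (x : E d) (v w : E 3) :
    setB e (setB e x v) w = setB e x w := by
  ext j
  by_cases hj : j ∈ Set.range e
  · obtain ⟨i, rfl⟩ := hj
    rw [setB_mem, setB_mem]
  · rw [setB_notMem _ _ _ _ hj, setB_notMem _ _ _ _ hj, setB_notMem _ _ _ _ hj]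

lemma norm_split {d : ℕ} (e : Fin 3 ↪ Fin d) (x : E d) :
    ‖x‖ ^ 2 = ‖pr e x‖ ^ 2 + ∑ j ∈ Finset.univ.filter (fun j => j ∉ Set.range e), ‖x j‖ ^ 2 := by
  classical
  rw [EuclideanSpace.norm_sq_eq, EuclideanSpace.norm_sq_eq]
  rw [← Finset.sum_filter_add_sum_filter_not Finset.univ (fun j => j ∈ Set.range e)]
  congr 1
  · have : (Finset.univ.filter (fun j => j ∈ Set.range e)) = Finset.univ.map e := by
      ext j
      simp
    rw [this, Finset.sum_map]
    rfl

lemma norm_setB {d : ℕ} (e : Fin 3 ↪ Fin d) (x : E d) (v : E 3) :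
    ‖setB e x v‖ ^ 2 = ‖x‖ ^ 2 - ‖pr e x‖ ^ 2 + ‖v‖ ^ 2 := by
  rw [norm_split e (setB e x v), norm_split e x, pr_setB]
  have : ∑ j ∈ Finset.univ.filter (fun j => j ∉ Set.range e), ‖setB e x v j‖ ^ 2
      = ∑ j ∈ Finset.univ.filter (fun j => j ∉ Set.range e), ‖x j‖ ^ 2 := by
    refine Finset.sum_congr rfl fun j hj => ?_
    rw [Finset.mem_filter] at hj
    rw [setB_notMem _ _ _ _ hj.2]
  rw [this]
  ring

/-- replace the block of `x` by the vector of the same length in the direction `ω` -/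
noncomputable def repl {d : ℕ} (e : Fin 3 ↪ Fin d) (x : S d) (ω : S 3) : S d :=
  ⟨setB e x (‖pr e (x : E d)‖ • (ω : E 3)), by
    have h := norm_setB e x (‖pr e (x : E d)‖ • (ω : E 3))
    have hx : ‖(x : E d)‖ = 1 := by simp
    have hω : ‖(ω : E 3)‖ = 1 := by simp
    rw [norm_smul, hω, hx, norm_norm, mul_one] at h
    rw [mem_sphere_zero_iff_norm]
    have h2 : ‖setB e (x : E d) (‖pr e (x : E d)‖ • (ω : E 3))‖ ^ 2 = 1 := by rw [h]; ring
    nlinarith [norm_nonneg (setB e (x : E d) (‖pr e (x : E d)‖ • (ω : E 3)))]⟩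

lemma repl_coe {d : ℕ} (e : Fin 3 ↪ Fin d) (x : S d) (ω : S 3) :
    (repl e x ω : E d) = setB e x (‖pr e (x : E d)‖ • (ω : E 3)) := rfl

end Pool.Agent.Helper557.Rz
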