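import Pool.Agent.Helper557.Rz.Base

set_option autoImplicit false

open MeasureTheory Set

namespace Pool.Agent.Helper557.Rz

structure IsFA (d : ℕ) (m : Set (S d) → ℝ) : Prop where
  nonneg : ∀ A, MeasurableSet A → 0 ≤ m A
  add : ∀ A B, MeasurableSet A → MeasurableSet B → Disjoint A B → m (A ∪ B) = m A + m B
  univ : m univ = 1
  inv : ∀ (g : Iso d) (A : Set (S d)), MeasurableSet A → m (rot g ⁻¹' A) = m A

/-- every closed set of measure at most `1/8` can be drained by a flow bounded by `C` -/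
def Flow (d k : ℕ) (g : Fin k → Iso d) (C : ℝ) : Prop :=
  ∀ K : Set (S d), IsClosed K → sg d K ≤ ENNReal.ofReal (1 / 8) →
    ∃ f : Fin k → C(S d, ℝ), (∀ i x, |f i x| ≤ C) ∧
      ∀ x ∈ K, ∑ i, (f i (rot (g i) x) - f i x) ≤ -1

/-- a normalised positive functional on `C(S d)` carried by a small closed set is moved by some
rotation of the family by a definite amount -/
def Mov (d k : ℕ) (g : Fin k → Iso d) (ε₀ : ℝ) : Prop :=
  ∀ (ν : C(S d, ℝ) →ₗ[ℝ] ℝ), (∀ f : C(S d, ℝ), (∀ x, 0 ≤ f x) → 0 ≤ ν f) → ν 1 = 1 →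
    ∀ K : Set (S d), IsClosed K → sg d K ≤ ENNReal.ofReal (1 / 8) →
      (∀ f : C(S d, ℝ), (∀ x ∈ K, f x = 0) → ν f = 0) →
      ∃ (i : Fin k) (f : C(S d, ℝ)), (∀ x, |f x| ≤ 1) ∧ ε₀ < ν (cr (g i) f - f)

end Pool.Agent.Helper557.Rz
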