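import Pool.Agent.Helper557.Rz.Base
import Pool.Agent.Helper557.Rz.FADefs

set_option autoImplicit false

open MeasureTheory Set

namespace Pool.Agent.Helper557.Rz

theorem flow_of_mov (d : ℕ) (hd : 1 ≤ d) (k : ℕ) (g : Fin k → Iso d) (ε₀ : ℝ) (hε : 0 < ε₀)
    (h : Mov d k g ε₀) : Flow d k g (1 / ε₀) := by
  classical
  intro K hKc hKs
  have hCpos : (0 : ℝ) ≤ 1 / ε₀ := by positivity
  by_contra hne
  have hKcomp : IsCompact K := hKc.isCompact
  set V : Set (C(S d, ℝ)) :=
    {v | ∃ f : Fin k → C(S d, ℝ), (∀ i x, |f i x| ≤ 1 / ε₀) ∧ v = ∑ i, (cr (g i) (f i) - f i)}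
    with hV
  set U : Set (C(S d, ℝ)) := {h | Set.MapsTo h K (Set.Iio (-1 : ℝ))} with hU
  have hUopen : IsOpen U := ContinuousMap.isOpen_setOfPred_mapsTo hKcomp isOpen_Iio
  have hUconv : Convex ℝ U := by
    intro a ha b hb s t hs ht hst x hx
    have h1 : a x < -1 := ha hx
    have h2 : b x < -1 := hb hx
    show (s • a + t • b) x < -1
    simp only [ContinuousMap.add_apply, ContinuousMap.smul_apply, smul_eq_mul]
    rcases hs.eq_or_lt with h0 | h0
    · subst h0
      have : t = 1 := by linarith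
      subst this
      linarith
    · nlinarith
  have hVconv : Convex ℝ V := by
    rintro a ⟨fa, hfa, rfl⟩ b ⟨fb, hfb, rfl⟩ s t hs ht hst
    refine ⟨fun i => s • fa i + t • fb i, ?_, ?_⟩
    · intro i x
      simp only [ContinuousMap.add_apply, ContinuousMap.smul_apply, smul_eq_mul]
      have h1 := hfa i x
      have h2 := hfb i x
      calc |s * fa i x + t * fb i x| ≤ |s * fa i x| + |t * fb i x| := abs_add_le _ _
        _ = s * |fa i x| + t * |fb i x| := by
            rw [abs_mul, abs_mul, abs_of_nonneg hs, abs_of_nonneg ht]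
        _ ≤ s * (1 / ε₀) + t * (1 / ε₀) := by gcongr
        _ = 1 / ε₀ := by rw [← add_mul, hst, one_mul]
    · ext x
      simp only [ContinuousMap.add_apply, ContinuousMap.smul_apply, smul_eq_mul,
        ContinuousMap.coe_sum, Finset.sum_apply, ContinuousMap.sub_apply, cr_apply]
      rw [Finset.mul_sum, Finset.mul_sum, ← Finset.sum_add_distrib]
      refine Finset.sum_congr rfl fun i _ => ?_
      ring
  have hdisj : Disjoint U V := by
    rw [Set.disjoint_left]
    rintro v hvU ⟨f, hf, rfl⟩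
    apply hne
    refine ⟨f, hf, fun x hx => ?_⟩
    have := hvU hx
    simp only [ContinuousMap.coe_sum, Finset.sum_apply, ContinuousMap.sub_apply, cr_apply,
      Set.mem_Iio] at this
    exact this.le
  obtain ⟨l, c, hlU, hlV⟩ := geometric_hahn_banach_open hUconv hUopen hVconv hdisj
  have hc0 : c ≤ 0 := by
    have : (0 : C(S d, ℝ)) ∈ V := by
      refine ⟨fun _ => 0, fun i x => by simpa using hCpos, ?_⟩
      ext x
      simp
    simpa using hlV 0 this
  have hconstU : ∀ a : ℝ, a < -1 → l (a • (1 : C(S d, ℝ))) < c := by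
    intro a ha
    apply hlU
    intro x _
    simpa using ha
  have hl2 : (-2 : ℝ) * l 1 < c := by
    have := hconstU (-2) (by norm_num)
    rwa [map_smul, smul_eq_mul] at this
  have hl1 : 0 < l 1 := by nlinarith
  have hcge : - l 1 ≤ c := by
    by_contra hlt
    push Not at hlt
    have h1 : c / l 1 < -1 := by
      rw [div_lt_iff₀ hl1]; linarith
    have h2 := hconstU (c / l 1) h1
    rw [map_smul, smul_eq_mul, div_mul_cancel₀ _ hl1.ne'] at h2
    exact lt_irrefl _ h2
  have hzero : ∀ f : C(S d, ℝ), (∀ x ∈ K, f x = 0) → l f = 0 := by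
    intro f hf
    by_contra hlf
    have hm : ∀ t : ℝ, l ((-2 : ℝ) • (1 : C(S d, ℝ)) + t • f) < c := by
      intro t
      apply hlU
      intro x hx
      simp only [ContinuousMap.add_apply, ContinuousMap.smul_apply, smul_eq_mul, hf x hx,
        ContinuousMap.one_apply, Set.mem_Iio]
      norm_num
    have h1 := hm ((c + 2 * l 1) / l f)
    rw [map_add, map_smul, map_smul, smul_eq_mul, smul_eq_mul, div_mul_cancel₀ _ hlf] at h1
    linarith
  have hpos : ∀ f : C(S d, ℝ), (∀ x, 0 ≤ f x) → 0 ≤ l f := by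
    intro f hf
    by_contra hlf
    push Not at hlf
    have hm : ∀ t : ℝ, 0 ≤ t → l ((-2 : ℝ) • (1 : C(S d, ℝ)) + (-t) • f) < c := by
      intro t ht
      apply hlU
      intro x hx
      simp only [ContinuousMap.add_apply, ContinuousMap.smul_apply, smul_eq_mul,
        ContinuousMap.one_apply, Set.mem_Iio]
      have := mul_nonneg ht (hf x)
      linarith
    have h1 := hm ((c + 2 * l 1) / (- l f)) (div_nonneg (by linarith) (by linarith))
    rw [map_add, map_smul, map_smul, smul_eq_mul, smul_eq_mul] at h1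
    have h2 : -((c + 2 * l 1) / (- l f)) * l f = c + 2 * l 1 := by
      rw [div_neg, neg_neg, div_mul_cancel₀ _ hlf.ne]
    rw [h2] at h1
    linarith
  set ν : C(S d, ℝ) →ₗ[ℝ] ℝ := (l 1)⁻¹ • (l : C(S d, ℝ) →ₗ[ℝ] ℝ) with hν
  have hνapp : ∀ f, ν f = (l 1)⁻¹ * l f := fun f => by simp [hν]
  obtain ⟨i, f₀, hf₀, hlt⟩ := h ν
    (fun f hf => by rw [hνapp]; exact mul_nonneg (inv_nonneg.mpr hl1.le) (hpos f hf))
    (by rw [hνapp]; exact inv_mul_cancel₀ hl1.ne') K hKc hKs
    (fun f hf => by rw [hνapp, hzero f hf, mul_zero])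
  have hvV : (-(1 / ε₀)) • (cr (g i) f₀ - f₀) ∈ V := by
    refine ⟨fun j => if j = i then (-(1 / ε₀)) • f₀ else 0, ?_, ?_⟩
    · intro j x
      by_cases hj : j = i
      · simp only [hj, if_true, ContinuousMap.smul_apply, smul_eq_mul]
        rw [abs_mul, abs_neg, abs_of_nonneg hCpos]
        exact mul_le_of_le_one_right hCpos (hf₀ x)
      · simp only [hj, if_false, ContinuousMap.zero_apply, abs_zero]
        exact hCpos
    · ext x
      simp only [ContinuousMap.smul_apply, smul_eq_mul, ContinuousMap.coe_sum, Finset.sum_apply,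
        ContinuousMap.sub_apply, cr_apply]
      rw [Finset.sum_eq_single i]
      · simp only [if_true, ContinuousMap.smul_apply, smul_eq_mul]
        ring
      · intro j _ hj
        simp [hj]
      · intro hi
        exact absurd (Finset.mem_univ i) hi
  have h3 := hlV _ hvV
  rw [map_smul, smul_eq_mul] at h3
  rw [hνapp] at hlt
  have h4 : ε₀ * l 1 < l (cr (g i) f₀ - f₀) := by
    have := mul_lt_mul_of_pos_right hlt hl1
    rwa [mul_comm (l 1)⁻¹, mul_assoc, inv_mul_cancel₀ hl1.ne', mul_one] at this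
  have h5 : -(1 / ε₀) * l (cr (g i) f₀ - f₀) < - l 1 := by
    have h6 : 0 < 1 / ε₀ := by positivity
    have h7 := mul_lt_mul_of_pos_left h4 h6
    have h8 : 1 / ε₀ * (ε₀ * l 1) = l 1 := by field_simp
    rw [h8] at h7
    linarith
  linarith


end Pool.Agent.Helper557.Rz
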