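import Pool.Agent.Helper557.Rz.Base
import Pool.Agent.Helper557.Rz.FADefs

set_option autoImplicit false

open MeasureTheory Set

namespace Pool.Agent.Helper557.Rz
theorem nontriv_E (d : ℕ) (hd : 1 ≤ d) : Nontrivial (E d) := by
  have : Nonempty (Fin d) := ⟨⟨0, hd⟩⟩
  infer_instance

theorem toSphere_univ_ne_zero (d : ℕ) (hd : 1 ≤ d) :
    (volume : Measure (E d)).toSphere Set.univ ≠ 0 := by
  have := nontriv_E d hd
  rw [Ne, Measure.measure_univ_eq_zero]
  exact Measure.toSphere_ne_zero _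

open scoped Pointwise in
theorem vol_rot {d : ℕ} (g : Iso d) (s : Set (S d)) :
    volume (Set.Ioo (0 : ℝ) 1 • ((fun x : S d => (x : E d)) '' (rot g ⁻¹' s))) =
      volume (Set.Ioo (0 : ℝ) 1 • ((fun x : S d => (x : E d)) '' s)) := by
  have hset : Set.Ioo (0 : ℝ) 1 • ((fun x : S d => (x : E d)) '' (rot g ⁻¹' s)) =
      g ⁻¹' (Set.Ioo (0 : ℝ) 1 • ((fun x : S d => (x : E d)) '' s)) := by
    ext x
    rw [Set.mem_preimage, Set.mem_smul, Set.mem_smul]
    constructor
    · rintro ⟨t, ht, _, ⟨y, hy, rfl⟩, rfl⟩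
      refine ⟨t, ht, g y, ⟨rot g y, hy, rfl⟩, ?_⟩
      simp
    · rintro ⟨t, ht, _, ⟨y, hy, rfl⟩, he⟩
      refine ⟨t, ht, g.symm y, ⟨rot g⁻¹ y, ?_, rfl⟩, ?_⟩
      · rw [Set.mem_preimage, rot_rot_inv]
        exact hy
      · rw [← map_smul, he]
        simp
  rw [hset]
  exact g.measurePreserving.measure_preimage_emb g.toHomeomorph.measurableEmbedding _


theorem sg_prob (d : ℕ) (hd : 1 ≤ d) : IsProbabilityMeasure (sg d) := by
  refine ⟨?_⟩
  rw [sg, Measure.smul_apply, smul_eq_mul]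
  exact ENNReal.inv_mul_cancel (toSphere_univ_ne_zero d hd) (measure_ne_top _ _)

theorem sg_open_pos (d : ℕ) (hd : 1 ≤ d) : (sg d).IsOpenPosMeasure := by
  refine ⟨fun U hU hne => ?_⟩
  rw [sg, Measure.smul_apply, smul_eq_mul]
  refine mul_ne_zero (ENNReal.inv_ne_zero.2 (measure_ne_top _ _)) ?_
  exact hU.measure_ne_zero _ hne

theorem rot_mp (d : ℕ) (hd : 1 ≤ d) (g : Iso d) :
    MeasurePreserving (rot g) (sg d) (sg d) := by
  have hm : Measurable (rot g) := (rot_continuous g).measurable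
  refine ⟨hm, ?_⟩
  ext s hs
  rw [Measure.map_apply hm hs, sg, Measure.smul_apply, Measure.smul_apply,
    Measure.toSphere_apply' _ hs, Measure.toSphere_apply' _ (hm hs)]
  exact congrArg _ (congrArg _ (vol_rot g s))


end Pool.Agent.Helper557.Rz
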