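import Pool.Agent.Helper557.Rz.Base
import Pool.Agent.Helper557.Rz.FADefs
import Pool.Agent.Helper557.Rz.M_meas

set_option autoImplicit false

open MeasureTheory Set

namespace Pool.Agent.Helper557.Rz

theorem ker_sym (d : ℕ) (x y : S d) : u x y = u y x := by
  unfold u
  rw [real_inner_comm]

theorem ker_rot (d : ℕ) (g : Iso d) (x y : S d) : u (rot g x) (rot g y) = u x y := by
  unfold u
  rw [rot_coe, rot_coe, g.inner_map_map]

theorem nrm_8884 {d : ℕ} (x : S d) : ‖(x : E d)‖ = 1 := by
  have := x.2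
  rwa [mem_sphere_zero_iff_norm] at this

theorem ker_nonneg (d : ℕ) (x y : S d) : 0 ≤ u x y ∧ u x y ≤ 1 := by
  have h := abs_real_inner_le_norm (x : E d) (y : E d)
  rw [nrm_8884, nrm_8884, mul_one, abs_le] at h
  unfold u
  constructor <;> linarith [h.1, h.2]

theorem ker_cont (d : ℕ) : Continuous (fun p : S d × S d => u p.1 p.2) := by
  unfold u
  fun_prop

theorem rot_transitive (d : ℕ) (x y : S d) : ∃ g : Iso d, rot g x = y := by
  refine ⟨(Submodule.span ℝ {(x : E d) - (y : E d)})ᗮ.reflection, ?_⟩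
  apply Subtype.ext
  rw [rot_coe]
  exact Submodule.reflection_sub (by rw [nrm_8884, nrm_8884])

theorem ker_const (d : ℕ) (hd : 2 ≤ d) (m : ℕ) :
    ∃ c : ℝ, 0 < c ∧ ∀ x : S d, ∫ y, u x y ^ m ∂(sg d) = c := by
  have hp := sg_prob d (by omega)
  have ho := sg_open_pos d (by omega)
  obtain ⟨x0⟩ : Nonempty (S d) := nonempty_of_isProbabilityMeasure (sg d)
  have hcx : ∀ x : S d, Continuous fun y : S d => u x y ^ m := fun x =>
    ((ker_cont d).comp (Continuous.prodMk continuous_const continuous_id)).pow m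
  refine ⟨∫ y, u x0 y ^ m ∂(sg d), ?_, fun x => ?_⟩
  · apply (hcx x0).integral_pos_of_hasCompactSupport_nonneg_nonzero
      (HasCompactSupport.of_compactSpace _) (fun y => pow_nonneg (ker_nonneg d x0 y).1 m)
      (x := x0)
    have : u x0 x0 = 1 := by
      unfold u
      rw [real_inner_self_eq_norm_sq, nrm_8884]
      norm_num
    rw [this]
    simp
  · obtain ⟨g, hg⟩ := rot_transitive d x0 x
    have hmp := rot_mp d (by omega) g
    have h1 : ∫ y, u x y ^ m ∂(Measure.map (rot g) (sg d)) =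
        ∫ z, u x (rot g z) ^ m ∂(sg d) :=
      integral_map hmp.measurable.aemeasurable (hcx x).aestronglyMeasurable
    rw [hmp.map_eq] at h1
    rw [h1]
    congr 1
    funext z
    rw [← hg, ker_rot]

/-- coordinates -/
noncomputable def vv8884 {d : ℕ} (a : Option (Fin d)) (x : S d) : ℝ :=
  match a with
  | none => √(1 / 2)
  | some i => √(1 / 2) * (x : E d) i

theorem vv_cont_8884 {d : ℕ} (a : Option (Fin d)) : Continuous (vv8884 (d := d) a) := by
  cases a with
  | none => exact continuous_const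
  | some i =>
    unfold vv8884
    simp only
    fun_prop

theorem u_eq_8884 {d : ℕ} (x y : S d) :
    u x y = ∑ a : Option (Fin d), vv8884 a x * vv8884 a y := by
  have hs : √(1 / 2 : ℝ) * √(1 / 2) = 1 / 2 := Real.mul_self_sqrt (by norm_num)
  rw [Fintype.sum_option]
  unfold vv8884 u
  simp only
  rw [hs, PiLp.inner_apply]
  have e : ∀ i : Fin d, √(1 / 2) * (x : E d) i * (√(1 / 2) * (y : E d) i) =
      1 / 2 * ((x : E d) i * (y : E d) i) := by
    intro i
    linear_combination ((x : E d) i * (y : E d) i) * hs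
  simp_rw [e]
  rw [← Finset.mul_sum]
  have e2 : ∀ i : Fin d, (inner ℝ ((x : E d) i) ((y : E d) i) : ℝ) = (x : E d) i * (y : E d) i := by
    intro i
    simp [mul_comm]
  simp_rw [e2]
  ring

theorem ker_gram (d m : ℕ) : ∃ (J : Type) (_ : Fintype J) (φ : J → C(S d, ℝ)),
    ∀ x y : S d, u x y ^ m = ∑ j, φ j x * φ j y := by
  refine ⟨Fin m → Option (Fin d), inferInstance, fun f =>
    ⟨fun x => ∏ i, vv8884 (f i) x, continuous_finsetProd _ fun i _ => vv_cont_8884 (f i)⟩, ?_⟩
  intro x y
  rw [u_eq_8884, Fintype.sum_pow]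
  apply Finset.sum_congr rfl
  intro f _
  rw [Finset.prod_mul_distrib]
  rfl


end Pool.Agent.Helper557.Rz
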