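import Pool.Agent.Helper557.Rz.Base
import Pool.Agent.Helper557.Rz.FADefs
import Pool.Agent.Helper557.Rz.M_kerc
import Pool.Agent.Helper557.Rz.M_meas

set_option autoImplicit false

open MeasureTheory Set

namespace Pool.Agent.Helper557.Rz

lemma dist_sq_u {d : ℕ} (x y : S d) : dist x y ^ 2 = 4 * (1 - u x y) := by
  have hx : ‖(x : E d)‖ = 1 := by simpa using x.2
  have hy : ‖(y : E d)‖ = 1 := by simpa using y.2
  have h : dist x y = ‖(x : E d) - (y : E d)‖ := by
    rw [Subtype.dist_eq, dist_eq_norm]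
  rw [h, norm_sub_sq_real, hx, hy]
  unfold u
  ring

lemma u_cont_right {d : ℕ} (x : S d) : Continuous (fun y : S d => u x y) :=
  (ker_cont d).comp (Continuous.prodMk continuous_const continuous_id)

lemma cap_indep (d : ℕ) (hd : 1 ≤ d) (c : ℝ) (x y : S d) :
    (sg d).real {z | c < u x z} = (sg d).real {z | c < u y z} := by
  obtain ⟨g, hg⟩ := rot_transitive d x y
  have hm : MeasurableSet {z : S d | c < u y z} :=
    (isOpen_lt continuous_const (u_cont_right y)).measurableSet
  have h := (rot_mp d hd g).measure_preimage hm.nullMeasurableSet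
  have he : rot g ⁻¹' {z : S d | c < u y z} = {z | c < u x z} := by
    ext z
    simp only [Set.mem_preimage, Set.mem_setOf_eq]
    rw [← hg, ker_rot]
  rw [he] at h
  simp only [Measure.real, h]

theorem ker_approx (d : ℕ) (hd : 2 ≤ d) (ψ : C(S d, ℝ)) (ε : ℝ) (hε : 0 < ε) :
    ∃ M : ℕ, ∀ m : ℕ, M ≤ m → ∀ x : S d,
      |∫ y, u x y ^ m * ψ y ∂(sg d) - (∫ y, u x y ^ m ∂(sg d)) * ψ x| ≤
        ε * ∫ y, u x y ^ m ∂(sg d) := by
  have hd1 : 1 ≤ d := by omega
  haveI := sg_prob d hd1
  haveI := sg_open_pos d hd1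
  by_cases hne : Nonempty (S d)
  swap
  · exact ⟨0, fun m _ x => absurd ⟨x⟩ hne⟩
  obtain ⟨x0⟩ := hne
  -- bound
  obtain ⟨B, hB⟩ : ∃ B : ℝ, ∀ y, |ψ y| ≤ B := ⟨‖ψ‖, fun y => by
    simpa [Real.norm_eq_abs] using ψ.norm_coe_le_norm y⟩
  have hB0 : 0 ≤ B := (abs_nonneg _).trans (hB x0)
  -- uniform continuity
  have huc : UniformContinuous ψ := CompactSpace.uniformContinuous_of_continuous ψ.continuous
  rw [Metric.uniformContinuous_iff] at huc
  obtain ⟨δ0, hδ0, hδ0'⟩ := huc (ε / 2) (by positivity)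
  set δ : ℝ := min (1 / 2) (δ0 ^ 2 / 4) with hδdef
  have hδpos : 0 < δ := lt_min (by norm_num) (by positivity)
  have hδhalf : δ ≤ 1 / 2 := min_le_left _ _
  have hδ4 : 4 * δ ≤ δ0 ^ 2 := by
    have := min_le_right (1 / 2 : ℝ) (δ0 ^ 2 / 4)
    rw [← hδdef] at this
    linarith
  have hnear : ∀ x y : S d, 1 - δ < u x y → |ψ y - ψ x| ≤ ε / 2 := by
    intro x y hxy
    have h1 : dist x y ^ 2 < δ0 ^ 2 := by
      rw [dist_sq_u]
      linarith
    have h2 : dist y x < δ0 := by
      rw [dist_comm]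
      exact lt_of_pow_lt_pow_left₀ 2 hδ0.le h1
    have h3 := hδ0' h2
    rw [Real.dist_eq] at h3
    exact h3.le
  -- measure of the cap
  set a : ℝ := (sg d).real {z | 1 - δ / 2 < u x0 z} with ha
  have ha_all : ∀ x : S d, (sg d).real {z | 1 - δ / 2 < u x z} = a := fun x =>
    cap_indep d hd1 _ x x0
  have hapos : 0 < a := by
    have hopen : IsOpen {z : S d | 1 - δ / 2 < u x0 z} :=
      isOpen_lt continuous_const (u_cont_right x0)
    have hx0 : u x0 x0 = 1 := by
      have := dist_sq_u x0 x0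
      simp at this
      linarith
    have hn : ({z : S d | 1 - δ / 2 < u x0 z}).Nonempty := ⟨x0, by
      simp only [Set.mem_setOf_eq, hx0]; linarith⟩
    have := hopen.measure_pos (sg d) hn
    rw [ha, Measure.real]
    exact ENNReal.toReal_pos this.ne' (measure_ne_top _ _)
  -- lower bound
  have hcm : ∀ (m : ℕ) (x : S d), Continuous (fun y : S d => u x y ^ m) := fun m x =>
    (u_cont_right x).pow m
  have hint : ∀ f : S d → ℝ, Continuous f → Integrable f (sg d) := fun f hf =>
    hf.integrable_of_hasCompactSupport (HasCompactSupport.of_compactSpace f)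
  have hlow : ∀ (m : ℕ) (x : S d), (1 - δ / 2) ^ m * a ≤ ∫ y, u x y ^ m ∂(sg d) := by
    intro m x
    have hmeas : MeasurableSet {z : S d | 1 - δ / 2 < u x z} :=
      (isOpen_lt continuous_const (u_cont_right x)).measurableSet
    have h1 : ∫ y in {z : S d | 1 - δ / 2 < u x z}, (1 - δ / 2) ^ m ∂(sg d)
        = (1 - δ / 2) ^ m * a := by
      rw [setIntegral_const, ha_all x, smul_eq_mul, mul_comm]
    rw [← h1]
    calc ∫ y in {z : S d | 1 - δ / 2 < u x z}, (1 - δ / 2) ^ m ∂(sg d)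
        ≤ ∫ y in {z : S d | 1 - δ / 2 < u x z}, u x y ^ m ∂(sg d) := by
          apply setIntegral_mono_on (integrable_const _).integrableOn
            (hint _ (hcm m x)).integrableOn hmeas
          intro y hy
          exact pow_le_pow_left₀ (by linarith) (le_of_lt hy) m
      _ ≤ ∫ y, u x y ^ m ∂(sg d) := by
          apply setIntegral_le_integral (hint _ (hcm m x))
          exact Filter.Eventually.of_forall (fun y => pow_nonneg (ker_nonneg d x y).1 m)
  -- choice of M
  set r : ℝ := (1 - δ) / (1 - δ / 2) with hr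
  have hr0 : 0 ≤ r := div_nonneg (by linarith) (by linarith)
  have hr1 : r < 1 := by
    rw [hr, div_lt_one (by linarith)]
    linarith
  have htend : Filter.Tendsto (fun m : ℕ => 2 * B * r ^ m) Filter.atTop (nhds 0) := by
    have := (tendsto_pow_atTop_nhds_zero_of_lt_one hr0 hr1).const_mul (2 * B)
    simpa using this
  have hev := htend.eventually (gt_mem_nhds (show (0 : ℝ) < ε / 2 * a by positivity))
  obtain ⟨M, hM⟩ := Filter.eventually_atTop.1 hev
  refine ⟨M, fun m hm x => ?_⟩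
  have h1 : ∫ y, u x y ^ m * ψ y ∂(sg d) - (∫ y, u x y ^ m ∂(sg d)) * ψ x
      = ∫ y, u x y ^ m * (ψ y - ψ x) ∂(sg d) := by
    rw [← integral_mul_const, ← integral_sub]
    · congr 1
      ext y
      ring
    · exact hint _ ((hcm m x).mul ψ.continuous)
    · exact hint _ ((hcm m x).mul continuous_const)
  have h2 : ∀ y : S d, ‖u x y ^ m * (ψ y - ψ x)‖ ≤ ε / 2 * u x y ^ m + 2 * B * (1 - δ) ^ m := by
    intro y
    obtain ⟨hu0, hu1⟩ := ker_nonneg d x y
    have hp : 0 ≤ u x y ^ m := pow_nonneg hu0 m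
    have hq : 0 ≤ (1 - δ) ^ m := pow_nonneg (by linarith) m
    rw [Real.norm_eq_abs, abs_mul, abs_of_nonneg hp]
    by_cases hc : 1 - δ < u x y
    · have := mul_le_mul_of_nonneg_left (hnear x y hc) hp
      have h3 : 0 ≤ 2 * B * (1 - δ) ^ m := by positivity
      linarith
    · have h4 : u x y ^ m ≤ (1 - δ) ^ m := pow_le_pow_left₀ hu0 (not_lt.1 hc) m
      have h5 : |ψ y - ψ x| ≤ 2 * B := by
        have := abs_sub (ψ y) (ψ x)
        have := hB y
        have := hB x
        linarith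
      have h6 := mul_le_mul h4 h5 (abs_nonneg _) hq
      have h7 : 0 ≤ ε / 2 * u x y ^ m := by positivity
      linarith
  have h3 : |∫ y, u x y ^ m * (ψ y - ψ x) ∂(sg d)| ≤
      ∫ y, (ε / 2 * u x y ^ m + 2 * B * (1 - δ) ^ m) ∂(sg d) := by
    rw [← Real.norm_eq_abs]
    apply norm_integral_le_of_norm_le
    · exact hint _ ((continuous_const.mul (hcm m x)).add continuous_const)
    · exact Filter.Eventually.of_forall h2
  have h4 : ∫ y, (ε / 2 * u x y ^ m + 2 * B * (1 - δ) ^ m) ∂(sg d)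
      = ε / 2 * ∫ y, u x y ^ m ∂(sg d) + 2 * B * (1 - δ) ^ m := by
    rw [integral_add, integral_const_mul, integral_const]
    · simp
    · exact hint _ (continuous_const.mul (hcm m x))
    · exact integrable_const _
  have h5 : 2 * B * (1 - δ) ^ m ≤ ε / 2 * ((1 - δ / 2) ^ m * a) := by
    have h6 := (hM m hm).le
    have h7 : (1 - δ) ^ m = r ^ m * (1 - δ / 2) ^ m := by
      rw [← mul_pow, hr, div_mul_cancel₀]
      linarith
    have h8 : 0 ≤ (1 - δ / 2) ^ m := pow_nonneg (by linarith) m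
    rw [h7]
    have := mul_le_mul_of_nonneg_right h6 h8
    nlinarith [this]
  rw [h1]
  have h6 := hlow m x
  have h7 : ε / 2 * ((1 - δ / 2) ^ m * a) ≤ ε / 2 * ∫ y, u x y ^ m ∂(sg d) :=
    mul_le_mul_of_nonneg_left h6 (by positivity)
  linarith


end Pool.Agent.Helper557.Rz
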