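import Pool.Agent.Helper557.Rz.Base
import Pool.Agent.Helper557.Rz.FADefs
import Pool.Agent.Helper557.Rz.M_kera
import Pool.Agent.Helper557.Rz.M_kerc
import Pool.Agent.Helper557.Rz.M_meas

set_option autoImplicit false

open MeasureTheory Set

namespace Pool.Agent.Helper557.Rz
theorem mg_integrable (d : ℕ) (hd : 1 ≤ d) (f : C(S d, ℝ)) : Integrable (fun x => f x) (sg d) := by
  have := sg_prob d hd
  exact f.continuous.integrable_of_hasCompactSupport (HasCompactSupport.of_compactSpace _)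

theorem mg_integrable_mul (d : ℕ) (hd : 1 ≤ d) (s : S d → ℝ) (hs : Measurable s)
    (hs1 : ∀ x, |s x| ≤ 1) (f : C(S d, ℝ)) : Integrable (fun x => s x * f x) (sg d) := by
  have := sg_prob d hd
  have h1 := (mg_integrable d hd f).norm
  refine h1.mono' (hs.mul f.continuous.measurable).aestronglyMeasurable ?_
  refine Filter.Eventually.of_forall fun x => ?_
  rw [norm_mul, Real.norm_eq_abs, Real.norm_eq_abs]
  calc |s x| * |f x| ≤ 1 * |f x| := mul_le_mul_of_nonneg_right (hs1 x) (abs_nonneg _)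
    _ = |f x| := one_mul _

theorem mg_int_aux (d : ℕ) (hd : 1 ≤ d) {J : Type} [Fintype J] (φ : J → C(S d, ℝ)) (c : ℝ)
    (lam : C(S d, ℝ) →ₗ[ℝ] ℝ) (s : S d → ℝ) (hs : Measurable s) (hs1 : ∀ x, |s x| ≤ 1) :
    ∫ x, s x * (c⁻¹ • ∑ j, lam (φ j) • φ j : C(S d, ℝ)) x ∂(sg d) =
      lam (c⁻¹ • ∑ j, (∫ x, s x * φ j x ∂(sg d)) • φ j) := by
  rw [map_smul, map_sum]
  simp only [map_smul, smul_eq_mul, ContinuousMap.smul_apply, ContinuousMap.coe_sum,
    Finset.sum_apply]
  have h1 : ∀ x, s x * (c⁻¹ * ∑ j, lam (φ j) * φ j x) =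
      c⁻¹ * ∑ j, lam (φ j) * (s x * φ j x) := by
    intro x
    rw [Finset.mul_sum, Finset.mul_sum, Finset.mul_sum]
    apply Finset.sum_congr rfl
    intro j _
    ring
  simp only [h1]
  rw [integral_const_mul, integral_finsetSum]
  · congr 1
    apply Finset.sum_congr rfl
    intro j _
    rw [integral_const_mul]
    ring
  · intro j _
    exact (mg_integrable_mul d hd s hs hs1 (φ j)).const_mul _

theorem mg_H_aux (d : ℕ) (hd : 1 ≤ d) {J : Type} [Fintype J] (φ : J → C(S d, ℝ)) (c : ℝ) (m : ℕ)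
    (hφ : ∀ x y : S d, u x y ^ m = ∑ j, φ j x * φ j y) (s : S d → ℝ) (hs : Measurable s)
    (hs1 : ∀ x, |s x| ≤ 1) (y : S d) :
    (c⁻¹ • ∑ j, (∫ x, s x * φ j x ∂(sg d)) • φ j : C(S d, ℝ)) y =
      c⁻¹ * ∫ x, s x * u x y ^ m ∂(sg d) := by
  simp only [smul_eq_mul, ContinuousMap.smul_apply, ContinuousMap.coe_sum,
    Finset.sum_apply]
  congr 1
  have h1 : ∀ x, s x * u x y ^ m = ∑ j, (s x * φ j x) * φ j y := by
    intro x
    rw [hφ, Finset.mul_sum]
    apply Finset.sum_congr rfl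
    intro j _
    ring
  simp only [h1]
  rw [integral_finsetSum]
  · apply Finset.sum_congr rfl
    intro j _
    rw [integral_mul_const]
  · intro j _
    exact (mg_integrable_mul d hd s hs hs1 (φ j)).mul_const _

/-- the composed functional -/
noncomputable def mgComp {d : ℕ} (ν : C(S d, ℝ) →ₗ[ℝ] ℝ) (g : Iso d) : C(S d, ℝ) →ₗ[ℝ] ℝ where
  toFun f := ν (cr g f)
  map_add' f f' := by
    have : cr g (f + f') = cr g f + cr g f' := rfl
    rw [this, map_add]
  map_smul' a f := by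
    have : cr g (a • f) = a • cr g f := rfl
    rw [this, map_smul]
    rfl

theorem mg_sqrt_aux {a b : ℝ} (ha : 0 ≤ a) (hb : 0 ≤ b) : (√a - √b) ^ 2 ≤ |a - b| := by
  have h1 := Real.sq_sqrt ha
  have h2 := Real.sq_sqrt hb
  have h3 := Real.sqrt_nonneg a
  have h4 := Real.sqrt_nonneg b
  rcases le_total (√a) (√b) with h | h
  · have h5 : √a * √a ≤ √a * √b := mul_le_mul_of_nonneg_left h h3
    have h6 : a - b = √a ^ 2 - √b ^ 2 := by rw [h1, h2]
    have h7 : √b ^ 2 - √a ^ 2 ≤ |a - b| := by rw [h1, h2, abs_sub_comm]; exact le_abs_self _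
    have h8 : (√a - √b) ^ 2 = √a ^ 2 - 2 * (√a * √b) + √b ^ 2 := by ring
    have h9 : √a * √a = √a ^ 2 := by ring
    rw [h8]
    linarith
  · have h5 : √b * √b ≤ √a * √b := mul_le_mul_of_nonneg_right h h4
    have h7 : √a ^ 2 - √b ^ 2 ≤ |a - b| := by rw [h1, h2]; exact le_abs_self _
    have h8 : (√a - √b) ^ 2 = √a ^ 2 - 2 * (√a * √b) + √b ^ 2 := by ring
    have h9 : √b * √b = √b ^ 2 := by ring
    rw [h8]
    linarith


theorem mov_of_gap (d : ℕ) (hd : 2 ≤ d) (k : ℕ) (g : Fin k → Iso d) (κ : ℝ)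
    (h : SGD d k g κ) : ∃ ε₀ : ℝ, 0 < ε₀ ∧ Mov d k g ε₀ := by
  obtain ⟨hκ, hgap⟩ := h
  have hd1 : 1 ≤ d := by omega
  have hprob := sg_prob d hd1
  obtain ⟨ε₀, hε₀⟩ : ∃ ε₀ : ℝ, ε₀ = κ / (512 * (k + 1)) := ⟨_, rfl⟩
  have hk1 : (0 : ℝ) < (k : ℝ) + 1 := by positivity
  have hε₀pos : 0 < ε₀ := by rw [hε₀]; positivity
  have hkε : (k : ℝ) * ε₀ ≤ κ / 512 := by
    rw [hε₀]
    have h1 : (k : ℝ) * (κ / (512 * (k + 1))) = (κ / 512) * (k / (k + 1)) := by
      field_simp
    rw [h1]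
    have h2 : (k : ℝ) / (k + 1) ≤ 1 := by
      rw [div_le_one hk1]
      linarith
    calc κ / 512 * (k / (k + 1)) ≤ κ / 512 * 1 :=
          mul_le_mul_of_nonneg_left h2 (by positivity)
      _ = κ / 512 := mul_one _
  refine ⟨ε₀, hε₀pos, ?_⟩
  intro ν hpos hν1 K hKc hK hKν
  by_contra hcon
  push Not at hcon
  -- the open set and the cut off function
  obtain ⟨V, hKV, hVo, hV⟩ : ∃ V, K ⊆ V ∧ IsOpen V ∧ sg d V < ENNReal.ofReal (1 / 4) := by
    obtain ⟨V, h1, h2, h3⟩ := Set.exists_isOpen_lt_of_lt K (ENNReal.ofReal (1 / 4))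
      (lt_of_le_of_lt hK ((ENNReal.ofReal_lt_ofReal_iff (by norm_num)).2 (by norm_num)))
    exact ⟨V, h1, h2, h3⟩
  obtain ⟨phi, hphi0, hphi1, hphi⟩ := exists_continuous_zero_one_of_isClosed
    (s := Vᶜ) (t := K) hVo.isClosed_compl hKc
    (Set.disjoint_left.2 fun x hx hx' => hx (hKV hx'))
  have hphiabs : ∀ x, |phi x| ≤ 1 := by
    intro x
    rw [abs_of_nonneg (hphi x).1]
    exact (hphi x).2
  have hphiint : ∫ x, phi x ∂(sg d) ≤ 1 / 4 := by
    have h1 : ∫ x, phi x ∂(sg d) ≤ ∫ x, V.indicator (fun _ => (1 : ℝ)) x ∂(sg d) := by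
      apply integral_mono (mg_integrable d hd1 phi)
      · exact (integrable_const (1 : ℝ)).indicator hVo.measurableSet
      · intro x
        by_cases hx : x ∈ V
        · simp only [Set.indicator_of_mem hx]
          exact (hphi x).2
        · simp only [Set.indicator_of_notMem hx]
          exact (hphi0 hx).le
    refine h1.trans ?_
    rw [integral_indicator hVo.measurableSet, setIntegral_const, smul_eq_mul, mul_one,
      Measure.real]
    have h2 := ENNReal.toReal_mono ENNReal.ofReal_ne_top hV.le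
    rwa [ENNReal.toReal_ofReal (by norm_num)] at h2
  have hνphi : ν phi = 1 := by
    have h1 := hKν (phi - 1) (fun x hx => by
      rw [ContinuousMap.sub_apply, hphi1 hx]
      simp)
    rw [map_sub, hν1] at h1
    linarith
  -- the kernel
  obtain ⟨m, hm⟩ := ker_approx d hd phi (1 / 4) (by norm_num)
  have hm := hm m le_rfl
  obtain ⟨c, hc, hcint⟩ := ker_const d hd m
  obtain ⟨J, hJ, φ, hφ⟩ := ker_gram d m
  have hcint' : ∀ y : S d, ∫ x, u x y ^ m ∂(sg d) = c := by
    intro y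
    rw [← hcint y]
    congr 1
    funext x
    rw [ker_sym]
  obtain ⟨N, hN⟩ : ∃ N : C(S d, ℝ), N = c⁻¹ • ∑ j, ν (φ j) • φ j := ⟨_, rfl⟩
  have hNx : ∀ x, N x = c⁻¹ * ν (∑ j, φ j x • φ j) := by
    intro x
    rw [hN, map_sum]
    simp only [map_smul, smul_eq_mul, ContinuousMap.smul_apply, ContinuousMap.coe_sum,
      Finset.sum_apply]
    congr 1
    apply Finset.sum_congr rfl
    intro j _
    ring
  have hker : ∀ x y, (∑ j, φ j x • φ j : C(S d, ℝ)) y = u x y ^ m := by
    intro x y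
    rw [hφ]
    simp only [smul_eq_mul, ContinuousMap.smul_apply, ContinuousMap.coe_sum, Finset.sum_apply]
  have hN0 : ∀ x, 0 ≤ N x := by
    intro x
    rw [hNx]
    apply mul_nonneg (inv_nonneg.2 hc.le)
    apply hpos
    intro y
    rw [hker]
    exact pow_nonneg (ker_nonneg d x y).1 m
  -- the general integration formula
  have hint := fun (s : S d → ℝ) hs hs1 => mg_int_aux d hd1 φ c ν s hs hs1
  have hH := fun (s : S d → ℝ) hs hs1 => mg_H_aux d hd1 φ c m hφ s hs hs1
  have hHabs : ∀ (s : S d → ℝ) (hs : Measurable s) (hs1 : ∀ x, |s x| ≤ 1) (y : S d),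
      |(c⁻¹ • ∑ j, (∫ x, s x * φ j x ∂(sg d)) • φ j : C(S d, ℝ)) y| ≤ 1 := by
    intro s hs hs1 y
    rw [hH s hs hs1, abs_mul, abs_of_pos (inv_pos.2 hc)]
    have h1 : |∫ x, s x * u x y ^ m ∂(sg d)| ≤ c := by
      rw [← hcint' y]
      refine (norm_integral_le_integral_norm (μ := sg d) (fun x => s x * u x y ^ m)).trans ?_
      have hcont : Continuous (fun x : S d => u x y ^ m) :=
        ((ker_cont d).comp (continuous_id.prodMk continuous_const)).pow m
      apply integral_mono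
      · have := (mg_integrable_mul d hd1 s hs hs1 ⟨_, hcont⟩).norm
        exact this
      · exact mg_integrable d hd1 ⟨_, hcont⟩
      · intro x
        simp only [norm_mul, Real.norm_eq_abs]
        have h2 := pow_nonneg (ker_nonneg d x y).1 m
        rw [abs_of_nonneg h2]
        calc |s x| * u x y ^ m ≤ 1 * u x y ^ m := mul_le_mul_of_nonneg_right (hs1 x) h2
          _ = u x y ^ m := one_mul _
    calc c⁻¹ * |∫ x, s x * u x y ^ m ∂(sg d)| ≤ c⁻¹ * c :=
          mul_le_mul_of_nonneg_left h1 (inv_nonneg.2 hc.le)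
      _ = 1 := inv_mul_cancel₀ hc.ne'
  -- total mass one
  have hNint : ∫ x, N x ∂(sg d) = 1 := by
    have h1 := hint (fun _ => 1) measurable_const (fun x => by simp)
    have h2 : (c⁻¹ • ∑ j, (∫ x, (1 : ℝ) * φ j x ∂(sg d)) • φ j : C(S d, ℝ)) = 1 := by
      ext y
      rw [hH (fun _ => 1) measurable_const (fun x => by simp)]
      simp only [one_mul]
      rw [hcint', inv_mul_cancel₀ hc.ne']
      simp
    rw [h2, hν1] at h1
    rw [hN, ← h1]
    congr 1
    funext x
    rw [one_mul]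
  -- almost invariance
  have hinv : ∀ i, ∫ x, |N (rot (g i)⁻¹ x) - N x| ∂(sg d) ≤ ε₀ := by
    intro i
    obtain ⟨s, hsdef⟩ : ∃ s : S d → ℝ, s = fun x => if 0 ≤ N (rot (g i)⁻¹ x) - N x then 1 else -1 :=
      ⟨_, rfl⟩
    have hcd : Continuous (fun x => N (rot (g i)⁻¹ x) - N x) :=
      (N.continuous.comp (rot_continuous _)).sub N.continuous
    have hs : Measurable s := by
      rw [hsdef]
      exact Measurable.ite (measurableSet_le measurable_const hcd.measurable) measurable_const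
        measurable_const
    have hs1 : ∀ x, |s x| ≤ 1 := by
      intro x
      rw [hsdef]
      simp only
      split_ifs
      · simp
      · simp
    have h1 : ∀ x, |N (rot (g i)⁻¹ x) - N x| =
        s x * (c⁻¹ • ∑ j, mgComp ν (g i) (φ j) • φ j : C(S d, ℝ)) x -
          s x * (c⁻¹ • ∑ j, ν (φ j) • φ j : C(S d, ℝ)) x := by
      intro x
      have h2 : (c⁻¹ • ∑ j, mgComp ν (g i) (φ j) • φ j : C(S d, ℝ)) x = N (rot (g i)⁻¹ x) := by
        have h3 : (c⁻¹ • ∑ j, mgComp ν (g i) (φ j) • φ j : C(S d, ℝ)) x =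
            c⁻¹ * mgComp ν (g i) (∑ j, φ j x • φ j) := by
          rw [map_sum]
          simp only [map_smul, smul_eq_mul, ContinuousMap.smul_apply, ContinuousMap.coe_sum,
            Finset.sum_apply]
          congr 1
          apply Finset.sum_congr rfl
          intro j _
          ring
        rw [h3, hNx]
        congr 1
        show ν (cr (g i) (∑ j, φ j x • φ j)) = _
        congr 1
        ext y
        rw [cr_apply, hker, hker, ← ker_rot d (g i) (rot (g i)⁻¹ x) y, rot_rot_inv]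
      rw [h2, ← hN, ← mul_sub, hsdef]
      simp only
      split_ifs with h3
      · rw [abs_of_nonneg h3, one_mul]
      · rw [abs_of_neg (not_le.1 h3)]
        ring
    simp only [h1]
    rw [integral_sub (mg_integrable_mul d hd1 s hs hs1 _) (mg_integrable_mul d hd1 s hs hs1 _),
      hint s hs hs1, mg_int_aux d hd1 φ c (mgComp ν (g i)) s hs hs1]
    have h4 := hcon i (c⁻¹ • ∑ j, (∫ x, s x * φ j x ∂(sg d)) • φ j) (hHabs s hs hs1)
    rw [map_sub] at h4
    exact h4
  -- the square root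
  obtain ⟨ψ, hψ⟩ : ∃ ψ : C(S d, ℝ), ∀ x, ψ x = √(N x) :=
    ⟨⟨fun x => √(N x), Real.continuous_sqrt.comp N.continuous⟩, fun x => rfl⟩
  have hψ2 : ∀ x, ψ x ^ 2 = N x := fun x => by rw [hψ, Real.sq_sqrt (hN0 x)]
  have hψ0 : ∀ x, 0 ≤ ψ x := fun x => by rw [hψ]; exact Real.sqrt_nonneg _
  have hψint : ∫ x, ψ x ^ 2 ∂(sg d) = 1 := by
    simp only [hψ2]
    exact hNint
  have hdiff : ∀ i, ∫ x, (ψ (rot (g i) x) - ψ x) ^ 2 ∂(sg d) ≤ ε₀ := by
    intro i
    have hmp := rot_mp d hd1 (g i)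
    have hFc : Continuous (fun x => (ψ x - ψ (rot (g i)⁻¹ x)) ^ 2) :=
      (ψ.continuous.sub (ψ.continuous.comp (rot_continuous _))).pow 2
    have h1 : ∫ x, (ψ (rot (g i) x) - ψ x) ^ 2 ∂(sg d) =
        ∫ x, (ψ x - ψ (rot (g i)⁻¹ x)) ^ 2 ∂(sg d) := by
      conv_rhs => rw [← hmp.map_eq]
      rw [integral_map hmp.measurable.aemeasurable hFc.aestronglyMeasurable]
      congr 1
      funext x
      rw [rot_inv_rot]
    rw [h1]
    refine le_trans ?_ (hinv i)
    have hcd : Continuous (fun x => |N (rot (g i)⁻¹ x) - N x|) :=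
      ((N.continuous.comp (rot_continuous _)).sub N.continuous).abs
    have hFi : Integrable (fun x => (ψ x - ψ (rot (g i)⁻¹ x)) ^ 2) (sg d) :=
      mg_integrable d hd1 ⟨_, hFc⟩
    have hcdi : Integrable (fun x => |N (rot (g i)⁻¹ x) - N x|) (sg d) :=
      mg_integrable d hd1 ⟨_, hcd⟩
    apply integral_mono hFi hcdi
    intro x
    simp only
    rw [hψ, hψ, abs_sub_comm]
    exact mg_sqrt_aux (hN0 _) (hN0 _)
  -- spectral gap
  have hg := hgap ψ
  rw [hψint] at hg
  have hsum : ∑ i, ∫ x, (ψ (rot (g i) x) - ψ x) ^ 2 ∂(sg d) ≤ k * ε₀ := by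
    refine (Finset.sum_le_sum fun i _ => hdiff i).trans ?_
    rw [Finset.sum_const, Finset.card_univ, Fintype.card_fin, nsmul_eq_mul]
  obtain ⟨I, hI⟩ : ∃ I, I = ∫ x, ψ x ∂(sg d) := ⟨_, rfl⟩
  rw [← hI] at hg
  have hI0 : 0 ≤ I := by
    rw [hI]
    exact integral_nonneg hψ0
  have hψi := mg_integrable d hd1 ψ
  have hψ2i : Integrable (fun x => ψ x ^ 2) (sg d) :=
    mg_integrable d hd1 ⟨_, ψ.continuous.pow 2⟩
  have hminus : ∫ x, (ψ x - 1) ^ 2 ∂(sg d) = 2 - 2 * I := by
    have h1 : ∀ x, (ψ x - 1) ^ 2 = ψ x ^ 2 - 2 * ψ x + 1 := fun x => by ring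
    simp only [h1]
    have hi2 : Integrable (fun x => ψ x ^ 2 - 2 * ψ x) (sg d) := hψ2i.sub (hψi.const_mul 2)
    rw [integral_add hi2 (integrable_const _),
      integral_sub hψ2i (hψi.const_mul 2), integral_const_mul, hψint, ← hI]
    simp only [integral_const, probReal_univ, smul_eq_mul, mul_one]
    ring
  have hplus : ∫ x, (ψ x + 1) ^ 2 ∂(sg d) = 2 + 2 * I := by
    have h1 : ∀ x, (ψ x + 1) ^ 2 = ψ x ^ 2 + 2 * ψ x + 1 := fun x => by ring
    simp only [h1]
    have hi2 : Integrable (fun x => ψ x ^ 2 + 2 * ψ x) (sg d) := hψ2i.add (hψi.const_mul 2)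
    rw [integral_add hi2 (integrable_const _),
      integral_add hψ2i (hψi.const_mul 2), integral_const_mul, hψint, ← hI]
    simp only [integral_const, probReal_univ, smul_eq_mul, mul_one]
    ring
  have hI1 : I ≤ 1 := by
    have h1 : 0 ≤ ∫ x, (ψ x - 1) ^ 2 ∂(sg d) := integral_nonneg fun x => sq_nonneg _
    rw [hminus] at h1
    linarith
  have hI2 : 1 - I ≤ 1 / 512 := by
    have h1 : I ^ 2 ≤ I := by
      have := mul_le_mul_of_nonneg_left hI1 hI0
      rw [mul_one] at this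
      rw [sq]
      exact this
    have h2 : κ * (1 - I) ≤ κ * (1 - I ^ 2) := mul_le_mul_of_nonneg_left (by linarith) hκ.le
    have h3 : κ * (1 - I) ≤ κ * (1 / 512) := by linarith
    exact le_of_mul_le_mul_left h3 hκ
  have habs : ∫ x, |ψ x ^ 2 - 1| ∂(sg d) ≤ 1 / 8 := by
    have h1 : ∀ x, |ψ x ^ 2 - 1| ≤ 16 * (ψ x - 1) ^ 2 + (1 / 64) * (ψ x + 1) ^ 2 := by
      intro x
      have h2 : ψ x ^ 2 - 1 = (ψ x - 1) * (ψ x + 1) := by ring
      rw [h2, abs_le]
      have h3 := sq_nonneg (32 * (ψ x - 1) - (ψ x + 1))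
      have h4 := sq_nonneg (32 * (ψ x - 1) + (ψ x + 1))
      constructor
      · linarith
      · linarith
    have hc1 : Integrable (fun x => (ψ x - 1) ^ 2) (sg d) :=
      mg_integrable d hd1 ⟨_, (ψ.continuous.sub continuous_const).pow 2⟩
    have hc2 : Integrable (fun x => (ψ x + 1) ^ 2) (sg d) :=
      mg_integrable d hd1 ⟨_, (ψ.continuous.add continuous_const).pow 2⟩
    have hc3 : Integrable (fun x => |ψ x ^ 2 - 1|) (sg d) :=
      mg_integrable d hd1 ⟨_, ((ψ.continuous.pow 2).sub continuous_const).abs⟩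
    have h5 := integral_mono hc3 ((hc1.const_mul 16).add (hc2.const_mul (1 / 64))) h1
    simp only [Pi.add_apply] at h5
    rw [integral_add (hc1.const_mul 16) (hc2.const_mul (1 / 64)), integral_const_mul,
      integral_const_mul, hminus, hplus] at h5
    linarith
  -- upper bound
  have hup : ∫ x, phi x * N x ∂(sg d) ≤ 3 / 8 := by
    have h1 : ∀ x, phi x * N x ≤ phi x + |ψ x ^ 2 - 1| := by
      intro x
      rw [← hψ2]
      have h2 : phi x * ψ x ^ 2 = phi x + phi x * (ψ x ^ 2 - 1) := by ring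
      rw [h2]
      have h3 : phi x * (ψ x ^ 2 - 1) ≤ phi x * |ψ x ^ 2 - 1| :=
        mul_le_mul_of_nonneg_left (le_abs_self _) (hphi x).1
      have h4 : phi x * |ψ x ^ 2 - 1| ≤ 1 * |ψ x ^ 2 - 1| :=
        mul_le_mul_of_nonneg_right (hphi x).2 (abs_nonneg _)
      linarith
    have hc1 : Integrable (fun x => phi x * N x) (sg d) :=
      mg_integrable d hd1 ⟨_, phi.continuous.mul N.continuous⟩
    have hc2 : Integrable (fun x => phi x) (sg d) := mg_integrable d hd1 phi
    have hc3 : Integrable (fun x => |ψ x ^ 2 - 1|) (sg d) :=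
      mg_integrable d hd1 ⟨_, ((ψ.continuous.pow 2).sub continuous_const).abs⟩
    have h5 := integral_mono hc1 (hc2.add hc3) h1
    simp only [Pi.add_apply] at h5
    rw [integral_add hc2 hc3] at h5
    linarith
  -- lower bound
  have hlow : 3 / 4 ≤ ∫ x, phi x * N x ∂(sg d) := by
    have hpm : Measurable (fun x => phi x) := phi.continuous.measurable
    have h1 := hint (fun x => phi x) hpm hphiabs
    rw [← hN] at h1
    rw [h1]
    have h2 : 0 ≤ ν ((c⁻¹ • ∑ j, (∫ x, phi x * φ j x ∂(sg d)) • φ j) - (phi - (1 / 4 : ℝ) • 1)) := by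
      apply hpos
      intro y
      have h3 := hH (fun x => phi x) hpm hphiabs y
      rw [ContinuousMap.sub_apply, h3]
      have h4 := hm y
      rw [hcint y] at h4
      have h5 : ∫ x, phi x * u x y ^ m ∂(sg d) = ∫ x, u y x ^ m * phi x ∂(sg d) := by
        congr 1
        funext x
        rw [ker_sym d x y, mul_comm]
      rw [h5]
      have h6 := (abs_le.1 h4).1
      have h7 : c⁻¹ * (c * phi y - 1 / 4 * c) ≤ c⁻¹ * ∫ x, u y x ^ m * phi x ∂(sg d) :=
        mul_le_mul_of_nonneg_left (by linarith) (inv_nonneg.2 hc.le)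
      have h8 : c⁻¹ * (c * phi y - 1 / 4 * c) = phi y - 1 / 4 := by
        field_simp
      rw [h8] at h7
      have h9 : (phi - (1 / 4 : ℝ) • (1 : C(S d, ℝ))) y = phi y - 1 / 4 := by
        simp
      rw [h9]
      linarith
    have e1 : ν ((1 / 4 : ℝ) • (1 : C(S d, ℝ))) = 1 / 4 := by
      rw [map_smul, hν1, smul_eq_mul, mul_one]
    rw [map_sub, map_sub, hνphi, e1] at h2
    linarith
  linarith


end Pool.Agent.Helper557.Rz
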