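import Pool.Agent.Helper557.Rz.Base
import Pool.Agent.Helper557.Rz.FADefs
import Pool.Agent.Helper557.Rz.M_meas

set_option autoImplicit false

open MeasureTheory Set

namespace Pool.Agent.Helper557.Rz

theorem sph_intg (f : S 3 → ℝ) (hf : Continuous f) : Integrable f (sg 3) := by
  have := sg_prob 3 (by norm_num)
  exact hf.integrable_of_hasCompactSupport (HasCompactSupport.of_compactSpace f)

theorem sph_inner_cont (v : E 3) : Continuous fun x : S 3 => inner ℝ v (x : E 3) := by
  fun_prop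

theorem sph_exists_iso (b c : E 3) (hb : ‖b‖ = 1) (hc : ‖c‖ = 1) : ∃ g : Iso 3, g b = c := by
  refine ⟨(ℝ ∙ (b - c))ᗮ.reflection, ?_⟩
  exact Submodule.reflection_sub (by rw [hb, hc])

theorem sph_rot_int (g : Iso 3) (f : S 3 → ℝ) (hf : Continuous f) :
    ∫ x, f (rot g x) ∂(sg 3) = ∫ x, f x ∂(sg 3) := by
  have h := rot_mp 3 (by norm_num) g
  have h2 := integral_map (μ := sg 3) (φ := rot g) (f := f) h.measurable.aemeasurable
    hf.aestronglyMeasurable
  rw [h.map_eq] at h2
  exact h2.symm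

theorem sph_unit (n : ℕ) (b c : E 3) (hb : ‖b‖ = 1) (hc : ‖c‖ = 1) :
    ∫ x : S 3, (inner ℝ b (x : E 3)) ^ n ∂(sg 3) = ∫ x : S 3, (inner ℝ c (x : E 3)) ^ n ∂(sg 3) := by
  obtain ⟨g, rfl⟩ := sph_exists_iso b c hb hc
  rw [← sph_rot_int g (fun x => (inner ℝ (g b) (x : E 3)) ^ n) ((sph_inner_cont _).pow n)]
  refine integral_congr_ae (Filter.Eventually.of_forall fun x => ?_)
  simp only [rot_coe]
  rw [LinearIsometryEquiv.inner_map_map]

theorem sph_homog (n : ℕ) (b v : E 3) (hb : ‖b‖ = 1) :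
    ∫ x : S 3, (inner ℝ v (x : E 3)) ^ n ∂(sg 3) =
      ‖v‖ ^ n * ∫ x : S 3, (inner ℝ b (x : E 3)) ^ n ∂(sg 3) := by
  have := sg_prob 3 (by norm_num)
  rcases eq_or_ne v 0 with h | h
  · subst h
    rcases Nat.eq_zero_or_pos n with h0 | h0
    · subst h0; simp
    · simp [h0.ne']
  · have hv : ‖v‖ ≠ 0 := norm_ne_zero_iff.2 h
    have hu : ‖(‖v‖⁻¹ • v)‖ = 1 := by
      rw [norm_smul, norm_inv, norm_norm, inv_mul_cancel₀ hv]
    rw [sph_unit n b _ hb hu, ← integral_const_mul]
    refine integral_congr_ae (Filter.Eventually.of_forall fun x => ?_)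
    simp only
    rw [← mul_pow, real_inner_smul_left, ← mul_assoc, mul_inv_cancel₀ hv, one_mul]

/-- standard unit vector -/
noncomputable def sph_e (i : Fin 3) : E 3 := EuclideanSpace.single i 1

theorem sph_e_norm (i : Fin 3) : ‖sph_e i‖ = 1 := by
  simp [sph_e]

theorem sph_e_inner (i : Fin 3) (x : E 3) : inner ℝ (sph_e i) x = x i := by
  simp [sph_e, EuclideanSpace.inner_single_left]

theorem sph_mixed (k : ℕ) (hk : 1 ≤ k) (i j : Fin 3) (hij : i ≠ j) :
    ((2 * k - 1 : ℕ) : ℝ) * ∫ x : S 3, ((x : E 3) j) ^ 2 * ((x : E 3) i) ^ (2 * k - 2) ∂(sg 3) =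
      ∫ x : S 3, ((x : E 3) i) ^ (2 * k) ∂(sg 3) := by
  set J : ℝ := ∫ x : S 3, ((x : E 3) i) ^ (2 * k) ∂(sg 3) with hJ
  let M : ℕ → ℝ := fun m => ∫ x : S 3, ((x : E 3) j) ^ m * ((x : E 3) i) ^ (2 * k - m) ∂(sg 3)
  have hcoord : ∀ i : Fin 3, Continuous fun x : S 3 => (x : E 3) i := by
    intro i
    have := sph_inner_cont (sph_e i)
    simpa only [sph_e_inner] using this
  let P : Polynomial ℝ := ∑ m ∈ Finset.range (2 * k + 1),
    Polynomial.C (((2 * k).choose m : ℝ) * M m) * Polynomial.X ^ m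
  let Q : Polynomial ℝ := Polynomial.C J * (1 + Polynomial.X ^ 2) ^ k
  have hPQ : P = Q := by
    apply Polynomial.funext
    intro t
    have h1 := sph_homog (2 * k) (sph_e i) (t • sph_e j + sph_e i) (sph_e_norm i)
    have h2 : ‖t • sph_e j + sph_e i‖ ^ 2 = 1 + t ^ 2 := by
      have h3 : inner ℝ (sph_e j) (sph_e i) = 0 := by
        rw [sph_e_inner]
        simp [sph_e, hij.symm]
      rw [@norm_add_sq_real, norm_smul, real_inner_smul_left, h3, sph_e_norm, sph_e_norm, mul_one,
        Real.norm_eq_abs, sq_abs]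
      ring
    rw [pow_mul, h2] at h1
    simp only [sph_e_inner] at h1
    simp only [P, Q, Polynomial.eval_finset_sum, Polynomial.eval_mul, Polynomial.eval_C,
      Polynomial.eval_pow, Polynomial.eval_X, Polynomial.eval_add, Polynomial.eval_one]
    rw [mul_comm J, hJ, ← h1]
    have h4 : ∀ x : S 3, (inner ℝ (t • sph_e j + sph_e i) (x : E 3)) ^ (2 * k)
        = ∑ m ∈ Finset.range (2 * k + 1),
          (((2 * k).choose m : ℝ) * t ^ m) * (((x : E 3) j) ^ m * ((x : E 3) i) ^ (2 * k - m)) := by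
      intro x
      rw [inner_add_left, real_inner_smul_left, sph_e_inner, sph_e_inner, add_pow]
      refine Finset.sum_congr rfl fun m _ => ?_
      rw [mul_pow]
      ring
    simp only [h4]
    rw [integral_finset_sum]
    · refine Finset.sum_congr rfl fun m _ => ?_
      rw [integral_const_mul]
      simp only [M]
      ring
    · intro m _
      exact (sph_intg _ (((hcoord j).pow m).mul ((hcoord i).pow _))).const_mul _
  have hc : P.coeff 2 = Q.coeff 2 := by rw [hPQ]
  have hP2 : P.coeff 2 = ((2 * k).choose 2 : ℝ) * M 2 := by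
    simp only [P, Polynomial.finset_sum_coeff, Polynomial.coeff_C_mul, Polynomial.coeff_X_pow]
    rw [Finset.sum_eq_single 2]
    · simp
    · intro b _ hb
      simp [hb.symm]
    · intro h
      exfalso
      apply h
      rw [Finset.mem_range]
      omega
  have hQ2 : Q.coeff 2 = J * k := by
    simp only [Q, Polynomial.coeff_C_mul]
    congr 1
    have h5 : ((1 : Polynomial ℝ) + Polynomial.X ^ 2) ^ k
        = Polynomial.expand ℝ 2 ((1 + Polynomial.X) ^ k) := by
      simp
    rw [h5]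
    have h6 := Polynomial.coeff_expand_mul (R := ℝ) (p := 2) (by norm_num) ((1 + Polynomial.X) ^ k) 1
    rw [one_mul] at h6
    rw [h6, Polynomial.coeff_one_add_X_pow]
    simp
  rw [hP2, hQ2] at hc
  have h7 : ((2 * k).choose 2 : ℝ) = k * ((2 * k - 1 : ℕ) : ℝ) := by
    rw [Nat.choose_two_right]
    have h8 : 2 * k * (2 * k - 1) / 2 = k * (2 * k - 1) := by
      rw [mul_assoc, Nat.mul_div_cancel_left _ (by norm_num)]
    rw [h8]
    push_cast
    ring
  rw [h7] at hc
  have hk0 : (k : ℝ) ≠ 0 := by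
    have : k ≠ 0 := by omega
    exact_mod_cast this
  have h9 : (k : ℝ) * ((((2 * k - 1 : ℕ) : ℝ)) * M 2) = k * J := by
    rw [← mul_assoc, hc]; ring
  exact mul_left_cancel₀ hk0 h9

theorem sph_even (k : ℕ) : ∫ x : S 3, ((x : E 3) 0) ^ (2 * k) ∂(sg 3) = 1 / (2 * (k : ℝ) + 1) := by
  have := sg_prob 3 (by norm_num)
  have hcoord : ∀ i : Fin 3, Continuous fun x : S 3 => (x : E 3) i := by
    intro i
    have := sph_inner_cont (sph_e i)
    simpa only [sph_e_inner] using this
  induction k with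
  | zero => simp
  | succ k ih =>
    have h1 := sph_mixed (k + 1) (by omega) 0 1 (by decide)
    have h2 := sph_mixed (k + 1) (by omega) 0 2 (by decide)
    have e1 : 2 * (k + 1) - 1 = 2 * k + 1 := by omega
    have e2 : 2 * (k + 1) - 2 = 2 * k := by omega
    rw [e1, e2] at h1 h2
    set J := ∫ x : S 3, ((x : E 3) 0) ^ (2 * (k + 1)) ∂(sg 3) with hJ
    have h3 : ∫ x : S 3, ((x : E 3) 0) ^ (2 * k) ∂(sg 3) = J
        + ∫ x : S 3, ((x : E 3) 1) ^ 2 * ((x : E 3) 0) ^ (2 * k) ∂(sg 3)
        + ∫ x : S 3, ((x : E 3) 2) ^ 2 * ((x : E 3) 0) ^ (2 * k) ∂(sg 3) := by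
      rw [hJ, ← integral_add, ← integral_add]
      · refine integral_congr_ae (Filter.Eventually.of_forall fun x => ?_)
        have hx : ‖(x : E 3)‖ ^ 2 = 1 := by
          have : ‖(x : E 3)‖ = 1 := by simp
          rw [this]; norm_num
        rw [EuclideanSpace.norm_sq_eq, Fin.sum_univ_three] at hx
        simp only [Real.norm_eq_abs, sq_abs] at hx
        simp only
        calc ((x : E 3) 0) ^ (2 * k) = 1 * ((x : E 3) 0) ^ (2 * k) := (one_mul _).symm
          _ = _ := by
            rw [← hx]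
            ring
      · exact sph_intg _ (((hcoord 0).pow _).add (((hcoord 1).pow 2).mul ((hcoord 0).pow _)))
      · exact sph_intg _ (((hcoord 2).pow 2).mul ((hcoord 0).pow _))
      · exact sph_intg _ ((hcoord 0).pow _)
      · exact sph_intg _ (((hcoord 1).pow 2).mul ((hcoord 0).pow _))
    rw [ih] at h3
    push_cast at h1 h2 ⊢
    have hpos : (0 : ℝ) < 2 * k + 1 := by positivity
    have hpos3 : (0 : ℝ) < 2 * (k + 1) + 1 := by positivity
    rw [eq_div_iff hpos3.ne']
    have h4 : (2 * (k : ℝ) + 1) * (1 / (2 * k + 1)) = 1 := by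
      field_simp
    rw [h3] at h4
    linarith

theorem sph_pow (b : E 3) (hb : ‖b‖ = 1) (n : ℕ) :
    ∫ x : S 3, (inner ℝ b (x : E 3)) ^ n ∂(sg 3) = (1 / 2) * ∫ t in (-1 : ℝ)..1, t ^ n := by
  rw [integral_pow]
  rcases Nat.even_or_odd n with h | h
  · obtain ⟨k, rfl⟩ := h
    rw [← two_mul, sph_unit (2 * k) b (sph_e 0) hb (sph_e_norm 0)]
    simp only [sph_e_inner]
    rw [sph_even, one_pow, Odd.neg_one_pow ⟨k, rfl⟩]
    push_cast
    field_simp
    norm_num
  · have h1 : ∫ x : S 3, (inner ℝ b (x : E 3)) ^ n ∂(sg 3)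
        = - ∫ x : S 3, (inner ℝ b (x : E 3)) ^ n ∂(sg 3) := by
      conv_lhs => rw [sph_unit n b (-b) hb (by rwa [norm_neg])]
      rw [← integral_neg]
      refine integral_congr_ae (Filter.Eventually.of_forall fun x => ?_)
      simp only
      rw [inner_neg_left, h.neg_pow]
    have h2 : ∫ x : S 3, (inner ℝ b (x : E 3)) ^ n ∂(sg 3) = 0 := by linarith
    rw [h2]
    have h3 : (-1 : ℝ) ^ (n + 1) = 1 := Even.neg_one_pow (h.add_one)
    rw [h3, one_pow]
    simp

theorem sph_poly (b : S 3) (p : Polynomial ℝ) :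
    ∫ x : S 3, p.eval (inner ℝ (b : E 3) (x : E 3)) ∂(sg 3) =
      (1 / 2) * ∫ t in (-1 : ℝ)..1, p.eval t := by
  have hb : ‖(b : E 3)‖ = 1 := by simp
  induction p using Polynomial.induction_on' with
  | add p q hp hq =>
    simp only [Polynomial.eval_add]
    rw [integral_add, intervalIntegral.integral_add, hp, hq]
    · ring
    · exact (Polynomial.continuous p).intervalIntegrable _ _
    · exact (Polynomial.continuous q).intervalIntegrable _ _
    · exact sph_intg _ ((Polynomial.continuous p).comp (sph_inner_cont _))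
    · exact sph_intg _ ((Polynomial.continuous q).comp (sph_inner_cont _))
  | monomial n a =>
    simp only [Polynomial.eval_monomial]
    rw [integral_const_mul, intervalIntegral.integral_const_mul, sph_pow _ hb]
    ring



end Pool.Agent.Helper557.Rz
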