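import Mathlib

set_option autoImplicit false

open MeasureTheory Set


namespace Pool.Agent.Helper557.Rz

/-- Euclidean space of dimension `d`. -/
abbrev E (d : ℕ) := EuclideanSpace ℝ (Fin d)

/-- The unit sphere of `E d`. -/
abbrev S (d : ℕ) := Metric.sphere (0 : E d) 1

/-- Linear isometries of `E d`. -/
abbrev Iso (d : ℕ) := E d ≃ₗᵢ[ℝ] E d

/-- The action of a linear isometry on the sphere. -/
noncomputable def rot {d : ℕ} (g : Iso d) (x : S d) : S d := ⟨g x.1, by simp⟩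

/-- Normalised surface measure. -/
noncomputable def sg (d : ℕ) : Measure (S d) :=
  ((volume : Measure (E d)).toSphere Set.univ)⁻¹ • (volume : Measure (E d)).toSphere

@[simp] lemma rot_coe {d : ℕ} (g : Iso d) (x : S d) : (rot g x : E d) = g x.1 := rfl

lemma rot_continuous {d : ℕ} (g : Iso d) : Continuous (rot g) :=
  Continuous.subtype_mk (g.continuous.comp continuous_subtype_val) _

lemma rot_mul {d : ℕ} (g h : Iso d) (x : S d) : rot (g * h) x = rot g (rot h x) := rfl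

lemma rot_one {d : ℕ} (x : S d) : rot (1 : Iso d) x = x := rfl

lemma rot_inv_rot {d : ℕ} (g : Iso d) (x : S d) : rot g⁻¹ (rot g x) = x := by
  rw [← rot_mul, inv_mul_cancel, rot_one]

lemma rot_rot_inv {d : ℕ} (g : Iso d) (x : S d) : rot g (rot g⁻¹ x) = x := by
  rw [← rot_mul, mul_inv_cancel, rot_one]

/-- composition with a rotation -/
noncomputable def cr {d : ℕ} (g : Iso d) (f : C(S d, ℝ)) : C(S d, ℝ) :=
  f.comp ⟨rot g, rot_continuous g⟩

@[simp] lemma cr_apply {d : ℕ} (g : Iso d) (f : C(S d, ℝ)) (x : S d) : cr g f x = f (rot g x) := rfl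

/-- The kernel `(1 + <x, y>) / 2`. -/
noncomputable def u {d : ℕ} (x y : S d) : ℝ := (1 + inner ℝ (x : E d) (y : E d)) / 2

/-- `SGD d k g κ` : the family `g` has spectral gap `κ` on the sphere of `E d`. -/
def SGD (d k : ℕ) (g : Fin k → Iso d) (κ : ℝ) : Prop :=
  0 < κ ∧ ∀ ψ : C(S d, ℝ),
    κ * (∫ x, ψ x ^ 2 ∂(sg d) - (∫ x, ψ x ∂(sg d)) ^ 2) ≤
      ∑ i, ∫ x, (ψ (rot (g i) x) - ψ x) ^ 2 ∂(sg d)

/-- There is a finite family of rotations with a spectral gap. -/
def SG (d : ℕ) : Prop := ∃ (k : ℕ) (g : Fin k → Iso d) (κ : ℝ), SGD d k g κ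

end Pool.Agent.Helper557.Rz
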