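import Pool.Agent.Helper557.Rz.Base

set_option autoImplicit false

open MeasureTheory Set
open scoped Quaternion

namespace Pool.Agent.Helper557.Rz

/-- `N * int_0^1 (1 - s + s t^2)^(N-1) dt` -/
noncomputable def fN (N : ℕ) (s : ℝ) : ℝ := N * ∫ t in (0 : ℝ)..1, (1 - s + s * t ^ 2) ^ (N - 1)

/-- the kernel `N u^(N-1)` on the two-dimensional sphere -/
noncomputable def kk (N : ℕ) (x y : S 3) : ℝ := N * u x y ^ (N - 1)

/-- positive semidefinite kernels -/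
def PSDK (K : S 3 → S 3 → ℝ) : Prop :=
  ∀ (n : ℕ) (x : Fin n → S 3) (c : Fin n → ℝ), 0 ≤ ∑ i, ∑ j, c i * c j * K (x i) (x j)

/-- pure quaternion of a vector -/
noncomputable def imq (x : E 3) : ℍ[ℝ] := ⟨0, x 0, x 1, x 2⟩

/-- squared sine of the half angle of the rotation of a quaternion -/
noncomputable def sq (q : ℍ[ℝ]) : ℝ := (q.imI ^ 2 + q.imJ ^ 2 + q.imK ^ 2) / Quaternion.normSq q

/-- the six integral quaternions of norm 5; the conjugate of `al a` is `al (a + 3)` -/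
def al : Fin 6 → ℍ[ℤ] :=
  ![⟨1, 2, 0, 0⟩, ⟨1, 0, 2, 0⟩, ⟨1, 0, 0, 2⟩, ⟨1, -2, 0, 0⟩, ⟨1, 0, -2, 0⟩, ⟨1, 0, 0, -2⟩]

/-- reduced words of length `l` -/
def RW : ℕ → Finset (List (Fin 6))
  | 0 => {[]}
  | (l + 1) => ((Finset.univ ×ˢ RW l).filter
      (fun p : Fin 6 × List (Fin 6) => p.2.head? ≠ some (p.1 + 3))).image (fun p => p.1 :: p.2)

/-- the product of a word -/
def qw : List (Fin 6) → ℍ[ℤ]
  | [] => 1
  | (a :: v) => qw v * al a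

/-- squared norm of the imaginary part -/
def im2 (q : ℍ[ℤ]) : ℤ := q.imI ^ 2 + q.imJ ^ 2 + q.imK ^ 2

/-- integral quaternions as real quaternions -/
noncomputable def cz (q : ℍ[ℤ]) : ℍ[ℝ] := ⟨q.re, q.imI, q.imJ, q.imK⟩

lemma cz_mul (p q : ℍ[ℤ]) : cz (p * q) = cz p * cz q := by
  ext <;> simp [cz]

lemma cz_one : cz 1 = 1 := by
  ext <;> simp [cz]

lemma cz_star (q : ℍ[ℤ]) : cz (star q) = star (cz q) := by
  ext <;> simp [cz]

lemma cz_al_ne (a : Fin 6) : cz (al a) ≠ 0 := by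
  intro h
  have h1 := congrArg QuaternionAlgebra.re h
  fin_cases a <;> simp [cz, al] at h1

/-- the six quaternions as units -/
noncomputable def ua (a : Fin 6) : ℍ[ℝ]ˣ := Units.mk0 (cz (al a)) (cz_al_ne a)

/-- words as units -/
noncomputable def uw : List (Fin 6) → ℍ[ℝ]ˣ
  | [] => 1
  | (a :: v) => uw v * ua a

/-- eigenvalues of the spheres in the tree -/
noncomputable def lam (t : ℝ) : ℕ → ℝ
  | 0 => 1
  | 1 => t
  | 2 => t ^ 2 - 6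
  | (n + 3) => t * lam t (n + 2) - 5 * lam t (n + 1)

/-- sum over pairs of reduced words -/
noncomputable def PS (l : ℕ) (H : ℝ → ℝ) : ℝ :=
  ∑ w ∈ RW l, ∑ w' ∈ RW l, H ((im2 (qw w * star (qw w')) : ℝ) / 25 ^ l)

/-- integer points on the sphere of radius `5^k` in `R^4` -/
noncomputable def QQ (k : ℕ) : Finset (ℤ × ℤ × ℤ × ℤ) :=
  (Finset.Icc (-(5 : ℤ) ^ k) (5 ^ k) ×ˢ Finset.Icc (-(5 : ℤ) ^ k) (5 ^ k) ×ˢ
    Finset.Icc (-(5 : ℤ) ^ k) (5 ^ k) ×ˢ Finset.Icc (-(5 : ℤ) ^ k) (5 ^ k)).filter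
    (fun p => p.1 ^ 2 + p.2.1 ^ 2 + p.2.2.1 ^ 2 + p.2.2.2 ^ 2 = 25 ^ k)

/-- sum over the integer points -/
noncomputable def DK (k : ℕ) (H : ℝ → ℝ) : ℝ :=
  ∑ p ∈ QQ k, H (((p.2.1 ^ 2 + p.2.2.1 ^ 2 + p.2.2.2 ^ 2 : ℤ) : ℝ) / 25 ^ k)

/-- upper bound for the differences of the `fN` -/
noncomputable def BB (A N : ℝ) (s : ℝ) : ℝ :=
  if s ≤ 0 then A * N else min (A * N) ((3 / 2) / (N * s ^ 2))

/-- the operator with kernel `kk N` -/
noncomputable def MN (N : ℕ) (ψ : C(S 3, ℝ)) (x : S 3) : ℝ := ∫ y, kk N x y * ψ y ∂(sg 3)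

end Pool.Agent.Helper557.Rz
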