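import Pool.Agent.Helper557.Rz.Base
import Pool.Agent.Helper557.Rz.FADefs
import Pool.Agent.Helper557.Rz.M_meas

set_option autoImplicit false

open MeasureTheory Set

namespace Pool.Agent.Helper557.Rz

section HaarAux

variable {E' : Type} [NormedAddCommGroup E'] [InnerProductSpace ℝ E'] [CompleteSpace E']
  [FiniteDimensional ℝ E']

theorem haar_compactSpace_UG : CompactSpace (unitary (E' →L[ℝ] E')) := by
  have : ProperSpace (E' →L[ℝ] E') := FiniteDimensional.proper_real _
  have h : IsCompact ((unitary (E' →L[ℝ] E') : Submonoid (E' →L[ℝ] E')) : Set (E' →L[ℝ] E')) := by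
    refine Metric.isCompact_of_isClosed_isBounded isClosed_unitary ?_
    refine (Metric.isBounded_closedBall (x := (0 : E' →L[ℝ] E')) (r := 1)).subset ?_
    intro u hu
    rw [mem_closedBall_zero_iff]
    refine ContinuousLinearMap.opNorm_le_bound _ zero_le_one fun x => ?_
    rw [one_mul]
    exact (ContinuousLinearMap.norm_map_of_mem_unitary hu x).le
  exact isCompact_iff_compactSpace.mp h

theorem haar_secondCountable_UG : SecondCountableTopology (unitary (E' →L[ℝ] E')) := by
  have : ProperSpace (E' →L[ℝ] E') := FiniteDimensional.proper_real _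
  have : SecondCountableTopology (E' →L[ℝ] E') := inferInstance
  infer_instance

omit [CompleteSpace E'] in
theorem haar_exists_onb1 {n : ℕ} (hn : Module.finrank ℝ E' = n + 1) (a : E') (ha : ‖a‖ = 1) :
    ∃ b : OrthonormalBasis (Fin (n + 1)) ℝ E', b 0 = a := by
  have hv : Orthonormal ℝ (({0} : Set (Fin (n + 1))).domRestrict (fun _ => a)) := by
    rw [orthonormal_iff_ite]
    rintro ⟨i, hi⟩ ⟨j, hj⟩
    simp only [Set.mem_singleton_iff] at hi hj
    subst hi; subst hj
    simp [Set.domRestrict, ha]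
  obtain ⟨b, hb⟩ := hv.exists_orthonormalBasis_extension_of_card_eq (by simp [hn])
  exact ⟨b, by simpa using hb 0 (by simp)⟩

omit [FiniteDimensional ℝ E'] in
theorem haar_exists_UG {n : ℕ} (b c : OrthonormalBasis (Fin n) ℝ E') :
    ∃ g : unitary (E' →L[ℝ] E'), ∀ i, ((g : unitary (E' →L[ℝ] E')) : E' →L[ℝ] E') (b i) = c i := by
  refine ⟨Unitary.linearIsometryEquiv.symm (b.equiv c (Equiv.refl _)), fun i => ?_⟩
  rw [Unitary.coe_symm_linearIsometryEquiv_apply]
  simp

/-- the action on the sphere -/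
def haarRot (g : E' ≃ₗᵢ[ℝ] E') (x : Metric.sphere (0 : E') 1) : Metric.sphere (0 : E') 1 :=
  ⟨g x.1, by simp⟩

/-- the isometry attached to a unitary operator -/
noncomputable def haarG (Q : unitary (E' →L[ℝ] E')) : E' ≃ₗᵢ[ℝ] E' :=
  Unitary.linearIsometryEquiv Q⁻¹

omit [FiniteDimensional ℝ E'] in
theorem haarG_apply (Q : unitary (E' →L[ℝ] E')) (x : E') :
    haarG Q x = ((Q⁻¹ : unitary (E' →L[ℝ] E')) : E' →L[ℝ] E') x := rfl

omit [FiniteDimensional ℝ E'] in
theorem haarG_continuous :
    Continuous (fun p : unitary (E' →L[ℝ] E') × Metric.sphere (0 : E') 1 =>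
      haarRot (haarG p.1) p.2) := by
  refine Continuous.subtype_mk ?_ _
  simp only [haarG_apply]
  exact (continuous_subtype_val.comp (continuous_inv.comp continuous_fst)).clm_apply
    (continuous_subtype_val.comp continuous_snd)

theorem haar_gen [MeasurableSpace E'] [BorelSpace E'] {n : ℕ} (hfin : Module.finrank ℝ E' = n + 1)
    (σ : Measure (Metric.sphere (0 : E') 1)) [IsProbabilityMeasure σ]
    (hσ : ∀ g : E' ≃ₗᵢ[ℝ] E', MeasurePreserving (haarRot g) σ σ) :
    ∃ (Ω : Type) (_ : MeasurableSpace Ω) (P : Measure Ω)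
    (_ : IsProbabilityMeasure P) (G : Ω → (E' ≃ₗᵢ[ℝ] E')),
    Measurable (fun p : Ω × Metric.sphere (0 : E') 1 => haarRot (G p.1) p.2) ∧
    ∀ (x : Metric.sphere (0 : E') 1) (f : Metric.sphere (0 : E') 1 → ℝ), Measurable f →
      (∃ C, ∀ y, |f y| ≤ C) →
      ∫ ω, f (haarRot (G ω) x) ∂P = ∫ y, f y ∂σ := by
  classical
  have : CompactSpace (unitary (E' →L[ℝ] E')) := haar_compactSpace_UG
  have : SecondCountableTopology (unitary (E' →L[ℝ] E')) := haar_secondCountable_UG
  let _ : MeasurableSpace (unitary (E' →L[ℝ] E')) := borel _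
  have : BorelSpace (unitary (E' →L[ℝ] E')) := ⟨rfl⟩
  let P : Measure (unitary (E' →L[ℝ] E')) := Measure.haarMeasure ⊤
  have hP : IsProbabilityMeasure P := by
    refine ⟨?_⟩
    have h := Measure.haarMeasure_self
      (K₀ := (⊤ : TopologicalSpace.PositiveCompacts (unitary (E' →L[ℝ] E'))))
    simpa using h
  have hmeas : Measurable
      (fun p : unitary (E' →L[ℝ] E') × Metric.sphere (0 : E') 1 => haarRot (haarG p.1) p.2) :=
    haarG_continuous.measurable
  refine ⟨unitary (E' →L[ℝ] E'), inferInstance, P, hP, haarG, hmeas, ?_⟩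
  intro x f hf hC
  obtain ⟨C, hC⟩ := hC
  have hconst : ∀ y : Metric.sphere (0 : E') 1,
      ∫ Q, f (haarRot (haarG Q) y) ∂P = ∫ Q, f (haarRot (haarG Q) x) ∂P := by
    intro y
    obtain ⟨b, hb⟩ := haar_exists_onb1 hfin (x : E') (by simp)
    obtain ⟨c, hc⟩ := haar_exists_onb1 hfin (y : E') (by simp)
    obtain ⟨g, hg⟩ := haar_exists_UG c b
    have h0 := hg 0
    rw [hb, hc] at h0
    rw [← integral_mul_left_eq_self (μ := P) (fun Q => f (haarRot (haarG Q) y)) g⁻¹]
    refine integral_congr_ae (Filter.Eventually.of_forall fun Q => ?_)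
    have : haarRot (haarG (g⁻¹ * Q)) y = haarRot (haarG Q) x := by
      apply Subtype.ext
      simp only [haarRot, haarG_apply, mul_inv_rev, inv_inv, Submonoid.coe_mul,
        ContinuousLinearMap.mul_apply, h0]
    simp only [this]
  have hint : Integrable (fun p : unitary (E' →L[ℝ] E') × Metric.sphere (0 : E') 1 =>
      f (haarRot (haarG p.1) p.2)) (P.prod σ) := by
    refine Integrable.of_bound (C := C) (hf.comp hmeas).aestronglyMeasurable ?_
    exact Filter.Eventually.of_forall fun p => hC _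
  have hswap := integral_integral_swap (f := fun Q y => f (haarRot (haarG Q) y)) hint
  have hl : ∀ Q : unitary (E' →L[ℝ] E'),
      ∫ y, f (haarRot (haarG Q) y) ∂σ = ∫ y, f y ∂σ := by
    intro Q
    have h1 := hσ (haarG Q)
    have h2 : ∫ y, f y ∂(Measure.map (haarRot (haarG Q)) σ) =
        ∫ y, f (haarRot (haarG Q) y) ∂σ :=
      integral_map h1.measurable.aemeasurable hf.aestronglyMeasurable
    rw [← h2, h1.map_eq]
  simp only [hl, hconst] at hswap
  simpa using hswap.symm

end HaarAux


/-- Averaging over the orthogonal group: there is a probability space of random isometries, jointly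
measurable, whose orbit averages are the integrals for the surface measure. -/
theorem exists_haar (d : ℕ) (hd : 1 ≤ d) : ∃ (Ω : Type) (_ : MeasurableSpace Ω) (P : Measure Ω)
    (_ : IsProbabilityMeasure P) (G : Ω → Iso d),
    Measurable (fun p : Ω × S d => rot (G p.1) p.2) ∧
    ∀ (x : S d) (f : S d → ℝ), Measurable f → (∃ C, ∀ y, |f y| ≤ C) →
      ∫ ω, f (rot (G ω) x) ∂P = ∫ y, f y ∂(sg d) := by
  have := sg_prob d hd
  obtain ⟨n, rfl⟩ : ∃ n, d = n + 1 := ⟨d - 1, by omega⟩
  obtain ⟨Ω, mΩ, P, hP, G, h1, h2⟩ := haar_gen (E' := E (n + 1)) (n := n) (by simp) (sg (n + 1))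
    (fun g => rot_mp (n + 1) hd g)
  exact ⟨Ω, mΩ, P, hP, G, h1, h2⟩



end Pool.Agent.Helper557.Rz
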