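import Pool.Agent.Helper557.Rz.Base
import Pool.Agent.Helper557.Rz.FADefs
import Pool.Agent.Helper557.Rz.M_haar
import Pool.Agent.Helper557.Rz.M_meas

set_option autoImplicit false

open MeasureTheory Set

namespace Pool.Agent.Helper557.Rz

theorem sg_unique (d : ℕ) (hd : 1 ≤ d) (ν : Measure (S d)) [IsProbabilityMeasure ν]
    (h : ∀ g : Iso d, ν.map (rot g) = ν) : ν = sg d := by
  obtain ⟨Ω, _, P, _, G, hG, hav⟩ := exists_haar d hd
  haveI := sg_prob d hd
  ext A hA
  have key : ν.real A = (sg d).real A := by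
    set f : S d → ℝ := A.indicator (fun _ => (1:ℝ)) with hf
    have hfm : Measurable f := measurable_const.indicator hA
    have hfb : ∀ y, |f y| ≤ 1 := by
      intro y
      by_cases hy : y ∈ A <;> simp [hf, hy]
    have h1 : ∀ x, ∫ ω, f (rot (G ω) x) ∂P = (sg d).real A := by
      intro x
      rw [hav x f hfm ⟨1, hfb⟩, hf, integral_indicator_const _ hA]
      simp
    have h2 : ∀ ω, ∫ x, f (rot (G ω) x) ∂ν = ν.real A := by
      intro ω
      have h3 : ∫ x, f (rot (G ω) x) ∂ν = ∫ y, f y ∂(ν.map (rot (G ω))) :=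
        (integral_map (rot_continuous _).measurable.aemeasurable
          hfm.aestronglyMeasurable).symm
      rw [h3, h, hf, integral_indicator_const _ hA]
      simp
    have hint : Integrable (Function.uncurry fun (ω : Ω) (x : S d) => f (rot (G ω) x))
        (P.prod ν) := by
      refine Integrable.mono' (integrable_const (1:ℝ)) ((hfm.comp hG).aestronglyMeasurable)
        (Filter.Eventually.of_forall ?_)
      rintro ⟨ω, x⟩
      simpa [Function.uncurry] using hfb (rot (G ω) x)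
    have h3 := integral_integral_swap hint
    simp only [h1, h2] at h3
    simpa using h3
  have e1 : ν A = ENNReal.ofReal (ν.real A) := by
    rw [Measure.real, ENNReal.ofReal_toReal (measure_ne_top _ _)]
  have e2 : (sg d) A = ENNReal.ofReal ((sg d).real A) := by
    rw [Measure.real, ENNReal.ofReal_toReal (measure_ne_top _ _)]
  rw [e1, e2, key]

theorem avg_bound (d : ℕ) (hd : 1 ≤ d) (ψ : C(S d, ℝ)) (δ : ℝ)
    (h : ∀ g : Iso d, ∫ x, (ψ (rot g x) - ψ x) ^ 2 ∂(sg d) ≤ δ) :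
    2 * (∫ x, ψ x ^ 2 ∂(sg d) - (∫ x, ψ x ∂(sg d)) ^ 2) ≤ δ := by
  obtain ⟨Ω, _, P, _, G, hG, hav⟩ := exists_haar d hd
  haveI := sg_prob d hd
  have hC : ∀ y, |ψ y| ≤ ‖ψ‖ := fun y => by
    simpa using ψ.norm_coe_le_norm y
  have hψm : Measurable (fun x => ψ x) := ψ.continuous.measurable
  have bint : ∀ (f : S d → ℝ), Measurable f → (∃ C, ∀ y, |f y| ≤ C) → Integrable f (sg d) := by
    intro f hf ⟨C, hC⟩
    exact Integrable.mono' (integrable_const C) hf.aestronglyMeasurable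
      (Filter.Eventually.of_forall fun x => by simpa using hC x)
  have i1 : Integrable (fun x => ψ x ^ 2) (sg d) := bint _ (hψm.pow_const 2) ⟨‖ψ‖ ^ 2, fun y => by
    rw [abs_pow]; exact pow_le_pow_left₀ (abs_nonneg _) (hC y) 2⟩
  have i2 : ∀ g : Iso d, Integrable (fun x => ψ (rot g x) ^ 2) (sg d) := fun g =>
    bint _ ((hψm.comp (rot_continuous g).measurable).pow_const 2) ⟨‖ψ‖ ^ 2, fun y => by
      rw [abs_pow]; exact pow_le_pow_left₀ (abs_nonneg _) (hC _) 2⟩
  have i3 : ∀ g : Iso d, Integrable (fun x => ψ (rot g x) * ψ x) (sg d) := fun g =>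
    bint _ ((hψm.comp (rot_continuous g).measurable).mul hψm) ⟨‖ψ‖ * ‖ψ‖, fun y => by
      rw [abs_mul]; exact mul_le_mul (hC _) (hC _) (abs_nonneg _) (norm_nonneg _)⟩
  have hsq : ∀ g : Iso d, ∫ x, ψ (rot g x) ^ 2 ∂(sg d) = ∫ x, ψ x ^ 2 ∂(sg d) := by
    intro g
    have hm := rot_mp d hd g
    have h3 : ∫ x, ψ (rot g x) ^ 2 ∂(sg d) = ∫ y, ψ y ^ 2 ∂((sg d).map (rot g)) :=
      (integral_map (rot_continuous g).measurable.aemeasurable
        ((hψm.pow_const 2).aestronglyMeasurable)).symm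
    rw [h3, hm.map_eq]
  have hg : ∀ g : Iso d, 2 * ∫ x, ψ x ^ 2 ∂(sg d) - 2 * ∫ x, ψ (rot g x) * ψ x ∂(sg d) ≤ δ := by
    intro g
    have h4 : ∫ x, (ψ (rot g x) - ψ x) ^ 2 ∂(sg d)
        = 2 * ∫ x, ψ x ^ 2 ∂(sg d) - 2 * ∫ x, ψ (rot g x) * ψ x ∂(sg d) := by
      have h5 : (fun x => (ψ (rot g x) - ψ x) ^ 2)
          = fun x => (ψ (rot g x) ^ 2 + ψ x ^ 2) - 2 * (ψ (rot g x) * ψ x) := by
        funext x; ring
      have i12 : Integrable (fun x => ψ (rot g x) ^ 2 + ψ x ^ 2) (sg d) := (i2 g).add i1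
      rw [h5, integral_sub i12 ((i3 g).const_mul 2), integral_add (i2 g) i1,
        integral_const_mul, hsq g]
      ring
    rw [← h4]
    exact h g
  have hint : Integrable (Function.uncurry fun (ω : Ω) (x : S d) => ψ (rot (G ω) x) * ψ x)
      (P.prod (sg d)) := by
    have hm : Measurable (Function.uncurry fun (ω : Ω) (x : S d) => ψ (rot (G ω) x) * ψ x) :=
      (hψm.comp hG).mul (hψm.comp measurable_snd)
    refine Integrable.mono' (integrable_const (‖ψ‖ * ‖ψ‖)) hm.aestronglyMeasurable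
      (Filter.Eventually.of_forall ?_)
    rintro ⟨ω, x⟩
    simp only [Function.uncurry, Real.norm_eq_abs]
    rw [abs_mul]; exact mul_le_mul (hC _) (hC _) (abs_nonneg _) (norm_nonneg _)
  have hsw : ∫ ω, (∫ x, ψ (rot (G ω) x) * ψ x ∂(sg d)) ∂P = (∫ x, ψ x ∂(sg d)) ^ 2 := by
    rw [integral_integral_swap hint]
    have h6 : ∀ x : S d, ∫ ω, ψ (rot (G ω) x) * ψ x ∂P = (∫ y, ψ y ∂(sg d)) * ψ x := by
      intro x
      rw [integral_mul_const, hav x (fun y => ψ y) hψm ⟨‖ψ‖, hC⟩]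
    simp only [h6]
    rw [integral_const_mul]
    ring
  have hiP : Integrable (fun ω => ∫ x, ψ (rot (G ω) x) * ψ x ∂(sg d)) P :=
    hint.integral_prod_left
  have h7 : ∫ ω, (2 * ∫ x, ψ x ^ 2 ∂(sg d) - 2 * ∫ x, ψ (rot (G ω) x) * ψ x ∂(sg d)) ∂P
      ≤ ∫ _ω : Ω, δ ∂P :=
    integral_mono ((integrable_const _).sub (hiP.const_mul 2)) (integrable_const _)
      (fun ω => hg (G ω))
  have h8 : ∫ ω, 2 * (∫ x, ψ (rot (G ω) x) * ψ x ∂(sg d)) ∂P = 2 * (∫ x, ψ x ∂(sg d)) ^ 2 := by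
    rw [integral_const_mul, hsw]
  rw [integral_sub (integrable_const _) (hiP.const_mul 2), h8] at h7
  simp only [integral_const, smul_eq_mul, probReal_univ, one_mul] at h7
  linarith


end Pool.Agent.Helper557.Rz
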