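import Pool.Agent.Helper557.Rz.Base
import Pool.Agent.Helper557.Rz.FADefs
import Pool.Agent.Helper557.Rz.M_avg
import Pool.Agent.Helper557.Rz.M_meas

set_option autoImplicit false

open MeasureTheory Set

namespace Pool.Agent.Helper557.Rz

theorem eq_of_small (d : ℕ) (hd : 1 ≤ d) (m : Set (S d) → ℝ) (hm : IsFA d m)
    (h : ∀ ε : ℝ, 0 < ε → ∃ η : ℝ, 0 < η ∧ ∀ U : Set (S d), IsOpen U →
      sg d U ≤ ENNReal.ofReal η → m U ≤ ε) (A : Set (S d)) (hA : MeasurableSet A) :
    m A = (sg d A).toReal := by
  have hprob := sg_prob d hd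
  have hm0 : m ∅ = 0 := by
    have := hm.add ∅ ∅ MeasurableSet.empty MeasurableSet.empty (by simp)
    rw [union_empty] at this
    linarith
  have hmono : ∀ A B : Set (S d), MeasurableSet A → MeasurableSet B → A ⊆ B → m A ≤ m B := by
    intro A B hA hB hAB
    have h1 := hm.add A (B \ A) hA (hB.diff hA) disjoint_sdiff_right
    rw [union_diff_cancel hAB] at h1
    have h2 := hm.nonneg (B \ A) (hB.diff hA)
    linarith
  have hsmall : ∀ ε : ℝ, 0 < ε → ∃ η : ℝ, 0 < η ∧ ∀ B : Set (S d), MeasurableSet B →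
      sg d B < ENNReal.ofReal η → m B ≤ ε := by
    intro ε hε
    obtain ⟨η, hη, hU⟩ := h ε hε
    refine ⟨η, hη, fun B hB hlt => ?_⟩
    obtain ⟨U, hBU, hUo, hUlt⟩ := B.exists_isOpen_lt_of_lt _ hlt
    exact (hmono B U hB hUo.measurableSet hBU).trans (hU U hUo hUlt.le)
  have hcnt : ∀ f : ℕ → Set (S d), (∀ i, MeasurableSet (f i)) →
      Pairwise (Function.onFun Disjoint f) → HasSum (fun i => m (f i)) (m (⋃ i, f i)) := by
    intro f hf hdis
    set P : ℕ → Set (S d) := fun N => ⋃ i ∈ Finset.range N, f i with hP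
    have hPm : ∀ N, MeasurableSet (P N) := fun N =>
      Finset.measurableSet_biUnion _ fun i _ => hf i
    have hUm : MeasurableSet (⋃ i, f i) := MeasurableSet.iUnion hf
    have hPs : ∀ N, P (N + 1) = P N ∪ f N := by
      intro N
      simp only [hP]
      rw [Finset.range_add_one, Finset.set_biUnion_insert, union_comm]
    have hsum : ∀ N, m (P N) = ∑ i ∈ Finset.range N, m (f i) := by
      intro N
      induction N with
      | zero => simp [hP, hm0]
      | succ N ih =>
        rw [hPs, hm.add _ _ (hPm N) (hf N), ih, Finset.sum_range_succ]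
        simp only [hP]
        rw [Set.disjoint_left]
        intro x hx hxN
        simp only [mem_iUnion, Finset.mem_range] at hx
        obtain ⟨i, hi, hxi⟩ := hx
        exact Set.disjoint_left.1 (hdis hi.ne) hxi hxN
    have hPU : ∀ N, P N ⊆ ⋃ i, f i := fun N => iUnion₂_subset fun i _ => subset_iUnion f i
    set B : ℕ → Set (S d) := fun N => (⋃ i, f i) \ P N with hB
    have hBm : ∀ N, MeasurableSet (B N) := fun N => hUm.diff (hPm N)
    have hsplit : ∀ N, m (⋃ i, f i) = m (P N) + m (B N) := by
      intro N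
      rw [← hm.add _ _ (hPm N) (hBm N) disjoint_sdiff_right, union_diff_cancel (hPU N)]
    have hanti : Antitone B := by
      intro N M hNM
      refine diff_subset_diff_right ?_
      exact iUnion₂_subset fun i hi => subset_iUnion₂ (s := fun i (_ : i ∈ Finset.range M) => f i) i
        (Finset.mem_range.2 ((Finset.mem_range.1 hi).trans_le hNM))
    have hinter : ⋂ N, B N = ∅ := by
      rw [Set.eq_empty_iff_forall_notMem]
      intro x hx
      have h0 := mem_iInter.1 hx 0
      obtain ⟨i, hi⟩ := mem_iUnion.1 h0.1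
      exact (mem_iInter.1 hx (i + 1)).2 (mem_iUnion₂.2 ⟨i, Finset.mem_range.2 (Nat.lt_succ_self i), hi⟩)
    have hlim : Filter.Tendsto (fun N => sg d (B N)) Filter.atTop (nhds 0) := by
      have := tendsto_measure_iInter_atTop (μ := sg d) (s := B)
        (fun N => (hBm N).nullMeasurableSet) hanti ⟨0, measure_ne_top _ _⟩
      rw [hinter, measure_empty] at this
      exact this
    have hmB : Filter.Tendsto (fun N => m (B N)) Filter.atTop (nhds 0) := by
      rw [Metric.tendsto_atTop]
      intro ε hε
      obtain ⟨η, hη, hs⟩ := hsmall (ε / 2) (by positivity)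
      have hev := hlim.eventually_lt_const (ENNReal.ofReal_pos.2 hη)
      obtain ⟨N0, hN0⟩ := Filter.eventually_atTop.1 hev
      refine ⟨N0, fun N hN => ?_⟩
      have h1 := hs (B N) (hBm N) (hN0 N hN)
      have h2 := hm.nonneg (B N) (hBm N)
      rw [Real.dist_eq, sub_zero, abs_of_nonneg h2]
      linarith
    rw [hasSum_iff_tendsto_nat_of_nonneg (fun i => hm.nonneg _ (hf i))]
    have h3 : (fun N => ∑ i ∈ Finset.range N, m (f i)) = fun N => m (⋃ i, f i) - m (B N) := by
      funext N
      rw [← hsum, hsplit N]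
      ring
    rw [h3]
    simpa using (tendsto_const_nhds (x := m (⋃ i, f i))).sub hmB
  set ν : Measure (S d) := Measure.ofMeasurable (fun A _ => ENNReal.ofReal (m A))
    (by simp [hm0]) (by
      intro f hf hdis
      have h1 := hcnt f hf hdis
      show ENNReal.ofReal (m (⋃ i, f i)) = ∑' i, ENNReal.ofReal (m (f i))
      rw [← h1.tsum_eq, ENNReal.ofReal_tsum_of_nonneg (fun i => hm.nonneg _ (hf i)) h1.summable])
    with hν
  have hνa : ∀ A : Set (S d), MeasurableSet A → ν A = ENNReal.ofReal (m A) := fun A hA =>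
    Measure.ofMeasurable_apply A hA
  have hνp : IsProbabilityMeasure ν := ⟨by rw [hνa _ MeasurableSet.univ, hm.univ]; simp⟩
  have hνi : ∀ g : Iso d, ν.map (rot g) = ν := by
    intro g
    refine Measure.ext fun A hA => ?_
    have hmeas : Measurable (rot g) := (rot_continuous g).measurable
    rw [Measure.map_apply hmeas hA, hνa _ (hmeas hA), hνa _ hA, hm.inv g A hA]
  have hfin := sg_unique d hd ν hνi
  rw [← hfin, hνa A hA, ENNReal.toReal_ofReal (hm.nonneg A hA)]


end Pool.Agent.Helper557.Rz
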