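import Pool.Agent.Helper557.Rz.Base
import Pool.Agent.Helper557.Rz.Blk
import Pool.Agent.Helper557.Rz.FADefs

set_option autoImplicit false

open MeasureTheory Set

namespace Pool.Agent.Helper557.Rz

/-- products of at most `n` blocks -/
def GN {d : ℕ} (B : (Fin 3 ↪ Fin d) → Iso 3 →* Iso d) (n : ℕ) (g : Iso d) : Prop :=
  ∃ L : List ((Fin 3 ↪ Fin d) × Iso 3), L.length ≤ n ∧ g = (L.map (fun p => B p.1 p.2)).prod

lemma iso_mul_apply {d : ℕ} (g h : Iso d) (x : E d) : (g * h) x = g (h x) := rfl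

lemma iso_one_apply {d : ℕ} (x : E d) : (1 : Iso d) x = x := rfl

lemma GN_one {d : ℕ} (B : (Fin 3 ↪ Fin d) → Iso 3 →* Iso d) (n : ℕ) : GN B n 1 :=
  ⟨[], by simp, by simp⟩

lemma GN_mono {d : ℕ} (B : (Fin 3 ↪ Fin d) → Iso 3 →* Iso d) {n m : ℕ} (h : n ≤ m) {g : Iso d}
    (hg : GN B n g) : GN B m g := by
  obtain ⟨L, hL, rfl⟩ := hg
  exact ⟨L, hL.trans h, rfl⟩

lemma GN_block {d : ℕ} (B : (Fin 3 ↪ Fin d) → Iso 3 →* Iso d) (e : Fin 3 ↪ Fin d) (h : Iso 3) :
    GN B 1 (B e h) := ⟨[(e, h)], by simp, by simp⟩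

lemma GN_mul {d : ℕ} (B : (Fin 3 ↪ Fin d) → Iso 3 →* Iso d) {n m : ℕ} {g h : Iso d}
    (hg : GN B n g) (hh : GN B m h) : GN B (n + m) (g * h) := by
  obtain ⟨L, hL, rfl⟩ := hg
  obtain ⟨M, hM, rfl⟩ := hh
  refine ⟨L ++ M, ?_, by simp⟩
  rw [List.length_append]
  omega

lemma GN_inv {d : ℕ} (B : (Fin 3 ↪ Fin d) → Iso 3 →* Iso d) {n : ℕ} {g : Iso d}
    (hg : GN B n g) : GN B n g⁻¹ := by
  obtain ⟨L, hL, rfl⟩ := hg
  refine ⟨(L.map (fun p => (p.1, p.2⁻¹))).reverse, by simpa using hL, ?_⟩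
  rw [List.prod_inv_reverse, List.map_reverse, List.map_map, List.map_map]
  congr 2
  apply List.map_congr_left
  intro p _
  simp

lemma GN_list {d : ℕ} (B : (Fin 3 ↪ Fin d) → Iso 3 →* Iso d) {m : ℕ} (f : E d → Iso d)
    (hf : ∀ v, GN B m (f v)) (l : List (E d)) : GN B (l.length * m) ((l.map f).prod) := by
  induction l with
  | nil => simpa using GN_one B 0
  | cons a l ih =>
    rw [List.map_cons, List.prod_cons, List.length_cons]
    have := GN_mul B (hf a) ih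
    refine GN_mono B ?_ this
    apply le_of_eq
    ring

lemma refl_formula {d : ℕ} (v x : E d) :
    Submodule.reflection (ℝ ∙ v)ᗮ x = x - (2 * (inner ℝ v x / ‖v‖ ^ 2)) • v := by
  rw [Submodule.reflection_orthogonal_apply, Submodule.reflection_singleton_apply]
  have : (2 : ℕ) • (inner ℝ v x / ((‖v‖ : ℝ) ^ 2)) • v = (2 * (inner ℝ v x / ‖v‖ ^ 2)) • v := by
    rw [two_smul, ← add_smul]
    congr 1
    ring
  have h2 : ((‖v‖ : ℝ) : ℝ) = ‖v‖ := rfl
  rw [neg_sub]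
  congr 1

lemma exists_emb (d : ℕ) (hd : 3 ≤ d) (o j : Fin d) (hj : j ≠ o) :
    ∃ e : Fin 3 ↪ Fin d, e 0 = o ∧ e 1 = j := by
  classical
  have : ∃ k : Fin d, k ∉ ({o, j} : Finset (Fin d)) := by
    by_contra hcon
    push Not at hcon
    have h1 : (Finset.univ : Finset (Fin d)) ⊆ {o, j} := fun k _ => hcon k
    have h2 := Finset.card_le_card h1
    have h3 : ({o, j} : Finset (Fin d)).card ≤ 2 := Finset.card_le_two
    rw [Finset.card_univ, Fintype.card_fin] at h2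
    omega
  obtain ⟨k, hk⟩ := this
  simp only [Finset.mem_insert, Finset.mem_singleton, not_or] at hk
  refine ⟨⟨![o, j, k], ?_⟩, rfl, rfl⟩
  intro a b hab
  fin_cases a <;> fin_cases b <;> simp_all [eq_comm]

lemma step_zero (d : ℕ) (hd : 3 ≤ d) (B : (Fin 3 ↪ Fin d) → Iso 3 →* Iso d)
    (hB : ∀ (e : Fin 3 ↪ Fin d) (h : Iso 3) (x : E d), B e h x = setB e x (h (pr e x)))
    (o : Fin d) (x : E d) (j : Fin d) (hj : j ≠ o) :
    ∃ g, GN B 1 g ∧ (g x) j = 0 ∧ ∀ k, k ≠ o → k ≠ j → (g x) k = x k := by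
  obtain ⟨e, he0, he1⟩ := exists_emb d hd o j hj
  set w := pr e x with hw
  let w' : E 3 := WithLp.toLp 2 ![Real.sqrt (w 0 ^ 2 + w 1 ^ 2), 0, w 2]
  have hn : ‖w‖ = ‖w'‖ := by
    rw [EuclideanSpace.norm_eq, EuclideanSpace.norm_eq]
    congr 1
    simp only [Fin.sum_univ_three, w', Real.norm_eq_abs, sq_abs]
    simp
    rw [Real.sq_sqrt (by positivity)]
  refine ⟨B e (Submodule.reflection (ℝ ∙ (w - w'))ᗮ), GN_block B e _, ?_, ?_⟩
  · rw [hB, ← hw, Submodule.reflection_sub hn, ← he1, setB_mem]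
    rfl
  · intro k hk0 hkj
    rw [hB, ← hw, Submodule.reflection_sub hn]
    by_cases hk : k ∈ Set.range e
    · obtain ⟨i, rfl⟩ := hk
      rw [setB_mem]
      have hi : i = 2 := by
        fin_cases i
        · exact absurd he0 hk0
        · exact absurd he1 hkj
        · rfl
      subst hi
      rfl
    · rw [setB_notMem _ _ _ _ hk]

lemma make_zero (d : ℕ) (hd : 3 ≤ d) (B : (Fin 3 ↪ Fin d) → Iso 3 →* Iso d)
    (hB : ∀ (e : Fin 3 ↪ Fin d) (h : Iso 3) (x : E d), B e h x = setB e x (h (pr e x)))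
    (o : Fin d) (x : E d) (s : Finset (Fin d)) (hs : o ∉ s) :
    ∃ g, GN B s.card g ∧ ∀ k ∈ s, (g x) k = 0 := by
  classical
  induction s using Finset.induction_on with
  | empty => exact ⟨1, GN_one B _, by simp⟩
  | insert j s hj ih =>
    rw [Finset.mem_insert, not_or] at hs
    obtain ⟨g, hg, hgs⟩ := ih hs.2
    obtain ⟨h, hh, hhj, hhk⟩ := step_zero d hd B hB o (g x) j (Ne.symm hs.1)
    refine ⟨h * g, ?_, ?_⟩
    · rw [Finset.card_insert_of_notMem hj, add_comm]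
      exact GN_mul B hh hg
    · intro k hk
      rw [iso_mul_apply]
      rw [Finset.mem_insert] at hk
      by_cases hkj : k = j
      · rw [hkj]; exact hhj
      · have hks : k ∈ s := by tauto
        have hko : k ≠ o := fun h => hs.2 (h ▸ hks)
        rw [hhk k hko hkj]
        exact hgs k hks

lemma refl_block (d : ℕ) (hd : 3 ≤ d) (B : (Fin 3 ↪ Fin d) → Iso 3 →* Iso d)
    (hB : ∀ (e : Fin 3 ↪ Fin d) (h : Iso 3) (x : E d), B e h x = setB e x (h (pr e x)))
    (o : Fin d) (y : E d) (hy : ∀ k, k ≠ o → y k = 0) :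
    GN B 1 (Submodule.reflection (ℝ ∙ y)ᗮ) := by
  classical
  have : ∃ j : Fin d, j ≠ o := by
    have : Nontrivial (Fin d) := Fin.nontrivial_iff_two_le.mpr (by omega)
    exact exists_ne o
  obtain ⟨j, hj⟩ := this
  obtain ⟨e, he0, he1⟩ := exists_emb d hd o j hj
  have hei : ∀ i, i ≠ 0 → e i ≠ o := by
    intro i hi h
    apply hi
    apply e.injective
    rw [h, he0]
  have h1 : ∀ x : E d, inner ℝ y x = y o * x o := by
    intro x
    rw [PiLp.inner_apply, Finset.sum_eq_single o]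
    · simp [mul_comm]
    · intro b _ hb
      simp [hy b hb]
    · simp
  have h2 : ∀ x : E d, inner ℝ (pr e y) (pr e x) = y o * x o := by
    intro x
    rw [PiLp.inner_apply, Finset.sum_eq_single 0]
    · simp [pr_apply, he0, mul_comm]
    · intro b _ hb
      simp [pr_apply, hy _ (hei b hb)]
    · simp
  have h3 : ‖pr e y‖ ^ 2 = ‖y‖ ^ 2 := by
    rw [← real_inner_self_eq_norm_sq, ← real_inner_self_eq_norm_sq, h1, h2]
  have h4 : Submodule.reflection (ℝ ∙ y)ᗮ = B e (Submodule.reflection (ℝ ∙ (pr e y))ᗮ) := by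
    ext x k
    rw [hB, refl_formula, refl_formula, h3, h1, h2]
    by_cases hk : k ∈ Set.range e
    · obtain ⟨i, rfl⟩ := hk
      rw [setB_mem]
      simp [pr_apply]
    · rw [setB_notMem _ _ _ _ hk]
      have hk0 : k ≠ o := by
        rintro rfl
        exact hk ⟨0, he0⟩
      simp [hy k hk0]
  rw [h4]
  exact GN_block B e _

lemma refl_conj {d : ℕ} (h : Iso d) (v : E d) :
    Submodule.reflection (ℝ ∙ v)ᗮ = h⁻¹ * Submodule.reflection (ℝ ∙ (h v))ᗮ * h := by
  ext1 x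
  rw [iso_mul_apply, iso_mul_apply, refl_formula, refl_formula,
    h.norm_map, h.inner_map_map, map_sub, map_smul]
  have h1 : ∀ z, h⁻¹ (h z) = z := by
    intro z
    rw [← iso_mul_apply, inv_mul_cancel, iso_one_apply]
  rw [h1, h1]


theorem bounded_gen (d : ℕ) (hd : 3 ≤ d) (B : (Fin 3 ↪ Fin d) → Iso 3 →* Iso d)
    (hB : ∀ (e : Fin 3 ↪ Fin d) (h : Iso 3) (x : E d), B e h x = setB e x (h (pr e x))) :
    ∃ K : ℕ, ∀ g : Iso d, ∃ L : List ((Fin 3 ↪ Fin d) × Iso 3), L.length ≤ K ∧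
      g = (L.map (fun p => B p.1 p.2)).prod := by
  classical
  refine ⟨d * (2 * d + 1), fun g => ?_⟩
  obtain ⟨l, hl, hg⟩ := LinearIsometryEquiv.reflections_generate_dim g
  rw [finrank_euclideanSpace, Fintype.card_fin] at hl
  have key : ∀ v : E d, GN B (2 * d + 1) (Submodule.reflection (ℝ ∙ v)ᗮ) := by
    intro v
    obtain ⟨h, hh, hhz⟩ := make_zero d hd B hB ⟨0, by omega⟩ v (Finset.univ.erase ⟨0, by omega⟩)
      (by simp)
    rw [Finset.card_erase_of_mem (Finset.mem_univ _), Finset.card_univ, Fintype.card_fin] at hh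
    have hh' : GN B d h := GN_mono B (by omega) hh
    have h1 := refl_block d hd B hB ⟨0, by omega⟩ (h v) (fun k hk => hhz k (by simp [hk]))
    rw [refl_conj h v]
    refine GN_mono B ?_ (GN_mul B (GN_mul B (GN_inv B hh') h1) hh')
    omega
  have := GN_list B (fun v : E d => Submodule.reflection (ℝ ∙ v)ᗮ) key l
  rw [← hg] at this
  exact GN_mono B (Nat.mul_le_mul_right _ hl) this




end Pool.Agent.Helper557.Rz
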