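import Pool.Agent.Helper557.Rz.Base
import Pool.Agent.Helper557.Rz.Blk
import Pool.Agent.Helper557.Rz.FADefs

set_option autoImplicit false

open MeasureTheory Set

namespace Pool.Agent.Helper557.Rz

theorem exists_blk (d : ℕ) (e : Fin 3 ↪ Fin d) :
    ∃ B : Iso 3 →* Iso d, ∀ (h : Iso 3) (x : E d), B h x = setB e x (h (pr e x)) := by
  have pr_add : ∀ x y : E d, pr e (x + y) = pr e x + pr e y := by
    intro x y; ext i; simp [pr_apply]
  have pr_smul : ∀ (c : ℝ) (x : E d), pr e (c • x) = c • pr e x := by
    intro c x; ext i; simp [pr_apply]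
  have setB_add : ∀ (x y : E d) (v w : E 3), setB e (x + y) (v + w) = setB e x v + setB e y w := by
    intro x y v w
    ext j
    by_cases hj : j ∈ Set.range e
    · obtain ⟨i, rfl⟩ := hj
      rw [PiLp.add_apply, setB_mem, setB_mem, setB_mem, PiLp.add_apply]
    · rw [PiLp.add_apply, setB_notMem _ _ _ _ hj, setB_notMem _ _ _ _ hj, setB_notMem _ _ _ _ hj, PiLp.add_apply]
  have setB_smul : ∀ (c : ℝ) (x : E d) (v : E 3), setB e (c • x) (c • v) = c • setB e x v := by
    intro c x v
    ext j
    by_cases hj : j ∈ Set.range e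
    · obtain ⟨i, rfl⟩ := hj
      rw [PiLp.smul_apply, setB_mem, setB_mem, PiLp.smul_apply]
    · rw [PiLp.smul_apply, setB_notMem _ _ _ _ hj, setB_notMem _ _ _ _ hj, PiLp.smul_apply]
  let lin : Iso 3 → (E d →ₗ[ℝ] E d) := fun h =>
    { toFun := fun x => setB e x (h (pr e x))
      map_add' := by intro x y; rw [pr_add, map_add, setB_add]
      map_smul' := by intro c x; rw [pr_smul, map_smul, setB_smul]; rfl }
  have hlin : ∀ h x, lin h x = setB e x (h (pr e x)) := fun _ _ => rfl
  have hcomp : ∀ h k x, lin h (lin k x) = lin (h * k) x := by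
    intro h k x
    rw [hlin, hlin, hlin, pr_setB, setB_setB]; rfl
  have hone : ∀ x, lin 1 x = x := by
    intro x
    rw [hlin]
    exact setB_pr e x
  let B0 : Iso 3 → Iso d := fun h =>
    { toLinearEquiv := 
        { toLinearMap := lin h
          invFun := lin h⁻¹
          left_inv := by
            intro x
            show lin h⁻¹ (lin h x) = x
            rw [hcomp, inv_mul_cancel, hone]
          right_inv := by
            intro x
            show lin h (lin h⁻¹ x) = x
            rw [hcomp, mul_inv_cancel, hone] }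
      norm_map' := by
        intro x
        show ‖lin h x‖ = ‖x‖
        have h1 : ‖lin h x‖ ^ 2 = ‖x‖ ^ 2 := by
          rw [hlin, norm_setB, LinearIsometryEquiv.norm_map]; ring
        have h2 := norm_nonneg (lin h x)
        have h3 := norm_nonneg x
        exact (sq_eq_sq₀ h2 h3).mp h1 }
  have hB0 : ∀ h x, B0 h x = lin h x := fun _ _ => rfl
  refine ⟨{ toFun := B0, map_one' := ?_, map_mul' := ?_ }, ?_⟩
  · apply LinearIsometryEquiv.ext
    intro x
    rw [hB0, hone]; rfl
  · intro h k
    apply LinearIsometryEquiv.ext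
    intro x
    rw [hB0, ← hcomp]; rfl
  · intro h x
    rfl

theorem pr_continuous {d : ℕ} (e : Fin 3 ↪ Fin d) : Continuous (pr e) := by
  unfold pr
  refine (PiLp.continuous_toLp 2 _).comp (continuous_pi fun i => ?_)
  fun_prop

theorem setB_continuous {d : ℕ} (e : Fin 3 ↪ Fin d) : Continuous (fun q : E d × E 3 => setB e q.1 q.2) := by
  unfold setB
  refine (PiLp.continuous_toLp 2 _).comp (continuous_pi fun j => ?_)
  by_cases hj : j ∈ Set.range e
  · simp only [if_pos hj]
    fun_prop
  · simp only [if_neg hj]
    fun_prop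

theorem repl_continuous (d : ℕ) (e : Fin 3 ↪ Fin d) :
    Continuous (fun p : S d × S 3 => repl e p.1 p.2) := by
  refine Continuous.subtype_mk ?_ _
  have h1 : Continuous (fun p : S d × S 3 => ((p.1 : E d), ‖pr e (p.1 : E d)‖ • (p.2 : E 3))) := by
    have h2 : Continuous (fun p : S d × S 3 => (p.1 : E d)) := continuous_subtype_val.comp continuous_fst
    have h3 : Continuous (fun p : S d × S 3 => (p.2 : E 3)) := continuous_subtype_val.comp continuous_snd
    exact Continuous.prodMk h2 (Continuous.smul ((pr_continuous e).comp h2).norm h3)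
  exact (setB_continuous e).comp h1


end Pool.Agent.Helper557.Rz
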