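import Pool.Agent.Helper557.Rz.Base
import Pool.Agent.Helper557.Rz.Blk
import Pool.Agent.Helper557.Rz.FADefs
import Pool.Agent.Helper557.Rz.M_blk
import Pool.Agent.Helper557.Rz.M_haar
import Pool.Agent.Helper557.Rz.M_meas

set_option autoImplicit false

open MeasureTheory Set

namespace Pool.Agent.Helper557.Rz

theorem measurable_congr_fun {α β : Type} [MeasurableSpace α] [MeasurableSpace β] {f g : α → β}
    (h : ∀ x, f x = g x) (hf : Measurable g) : Measurable f := by
  rwa [show f = g from funext h]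

theorem block_fubini (d : ℕ) (hd : 3 ≤ d) (e : Fin 3 ↪ Fin d) (Φ : S d → ℝ) (hΦ : Continuous Φ) :
    ∫ x, Φ x ∂(sg d) = ∫ x, ∫ ω, Φ (repl e x ω) ∂(sg 3) ∂(sg d) := by
  classical
  have hd1 : 1 ≤ d := by omega
  have := sg_prob d hd1
  have := sg_prob 3 (by norm_num)
  obtain ⟨Ω, mΩ, P, hP, G, hGm, hG⟩ := exists_haar 3 (by norm_num)
  obtain ⟨B, hB⟩ := exists_blk d e
  -- bound for Φ
  obtain ⟨C, hC⟩ : ∃ C, ∀ y, |Φ y| ≤ C := by
    obtain ⟨C, hC⟩ := isCompact_univ.exists_bound_of_continuousOn
      (f := Φ) (s := Set.univ) hΦ.continuousOn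
    exact ⟨C, fun y => by simpa using hC y (Set.mem_univ y)⟩
  -- the projection is continuous
  have hprc : Continuous (fun x : E d => pr e x) := by
    unfold pr
    fun_prop
  -- a fixed point of the sphere
  have hp0 : (EuclideanSpace.single 0 1 : E 3) ∈ S 3 := by
    rw [mem_sphere_zero_iff_norm]; simp
  let f0 : S d → E 3 := fun x =>
    if pr e (x : E d) = 0 then (EuclideanSpace.single 0 1 : E 3)
    else ‖pr e (x : E d)‖⁻¹ • pr e (x : E d)
  have hf0 : ∀ x, f0 x ∈ Metric.sphere (0 : E 3) 1 := by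
    intro x
    by_cases hx : pr e (x : E d) = 0
    · simp only [f0, if_pos hx]; exact hp0
    · simp only [f0, if_neg hx]
      rw [mem_sphere_zero_iff_norm, norm_smul, norm_inv, norm_norm,
        inv_mul_cancel₀ (norm_ne_zero_iff.2 hx)]
  let w0 : S d → S 3 := fun x => ⟨f0 x, hf0 x⟩
  have hpm : Measurable (fun x : S d => pr e (x : E d)) :=
    (hprc.comp continuous_subtype_val).measurable
  have hf0m : Measurable f0 := by
    refine Measurable.ite (measurableSet_eq_fun hpm measurable_const) measurable_const ?_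
    exact (hpm.norm.inv).smul hpm
  have hw0m : Measurable w0 := hf0m.subtype_mk
  have hA : ∀ (h : Iso 3) (x : S d), rot (B h) x = repl e x (rot h (w0 x)) := by
    intro h x
    apply Subtype.ext
    rw [rot_coe, hB, repl_coe]
    congr 1
    rw [rot_coe]
    show h (pr e (x : E d)) = ‖pr e (x : E d)‖ • h (f0 x)
    by_cases hx : pr e (x : E d) = 0
    · rw [hx, map_zero, norm_zero, zero_smul]
    · simp only [f0, if_neg hx]
      rw [map_smul, smul_smul, mul_inv_cancel₀ (norm_ne_zero_iff.2 hx), one_smul]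
  -- joint measurability
  obtain ⟨R, hR, hRc⟩ : ∃ R : S d × S 3 → S d, (∀ x ω, repl e x ω = R (x, ω)) ∧ Continuous R :=
    ⟨fun p => repl e p.1 p.2, fun _ _ => rfl, repl_continuous d e⟩
  simp only [hR] at hA ⊢
  have hF : Measurable (fun p : Ω × S d => Φ (rot (B (G p.1)) p.2)) := by
    have h1 : Measurable (fun p : Ω × S d => rot (G p.1) (w0 p.2)) :=
      hGm.comp (measurable_fst.prodMk (hw0m.comp measurable_snd))
    have h2 : Measurable (fun p : Ω × S d => (p.2, rot (G p.1) (w0 p.2))) :=
      measurable_snd.prodMk h1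
    have h3 : Measurable (fun q : S d × S 3 => Φ (R q)) := (hΦ.comp hRc).measurable
    have h4 := h3.comp h2
    refine (measurable_congr_fun ?_ h4)
    intro p
    simp only [Function.comp]
    rw [hA]
  have hint : Integrable (Function.uncurry fun (w : Ω) (x : S d) => Φ (rot (B (G w)) x))
      (P.prod (sg d)) := by
    refine Integrable.of_bound (C := C) ?_ ?_
    · exact hF.aestronglyMeasurable
    · exact Filter.Eventually.of_forall fun p => hC _
  have hswap := integral_integral_swap hint
  have hleft : ∀ w : Ω, ∫ x, Φ (rot (B (G w)) x) ∂(sg d) = ∫ x, Φ x ∂(sg d) := by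
    intro w
    have hmp := rot_mp d hd1 (B (G w))
    calc ∫ x, Φ (rot (B (G w)) x) ∂(sg d)
        = ∫ x, Φ x ∂(Measure.map (rot (B (G w))) (sg d)) :=
          (integral_map hmp.measurable.aemeasurable
            hΦ.measurable.aestronglyMeasurable).symm
      _ = ∫ x, Φ x ∂(sg d) := by rw [hmp.map_eq]
  have hright : ∀ x : S d, ∫ w, Φ (rot (B (G w)) x) ∂P = ∫ ω, Φ (R (x, ω)) ∂(sg 3) := by
    intro x
    have hc2 : Continuous (fun ω : S 3 => ((x, ω) : S d × S 3)) := Continuous.prodMk_right x
    have hc3 : Continuous (fun ω : S 3 => R (x, ω)) := hRc.comp hc2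
    have hc : Continuous (fun ω : S 3 => Φ (R (x, ω))) := hΦ.comp hc3
    rw [← hG (w0 x) (fun ω => Φ (R (x, ω))) hc.measurable ⟨C, fun y => hC _⟩]
    refine integral_congr_ae (Filter.Eventually.of_forall fun w => ?_)
    simp only []
    rw [hA]
  simp_rw [hleft, hright] at hswap
  rw [← hswap]
  simp



end Pool.Agent.Helper557.Rz
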