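import Pool.Agent.Helper557.Rz.Base
import Pool.Agent.Helper557.Rz.Blk
import Pool.Agent.Helper557.Rz.FADefs
import Pool.Agent.Helper557.Rz.M_blk
import Pool.Agent.Helper557.Rz.M_fub
import Pool.Agent.Helper557.Rz.M_meas

set_option autoImplicit false

open MeasureTheory Set

namespace Pool.Agent.Helper557.Rz


lemma repl_repl {d : ℕ} (e : Fin 3 ↪ Fin d) (x : S d) (ω ω' : S 3) :
    repl e (repl e x ω') ω = repl e x ω := by
  apply Subtype.ext
  have hω : ‖(ω' : E 3)‖ = 1 := by simp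
  rw [repl_coe, repl_coe, repl_coe, setB_setB, pr_setB, norm_smul, hω, norm_norm, mul_one]

lemma rot_repl {d : ℕ} (e : Fin 3 ↪ Fin d) (B : Iso 3 →* Iso d)
    (hB : ∀ (h : Iso 3) (x : E d), B h x = setB e x (h (pr e x))) (h : Iso 3) (x : S d) (ω : S 3) :
    rot (B h) (repl e x ω) = repl e x (rot h ω) := by
  apply Subtype.ext
  rw [rot_coe, repl_coe, repl_coe, hB, setB_setB, pr_setB, map_smul, rot_coe]

lemma repl_rot {d : ℕ} (e : Fin 3 ↪ Fin d) (B : Iso 3 →* Iso d)
    (hB : ∀ (h : Iso 3) (x : E d), B h x = setB e x (h (pr e x))) (h : Iso 3) (x : S d) (ω : S 3) :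
    repl e (rot (B h) x) ω = repl e x ω := by
  apply Subtype.ext
  rw [repl_coe, repl_coe, rot_coe, hB, setB_setB, pr_setB, LinearIsometryEquiv.norm_map]

theorem slice_gap (d : ℕ) (hd : 3 ≤ d) (k : ℕ) (g : Fin k → Iso 3) (κ : ℝ) (hg : SGD 3 k g κ)
    (e : Fin 3 ↪ Fin d) (B : Iso 3 →* Iso d)
    (hB : ∀ (h : Iso 3) (x : E d), B h x = setB e x (h (pr e x))) (ψ : C(S d, ℝ)) (h : Iso 3) :
    ∫ x, (ψ (rot (B h) x) - ψ x) ^ 2 ∂(sg d) ≤
      (4 / κ) * ∑ i, ∫ x, (ψ (rot (B (g i)) x) - ψ x) ^ 2 ∂(sg d) := by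
  have hp : IsProbabilityMeasure (sg d) := sg_prob d (by omega)
  have hp3 : IsProbabilityMeasure (sg 3) := sg_prob 3 (by omega)
  have hint : ∀ (n : ℕ) [IsProbabilityMeasure (sg n)] (f : S n → ℝ), Continuous f → Integrable f (sg n) := by
    intro n _ f hf
    exact hf.integrable_of_hasCompactSupport (HasCompactSupport.of_compactSpace f)
  have hrc := repl_continuous d e
  have hr1 : ∀ x : S d, Continuous (fun ω : S 3 => repl e x ω) := by
    intro x
    have h0 : Continuous (fun ω : S 3 => (x, ω)) := by fun_prop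
    have h1 := hrc.comp h0
    exact h1
  have hr2 : ∀ ω : S 3, Continuous (fun x : S d => repl e x ω) := by
    intro ω
    have h0 : Continuous (fun x : S d => (x, ω)) := by fun_prop
    have h1 := hrc.comp h0
    exact h1
  -- parametric integrals are continuous
  have hpc : ∀ f : S d → ℝ, Continuous f → Continuous (fun x => ∫ ω, f (repl e x ω) ∂(sg 3)) := by
    intro f hf
    obtain ⟨C, hC⟩ := (isCompact_univ (X := S d)).exists_bound_of_continuousOn hf.continuousOn
    have g1 : ∀ x : S d, Continuous (fun ω : S 3 => f (repl e x ω)) := by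
      intro x
      have h1 := hf.comp (hr1 x)
      exact h1
    have g2 : ∀ ω : S 3, Continuous (fun x : S d => f (repl e x ω)) := by
      intro ω
      have h1 := hf.comp (hr2 ω)
      exact h1
    have g3 : ∀ x : S d, AEStronglyMeasurable (fun ω : S 3 => f (repl e x ω)) (sg 3) :=
      fun x => (g1 x).aestronglyMeasurable
    have g4 : ∀ x : S d, ∀ᵐ ω ∂(sg 3), ‖f (repl e x ω)‖ ≤ C :=
      fun x => Filter.Eventually.of_forall (fun ω => hC _ (Set.mem_univ _))
    have g5 : ∀ᵐ ω ∂(sg 3), Continuous (fun x : S d => f (repl e x ω)) :=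
      Filter.Eventually.of_forall g2
    exact continuous_of_dominated g3 g4 (integrable_const C) g5
  set P : S d → ℝ := fun x => ∫ ω, ψ (repl e x ω) ∂(sg 3) with hP
  have hPc : Continuous P := hpc ψ ψ.continuous
  have hPrepl : ∀ x ω, P (repl e x ω) = P x := by
    intro x ω
    simp only [hP, repl_repl]
  have hProt : ∀ (h : Iso 3) x, P (rot (B h) x) = P x := by
    intro h x
    simp only [hP, repl_rot e B hB]
  set D : S d → ℝ := fun x => ψ x - P x with hD
  have hDc : Continuous D := ψ.continuous.sub hPc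
  have hD2c : Continuous (fun x => D x ^ 2) := hDc.pow 2
  have hΦc : ∀ h : Iso 3, Continuous (fun x => (ψ (rot (B h) x) - ψ x) ^ 2) := fun h =>
    ((ψ.continuous.comp (rot_continuous _)).sub ψ.continuous).pow 2
  -- Claim A
  have hA : κ * ∫ x, D x ^ 2 ∂(sg d) ≤ ∑ i, ∫ x, (ψ (rot (B (g i)) x) - ψ x) ^ 2 ∂(sg d) := by
    have h1 := block_fubini d hd e (fun x => D x ^ 2) hD2c
    have h2 : ∀ i, ∫ x, (ψ (rot (B (g i)) x) - ψ x) ^ 2 ∂(sg d) =
        ∫ x, ∫ ω, (ψ (rot (B (g i)) (repl e x ω)) - ψ (repl e x ω)) ^ 2 ∂(sg 3) ∂(sg d) :=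
      fun i => block_fubini d hd e (fun x => (ψ (rot (B (g i)) x) - ψ x) ^ 2) (hΦc (g i))
    have hcont : ∀ i, Continuous (fun x => ∫ ω, (ψ (rot (B (g i)) (repl e x ω)) - ψ (repl e x ω)) ^ 2 ∂(sg 3)) :=
      fun i => hpc (fun x => (ψ (rot (B (g i)) x) - ψ x) ^ 2) (hΦc (g i))
    rw [h1, ← integral_const_mul]
    simp_rw [h2]
    rw [← integral_finsetSum _ (fun i _ => hint d _ (hcont i))]
    apply integral_mono
    · exact hint d _ (continuous_const.mul (hpc _ hD2c))
    · exact hint d _ (continuous_finsetSum _ (fun i _ => hcont i))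
    · intro x
      simp only
      -- the function on the block
      have hΨc : Continuous (fun ω : S 3 => ψ (repl e x ω)) := by
        have h1 := ψ.continuous.comp (hr1 x)
        exact h1
      let Ψ : C(S 3, ℝ) := ⟨fun ω => ψ (repl e x ω), hΨc⟩
      have hΨ : ∀ ω, Ψ ω = ψ (repl e x ω) := fun ω => rfl
      have h3 := hg.2 Ψ
      have hPx : ∫ ω, Ψ ω ∂(sg 3) = P x := rfl
      have h4 : ∫ ω, D (repl e x ω) ^ 2 ∂(sg 3) = ∫ ω, Ψ ω ^ 2 ∂(sg 3) - (∫ ω, Ψ ω ∂(sg 3)) ^ 2 := by
        have h5 : ∀ ω, D (repl e x ω) ^ 2 = Ψ ω ^ 2 - 2 * P x * Ψ ω + P x ^ 2 := by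
          intro ω
          simp only [hD, hPrepl, hΨ]
          ring
        simp_rw [h5]
        have i1 : Integrable (fun ω => Ψ ω ^ 2) (sg 3) := hint 3 _ (Ψ.continuous.pow 2)
        have i2 : Integrable (fun ω => 2 * P x * Ψ ω) (sg 3) := hint 3 _ (continuous_const.mul Ψ.continuous)
        have i12 : Integrable (fun ω => Ψ ω ^ 2 - 2 * P x * Ψ ω) (sg 3) := i1.sub i2
        rw [integral_add i12 (integrable_const _), integral_sub i1 i2, integral_const_mul, hPx]
        simp
        ring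
      rw [h4]
      refine h3.trans (le_of_eq ?_)
      apply Finset.sum_congr rfl
      intro i _
      congr 1
      funext ω
      rw [hΨ, hΨ, rot_repl e B hB]
  -- Claim B
  have hBB : ∫ x, (ψ (rot (B h) x) - ψ x) ^ 2 ∂(sg d) ≤ 4 * ∫ x, D x ^ 2 ∂(sg d) := by
    have hDr : Continuous (fun x => D (rot (B h) x) ^ 2) := (hDc.comp (rot_continuous _)).pow 2
    have h6 : ∫ x, D (rot (B h) x) ^ 2 ∂(sg d) = ∫ x, D x ^ 2 ∂(sg d) := by
      have h7 := rot_mp d (by omega) (B h)
      have h8 := integral_map (μ := sg d) (φ := rot (B h)) h7.measurable.aemeasurable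
        (f := fun y => D y ^ 2) hD2c.aestronglyMeasurable
      rw [h7.map_eq] at h8
      exact h8.symm
    calc ∫ x, (ψ (rot (B h) x) - ψ x) ^ 2 ∂(sg d)
        ≤ ∫ x, (2 * D (rot (B h) x) ^ 2 + 2 * D x ^ 2) ∂(sg d) := by
          apply integral_mono (hint d _ (hΦc h))
          · exact hint d _ ((continuous_const.mul hDr).add (continuous_const.mul hD2c))
          · intro x
            have h9 : ψ (rot (B h) x) - ψ x = D (rot (B h) x) - D x := by
              simp only [hD, hProt]; ring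
            simp only
            rw [h9]
            nlinarith [sq_nonneg (D (rot (B h) x) + D x)]
      _ = 4 * ∫ x, D x ^ 2 ∂(sg d) := by
          have j1 : Integrable (fun x => 2 * D (rot (B h) x) ^ 2) (sg d) :=
            hint d _ (continuous_const.mul hDr)
          have j2 : Integrable (fun x => 2 * D x ^ 2) (sg d) := hint d _ (continuous_const.mul hD2c)
          rw [integral_add j1 j2, integral_const_mul, integral_const_mul, h6]
          ring
  have hκ : 0 < κ := hg.1
  calc ∫ x, (ψ (rot (B h) x) - ψ x) ^ 2 ∂(sg d) ≤ 4 * ∫ x, D x ^ 2 ∂(sg d) := hBB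
    _ = (4 / κ) * (κ * ∫ x, D x ^ 2 ∂(sg d)) := by field_simp
    _ ≤ _ := mul_le_mul_of_nonneg_left hA (by positivity)


end Pool.Agent.Helper557.Rz
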