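import Pool.Agent.Helper557.Rz.Base
import Pool.Agent.Helper557.Rz.Blk
import Pool.Agent.Helper557.Rz.FADefs
import Pool.Agent.Helper557.Rz.M_avg
import Pool.Agent.Helper557.Rz.M_bg
import Pool.Agent.Helper557.Rz.M_blk
import Pool.Agent.Helper557.Rz.M_meas
import Pool.Agent.Helper557.Rz.M_slice

set_option autoImplicit false

open MeasureTheory Set

namespace Pool.Agent.Helper557.Rz


lemma gapd_integrable (d : ℕ) (hd : 1 ≤ d) (f : S d → ℝ) (hf : Continuous f) :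
    Integrable f (sg d) := by
  haveI := sg_prob d hd
  exact hf.integrable_of_hasCompactSupport (HasCompactSupport.of_compactSpace _)

lemma gapd_mul (d : ℕ) (hd : 1 ≤ d) (ψ : C(S d, ℝ)) (b g : Iso d) :
    ∫ x, (ψ (rot (b * g) x) - ψ x) ^ 2 ∂(sg d) ≤
      2 * (∫ x, (ψ (rot b x) - ψ x) ^ 2 ∂(sg d)) + 2 * ∫ x, (ψ (rot g x) - ψ x) ^ 2 ∂(sg d) := by
  have hψ := ψ.continuous
  have hb := rot_continuous b
  have hg := rot_continuous g
  have h1 : ∫ x, (ψ (rot b x) - ψ x) ^ 2 ∂(sg d) =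
      ∫ x, (ψ (rot b (rot g x)) - ψ (rot g x)) ^ 2 ∂(sg d) := by
    have h := (rot_mp d hd g)
    have h2 := h.map_eq
    conv_lhs => rw [← h2]
    rw [integral_map hg.measurable.aemeasurable]
    exact (Continuous.aestronglyMeasurable (by fun_prop))
  rw [h1, ← integral_const_mul, ← integral_const_mul, ← integral_add]
  · refine integral_mono ?_ ?_ fun x => ?_
    · refine gapd_integrable d hd _ ?_
      have := rot_continuous (b * g)
      fun_prop
    · refine gapd_integrable d hd _ ?_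
      fun_prop
    · change (ψ (rot (b * g) x) - ψ x) ^ 2 ≤
        2 * (ψ (rot b (rot g x)) - ψ (rot g x)) ^ 2 + 2 * (ψ (rot g x) - ψ x) ^ 2
      rw [rot_mul]
      nlinarith [sq_nonneg ((ψ (rot b (rot g x)) - ψ (rot g x)) - (ψ (rot g x) - ψ x))]
  · refine gapd_integrable d hd _ ?_
    fun_prop
  · refine gapd_integrable d hd _ ?_
    fun_prop

theorem gap_of_gap3 (h : SG 3) (d : ℕ) (hd : 3 ≤ d) : SG d := by
  classical
  obtain ⟨k, g, κ, hg⟩ := h
  have hκ : 0 < κ := hg.1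
  have hd1 : 1 ≤ d := by omega
  choose B hB using exists_blk d
  obtain ⟨K, hK⟩ := bounded_gen d hd B hB
  let T := (Fin 3 ↪ Fin d) × Fin k
  let eqv : T ≃ Fin (Fintype.card T) := Fintype.equivFin T
  have hC : (0 : ℝ) < 4 ^ K * (4 / κ) := by positivity
  refine ⟨Fintype.card T, fun j => B (eqv.symm j).1 (g (eqv.symm j).2), 2 / (4 ^ K * (4 / κ)),
    by positivity, fun ψ => ?_⟩
  have hR : ∑ j, ∫ x, (ψ (rot (B (eqv.symm j).1 (g (eqv.symm j).2)) x) - ψ x) ^ 2 ∂(sg d) =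
      ∑ e : Fin 3 ↪ Fin d, ∑ i, ∫ x, (ψ (rot (B e (g i)) x) - ψ x) ^ 2 ∂(sg d) := by
    rw [eqv.symm.sum_comp (fun p : T => ∫ x, (ψ (rot (B p.1 (g p.2)) x) - ψ x) ^ 2 ∂(sg d)),
      Fintype.sum_prod_type]
  rw [hR]
  set R := ∑ e : Fin 3 ↪ Fin d, ∑ i, ∫ x, (ψ (rot (B e (g i)) x) - ψ x) ^ 2 ∂(sg d) with hRdef
  have hnn : ∀ e : Fin 3 ↪ Fin d,
      0 ≤ ∑ i, ∫ x, (ψ (rot (B e (g i)) x) - ψ x) ^ 2 ∂(sg d) := fun e =>
    Finset.sum_nonneg fun i _ => integral_nonneg fun x => sq_nonneg _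
  have hR0 : 0 ≤ R := Finset.sum_nonneg fun e _ => hnn e
  have hM0 : 0 ≤ (4 / κ) * R := by positivity
  have hone : ∀ (e : Fin 3 ↪ Fin d) (h : Iso 3),
      ∫ x, (ψ (rot (B e h) x) - ψ x) ^ 2 ∂(sg d) ≤ (4 / κ) * R := by
    intro e h
    refine (slice_gap d hd k g κ hg e (B e) (hB e) ψ h).trans ?_
    refine mul_le_mul_of_nonneg_left ?_ (by positivity)
    exact Finset.single_le_sum (f := fun e => ∑ i, ∫ x, (ψ (rot (B e (g i)) x) - ψ x) ^ 2 ∂(sg d))
      (fun e _ => hnn e) (Finset.mem_univ e)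
  have hlist : ∀ L : List ((Fin 3 ↪ Fin d) × Iso 3),
      ∫ x, (ψ (rot ((L.map (fun p => B p.1 p.2)).prod) x) - ψ x) ^ 2 ∂(sg d) ≤
        4 ^ L.length * ((4 / κ) * R) := by
    intro L
    induction L with
    | nil =>
      simp only [List.map_nil, List.prod_nil, rot_one, sub_self, ne_eq, OfNat.ofNat_ne_zero,
        not_false_eq_true, zero_pow, integral_zero, List.length_nil, pow_zero, one_mul]
      exact hM0
    | cons p L ih =>
      rw [List.map_cons, List.prod_cons, List.length_cons, pow_succ]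
      refine (gapd_mul d hd1 ψ _ _).trans ?_
      have h1 := hone p.1 p.2
      have h2 : (1 : ℝ) ≤ 4 ^ L.length := one_le_pow₀ (by norm_num)
      nlinarith [mul_nonneg (sub_nonneg.2 h2) hM0]
  have hall : ∀ g' : Iso d, ∫ x, (ψ (rot g' x) - ψ x) ^ 2 ∂(sg d) ≤ 4 ^ K * (4 / κ) * R := by
    intro g'
    obtain ⟨L, hL, rfl⟩ := hK g'
    refine (hlist L).trans ?_
    rw [mul_assoc]
    refine mul_le_mul_of_nonneg_right ?_ hM0
    exact pow_le_pow_right₀ (by norm_num) hL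
  have := avg_bound d hd1 ψ _ hall
  rw [div_mul_eq_mul_div, div_le_iff₀ hC]
  linarith


end Pool.Agent.Helper557.Rz
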