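import Pool.Agent.Helper557.Rz.M_glue
import Pool.Agent.Helper557.Rz.M_eqsmall
import Pool.Agent.Helper557.Rz.M_hb
import Pool.Agent.Helper557.Rz.M_movgap
import Pool.Agent.Helper557.Rz.M_gapd
import Pool.Agent.Helper557.Rz.M_meas

set_option autoImplicit false

open MeasureTheory Set

namespace Pool.Agent.Helper557.Rz

/-- If the two-dimensional sphere has a finite family of rotations with a spectral gap, then every
invariant finitely additive probability on the Borel sets of `S d`, `d ≥ 3`, is the normalised
surface measure. -/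
theorem main_of_gap3 (h3 : SG 3) (d : ℕ) (hd : 3 ≤ d) (m : Set (S d) → ℝ) (hm : IsFA d m)
    (A : Set (S d)) (hA : MeasurableSet A) : m A = (sg d A).toReal := by
  obtain ⟨k, g, κ, hg⟩ := gap_of_gap3 h3 d hd
  obtain ⟨ε₀, h0, hmov⟩ := mov_of_gap d (by omega) k g κ hg
  have hfl := flow_of_mov d (by omega) k g ε₀ h0 hmov
  exact eq_of_small d (by omega) m hm
    (fun ε hε => glue d (by omega) k g _ (by positivity) hfl m hm ε hε) A hA

lemma image_eq {d : ℕ} (g : Iso d) (A : Set (S d)) :
    {y : S d | ∃ x ∈ A, (y : E d) = g (x : E d)} = rot g⁻¹ ⁻¹' A := by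
  ext y
  simp only [Set.mem_setOf_eq, Set.mem_preimage]
  constructor
  · rintro ⟨x, hx, hy⟩
    have : y = rot g x := Subtype.ext hy
    rw [this, rot_inv_rot]
    exact hx
  · intro hy
    refine ⟨rot g⁻¹ y, hy, ?_⟩
    have := congrArg (fun z : S d => (z : E d)) (rot_rot_inv g y)
    exact this.symm

theorem iff_of_gap3 (h3 : SG 3) (d : ℕ) (hd : 3 ≤ d) (μ : Set (S d) → ENNReal) :
    (μ ∅ = 0 ∧
      (∀ A B : Set (S d), MeasurableSet A → MeasurableSet B → Disjoint A B →
        μ (A ∪ B) = μ A + μ B) ∧
      (∀ (g : Iso d) (A : Set (S d)), MeasurableSet A →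
        μ {y : S d | ∃ x ∈ A, (y : E d) = g (x : E d)} = μ A) ∧
      μ Set.univ = 1) ↔
    ∀ A : Set (S d), MeasurableSet A →
      μ A = (volume : Measure (E d)).toSphere A / (volume : Measure (E d)).toSphere Set.univ := by
  have hsg : ∀ A : Set (S d), sg d A =
      (volume : Measure (E d)).toSphere A / (volume : Measure (E d)).toSphere Set.univ := by
    intro A
    rw [sg, Measure.smul_apply, smul_eq_mul, ENNReal.div_eq_inv_mul]
  have hp := sg_prob d (by omega)
  constructor
  · rintro ⟨h0, hadd, hinv, h1⟩ A hA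
    have hle : ∀ B : Set (S d), MeasurableSet B → μ B ≤ 1 := by
      intro B hB
      have := hadd B Bᶜ hB hB.compl disjoint_compl_right
      rw [Set.union_compl_self, h1] at this
      rw [this]
      exact le_self_add
    have hfin : ∀ B : Set (S d), MeasurableSet B → μ B ≠ ⊤ := fun B hB =>
      ne_top_of_le_ne_top ENNReal.one_ne_top (hle B hB)
    have hm : IsFA d (fun B => (μ B).toReal) := by
      refine ⟨fun B _ => ENNReal.toReal_nonneg, ?_, ?_, ?_⟩
      · intro B C hB hC hBC
        rw [hadd B C hB hC hBC, ENNReal.toReal_add (hfin B hB) (hfin C hC)]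
      · simp [h1]
      · intro g B hB
        have := hinv g⁻¹ B hB
        rw [image_eq, inv_inv] at this
        rw [this]
    have := main_of_gap3 h3 d hd _ hm A hA
    rw [← hsg]
    exact (ENNReal.toReal_eq_toReal_iff' (hfin A hA) (measure_ne_top _ _)).mp this
  · intro h
    have h' : ∀ A : Set (S d), MeasurableSet A → μ A = sg d A := fun A hA => by rw [h A hA, hsg]
    refine ⟨?_, ?_, ?_, ?_⟩
    · rw [h' _ MeasurableSet.empty, measure_empty]
    · intro A B hA hB hAB
      rw [h' _ (hA.union hB), h' _ hA, h' _ hB, measure_union hAB hB]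
    · intro g A hA
      rw [image_eq]
      have hmp := rot_mp d (by omega) g⁻¹
      rw [h' _ (hmp.measurable hA), h' _ hA, hmp.measure_preimage hA.nullMeasurableSet]
    · rw [h' _ MeasurableSet.univ, measure_univ]

end Pool.Agent.Helper557.Rz
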