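import Pool.Agent.Helper557.Rz.Base
import Pool.Agent.Helper557.Rz.Defs
import Pool.Agent.Helper557.Rz.FADefs

set_option autoImplicit false

open MeasureTheory Set
open scoped Quaternion

namespace Pool.Agent.Helper557.Rz

lemma RW_sum (l : ℕ) (f : List (Fin 6) → ℝ) : ∑ w ∈ RW (l + 1), f w =
    ∑ a : Fin 6, ∑ v ∈ RW l, if v.head? ≠ some (a + 3) then f (a :: v) else 0 := by
  rw [RW, Finset.sum_image, Finset.sum_filter, Finset.sum_product]
  intro p _ q _ h
  simp only [List.cons.injEq] at h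
  exact Prod.ext h.1 h.2

lemma RW_head (l : ℕ) (b : Fin 6) (f : List (Fin 6) → ℝ) :
    ∑ w ∈ RW (l + 1), (if w.head? = some b then f w else 0) =
    ∑ v ∈ RW l, if v.head? ≠ some (b + 3) then f (b :: v) else 0 := by
  rw [RW_sum]
  rw [Finset.sum_eq_single b]
  · refine Finset.sum_congr rfl (fun v _ => ?_)
    simp
  · intro a _ hab
    refine Finset.sum_eq_zero (fun v _ => ?_)
    simp [hab]
  · simp

lemma RW_ne_nil (l : ℕ) : ∀ v ∈ RW (l + 1), v ≠ [] := by
  intro v hv
  rw [RW, Finset.mem_image] at hv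
  obtain ⟨p, _, rfl⟩ := hv
  simp

lemma add33 (a : Fin 6) : a + 3 + 3 = a := by
  fin_cases a <;> rfl

lemma word_step {X : Type} (t : Fin 6 → X → X) (ht : ∀ a x, t (a + 3) (t a x) = x)
    (act : List (Fin 6) → X → X)
    (h1 : ∀ a v x, act (a :: v) x = act v (t a x)) (ψ : X → ℝ) (l : ℕ) (x : X) :
    ∑ a : Fin 6, ∑ w ∈ RW (l + 1), ψ (act w (t a x)) = ∑ w ∈ RW (l + 2), ψ (act w x) +
      ∑ v ∈ RW l, ∑ a : Fin 6, (if v.head? ≠ some a then ψ (act v x) else 0) := by
  rw [RW_sum (l + 1), Finset.sum_comm (s := RW l), ← Finset.sum_add_distrib]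
  refine Finset.sum_congr rfl (fun a _ => ?_)
  have e1 : ∑ v ∈ RW l, (if v.head? ≠ some a then ψ (act v x) else 0) =
      ∑ w ∈ RW (l + 1), (if w.head? = some (a + 3) then ψ (act w (t a x)) else 0) := by
    rw [RW_head l (a + 3) (fun w => ψ (act w (t a x)))]
    refine Finset.sum_congr rfl (fun v _ => ?_)
    rw [add33, h1, ht]
  rw [e1, ← Finset.sum_add_distrib]
  refine Finset.sum_congr rfl (fun w _ => ?_)
  rw [h1]
  by_cases h : w.head? = some (a + 3) <;> simp [h]

lemma count_cons (v : List (Fin 6)) (hv : v ≠ []) (F : ℝ) :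
    ∑ a : Fin 6, (if v.head? ≠ some a then F else 0) = 5 * F := by
  obtain ⟨b, w, rfl⟩ := List.exists_cons_of_ne_nil hv
  have : ∀ a : Fin 6, (if (b :: w).head? ≠ some a then F else 0) = F - if b = a then F else 0 := by
    intro a
    by_cases h : b = a <;> simp [h]
  simp only [this, Finset.sum_sub_distrib]
  simp
  ring


theorem word_eigen {X : Type} (t : Fin 6 → X → X) (ht : ∀ a x, t (a + 3) (t a x) = x)
    (act : List (Fin 6) → X → X) (h0 : ∀ x, act [] x = x)
    (h1 : ∀ a v x, act (a :: v) x = act v (t a x)) (ψ : X → ℝ) (lm : ℝ)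
    (hψ : ∀ x, ∑ a, ψ (t a x) = lm * ψ x) (l : ℕ) (x : X) :
    ∑ w ∈ RW l, ψ (act w x) = lam lm l * ψ x := by
  have key : ∀ l : ℕ, (∀ x, ∑ w ∈ RW l, ψ (act w x) = lam lm l * ψ x) ∧
      (∀ x, ∑ w ∈ RW (l + 1), ψ (act w x) = lam lm (l + 1) * ψ x) := by
    intro l
    induction l with
    | zero =>
      refine ⟨fun x => ?_, fun x => ?_⟩
      · simp [RW, lam, h0]
      · rw [RW_sum 0]
        have : ∀ a : Fin 6, (∑ v ∈ RW 0, if v.head? ≠ some (a + 3) then ψ (act (a :: v) x) else 0)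
            = ψ (t a x) := by
          intro a
          simp [RW, h0, h1]
        simp only [this]
        rw [hψ]
        simp [lam]
    | succ l ih =>
      refine ⟨ih.2, fun x => ?_⟩
      have hs := word_step t ht act h1 ψ l x
      simp only [ih.2] at hs
      rw [← Finset.mul_sum, hψ] at hs
      have e : ∑ w ∈ RW (l + 1 + 1), ψ (act w x) = lam lm (l + 1) * (lm * ψ x) -
        ∑ v ∈ RW l, ∑ a : Fin 6, (if v.head? ≠ some a then ψ (act v x) else 0) := by
        linarith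
      rw [e]
      rcases l with _ | l
      · simp only [RW, Finset.sum_singleton]
        simp [lam, h0]
        ring
      · have e2 : ∑ v ∈ RW (l + 1), ∑ a : Fin 6, (if v.head? ≠ some a then ψ (act v x) else 0) =
            5 * ∑ v ∈ RW (l + 1), ψ (act v x) := by
          rw [Finset.mul_sum]
          exact Finset.sum_congr rfl (fun v hv => count_cons v (RW_ne_nil l v hv) _)
        rw [e2, ih.1]
        rw [show lam lm (l + 1 + 1 + 1) = lm * lam lm (l + 2) - 5 * lam lm (l + 1) from rfl]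
        ring
  exact (key l).1 x

theorem lam_lower (a₀ : ℝ) (h1 : Real.sqrt 5 < a₀) (h2 : a₀ < 5) (lm : ℝ)
    (h3 : a₀ + 5 / a₀ ≤ lm) (h4 : lm ≤ 6) (l : ℕ) (hl : 1 ≤ l) : a₀ ^ l ≤ lam lm l := by
  have hs5 : 0 < Real.sqrt 5 := Real.sqrt_pos.2 (by norm_num)
  have ha0 : 0 < a₀ := hs5.trans h1
  have hsq5 : 5 < a₀ ^ 2 := by
    have := Real.sq_sqrt (show (0:ℝ) ≤ 5 by norm_num)
    nlinarith
  have hlm0 : 0 < lm := by
    have : 0 < 5 / a₀ := by positivity
    linarith
  have h5 : a₀ ^ 2 - lm * a₀ + 5 ≤ 0 := by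
    have : (a₀ + 5 / a₀) * a₀ ≤ lm * a₀ := mul_le_mul_of_nonneg_right h3 ha0.le
    rw [add_mul, div_mul_cancel₀ _ ha0.ne'] at this
    nlinarith
  have hne : 5 / a₀ < a₀ := by
    rw [div_lt_iff₀ ha0]; nlinarith
  have hdisc : 20 < lm ^ 2 := by
    have e : (a₀ + 5 / a₀) ^ 2 = (a₀ - 5 / a₀) ^ 2 + 20 := by
      field_simp
      ring
    have e2 : (a₀ + 5 / a₀) ^ 2 ≤ lm ^ 2 := by
      have : 0 < 5 / a₀ := by positivity
      exact pow_le_pow_left₀ (by positivity) h3 2
    have e3 : 0 < (a₀ - 5 / a₀) ^ 2 := by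
      have : 0 < a₀ - 5 / a₀ := by linarith
      positivity
    linarith
  set r := Real.sqrt (lm ^ 2 - 20) with hr
  have hr0 : 0 < r := Real.sqrt_pos.2 (by linarith)
  have hr2 : r ^ 2 = lm ^ 2 - 20 := Real.sq_sqrt (by linarith)
  set a := (lm + r) / 2 with ha
  set b := (lm - r) / 2 with hb
  have hab : a + b = lm := by rw [ha, hb]; ring
  have hab5 : a * b = 5 := by rw [ha, hb]; nlinarith
  have hamb : a - b = r := by rw [ha, hb]; ring
  have haa : a₀ ≤ a := by
    have e : (a₀ - a) * (a₀ - b) ≤ 0 := by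
      have : (a₀ - a) * (a₀ - b) = a₀ ^ 2 - (a + b) * a₀ + a * b := by ring
      rw [this, hab, hab5]; exact h5
    by_contra hcon
    push Not at hcon
    have h6 : 0 < a₀ - a := by linarith
    have h7 : 0 < a₀ - b := by linarith
    nlinarith [mul_pos h6 h7]
  have hapos : 0 < a := lt_of_lt_of_le ha0 haa
  have hbpos : 0 < b := by
    by_contra hcon
    push Not at hcon
    nlinarith
  have hb1 : 1 ≤ b := by
    by_contra hcon
    push Not at hcon
    have h6 : (1 - a) * (1 - b) = 6 - lm := by nlinarith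
    have h7 : 1 < a := by nlinarith
    nlinarith [mul_pos (show 0 < a - 1 by linarith) (show 0 < 1 - b by linarith)]
  have hba : b ≤ a := by linarith
  have closed : ∀ n : ℕ, lam lm (n + 1) * (a - b) = (a ^ 2 - 1) * a ^ n - (b ^ 2 - 1) * b ^ n ∧
      lam lm (n + 2) * (a - b) = (a ^ 2 - 1) * a ^ (n + 1) - (b ^ 2 - 1) * b ^ (n + 1) := by
    intro n
    induction n with
    | zero =>
      constructor
      · simp only [lam]
        rw [← hab]; ring
      · simp only [lam]
        have : (6:ℝ) = a * b + 1 := by rw [hab5]; norm_num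
        rw [this, ← hab]; ring
    | succ n ih =>
      refine ⟨ih.2, ?_⟩
      rw [show lam lm (n + 1 + 2) = lm * lam lm (n + 2) - 5 * lam lm (n + 1) from rfl]
      have e : (lm * lam lm (n + 2) - 5 * lam lm (n + 1)) * (a - b) =
          lm * (lam lm (n + 2) * (a - b)) - 5 * (lam lm (n + 1) * (a - b)) := by ring
      rw [e, ih.1, ih.2, ← hab, ← hab5]
      ring
  obtain ⟨n, rfl⟩ : ∃ n, l = n + 1 := ⟨l - 1, by omega⟩
  have hc := (closed n).1
  have hbn : b ^ n ≤ a ^ n := pow_le_pow_left₀ hbpos.le hba n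
  have h6 : (a + b) * a ^ n * (a - b) ≤ lam lm (n + 1) * (a - b) := by
    rw [hc]
    have : 0 ≤ (b ^ 2 - 1) := by nlinarith
    nlinarith [mul_le_mul_of_nonneg_left hbn this]
  have h7 : (a + b) * a ^ n ≤ lam lm (n + 1) := le_of_mul_le_mul_right h6 (by rw [hamb]; exact hr0)
  calc a₀ ^ (n + 1) ≤ a ^ (n + 1) := pow_le_pow_left₀ ha0.le haa _
    _ = a * a ^ n := by ring
    _ ≤ (a + b) * a ^ n := by
      have : 0 < a ^ n := by positivity
      nlinarith
    _ ≤ _ := h7


end Pool.Agent.Helper557.Rz
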