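import Pool.Agent.Helper557.Rz.Base
import Pool.Agent.Helper557.Rz.Defs
import Pool.Agent.Helper557.Rz.FADefs

set_option autoImplicit false

open MeasureTheory Set
open scoped Quaternion

namespace Pool.Agent.Helper557.Rz


theorem area_id (m x1 y1 x2 y2 x3 y3 : ℤ) (h1 : x1^2+y1^2 = m) (h2 : x2^2+y2^2 = m)
    (h3 : x3^2+y3^2 = m) :
    ((x1-x2)^2+(y1-y2)^2) * ((x2-x3)^2+(y2-y3)^2) * ((x1-x3)^2+(y1-y3)^2) =
      4 * m * ((x2-x1)*(y3-y1) - (x3-x1)*(y2-y1))^2 := by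
  grind

theorem dist_pos_of_ne (p q : ℤ × ℤ) (h : p ≠ q) : 0 < (p.1 - q.1) ^ 2 + (p.2 - q.2) ^ 2 := by
  by_contra hc
  apply h
  have h1 : (p.1 - q.1) ^ 2 = 0 := by nlinarith [sq_nonneg (p.1 - q.1), sq_nonneg (p.2 - q.2)]
  have h2 : (p.2 - q.2) ^ 2 = 0 := by nlinarith [sq_nonneg (p.1 - q.1), sq_nonneg (p.2 - q.2)]
  have h3 : p.1 - q.1 = 0 := by simpa using h1
  have h4 : p.2 - q.2 = 0 := by simpa using h2
  exact Prod.ext (by linarith) (by linarith)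

theorem three_pts (m : ℤ) (hm : 1 ≤ m) (p q r : ℤ × ℤ) (hp : p.1^2+p.2^2 = m)
    (hq : q.1^2+q.2^2 = m) (hr : r.1^2+r.2^2 = m) (hpq : p ≠ q) (hpr : p ≠ r) (hqr : q ≠ r) :
    4 * m ≤ ((p.1 - q.1) ^ 2 + (p.2 - q.2) ^ 2) * ((q.1 - r.1) ^ 2 + (q.2 - r.2) ^ 2) *
      ((p.1 - r.1) ^ 2 + (p.2 - r.2) ^ 2) := by
  have h := area_id m p.1 p.2 q.1 q.2 r.1 r.2 hp hq hr
  have d1 := dist_pos_of_ne p q hpq
  have d2 := dist_pos_of_ne p r hpr
  have d3 := dist_pos_of_ne q r hqr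
  have hpos : 0 < ((p.1 - q.1) ^ 2 + (p.2 - q.2) ^ 2) * ((q.1 - r.1) ^ 2 + (q.2 - r.2) ^ 2) *
      ((p.1 - r.1) ^ 2 + (p.2 - r.2) ^ 2) := by positivity
  rw [h] at hpos ⊢
  have hD : 1 ≤ ((q.1-p.1)*(r.2-p.2) - (r.1-p.1)*(q.2-p.2))^2 := by
    by_contra hc
    have h0 : ((q.1-p.1)*(r.2-p.2) - (r.1-p.1)*(q.2-p.2))^2 = 0 := by
      have := sq_nonneg ((q.1-p.1)*(r.2-p.2) - (r.1-p.1)*(q.2-p.2))
      omega
    rw [h0] at hpos
    simp at hpos
  nlinarith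

theorem lip (m : ℤ) (hm : 1 ≤ m) (p q : ℤ × ℤ) (hp : p.1^2+p.2^2 = m)
    (hq : q.1^2+q.2^2 = m) (hp' : |p.1| ≤ p.2) (hq' : |q.1| ≤ q.2) :
    (p.2 - q.2) ^ 2 ≤ (p.1 - q.1) ^ 2 := by
  have hp0 : 0 ≤ p.2 := le_trans (abs_nonneg _) hp'
  have hq0 : 0 ≤ q.2 := le_trans (abs_nonneg _) hq'
  have hp1 : 0 < p.2 := by
    rcases hp0.lt_or_eq with h | h
    · exact h
    · rw [← h] at hp' hp
      have : p.1 = 0 := abs_eq_zero.mp (le_antisymm hp' (abs_nonneg _))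
      rw [this] at hp
      simp at hp
      omega
  have hs : 0 < p.2 + q.2 := by linarith
  have hsum : (p.1 + q.1) ^ 2 ≤ (p.2 + q.2) ^ 2 := by
    apply sq_le_sq'
    · have := neg_abs_le p.1
      have := neg_abs_le q.1
      linarith
    · have := le_abs_self p.1
      have := le_abs_self q.1
      linarith
  have heq : (p.2 - q.2) ^ 2 * (p.2 + q.2) ^ 2 = (p.1 - q.1) ^ 2 * (p.1 + q.1) ^ 2 := by
    have : (p.2 - q.2) * (p.2 + q.2) = - ((p.1 - q.1) * (p.1 + q.1)) := by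
      have : p.1^2+p.2^2 = q.1^2+q.2^2 := by rw [hp, hq]
      linarith
    calc (p.2 - q.2) ^ 2 * (p.2 + q.2) ^ 2 = ((p.2 - q.2) * (p.2 + q.2)) ^ 2 := by ring
      _ = (p.1 - q.1) ^ 2 * (p.1 + q.1) ^ 2 := by rw [this]; ring
  have hle : (p.2 - q.2) ^ 2 * (p.2 + q.2) ^ 2 ≤ (p.1 - q.1) ^ 2 * (p.2 + q.2) ^ 2 := by
    rw [heq]
    exact mul_le_mul_of_nonneg_left hsum (sq_nonneg _)
  exact le_of_mul_le_mul_right hle (by positivity)

theorem quarter (m : ℕ) (hm : 1 ≤ m) (F : Finset (ℤ × ℤ))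
    (hF : ∀ p ∈ F, p.1 ^ 2 + p.2 ^ 2 = m) (hq : ∀ p ∈ F, |p.1| ≤ p.2) :
    (F.card : ℝ) ≤ 14 * (m : ℝ) ^ (1 / 3 : ℝ) := by
  have hmR : (1 : ℝ) ≤ m := by exact_mod_cast hm
  have hm0 : (0 : ℝ) ≤ m := by linarith
  have hmZ : (1 : ℤ) ≤ (m : ℤ) := by exact_mod_cast hm
  obtain ⟨a, ha⟩ : ∃ a : ℝ, a = (m : ℝ) ^ (1 / 6 : ℝ) := ⟨_, rfl⟩
  have ha1 : 1 ≤ a := by rw [ha]; exact Real.one_le_rpow hmR (by norm_num)
  have ha6 : a ^ 6 = m := by
    rw [ha, ← Real.rpow_natCast, ← Real.rpow_mul hm0]; norm_num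
  have ha2 : a ^ 2 = (m : ℝ) ^ (1 / 3 : ℝ) := by
    rw [ha, ← Real.rpow_natCast, ← Real.rpow_mul hm0]; norm_num
  rw [← ha2]
  obtain ⟨n, hn⟩ : ∃ n : ℕ, n = ⌊a / 2⌋₊ := ⟨_, rfl⟩
  have hn1 : (n : ℝ) ≤ a / 2 := by rw [hn]; exact Nat.floor_le (by linarith)
  have hn2 : a / 2 < n + 1 := by rw [hn]; exact Nat.lt_floor_add_one _
  obtain ⟨K, hK⟩ : ∃ K : ℕ, K = ⌈2 * a ^ 2⌉₊ := ⟨_, rfl⟩
  have hK1 : 2 * a ^ 2 ≤ K := by rw [hK]; exact Nat.le_ceil _
  have hK2 : (K : ℝ) < 2 * a ^ 2 + 1 := by rw [hK]; exact Nat.ceil_lt_add_one (by positivity)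
  have hn6 : 64 * (n : ℤ) ^ 6 ≤ m := by
    have : (64 : ℝ) * (n : ℝ) ^ 6 ≤ m := by
      rw [← ha6]
      calc (64 : ℝ) * (n : ℝ) ^ 6 ≤ 64 * (a / 2) ^ 6 := by gcongr
        _ = a ^ 6 := by ring
    exact_mod_cast this
  have hKh : (m : ℤ) ≤ ((K : ℤ) * (n + 1)) ^ 2 := by
    have : (m : ℝ) ≤ ((K : ℝ) * (n + 1)) ^ 2 := by
      rw [← ha6]
      have h1 : a ^ 3 ≤ (K : ℝ) * (n + 1) := by
        calc a ^ 3 = (2 * a ^ 2) * (a / 2) := by ring
          _ ≤ (K : ℝ) * ((n : ℝ) + 1) := by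
            apply mul_le_mul hK1 hn2.le (by positivity) (by positivity)
      calc a ^ 6 = (a ^ 3) ^ 2 := by ring
        _ ≤ _ := by
          apply pow_le_pow_left₀ (by positivity) h1
    exact_mod_cast this
  have hh : (0 : ℤ) < (n : ℤ) + 1 := by positivity
  have hfib : ∀ b ∈ F.image (fun p => p.1 / ((n : ℤ) + 1)),
      (F.filter (fun p => p.1 / ((n : ℤ) + 1) = b)).card ≤ 2 := by
    intro b _
    by_contra hc
    push Not at hc
    obtain ⟨p, q, r, hp, hq', hr, hpq, hpr, hqr⟩ := Finset.two_lt_card_iff.mp hc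
    rw [Finset.mem_filter] at hp hq' hr
    have key : ∀ x y : ℤ, x / ((n : ℤ) + 1) = b → y / ((n : ℤ) + 1) = b → (x - y) ^ 2 ≤ (n : ℤ) ^ 2 := by
      intro x y hx hy
      have e1 := Int.mul_ediv_add_emod x ((n : ℤ) + 1)
      have e2 := Int.mul_ediv_add_emod y ((n : ℤ) + 1)
      have f1 := Int.emod_nonneg x hh.ne'
      have f2 := Int.emod_nonneg y hh.ne'
      have g1 := Int.emod_lt_of_pos x hh
      have g2 := Int.emod_lt_of_pos y hh
      rw [hx] at e1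
      rw [hy] at e2
      apply sq_le_sq'
      · linarith
      · linarith
    have k1 := key _ _ hp.2 hq'.2
    have k2 := key _ _ hp.2 hr.2
    have k3 := key _ _ hq'.2 hr.2
    have l1 := lip m hmZ p q (hF p hp.1) (hF q hq'.1) (hq p hp.1) (hq q hq'.1)
    have l2 := lip m hmZ p r (hF p hp.1) (hF r hr.1) (hq p hp.1) (hq r hr.1)
    have l3 := lip m hmZ q r (hF q hq'.1) (hF r hr.1) (hq q hq'.1) (hq r hr.1)
    have h3 := three_pts m hmZ p q r (hF p hp.1) (hF q hq'.1) (hF r hr.1) hpq hpr hqr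
    have c1 : (p.1 - q.1) ^ 2 + (p.2 - q.2) ^ 2 ≤ 2 * (n : ℤ) ^ 2 := by linarith
    have c2 : (q.1 - r.1) ^ 2 + (q.2 - r.2) ^ 2 ≤ 2 * (n : ℤ) ^ 2 := by linarith
    have c3 : (p.1 - r.1) ^ 2 + (p.2 - r.2) ^ 2 ≤ 2 * (n : ℤ) ^ 2 := by linarith
    have hprod : ((p.1 - q.1) ^ 2 + (p.2 - q.2) ^ 2) * ((q.1 - r.1) ^ 2 + (q.2 - r.2) ^ 2) *
      ((p.1 - r.1) ^ 2 + (p.2 - r.2) ^ 2) ≤ (2 * (n : ℤ) ^ 2) * (2 * (n : ℤ) ^ 2) * (2 * (n : ℤ) ^ 2) := by
      apply mul_le_mul (mul_le_mul c1 c2 (by positivity) (by positivity)) c3 (by positivity) (by positivity)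
    have : (2 * (n : ℤ) ^ 2) * (2 * (n : ℤ) ^ 2) * (2 * (n : ℤ) ^ 2) = 8 * (n : ℤ) ^ 6 := by ring
    rw [this] at hprod
    linarith
  have hcard := Finset.card_le_mul_card_image F 2 hfib
  have himg : (F.image (fun p => p.1 / ((n : ℤ) + 1))) ⊆ Finset.Icc (-(K : ℤ)) K := by
    intro b hb
    obtain ⟨p, hp, rfl⟩ := Finset.mem_image.mp hb
    have h1 : p.1 ^ 2 ≤ ((K : ℤ) * (n + 1)) ^ 2 := by
      have := hF p hp
      nlinarith [sq_nonneg p.2]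
    have h2 : |p.1| ≤ (K : ℤ) * (n + 1) := abs_le_of_sq_le_sq h1 (by positivity)
    rw [abs_le] at h2
    rw [Finset.mem_Icc]
    constructor
    · apply Int.le_ediv_of_mul_le hh
      linarith [h2.1]
    · apply Int.ediv_le_of_le_mul hh
      exact h2.2
  have hcard2 := Finset.card_le_card himg
  rw [Int.card_Icc] at hcard2
  have hKcard : ((K : ℤ) + 1 - -(K : ℤ)).toNat = 2 * K + 1 := by omega
  rw [hKcard] at hcard2
  have h4 : F.card ≤ 2 * (2 * K + 1) := hcard.trans (Nat.mul_le_mul_left 2 hcard2)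
  have h5 : (F.card : ℝ) ≤ 2 * (2 * K + 1) := by exact_mod_cast h4
  nlinarith

theorem r2_aux (m : ℕ) (hm : 1 ≤ m) (F : Finset (ℤ × ℤ))
    (hF : ∀ p ∈ F, p.1 ^ 2 + p.2 ^ 2 = m) : (F.card : ℝ) ≤ 56 * (m : ℝ) ^ (1 / 3 : ℝ) := by
  classical
  let F1 := F.filter (fun p => |p.1| ≤ p.2)
  let F2 := F.filter (fun p => |p.1| ≤ -p.2)
  let F3 := F.filter (fun p => |p.2| ≤ p.1)
  let F4 := F.filter (fun p => |p.2| ≤ -p.1)
  have hsub : F ⊆ F1 ∪ F2 ∪ F3 ∪ F4 := by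
    intro p hp
    simp only [F1, F2, F3, F4, Finset.mem_union, Finset.mem_filter]
    rcases le_total |p.1| |p.2| with h | h
    · rcases le_total 0 p.2 with h2 | h2
      · rw [abs_of_nonneg h2] at h; tauto
      · rw [abs_of_nonpos h2] at h; tauto
    · rcases le_total 0 p.1 with h2 | h2
      · rw [abs_of_nonneg h2] at h; tauto
      · rw [abs_of_nonpos h2] at h; tauto
  have hc : F.card ≤ F1.card + F2.card + F3.card + F4.card := by
    refine (Finset.card_le_card hsub).trans ?_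
    refine (Finset.card_union_le _ _).trans ?_
    gcongr
    refine (Finset.card_union_le _ _).trans ?_
    gcongr
    exact Finset.card_union_le _ _
  have q1 : (F1.card : ℝ) ≤ 14 * (m : ℝ) ^ (1 / 3 : ℝ) := by
    apply quarter m hm F1
    · intro p hp; exact hF p (Finset.mem_filter.mp hp).1
    · intro p hp; exact (Finset.mem_filter.mp hp).2
  have q2 : (F2.card : ℝ) ≤ 14 * (m : ℝ) ^ (1 / 3 : ℝ) := by
    have hi : Function.Injective (fun p : ℤ × ℤ => ((p.1, -p.2) : ℤ × ℤ)) := by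
      intro p q h; simp at h; exact Prod.ext h.1 h.2
    rw [← Finset.card_image_of_injective F2 hi]
    apply quarter m hm
    · intro p hp
      obtain ⟨q, hq, rfl⟩ := Finset.mem_image.mp hp
      have := hF q (Finset.mem_filter.mp hq).1
      simpa using this
    · intro p hp
      obtain ⟨q, hq, rfl⟩ := Finset.mem_image.mp hp
      exact (Finset.mem_filter.mp hq).2
  have q3 : (F3.card : ℝ) ≤ 14 * (m : ℝ) ^ (1 / 3 : ℝ) := by
    have hi : Function.Injective (fun p : ℤ × ℤ => ((p.2, p.1) : ℤ × ℤ)) := by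
      intro p q h; simp at h; exact Prod.ext h.2 h.1
    rw [← Finset.card_image_of_injective F3 hi]
    apply quarter m hm
    · intro p hp
      obtain ⟨q, hq, rfl⟩ := Finset.mem_image.mp hp
      have := hF q (Finset.mem_filter.mp hq).1
      show q.2 ^ 2 + q.1 ^ 2 = m
      linarith
    · intro p hp
      obtain ⟨q, hq, rfl⟩ := Finset.mem_image.mp hp
      exact (Finset.mem_filter.mp hq).2
  have q4 : (F4.card : ℝ) ≤ 14 * (m : ℝ) ^ (1 / 3 : ℝ) := by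
    have hi : Function.Injective (fun p : ℤ × ℤ => ((p.2, -p.1) : ℤ × ℤ)) := by
      intro p q h; simp at h; exact Prod.ext h.2 h.1
    rw [← Finset.card_image_of_injective F4 hi]
    apply quarter m hm
    · intro p hp
      obtain ⟨q, hq, rfl⟩ := Finset.mem_image.mp hp
      have := hF q (Finset.mem_filter.mp hq).1
      show q.2 ^ 2 + (-q.1) ^ 2 = m
      rw [neg_sq]; linarith
    · intro p hp
      obtain ⟨q, hq, rfl⟩ := Finset.mem_image.mp hp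
      exact (Finset.mem_filter.mp hq).2
  have hcR : (F.card : ℝ) ≤ F1.card + F2.card + F3.card + F4.card := by exact_mod_cast hc
  linarith

theorem r2_bound : ∃ C : ℝ, 0 < C ∧ ∀ (m : ℕ), 1 ≤ m → ∀ F : Finset (ℤ × ℤ),
    (∀ p ∈ F, p.1 ^ 2 + p.2 ^ 2 = m) → (F.card : ℝ) ≤ C * (m : ℝ) ^ (1 / 3 : ℝ) :=
  ⟨56, by norm_num, fun m hm F hF => r2_aux m hm F hF⟩

theorem r3_bound : ∃ C : ℝ, 0 < C ∧ ∀ (m : ℕ), 1 ≤ m → ∀ F : Finset (ℤ × ℤ × ℤ),
    (∀ p ∈ F, p.1 ^ 2 + p.2.1 ^ 2 + p.2.2 ^ 2 = m) → (F.card : ℝ) ≤ C * (m : ℝ) ^ (5 / 6 : ℝ) := by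
  classical
  refine ⟨3 * 56, by norm_num, fun m hm F hF => ?_⟩
  have hmR : (1 : ℝ) ≤ m := by exact_mod_cast hm
  have hm0 : (0 : ℝ) ≤ m := by linarith
  have h13 : 1 ≤ (m : ℝ) ^ (1 / 3 : ℝ) := Real.one_le_rpow hmR (by norm_num)
  obtain ⟨n, hn⟩ : ∃ n : ℕ, n = ⌊56 * (m : ℝ) ^ (1 / 3 : ℝ)⌋₊ := ⟨_, rfl⟩
  have hn1 : (n : ℝ) ≤ 56 * (m : ℝ) ^ (1 / 3 : ℝ) := by rw [hn]; exact Nat.floor_le (by positivity)
  have hfib : ∀ b ∈ F.image (fun p => p.1), (F.filter (fun p => p.1 = b)).card ≤ n := by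
    intro b hb
    obtain ⟨p0, hp0, rfl⟩ := Finset.mem_image.mp hb
    have e0 := hF p0 hp0
    rw [hn]
    apply Nat.le_floor
    have hinj : Set.InjOn (fun p : ℤ × ℤ × ℤ => p.2) (F.filter (fun p => p.1 = p0.1) : Finset (ℤ × ℤ × ℤ)) := by
      intro p hp q hq h
      have hp' := (Finset.mem_filter.mp (Finset.mem_coe.mp hp)).2
      have hq' := (Finset.mem_filter.mp (Finset.mem_coe.mp hq)).2
      exact Prod.ext (hp'.trans hq'.symm) h
    rw [← Finset.card_image_of_injOn hinj]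
    have him : ∀ y ∈ (F.filter (fun p => p.1 = p0.1)).image (fun p : ℤ × ℤ × ℤ => p.2),
        y.1 ^ 2 + y.2 ^ 2 = (m : ℤ) - p0.1 ^ 2 := by
      intro y hy
      obtain ⟨q, hq, rfl⟩ := Finset.mem_image.mp hy
      rw [Finset.mem_filter] at hq
      have := hF q hq.1
      rw [hq.2] at this
      linarith
    have hnn : 0 ≤ (m : ℤ) - p0.1 ^ 2 := by nlinarith [sq_nonneg p0.2.1, sq_nonneg p0.2.2]
    rcases hnn.lt_or_eq with hpos | hzero
    · obtain ⟨k, hk⟩ := Int.eq_ofNat_of_zero_le hnn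
      have hk1 : 1 ≤ k := by omega
      have hkm : (k : ℝ) ≤ m := by
        have : (k : ℤ) ≤ m := by
          rw [← hk]; nlinarith [sq_nonneg p0.1]
        exact_mod_cast this
      have := r2_aux k hk1 _ (fun y hy => (him y hy).trans hk)
      refine this.trans ?_
      gcongr
    · have hone : ((F.filter (fun p => p.1 = p0.1)).image (fun p : ℤ × ℤ × ℤ => p.2)).card ≤ 1 := by
        rw [Finset.card_le_one]
        intro y hy z hz
        have h1 := him y hy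
        have h2 := him z hz
        rw [← hzero] at h1 h2
        have y1 : y.1 = 0 := by
          have : y.1 ^ 2 = 0 := by nlinarith [sq_nonneg y.1, sq_nonneg y.2]
          simpa using this
        have y2 : y.2 = 0 := by
          have : y.2 ^ 2 = 0 := by nlinarith [sq_nonneg y.1, sq_nonneg y.2]
          simpa using this
        have z1 : z.1 = 0 := by
          have : z.1 ^ 2 = 0 := by nlinarith [sq_nonneg z.1, sq_nonneg z.2]
          simpa using this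
        have z2 : z.2 = 0 := by
          have : z.2 ^ 2 = 0 := by nlinarith [sq_nonneg z.1, sq_nonneg z.2]
          simpa using this
        exact Prod.ext (y1.trans z1.symm) (y2.trans z2.symm)
      have : (((F.filter (fun p => p.1 = p0.1)).image (fun p : ℤ × ℤ × ℤ => p.2)).card : ℝ) ≤ 1 := by
        exact_mod_cast hone
      linarith
  have hcard := Finset.card_le_mul_card_image F n hfib
  have himg : (F.image (fun p => p.1)) ⊆ Finset.Icc (-(Nat.sqrt m : ℤ)) (Nat.sqrt m) := by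
    intro b hb
    obtain ⟨p, hp, rfl⟩ := Finset.mem_image.mp hb
    have h1 : p.1 ^ 2 ≤ (m : ℤ) := by
      have := hF p hp
      nlinarith [sq_nonneg p.2.1, sq_nonneg p.2.2]
    have h2 : p.1.natAbs ≤ Nat.sqrt m := by
      rw [Nat.le_sqrt']
      have : ((p.1.natAbs ^ 2 : ℕ) : ℤ) ≤ m := by
        push_cast
        rw [sq_abs]
        exact h1
      exact_mod_cast this
    rw [Finset.mem_Icc]
    omega
  have hcard2 := Finset.card_le_card himg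
  rw [Int.card_Icc] at hcard2
  have hKcard : ((Nat.sqrt m : ℤ) + 1 - -(Nat.sqrt m : ℤ)).toNat = 2 * Nat.sqrt m + 1 := by omega
  rw [hKcard] at hcard2
  have h4 : F.card ≤ n * (2 * Nat.sqrt m + 1) := hcard.trans (Nat.mul_le_mul_left n hcard2)
  have h5 : (F.card : ℝ) ≤ n * (2 * Nat.sqrt m + 1) := by exact_mod_cast h4
  have h6 : (Nat.sqrt m : ℝ) ≤ √(m : ℝ) := Real.nat_sqrt_le_real_sqrt
  have h7 : 1 ≤ √(m : ℝ) := Real.one_le_sqrt.mpr hmR
  have h8 : (2 * (Nat.sqrt m : ℝ) + 1) ≤ 3 * √(m : ℝ) := by linarith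
  calc (F.card : ℝ) ≤ n * (2 * Nat.sqrt m + 1) := h5
    _ ≤ (56 * (m : ℝ) ^ (1 / 3 : ℝ)) * (3 * √(m : ℝ)) := by
        apply mul_le_mul hn1 h8 (by positivity) (by positivity)
    _ = 3 * 56 * (m : ℝ) ^ (5 / 6 : ℝ) := by
        rw [Real.sqrt_eq_rpow]
        have : (m : ℝ) ^ (5 / 6 : ℝ) = (m : ℝ) ^ (1 / 3 : ℝ) * (m : ℝ) ^ (1 / 2 : ℝ) := by
          rw [← Real.rpow_add (by linarith)]; norm_num
        rw [this]; ring


end Pool.Agent.Helper557.Rz
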