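import Pool.Agent.Helper557.Rz.Base
import Pool.Agent.Helper557.Rz.Defs
import Pool.Agent.Helper557.Rz.FADefs
import Pool.Agent.Helper557.Rz.M_r2

set_option autoImplicit false

open MeasureTheory Set
open scoped Quaternion

namespace Pool.Agent.Helper557.Rz


theorem dk_step (j : ℕ) (hj : 1 ≤ j) :
    ((j + 1 : ℕ) : ℝ) ^ (-(7 / 6) : ℝ) ≤
      6 * ((j : ℝ) ^ (-(1 / 6) : ℝ) - ((j + 1 : ℕ) : ℝ) ^ (-(1 / 6) : ℝ)) := by
  have hj0 : (0 : ℝ) < j := by exact_mod_cast hj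
  set y : ℝ := ((j + 1 : ℕ) : ℝ) with hy
  have hyj : y = j + 1 := by rw [hy]; push_cast; ring
  have hy0 : 0 < y := by rw [hyj]; linarith
  have hp0 : 0 < y ^ (1 / 6 : ℝ) := Real.rpow_pos_of_pos hy0 _
  have hq0 : 0 < (j : ℝ) ^ (1 / 6 : ℝ) := Real.rpow_pos_of_pos hj0 _
  have h1y : 1 / y < 1 := by
    rw [div_lt_one hy0, hyj]; linarith
  have hq : (j : ℝ) ^ (1 / 6 : ℝ) ≤ y ^ (1 / 6 : ℝ) * (1 - 1 / (6 * y)) := by
    have e : (j : ℝ) = y * (1 + (-(1 / y))) := by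
      field_simp
      rw [hyj]; ring
    rw [e, Real.mul_rpow hy0.le (by linarith)]
    apply mul_le_mul_of_nonneg_left _ hp0.le
    have := rpow_one_add_le_one_add_mul_self (s := -(1 / y)) (p := 1 / 6) (by linarith)
      (by norm_num) (by norm_num)
    refine this.trans (le_of_eq ?_)
    field_simp
    ring
  have hz : 0 < 1 - 1 / (6 * y) := by
    have : 1 / (6 * y) < 1 := by
      rw [div_lt_one (by positivity), hyj]; linarith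
    linarith
  have e1 : (j : ℝ) ^ (-(1 / 6) : ℝ) = ((j : ℝ) ^ (1 / 6 : ℝ))⁻¹ := Real.rpow_neg hj0.le _
  have e2 : y ^ (-(1 / 6) : ℝ) = (y ^ (1 / 6 : ℝ))⁻¹ := Real.rpow_neg hy0.le _
  have e3 : y ^ (-(7 / 6) : ℝ) = (y ^ (1 / 6 : ℝ))⁻¹ * y⁻¹ := by
    rw [← e2, ← Real.rpow_neg_one y, ← Real.rpow_add hy0]
    norm_num
  rw [e1, e2, e3]
  have h2 : (y ^ (1 / 6 : ℝ) * (1 - 1 / (6 * y)))⁻¹ ≤ ((j : ℝ) ^ (1 / 6 : ℝ))⁻¹ :=
    inv_anti₀ hq0 hq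
  have h3 : (y ^ (1 / 6 : ℝ))⁻¹ * (1 + 1 / (6 * y)) ≤
      (y ^ (1 / 6 : ℝ) * (1 - 1 / (6 * y)))⁻¹ := by
    rw [mul_inv]
    apply mul_le_mul_of_nonneg_left _ (inv_nonneg.2 hp0.le)
    rw [le_inv_comm₀ (by positivity) hz]
    rw [inv_eq_one_div, le_div_iff₀ (by positivity)]
    have : 0 ≤ (1 / (6 * y)) ^ 2 := sq_nonneg _
    nlinarith
  have h4 : (y ^ (1 / 6 : ℝ))⁻¹ * (1 + 1 / (6 * y)) =
      (y ^ (1 / 6 : ℝ))⁻¹ + (y ^ (1 / 6 : ℝ))⁻¹ * y⁻¹ / 6 := by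
    field_simp
  linarith

theorem dk_tail (J : ℕ) (hJ : 1 ≤ J) (m : ℕ) :
    ∑ j ∈ Finset.Ioc J m, (j : ℝ) ^ (-(7 / 6) : ℝ) ≤ 6 * (J : ℝ) ^ (-(1 / 6) : ℝ) := by
  have hJ0 : (0 : ℝ) ≤ (J : ℝ) ^ (-(1 / 6) : ℝ) := by positivity
  rcases lt_or_ge m J with h | h
  · rw [Finset.Ioc_eq_empty_of_le h.le, Finset.sum_empty]
    positivity
  · have key : ∑ j ∈ Finset.Ioc J m, (j : ℝ) ^ (-(7 / 6) : ℝ) ≤
        6 * ((J : ℝ) ^ (-(1 / 6) : ℝ) - (m : ℝ) ^ (-(1 / 6) : ℝ)) := by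
      induction m, h using Nat.le_induction with
      | base => simp
      | succ m hm ih =>
        rw [Finset.sum_Ioc_succ_top hm]
        have := dk_step m (hJ.trans hm)
        linarith
    have hm0 : (0 : ℝ) ≤ (m : ℝ) ^ (-(1 / 6) : ℝ) := by positivity
    linarith

theorem dk_sum {A x : ℝ} (hA : 1 ≤ A) (hx : 0 < x) (m : ℕ) :
    ∑ j ∈ Finset.Icc 1 m, (j : ℝ) ^ (5 / 6 : ℝ) * min A ((3 / 2) * x ^ 2 / (j : ℝ) ^ 2) ≤
      4 * (A + 9) * (1 + x ^ (11 / 6 : ℝ)) := by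
  have hA0 : 0 ≤ A := by linarith
  set J : ℕ := ⌈x⌉₊ with hJ
  have hJ1 : 1 ≤ J := Nat.one_le_ceil_iff.2 hx
  have hJr : (1 : ℝ) ≤ J := by exact_mod_cast hJ1
  have hJ0 : (0 : ℝ) < J := by linarith
  have hxJ : x ≤ J := Nat.le_ceil x
  have hJx : (J : ℝ) ≤ x + 1 := (Nat.ceil_lt_add_one hx.le).le
  have h1 : ∑ j ∈ (Finset.Icc 1 m).filter (fun j => j ≤ J),
      (j : ℝ) ^ (5 / 6 : ℝ) * min A ((3 / 2) * x ^ 2 / (j : ℝ) ^ 2) ≤
      A * (J : ℝ) ^ (11 / 6 : ℝ) := by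
    have hterm : ∀ j ∈ (Finset.Icc 1 m).filter (fun j => j ≤ J),
        (j : ℝ) ^ (5 / 6 : ℝ) * min A ((3 / 2) * x ^ 2 / (j : ℝ) ^ 2) ≤
        (J : ℝ) ^ (5 / 6 : ℝ) * A := by
      intro j hj
      rw [Finset.mem_filter] at hj
      apply mul_le_mul
      · apply Real.rpow_le_rpow (by positivity) _ (by norm_num)
        exact_mod_cast hj.2
      · exact min_le_left _ _
      · apply le_min hA0; positivity
      · positivity
    refine (Finset.sum_le_sum hterm).trans ?_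
    rw [Finset.sum_const, nsmul_eq_mul]
    have hcard : ((Finset.Icc 1 m).filter (fun j => j ≤ J)).card ≤ J := by
      have hsub : (Finset.Icc 1 m).filter (fun j => j ≤ J) ⊆ Finset.Icc 1 J := by
        intro j hj
        rw [Finset.mem_filter, Finset.mem_Icc] at hj
        exact Finset.mem_Icc.2 ⟨hj.1.1, hj.2⟩
      have := Finset.card_le_card hsub
      simpa using this
    have hcr : (((Finset.Icc 1 m).filter (fun j => j ≤ J)).card : ℝ) ≤ J := by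
      exact_mod_cast hcard
    have e : (J : ℝ) ^ (11 / 6 : ℝ) = (J : ℝ) * (J : ℝ) ^ (5 / 6 : ℝ) := by
      nth_rewrite 2 [← Real.rpow_one (J : ℝ)]
      rw [← Real.rpow_add hJ0]
      norm_num
    rw [e]
    calc (((Finset.Icc 1 m).filter (fun j => j ≤ J)).card : ℝ) * ((J : ℝ) ^ (5 / 6 : ℝ) * A)
        ≤ J * ((J : ℝ) ^ (5 / 6 : ℝ) * A) :=
          mul_le_mul_of_nonneg_right hcr (by positivity)
      _ = A * ((J : ℝ) * (J : ℝ) ^ (5 / 6 : ℝ)) := by ring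
  have h2 : ∑ j ∈ (Finset.Icc 1 m).filter (fun j => ¬ j ≤ J),
      (j : ℝ) ^ (5 / 6 : ℝ) * min A ((3 / 2) * x ^ 2 / (j : ℝ) ^ 2) ≤
      9 * (J : ℝ) ^ (11 / 6 : ℝ) := by
    have hterm : ∀ j ∈ (Finset.Icc 1 m).filter (fun j => ¬ j ≤ J),
        (j : ℝ) ^ (5 / 6 : ℝ) * min A ((3 / 2) * x ^ 2 / (j : ℝ) ^ 2) ≤
        (3 / 2) * x ^ 2 * (j : ℝ) ^ (-(7 / 6) : ℝ) := by
      intro j hj
      rw [Finset.mem_filter, Finset.mem_Icc] at hj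
      have hj0 : (0 : ℝ) < j := by exact_mod_cast hj.1.1
      calc (j : ℝ) ^ (5 / 6 : ℝ) * min A ((3 / 2) * x ^ 2 / (j : ℝ) ^ 2)
          ≤ (j : ℝ) ^ (5 / 6 : ℝ) * ((3 / 2) * x ^ 2 / (j : ℝ) ^ 2) :=
            mul_le_mul_of_nonneg_left (min_le_right _ _) (by positivity)
        _ = (3 / 2) * x ^ 2 * ((j : ℝ) ^ (5 / 6 : ℝ) * ((j : ℝ) ^ 2)⁻¹) := by
            rw [div_eq_mul_inv]; ring
        _ = (3 / 2) * x ^ 2 * (j : ℝ) ^ (-(7 / 6) : ℝ) := by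
            congr 1
            have : ((j : ℝ) ^ 2)⁻¹ = (j : ℝ) ^ (-2 : ℝ) := by
              rw [Real.rpow_neg hj0.le]
              norm_num
            rw [this, ← Real.rpow_add hj0]
            norm_num
    refine (Finset.sum_le_sum hterm).trans ?_
    rw [← Finset.mul_sum]
    have hset : (Finset.Icc 1 m).filter (fun j => ¬ j ≤ J) ⊆ Finset.Ioc J m := by
      intro j hj
      rw [Finset.mem_filter, Finset.mem_Icc] at hj
      exact Finset.mem_Ioc.2 ⟨not_le.1 hj.2, hj.1.2⟩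
    have h3 : ∑ j ∈ (Finset.Icc 1 m).filter (fun j => ¬ j ≤ J), (j : ℝ) ^ (-(7 / 6) : ℝ) ≤
        6 * (J : ℝ) ^ (-(1 / 6) : ℝ) :=
      (Finset.sum_le_sum_of_subset_of_nonneg hset fun j _ _ => by positivity).trans
        (dk_tail J hJ1 m)
    have e : (J : ℝ) ^ (11 / 6 : ℝ) = (J : ℝ) ^ 2 * (J : ℝ) ^ (-(1 / 6) : ℝ) := by
      rw [← Real.rpow_natCast, ← Real.rpow_add hJ0]
      norm_num
    rw [e]
    have hx2 : x ^ 2 ≤ (J : ℝ) ^ 2 := pow_le_pow_left₀ hx.le hxJ 2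
    have hJn : (0 : ℝ) ≤ (J : ℝ) ^ (-(1 / 6) : ℝ) := by positivity
    calc (3 / 2) * x ^ 2 * ∑ j ∈ (Finset.Icc 1 m).filter (fun j => ¬ j ≤ J),
          (j : ℝ) ^ (-(7 / 6) : ℝ)
        ≤ (3 / 2) * x ^ 2 * (6 * (J : ℝ) ^ (-(1 / 6) : ℝ)) :=
          mul_le_mul_of_nonneg_left h3 (by positivity)
      _ ≤ (3 / 2) * (J : ℝ) ^ 2 * (6 * (J : ℝ) ^ (-(1 / 6) : ℝ)) := by
          apply mul_le_mul_of_nonneg_right _ (by positivity)
          linarith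
      _ = 9 * ((J : ℝ) ^ 2 * (J : ℝ) ^ (-(1 / 6) : ℝ)) := by ring
  rw [← Finset.sum_filter_add_sum_filter_not (Finset.Icc 1 m) (fun j => j ≤ J)]
  have h4 : (J : ℝ) ^ (11 / 6 : ℝ) ≤ 4 * (1 + x ^ (11 / 6 : ℝ)) := by
    have h5 : (J : ℝ) ≤ 2 * max 1 x := by
      have := le_max_left 1 x
      have := le_max_right 1 x
      linarith
    have h6 : (J : ℝ) ^ (11 / 6 : ℝ) ≤ (2 * max 1 x) ^ (11 / 6 : ℝ) :=
      Real.rpow_le_rpow hJ0.le h5 (by norm_num)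
    have h7 : (2 * max 1 x) ^ (11 / 6 : ℝ) = (2 : ℝ) ^ (11 / 6 : ℝ) * (max 1 x) ^ (11 / 6 : ℝ) :=
      Real.mul_rpow (by norm_num) (by positivity)
    have h8 : (2 : ℝ) ^ (11 / 6 : ℝ) ≤ 4 := by
      calc (2 : ℝ) ^ (11 / 6 : ℝ) ≤ (2 : ℝ) ^ (2 : ℝ) :=
            Real.rpow_le_rpow_of_exponent_le (by norm_num) (by norm_num)
        _ = 4 := by norm_num
    have h9 : (max 1 x) ^ (11 / 6 : ℝ) ≤ 1 + x ^ (11 / 6 : ℝ) := by
      rcases le_total 1 x with h | h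
      · rw [max_eq_right h]; linarith
      · rw [max_eq_left h, Real.one_rpow]
        have : 0 ≤ x ^ (11 / 6 : ℝ) := by positivity
        linarith
    calc (J : ℝ) ^ (11 / 6 : ℝ) ≤ (2 : ℝ) ^ (11 / 6 : ℝ) * (max 1 x) ^ (11 / 6 : ℝ) := by
          rw [← h7]; exact h6
      _ ≤ 4 * (1 + x ^ (11 / 6 : ℝ)) :=
          mul_le_mul h8 h9 (by positivity) (by norm_num)
  have h10 : (A + 9) * (J : ℝ) ^ (11 / 6 : ℝ) ≤ (A + 9) * (4 * (1 + x ^ (11 / 6 : ℝ))) :=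
    mul_le_mul_of_nonneg_left h4 (by linarith)
  linarith

theorem dk_natAbs (m : ℕ) (φ : ℕ → ℝ) (hφ : ∀ i, 0 ≤ φ i) :
    ∑ a ∈ Finset.Icc (-(m : ℤ)) m, φ a.natAbs ≤ 2 * ∑ i ∈ Finset.range (m + 1), φ i := by
  have hmaps : ∀ a ∈ Finset.Icc (-(m : ℤ)) m, a.natAbs ∈ Finset.range (m + 1) := by
    intro a ha
    rw [Finset.mem_Icc] at ha
    rw [Finset.mem_range]
    omega
  rw [← Finset.sum_fiberwise_of_maps_to hmaps, Finset.mul_sum]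
  refine Finset.sum_le_sum fun i _ => ?_
  have h1 : ∑ a ∈ (Finset.Icc (-(m : ℤ)) m).filter (fun a => a.natAbs = i), φ a.natAbs =
      ∑ _a ∈ (Finset.Icc (-(m : ℤ)) m).filter (fun a => a.natAbs = i), φ i := by
    refine Finset.sum_congr rfl fun a ha => ?_
    rw [(Finset.mem_filter.1 ha).2]
  rw [h1, Finset.sum_const, nsmul_eq_mul]
  apply mul_le_mul_of_nonneg_right _ (hφ i)
  have hsub : (Finset.Icc (-(m : ℤ)) m).filter (fun a => a.natAbs = i) ⊆ {(i : ℤ), -(i : ℤ)} := by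
    intro a ha
    rw [Finset.mem_filter] at ha
    rw [Finset.mem_insert, Finset.mem_singleton]
    omega
  have := (Finset.card_le_card hsub).trans Finset.card_le_two
  exact_mod_cast this

/-- one fibre -/
theorem dk_fibre {C3 : ℝ} (hC3 : 0 < C3)
    (h3 : ∀ (m : ℕ), 1 ≤ m → ∀ F : Finset (ℤ × ℤ × ℤ),
      (∀ p ∈ F, p.1 ^ 2 + p.2.1 ^ 2 + p.2.2 ^ 2 = m) → (F.card : ℝ) ≤ C3 * (m : ℝ) ^ (5 / 6 : ℝ))
    {A : ℝ} (hA : 1 ≤ A) (k N : ℕ) (hN : 1 ≤ N) (a : ℤ) (i : ℕ) (hi : a.natAbs = i)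
    (hik : i < 5 ^ k) :
    ∑ p ∈ (QQ k).filter (fun p => p.1 = a),
      BB A N (((p.2.1 ^ 2 + p.2.2.1 ^ 2 + p.2.2.2 ^ 2 : ℤ) : ℝ) / 25 ^ k) ≤
      C3 * (2 * (5 : ℝ) ^ k) ^ (5 / 6 : ℝ) * N * (((5 ^ k - i : ℕ) : ℝ) ^ (5 / 6 : ℝ) *
        min A ((3 / 2) * ((5 : ℝ) ^ k / N) ^ 2 / ((5 ^ k - i : ℕ) : ℝ) ^ 2)) := by
  have hNr : (1 : ℝ) ≤ N := by exact_mod_cast hN
  have hN0 : (0 : ℝ) < N := by linarith
  set R : ℝ := (5 : ℝ) ^ k with hR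
  have hR0 : 0 < R := by positivity
  have hR2 : (25 : ℝ) ^ k = R ^ 2 := by
    rw [hR, ← pow_mul, mul_comm, pow_mul]; norm_num
  set j : ℕ := 5 ^ k - i with hj
  have hj1 : 1 ≤ j := by omega
  have hjr : (1 : ℝ) ≤ j := by exact_mod_cast hj1
  have hj0 : (0 : ℝ) < j := by linarith
  have hjR : (j : ℝ) = R - i := by
    rw [hj, Nat.cast_sub hik.le, hR]; push_cast; ring
  have hjle : (j : ℝ) ≤ R := by
    rw [hjR]; linarith [show (0 : ℝ) ≤ i by positivity]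
  have ha2 : (a : ℤ) ^ 2 = (i : ℤ) ^ 2 := by
    rw [← hi, Int.natCast_natAbs, sq_abs]
  have hlt : (i : ℤ) ^ 2 < 25 ^ k := by
    have h5 : (i : ℤ) < 5 ^ k := by exact_mod_cast hik
    have h25 : (25 : ℤ) ^ k = (5 ^ k) ^ 2 := by
      rw [← pow_mul, mul_comm, pow_mul]; norm_num
    rw [h25]
    exact pow_lt_pow_left₀ h5 (by positivity) (by norm_num)
  obtain ⟨M, hM⟩ : ∃ M : ℕ, (M : ℤ) = 25 ^ k - (i : ℤ) ^ 2 :=
    ⟨(25 ^ k - (i : ℤ) ^ 2).toNat, Int.toNat_of_nonneg (by linarith)⟩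
  have hM1 : 1 ≤ M := by
    have : (1 : ℤ) ≤ M := by rw [hM]; linarith
    exact_mod_cast this
  have hMr : (M : ℝ) = j * (2 * R - j) := by
    have h1 : ((M : ℤ) : ℝ) = ((25 ^ k - (i : ℤ) ^ 2 : ℤ) : ℝ) := by rw [hM]
    push_cast at h1
    rw [h1, hR2, hjR]
    ring
  have hMlow : j * R ≤ (M : ℝ) := by
    rw [hMr]
    apply mul_le_mul_of_nonneg_left _ hj0.le
    linarith
  have hMup : (M : ℝ) ≤ 2 * R * j := by
    rw [hMr]
    nlinarith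
  have hfil : ∀ p ∈ (QQ k).filter (fun p => p.1 = a),
      p.2.1 ^ 2 + p.2.2.1 ^ 2 + p.2.2.2 ^ 2 = (M : ℤ) := by
    intro p hp
    rw [Finset.mem_filter] at hp
    have h1 := hp.1
    rw [QQ, Finset.mem_filter] at h1
    have h2 := h1.2
    rw [hp.2, ha2] at h2
    rw [hM]
    linarith
  have hcard : (((QQ k).filter (fun p => p.1 = a)).card : ℝ) ≤ C3 * (M : ℝ) ^ (5 / 6 : ℝ) := by
    have hinj : Set.InjOn (fun p : ℤ × ℤ × ℤ × ℤ => p.2)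
        ((QQ k).filter (fun p => p.1 = a) : Set (ℤ × ℤ × ℤ × ℤ)) := by
      intro p hp q hq h
      have hp1 := (Finset.mem_filter.1 (Finset.mem_coe.1 hp)).2
      have hq1 := (Finset.mem_filter.1 (Finset.mem_coe.1 hq)).2
      exact Prod.ext (hp1.trans hq1.symm) h
    rw [← Finset.card_image_of_injOn hinj]
    apply h3 M hM1
    intro q hq
    rw [Finset.mem_image] at hq
    obtain ⟨p, hp, rfl⟩ := hq
    exact hfil p hp
  have hs : ∀ p ∈ (QQ k).filter (fun p => p.1 = a),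
      BB A N (((p.2.1 ^ 2 + p.2.2.1 ^ 2 + p.2.2.2 ^ 2 : ℤ) : ℝ) / 25 ^ k) ≤
      N * min A ((3 / 2) * (R / N) ^ 2 / (j : ℝ) ^ 2) := by
    intro p hp
    rw [hfil p hp, hR2]
    have hM0 : (0 : ℝ) < ((M : ℤ) : ℝ) := by exact_mod_cast hM1
    have hspos : 0 < ((M : ℤ) : ℝ) / R ^ 2 := by positivity
    rw [BB, if_neg (not_le.2 hspos)]
    rw [mul_min_of_nonneg _ _ hN0.le]
    apply min_le_min
    · rw [mul_comm]
    · have h4 : (j : ℝ) / R ≤ ((M : ℤ) : ℝ) / R ^ 2 := by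
        rw [div_le_div_iff₀ hR0 (by positivity)]
        have : (j : ℝ) * R ≤ ((M : ℤ) : ℝ) := by
          push_cast; exact hMlow
        nlinarith
      have h5 : (3 / 2) / (N * (((M : ℤ) : ℝ) / R ^ 2) ^ 2) ≤ (3 / 2) / (N * ((j : ℝ) / R) ^ 2) := by
        apply div_le_div_of_nonneg_left (by norm_num) (by positivity)
        apply mul_le_mul_of_nonneg_left _ hN0.le
        exact pow_le_pow_left₀ (by positivity) h4 2
      refine h5.trans (le_of_eq ?_)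
      field_simp
  refine (Finset.sum_le_sum hs).trans ?_
  rw [Finset.sum_const, nsmul_eq_mul]
  have hmin0 : 0 ≤ min A ((3 / 2) * (R / N) ^ 2 / (j : ℝ) ^ 2) := by
    apply le_min (by linarith); positivity
  have hMp : (M : ℝ) ^ (5 / 6 : ℝ) ≤ (2 * R) ^ (5 / 6 : ℝ) * (j : ℝ) ^ (5 / 6 : ℝ) := by
    rw [← Real.mul_rpow (by positivity) hj0.le]
    exact Real.rpow_le_rpow (by positivity) hMup (by norm_num)
  calc (((QQ k).filter (fun p => p.1 = a)).card : ℝ) *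
        (N * min A ((3 / 2) * (R / N) ^ 2 / (j : ℝ) ^ 2))
      ≤ (C3 * ((2 * R) ^ (5 / 6 : ℝ) * (j : ℝ) ^ (5 / 6 : ℝ))) *
        (N * min A ((3 / 2) * (R / N) ^ 2 / (j : ℝ) ^ 2)) := by
        apply mul_le_mul_of_nonneg_right _ (by positivity)
        exact hcard.trans (mul_le_mul_of_nonneg_left hMp hC3.le)
    _ = _ := by ring

theorem dk_fibre0 {A : ℝ} (hA : 1 ≤ A) (k N : ℕ) (a : ℤ)
    (hik : a.natAbs = 5 ^ k) :
    ∑ p ∈ (QQ k).filter (fun p => p.1 = a),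
      BB A N (((p.2.1 ^ 2 + p.2.2.1 ^ 2 + p.2.2.2 ^ 2 : ℤ) : ℝ) / 25 ^ k) ≤ A * N := by
  have ha2 : (a : ℤ) ^ 2 = 25 ^ k := by
    have : (a : ℤ) ^ 2 = ((a.natAbs : ℕ) : ℤ) ^ 2 := by
      rw [Int.natCast_natAbs, sq_abs]
    rw [this, hik]
    push_cast
    rw [← pow_mul, mul_comm, pow_mul]; norm_num
  have hall : ∀ p ∈ (QQ k).filter (fun p => p.1 = a), p = (a, 0, 0, 0) := by
    intro p hp
    rw [Finset.mem_filter] at hp
    have h1 := hp.1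
    rw [QQ, Finset.mem_filter] at h1
    have h2 := h1.2
    rw [hp.2, ha2] at h2
    have h3 : p.2.1 ^ 2 = 0 := by
      nlinarith [sq_nonneg p.2.1, sq_nonneg p.2.2.1, sq_nonneg p.2.2.2]
    have h4 : p.2.2.1 ^ 2 = 0 := by
      nlinarith [sq_nonneg p.2.1, sq_nonneg p.2.2.1, sq_nonneg p.2.2.2]
    have h5 : p.2.2.2 ^ 2 = 0 := by
      nlinarith [sq_nonneg p.2.1, sq_nonneg p.2.2.1, sq_nonneg p.2.2.2]
    have h6 := pow_eq_zero_iff (two_ne_zero) |>.1 h3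
    have h7 := pow_eq_zero_iff (two_ne_zero) |>.1 h4
    have h8 := pow_eq_zero_iff (two_ne_zero) |>.1 h5
    refine Prod.ext hp.2 (Prod.ext h6 (Prod.ext h7 h8))
  have hsub : (QQ k).filter (fun p => p.1 = a) ⊆ {(a, 0, 0, 0)} := by
    intro p hp
    rw [Finset.mem_singleton]
    exact hall p hp
  have hAN : 0 ≤ A * (N : ℝ) := by positivity
  have hBB : ∀ s : ℝ, 0 ≤ BB A N s := by
    intro s
    rw [BB]
    split_ifs
    · exact hAN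
    · apply le_min hAN; positivity
  refine (Finset.sum_le_sum_of_subset_of_nonneg hsub fun p _ _ => hBB _).trans ?_
  rw [Finset.sum_singleton]
  simp [BB]

theorem DK_bound (A : ℝ) (hA : 1 ≤ A) : ∃ C : ℝ, 0 < C ∧ ∀ (k N : ℕ), 1 ≤ N →
    DK k (BB A N) ≤ C * (N + ((5 : ℝ) ^ k) ^ (5 / 6 : ℝ) * N +
      ((5 : ℝ) ^ k) ^ (8 / 3 : ℝ) * (N : ℝ) ^ (-(5 / 6) : ℝ)) := by
  obtain ⟨C3, hC3, h3⟩ := r3_bound
  refine ⟨2 * A + 16 * C3 * (A + 9), by positivity, fun k N hN => ?_⟩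
  have hNr : (1 : ℝ) ≤ N := by exact_mod_cast hN
  have hN0 : (0 : ℝ) < N := by linarith
  set R : ℝ := (5 : ℝ) ^ k with hR
  have hR0 : 0 < R := by positivity
  let φ : ℕ → ℝ := fun i => if i < 5 ^ k then
    C3 * (2 * R) ^ (5 / 6 : ℝ) * N * (((5 ^ k - i : ℕ) : ℝ) ^ (5 / 6 : ℝ) *
        min A ((3 / 2) * (R / N) ^ 2 / ((5 ^ k - i : ℕ) : ℝ) ^ 2)) else A * N
  have hφ0 : ∀ i, 0 ≤ φ i := by
    intro i
    simp only [φ]
    split_ifs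
    · have : 0 ≤ min A ((3 / 2) * (R / N) ^ 2 / ((5 ^ k - i : ℕ) : ℝ) ^ 2) := by
        apply le_min (by linarith); positivity
      positivity
    · positivity
  have hmaps : ∀ p ∈ QQ k, p.1 ∈ Finset.Icc (-((5 ^ k : ℕ) : ℤ)) ((5 ^ k : ℕ) : ℤ) := by
    intro p hp
    rw [QQ, Finset.mem_filter, Finset.mem_product] at hp
    have := hp.1.1
    push_cast
    exact this
  have hDK : DK k (BB A N) ≤ ∑ a ∈ Finset.Icc (-((5 ^ k : ℕ) : ℤ)) ((5 ^ k : ℕ) : ℤ),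
      φ a.natAbs := by
    rw [DK, ← Finset.sum_fiberwise_of_maps_to hmaps]
    refine Finset.sum_le_sum fun a ha => ?_
    rw [Finset.mem_Icc] at ha
    simp only [φ]
    split_ifs with h
    · exact dk_fibre hC3 h3 hA k N hN a a.natAbs rfl h
    · exact dk_fibre0 hA k N a (by omega)
  have h1 := hDK.trans (dk_natAbs (5 ^ k) φ hφ0)
  have h2 : ∑ i ∈ Finset.range (5 ^ k + 1), φ i = A * N +
      C3 * (2 * R) ^ (5 / 6 : ℝ) * N * ∑ j ∈ Finset.Icc (1 : ℕ) (5 ^ k),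
        ((j : ℕ) : ℝ) ^ (5 / 6 : ℝ) * min A ((3 / 2) * (R / N) ^ 2 / ((j : ℕ) : ℝ) ^ 2) := by
    rw [Finset.sum_range_succ]
    have e1 : φ (5 ^ k) = A * N := by simp [φ]
    rw [e1, add_comm]
    congr 1
    rw [Finset.mul_sum]
    apply Finset.sum_bij' (fun (i : ℕ) _ => 5 ^ k - i) (fun (j : ℕ) _ => 5 ^ k - j)
    · intro i hi
      rw [Finset.mem_range] at hi
      rw [Finset.mem_Icc]
      omega
    · intro j hj
      rw [Finset.mem_Icc] at hj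
      rw [Finset.mem_range]
      omega
    · intro i hi
      rw [Finset.mem_range] at hi
      omega
    · intro j hj
      rw [Finset.mem_Icc] at hj
      omega
    · intro i hi
      rw [Finset.mem_range] at hi
      simp only [φ, hi, if_true]
  rw [h2] at h1
  have h4 := dk_sum hA (div_pos hR0 hN0) (5 ^ k)
  have h5 : C3 * (2 * R) ^ (5 / 6 : ℝ) * N * ∑ j ∈ Finset.Icc (1 : ℕ) (5 ^ k),
        ((j : ℕ) : ℝ) ^ (5 / 6 : ℝ) * min A ((3 / 2) * (R / N) ^ 2 / ((j : ℕ) : ℝ) ^ 2) ≤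
      C3 * (2 * R ^ (5 / 6 : ℝ)) * N * (4 * (A + 9) * (1 + (R / N) ^ (11 / 6 : ℝ))) := by
    have hsum0 : 0 ≤ ∑ j ∈ Finset.Icc (1 : ℕ) (5 ^ k),
        ((j : ℕ) : ℝ) ^ (5 / 6 : ℝ) * min A ((3 / 2) * (R / N) ^ 2 / ((j : ℕ) : ℝ) ^ 2) := by
      apply Finset.sum_nonneg
      intro j _
      have : 0 ≤ min A ((3 / 2) * (R / N) ^ 2 / (j : ℝ) ^ 2) := by
        apply le_min (by linarith); positivity
      positivity
    apply mul_le_mul _ h4 hsum0 (by positivity)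
    apply mul_le_mul_of_nonneg_right _ hN0.le
    apply mul_le_mul_of_nonneg_left _ hC3.le
    rw [Real.mul_rpow (by norm_num) hR0.le]
    apply mul_le_mul_of_nonneg_right _ (by positivity)
    calc (2 : ℝ) ^ (5 / 6 : ℝ) ≤ (2 : ℝ) ^ (1 : ℝ) :=
          Real.rpow_le_rpow_of_exponent_le (by norm_num) (by norm_num)
      _ = 2 := by norm_num
  have h6 : R ^ (5 / 6 : ℝ) * N * (R / N) ^ (11 / 6 : ℝ) =
      R ^ (8 / 3 : ℝ) * (N : ℝ) ^ (-(5 / 6) : ℝ) := by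
    rw [Real.div_rpow hR0.le hN0.le]
    have e1 : R ^ (8 / 3 : ℝ) = R ^ (5 / 6 : ℝ) * R ^ (11 / 6 : ℝ) := by
      rw [← Real.rpow_add hR0]; norm_num
    have e2 : (N : ℝ) ^ (-(5 / 6) : ℝ) = N * ((N : ℝ) ^ (11 / 6 : ℝ))⁻¹ := by
      rw [← Real.rpow_neg hN0.le]
      nth_rewrite 2 [← Real.rpow_one (N : ℝ)]
      rw [← Real.rpow_add hN0]
      norm_num
    rw [e1, e2, div_eq_mul_inv]
    ring
  have h7 : C3 * (2 * R ^ (5 / 6 : ℝ)) * N * (4 * (A + 9) * (1 + (R / N) ^ (11 / 6 : ℝ))) =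
      8 * C3 * (A + 9) * (R ^ (5 / 6 : ℝ) * N) +
      8 * C3 * (A + 9) * (R ^ (8 / 3 : ℝ) * (N : ℝ) ^ (-(5 / 6) : ℝ)) := by
    rw [← h6]; ring
  rw [h7] at h5
  have p1 : 0 ≤ R ^ (5 / 6 : ℝ) * N := by positivity
  have p2 : 0 ≤ R ^ (8 / 3 : ℝ) * (N : ℝ) ^ (-(5 / 6) : ℝ) := by positivity
  have p3 : 0 ≤ C3 * (A + 9) := by positivity
  have p4 := mul_nonneg p3 hN0.le
  have p5 := mul_nonneg (show 0 ≤ A by linarith) p1
  have p6 := mul_nonneg (show 0 ≤ A by linarith) p2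
  nlinarith


end Pool.Agent.Helper557.Rz
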