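import Pool.Agent.Helper557.Rz.Base
import Pool.Agent.Helper557.Rz.Defs
import Pool.Agent.Helper557.Rz.FADefs

set_option autoImplicit false

open MeasureTheory Set
open scoped Quaternion

namespace Pool.Agent.Helper557.Rz


lemma j9340_star (a : Fin 6) : star (al a) = al (a + 3) := by
  fin_cases a <;> (ext <;> rfl)

lemma j9340_mul (a : Fin 6) : al a * al (a + 3) = 5 := by
  fin_cases a <;> (ext <;> rfl)

lemma j9340_six (a : Fin 6) : a + 3 + 3 = a := by
  revert a; decide

lemma j9340_mem (l : ℕ) (a : Fin 6) (v : List (Fin 6)) :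
    a :: v ∈ RW (l + 1) ↔ v ∈ RW l ∧ v.head? ≠ some (a + 3) := by
  simp only [RW, Finset.mem_image, Finset.mem_filter, Finset.mem_product, Finset.mem_univ,
    true_and, Prod.exists]
  constructor
  · rintro ⟨b, u, ⟨h1, h2⟩, h3⟩
    obtain ⟨rfl, rfl⟩ := List.cons_eq_cons.1 h3
    exact ⟨h1, h2⟩
  · rintro ⟨h1, h2⟩
    exact ⟨a, v, ⟨h1, h2⟩, rfl⟩

lemma j9340_cases (l : ℕ) (w : List (Fin 6)) (hw : w ∈ RW (l + 1)) :
    ∃ a v, w = a :: v ∧ v ∈ RW l ∧ v.head? ≠ some (a + 3) := by
  simp only [RW, Finset.mem_image, Finset.mem_filter, Finset.mem_product, Finset.mem_univ,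
    true_and, Prod.exists] at hw
  obtain ⟨b, u, ⟨h1, h2⟩, h3⟩ := hw
  exact ⟨b, u, h3.symm, h1, h2⟩

lemma j9340_gen (m : ℤ) (q r : ℍ[ℤ]) : q = ((m : ℤ) : ℍ[ℤ]) * r ↔
    q.re = m * r.re ∧ q.imI = m * r.imI ∧ q.imJ = m * r.imJ ∧ q.imK = m * r.imK := by
  constructor
  · intro h
    rw [h]
    simp
  · rintro ⟨h1, h2, h3, h4⟩
    ext <;> simp [h1, h2, h3, h4]

lemma j9340_five (q r : ℍ[ℤ]) : q = 5 * r ↔
    q.re = 5 * r.re ∧ q.imI = 5 * r.imI ∧ q.imJ = 5 * r.imJ ∧ q.imK = 5 * r.imK := by
  have h5 : (5 : ℍ[ℤ]) = ((5 : ℤ) : ℍ[ℤ]) := by norm_cast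
  rw [h5]
  exact j9340_gen 5 q r

lemma j9340_canc (m : ℤ) (hm : m ≠ 0) (q r : ℍ[ℤ]) (h : q * ((m : ℤ) : ℍ[ℤ]) = r * ((m : ℤ) : ℍ[ℤ])) :
    q = r := by
  have e1 := congrArg QuaternionAlgebra.re h
  have e2 := congrArg QuaternionAlgebra.imI h
  have e3 := congrArg QuaternionAlgebra.imJ h
  have e4 := congrArg QuaternionAlgebra.imK h
  simp only [Quaternion.re_mul, Quaternion.imI_mul, Quaternion.imJ_mul, Quaternion.imK_mul,
    Quaternion.re_intCast, Quaternion.imI_intCast, Quaternion.imJ_intCast,
    Quaternion.imK_intCast, mul_zero, sub_zero, zero_add, add_zero] at e1 e2 e3 e4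
  ext
  · exact mul_right_cancel₀ hm e1
  · exact mul_right_cancel₀ hm e2
  · exact mul_right_cancel₀ hm e3
  · exact mul_right_cancel₀ hm e4

lemma j9340_d (a b : Fin 6) (h : a ≠ b) :
    (al a - al b) * star (al a - al b) = ((8 : ℤ) : ℍ[ℤ]) ∨
      (al a - al b) * star (al a - al b) = ((16 : ℤ) : ℍ[ℤ]) := by
  fin_cases a <;> fin_cases b <;> first
    | exact absurd rfl h
    | (left; ext <;> rfl)
    | (right; ext <;> rfl)

theorem qw_not_dvd (l : ℕ) (w : List (Fin 6)) (hw : w ∈ RW l) (r : ℍ[ℤ]) : qw w ≠ 5 * r := by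
  induction l generalizing w r with
  | zero =>
    intro h
    have hw' : w = [] := by simpa [RW] using hw
    subst hw'
    rw [j9340_five] at h
    have h1 := h.1
    have h2 : (qw []).re = 1 := rfl
    rw [h2] at h1
    omega
  | succ l ih =>
    obtain ⟨a, v, rfl, hv, hva⟩ := j9340_cases l w hw
    intro h
    rcases v with _ | ⟨b, v'⟩
    · rw [j9340_five] at h
      have h1 := h.1
      have h2 : (qw [a]).re = 1 := by
        show ((1 : ℍ[ℤ]) * al a).re = 1
        rw [one_mul]
        fin_cases a <;> rfl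
      rw [h2] at h1
      omega
    · have hab : a ≠ b + 3 := by
        intro hab
        apply hva
        rw [List.head?_cons, hab, j9340_six]
      have h1 : qw (b :: v') * al a = 5 * r := h
      have h2 : qw (b :: v') * al (b + 3) = 5 * qw v' := by
        show qw v' * al b * al (b + 3) = 5 * qw v'
        rw [mul_assoc, j9340_mul]
        have h5 : (5 : ℍ[ℤ]) = ((5 : ℤ) : ℍ[ℤ]) := by norm_cast
        rw [h5]
        exact (Int.cast_commute (5 : ℤ) (qw v')).symm.eq
      have h3 : qw (b :: v') * ((al a - al (b + 3)) * star (al a - al (b + 3))) =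
          5 * ((r - qw v') * star (al a - al (b + 3))) := by
        rw [← mul_assoc, mul_sub, h1, h2, ← mul_assoc, mul_sub]
      have key : ∀ (m : ℤ) (q s : ℍ[ℤ]), (m = 8 ∨ m = 16) → q * ((m : ℤ) : ℍ[ℤ]) = 5 * s →
          ∃ r', q = 5 * r' := by
        intro m q s hm hq
        rw [j9340_five] at hq
        have e1 : q.re * m = 5 * s.re := by
          have := hq.1
          simpa using this
        have e2 : q.imI * m = 5 * s.imI := by
          have := hq.2.1
          simpa using this
        have e3 : q.imJ * m = 5 * s.imJ := by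
          have := hq.2.2.1
          simpa using this
        have e4 : q.imK * m = 5 * s.imK := by
          have := hq.2.2.2
          simpa using this
        have hd : ∀ x y : ℤ, x * m = 5 * y → ∃ z, x = 5 * z := by
          intro x y hxy
          rcases hm with rfl | rfl
          · exact ⟨x / 5, by omega⟩
          · exact ⟨x / 5, by omega⟩
        obtain ⟨z1, hz1⟩ := hd _ _ e1
        obtain ⟨z2, hz2⟩ := hd _ _ e2
        obtain ⟨z3, hz3⟩ := hd _ _ e3
        obtain ⟨z4, hz4⟩ := hd _ _ e4
        exact ⟨⟨z1, z2, z3, z4⟩, (j9340_five _ _).2 ⟨hz1, hz2, hz3, hz4⟩⟩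
      rcases j9340_d a (b + 3) hab with h4 | h4
      · rw [h4] at h3
        obtain ⟨r', hr'⟩ := key 8 _ _ (Or.inl rfl) h3
        exact ih _ hv r' hr'
      · rw [h4] at h3
        obtain ⟨r', hr'⟩ := key 16 _ _ (Or.inr rfl) h3
        exact ih _ hv r' hr'

theorem qw_norm (l : ℕ) (w : List (Fin 6)) (hw : w ∈ RW l) : qw w * star (qw w) = (5 : ℍ[ℤ]) ^ l := by
  induction l generalizing w with
  | zero =>
    have hw' : w = [] := by simpa [RW] using hw
    subst hw'
    show (1 : ℍ[ℤ]) * star 1 = 5 ^ 0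
    simp
  | succ l ih =>
    obtain ⟨a, v, rfl, hv, hva⟩ := j9340_cases l w hw
    show qw v * al a * star (qw v * al a) = 5 ^ (l + 1)
    rw [star_mul, j9340_star, mul_assoc, ← mul_assoc (al a), j9340_mul]
    have h5 : (5 : ℍ[ℤ]) = ((5 : ℤ) : ℍ[ℤ]) := by norm_cast
    have h6 : qw v * (5 * star (qw v)) = (qw v * star (qw v)) * 5 := by
      rw [h5, mul_assoc]
      congr 1
      exact (Int.cast_commute (5 : ℤ) (star (qw v))).eq
    rw [h6, ih v hv, pow_succ]

theorem qw_inj (l : ℕ) : Set.InjOn qw (RW l : Set (List (Fin 6))) := by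
  induction l with
  | zero =>
    intro w hw w' hw' _
    have h1 : w = [] := by simpa [RW] using hw
    have h2 : w' = [] := by simpa [RW] using hw'
    rw [h1, h2]
  | succ l ih =>
    intro w hw w' hw' h
    obtain ⟨a, v, rfl, hv, hva⟩ := j9340_cases l w hw
    obtain ⟨a', v', rfl, hv', hva'⟩ := j9340_cases l w' hw'
    have h' : qw v * al a = qw v' * al a' := h
    have h5 : (5 : ℍ[ℤ]) = ((5 : ℤ) : ℍ[ℤ]) := by norm_cast
    by_cases haa : a = a'
    · subst haa
      have h1 : qw v * al a * al (a + 3) = qw v' * al a * al (a + 3) := by rw [h']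
      rw [mul_assoc, mul_assoc, j9340_mul] at h1
      have h2 : qw v = qw v' := by
        rw [h5] at h1
        exact j9340_canc 5 (by norm_num) _ _ h1
      rw [ih hv hv' h2]
    · exfalso
      have h1 : qw ((a' + 3) :: a :: v) = 5 * qw v' := by
        show qw v * al a * al (a' + 3) = 5 * qw v'
        rw [h', mul_assoc, j9340_mul, h5]
        exact (Int.cast_commute (5 : ℤ) (qw v')).symm.eq
      have h2 : (a' + 3) :: a :: v ∈ RW (l + 1 + 1) := by
        rw [j9340_mem]
        refine ⟨hw, ?_⟩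
        rw [List.head?_cons, j9340_six]
        intro h3
        exact haa (Option.some.inj h3)
      exact qw_not_dvd _ _ h2 _ h1

lemma j9340_chain (l : ℕ) (w : List (Fin 6)) :
    w ∈ RW l ↔ w.length = l ∧ List.IsChain (fun a b => b ≠ a + 3) w := by
  induction l generalizing w with
  | zero =>
    simp only [RW, Finset.mem_singleton, List.length_eq_zero_iff]
    constructor
    · rintro rfl
      exact ⟨rfl, List.IsChain.nil⟩
    · exact fun h => h.1
  | succ l ih =>
    rcases w with _ | ⟨a, v⟩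
    · constructor
      · intro h
        obtain ⟨a, v, h1, _⟩ := j9340_cases l _ h
        exact absurd h1 (by simp)
      · rintro ⟨h, _⟩
        simp at h
    · rw [j9340_mem, ih]
      rcases v with _ | ⟨b, v'⟩
      · simp [eq_comm]
      · simp only [List.isChain_cons_cons, List.length_cons, List.head?_cons, ne_eq,
          Option.some.injEq, Nat.add_right_cancel_iff]
        tauto

lemma j9340_app (L M : List (Fin 6)) : qw (L ++ M) = qw M * qw L := by
  induction L with
  | nil => exact (mul_one _).symm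
  | cons a L ih =>
    show qw (L ++ M) * al a = qw M * (qw L * al a)
    rw [ih, mul_assoc]

lemma j9340_rev (w : List (Fin 6)) : qw (w.reverse.map (· + 3)) = star (qw w) := by
  induction w with
  | nil => show (1 : ℍ[ℤ]) = star 1; simp
  | cons a v ih =>
    rw [List.reverse_cons, List.map_append, j9340_app, ih]
    show (1 * al (a + 3)) * star (qw v) = star (qw v * al a)
    rw [star_mul, j9340_star, one_mul]

lemma j9340_red (l : ℕ) (w w' : List (Fin 6)) (hw : w ∈ RW l) (hw' : w' ∈ RW l)
    (h1 : w.head? ≠ w'.head?) : (w'.reverse.map (· + 3)) ++ w ∈ RW (l + l) := by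
  rw [j9340_chain] at hw hw' ⊢
  refine ⟨?_, ?_⟩
  · rw [List.length_append, List.length_map, List.length_reverse, hw.1, hw'.1]
  · rw [List.isChain_append]
    refine ⟨?_, hw.2, ?_⟩
    · rw [List.isChain_map, List.isChain_reverse]
      refine List.IsChain.imp ?_ hw'.2
      intro a b hab h
      apply hab
      revert a b
      decide
    · intro x hx y hy h
      apply h1
      rw [Option.mem_def] at hx hy
      rw [hy]
      rw [List.getLast?_map, List.getLast?_reverse] at hx
      rcases hh : w'.head? with _ | c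
      · rw [hh] at hx
        simp at hx
      · rw [hh] at hx
        have hx' : c + 3 = x := Option.some.inj hx
        rw [h, ← hx', j9340_six]

theorem pair_inj (l : ℕ) (w w' z z' : List (Fin 6)) (hw : w ∈ RW l) (hw' : w' ∈ RW l) (hz : z ∈ RW l)
    (hz' : z' ∈ RW l) (h1 : w.head? ≠ w'.head?) (h2 : z.head? ≠ z'.head?)
    (h : qw w * star (qw w') = qw z * star (qw z')) : w = z ∧ w' = z' := by
  rw [← j9340_rev w', ← j9340_rev z', ← j9340_app, ← j9340_app] at h
  have h3 := qw_inj (l + l) (j9340_red l w w' hw hw' h1) (j9340_red l z z' hz hz' h2) h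
  have e1 := ((j9340_chain l w').1 hw').1
  have e2 := ((j9340_chain l z').1 hz').1
  have h4 := List.append_inj h3 (by
    rw [List.length_map, List.length_map, List.length_reverse, List.length_reverse, e1, e2])
  refine ⟨h4.2, ?_⟩
  have h5 : Function.Injective (fun a : Fin 6 => a + 3) := fun a b hab => by simpa using hab
  exact List.reverse_injective ((List.map_injective_iff.2 h5) h4.1)


end Pool.Agent.Helper557.Rz
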