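import Pool.Agent.Helper557.Rz.Base
import Pool.Agent.Helper557.Rz.Defs
import Pool.Agent.Helper557.Rz.FADefs
import Pool.Agent.Helper557.Rz.M_inj

set_option autoImplicit false

open MeasureTheory Set
open scoped Quaternion

namespace Pool.Agent.Helper557.Rz




lemma RW_sum_succ (l : ℕ) (f : List (Fin 6) → ℝ) :
    ∑ w ∈ RW (l + 1), f w =
      ∑ a : Fin 6, ∑ v ∈ RW l, if v.head? ≠ some (a + 3) then f (a :: v) else 0 := by
  rw [RW, Finset.sum_image, Finset.sum_filter, Finset.sum_product]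
  rintro ⟨a, v⟩ _ ⟨a', v'⟩ _ h
  simp only [List.cons.injEq] at h
  exact Prod.ext h.1 h.2

lemma RW_ne_nil_ps (l : ℕ) (v : List (Fin 6)) (hv : v ∈ RW (l + 1)) : ∃ b, v.head? = some b := by
  rw [RW, Finset.mem_image] at hv
  obtain ⟨p, _, rfl⟩ := hv
  exact ⟨p.1, rfl⟩

lemma al_norm (a : Fin 6) : al a * star (al a) = (5 : ℍ[ℤ]) := by
  have h5 : (5 : ℍ[ℤ]) = ((5 : ℤ) : ℍ[ℤ]) := by norm_cast
  rw [Quaternion.self_mul_star, h5]
  congr 1
  rw [Quaternion.normSq_def']
  fin_cases a <;> simp [al]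

lemma qw_cons_star (a : Fin 6) (v v' : List (Fin 6)) :
    qw (a :: v) * star (qw (a :: v')) = (5 : ℤ) • (qw v * star (qw v')) := by
  have h : qw (a :: v) * star (qw (a :: v')) =
      qw v * (al a * star (al a)) * star (qw v') := by
    simp only [qw, star_mul, mul_assoc]
  rw [h, al_norm]
  have h6 : qw v * (5 : ℍ[ℤ]) = (5 : ℤ) • qw v :=
    Quaternion.mul_coe_eq_smul (5 : ℤ) (qw v)
  rw [h6, smul_mul_assoc]

lemma im2_five (q : ℍ[ℤ]) : im2 ((5 : ℤ) • q) = 25 * im2 q := by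
  simp only [im2, Quaternion.imI_smul, Quaternion.imJ_smul, Quaternion.imK_smul, smul_eq_mul]
  ring

lemma im2_cons (a : Fin 6) (v v' : List (Fin 6)) (l : ℕ) :
    (im2 (qw (a :: v) * star (qw (a :: v'))) : ℝ) / 25 ^ (l + 1) =
      (im2 (qw v * star (qw v')) : ℝ) / 25 ^ l := by
  rw [qw_cons_star, im2_five]
  push_cast
  rw [pow_succ]
  field_simp

lemma card_letters (v : List (Fin 6)) :
    (∑ a : Fin 6, if v.head? ≠ some (a + 3) then (1 : ℝ) else 0) =
      if v.head? = none then 6 else 5 := by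
  cases v with
  | nil => simp
  | cons b v =>
    simp only [List.head?_cons]
    fin_cases b <;> simp [Fin.sum_univ_six] <;> norm_num

/-- pairs with equal first letters -/
lemma part_eq (H : ℝ → ℝ) (hH : ∀ s, 0 ≤ H s) (l : ℕ) (C : ℝ)
    (hC : ∀ v ∈ RW l, (∑ a : Fin 6, if v.head? ≠ some (a + 3) then (1 : ℝ) else 0) = C) :
    (∑ w ∈ RW (l + 1), ∑ w' ∈ RW (l + 1),
      if w.head? = w'.head? then H ((im2 (qw w * star (qw w')) : ℝ) / 25 ^ (l + 1)) else 0) ≤
      C * PS l H := by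
  have h1 : (∑ w ∈ RW (l + 1), ∑ w' ∈ RW (l + 1),
      if w.head? = w'.head? then H ((im2 (qw w * star (qw w')) : ℝ) / 25 ^ (l + 1)) else 0) ≤
      ∑ a : Fin 6, ∑ v ∈ RW l, ∑ v' ∈ RW l,
        (if v.head? ≠ some (a + 3) then (1 : ℝ) else 0) *
          H ((im2 (qw v * star (qw v')) : ℝ) / 25 ^ l) := by
    rw [RW_sum_succ]
    apply Finset.sum_le_sum
    intro a _
    apply Finset.sum_le_sum
    intro v _
    by_cases hv : v.head? ≠ some (a + 3)
    · rw [if_pos hv]
      simp only [if_pos hv, one_mul]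
      rw [RW_sum_succ]
      have h2 : ∀ a' : Fin 6, (∑ v' ∈ RW l, if v'.head? ≠ some (a' + 3) then
          (if (a :: v).head? = (a' :: v').head? then
            H ((im2 (qw (a :: v) * star (qw (a' :: v'))) : ℝ) / 25 ^ (l + 1)) else 0) else 0) ≤
          if a' = a then ∑ v' ∈ RW l, H ((im2 (qw v * star (qw v')) : ℝ) / 25 ^ l) else 0 := by
        intro a'
        by_cases ha : a' = a
        · subst ha
          rw [if_pos rfl]
          apply Finset.sum_le_sum
          intro v' _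
          simp only [List.head?_cons, if_true]
          rw [im2_cons]
          split_ifs
          · exact le_rfl
          · exact hH _
        · rw [if_neg ha]
          apply le_of_eq
          apply Finset.sum_eq_zero
          intro v' _
          have : ¬ ((a :: v).head? = (a' :: v').head?) := by
            simp only [List.head?_cons, Option.some.injEq]
            exact fun h => ha h.symm
          rw [if_neg this, ite_self]
      refine (Finset.sum_le_sum fun a' _ => h2 a').trans ?_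
      rw [Finset.sum_ite_eq' Finset.univ a]
      simp
    · rw [if_neg hv]
      simp only [if_neg hv, zero_mul]
      simp
  refine h1.trans (le_of_eq ?_)
  rw [Finset.sum_comm]
  unfold PS
  rw [Finset.mul_sum]
  apply Finset.sum_congr rfl
  intro v hv
  rw [Finset.sum_comm, Finset.mul_sum]
  apply Finset.sum_congr rfl
  intro v' _
  rw [← Finset.sum_mul, hC v hv]

lemma qw_normSq (l : ℕ) (w : List (Fin 6)) (hw : w ∈ RW l) :
    Quaternion.normSq (qw w) = 5 ^ l := by
  have h := qw_norm l w hw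
  rw [Quaternion.self_mul_star] at h
  have h5 : (5 : ℍ[ℤ]) ^ l = ((5 ^ l : ℤ) : ℍ[ℤ]) := by
    push_cast
    norm_cast
  rw [h5] at h
  exact Quaternion.coe_injective h

/-- the integer point of a pair of words -/
def tup (p : List (Fin 6) × List (Fin 6)) : ℤ × ℤ × ℤ × ℤ :=
  ((qw p.1 * star (qw p.2)).re, (qw p.1 * star (qw p.2)).imI, (qw p.1 * star (qw p.2)).imJ,
    (qw p.1 * star (qw p.2)).imK)

lemma tup_mem (l : ℕ) (p : List (Fin 6) × List (Fin 6)) (h1 : p.1 ∈ RW l) (h2 : p.2 ∈ RW l) :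
    tup p ∈ QQ l := by
  have hn : Quaternion.normSq (qw p.1 * star (qw p.2)) = 25 ^ l := by
    rw [map_mul, Quaternion.normSq_star, qw_normSq l _ h1, qw_normSq l _ h2, ← mul_pow]
    norm_num
  rw [Quaternion.normSq_def'] at hn
  have h25 : (25 : ℤ) ^ l = (5 ^ l) ^ 2 := by
    rw [← pow_mul, mul_comm, pow_mul]
    norm_num
  have h5 : (0 : ℤ) ≤ 5 ^ l := by positivity
  unfold QQ tup
  simp only [Finset.mem_filter, Finset.mem_product, Finset.mem_Icc]
  refine ⟨⟨abs_le.1 ?_, abs_le.1 ?_, abs_le.1 ?_, abs_le.1 ?_⟩, hn⟩ <;>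
  · apply abs_le_of_sq_le_sq _ h5
    rw [← h25, ← hn]
    nlinarith [sq_nonneg (qw p.1 * star (qw p.2)).re, sq_nonneg (qw p.1 * star (qw p.2)).imI,
      sq_nonneg (qw p.1 * star (qw p.2)).imJ, sq_nonneg (qw p.1 * star (qw p.2)).imK]

/-- pairs with different first letters -/
lemma part_ne (H : ℝ → ℝ) (hH : ∀ s, 0 ≤ H s) (l : ℕ) :
    (∑ w ∈ RW l, ∑ w' ∈ RW l,
      if w.head? ≠ w'.head? then H ((im2 (qw w * star (qw w')) : ℝ) / 25 ^ l) else 0) ≤
      DK l H := by
  rw [← Finset.sum_product', ← Finset.sum_filter]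
  have hinj : Set.InjOn tup ((RW l ×ˢ RW l).filter
      (fun x : List (Fin 6) × List (Fin 6) => x.1.head? ≠ x.2.head?)) := by
    rintro ⟨w, w'⟩ hp ⟨z, z'⟩ hq h
    simp only [Finset.coe_filter, Finset.mem_product, Set.mem_ofPred_eq] at hp hq
    obtain ⟨⟨a1, a2⟩, a3⟩ := hp
    obtain ⟨⟨b1, b2⟩, b3⟩ := hq
    have he : qw w * star (qw w') = qw z * star (qw z') := by
      simp only [tup, Prod.mk.injEq] at h
      exact Quaternion.ext _ _ h.1 h.2.1 h.2.2.1 h.2.2.2
    obtain ⟨c1, c2⟩ := pair_inj l w w' z z' a1 a2 b1 b2 a3 b3 he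
    rw [c1, c2]
  have h1 : (∑ x ∈ (RW l ×ˢ RW l).filter
      (fun x : List (Fin 6) × List (Fin 6) => x.1.head? ≠ x.2.head?),
      H ((im2 (qw x.1 * star (qw x.2)) : ℝ) / 25 ^ l)) =
      ∑ p ∈ ((RW l ×ˢ RW l).filter
        (fun x : List (Fin 6) × List (Fin 6) => x.1.head? ≠ x.2.head?)).image tup,
        H (((p.2.1 ^ 2 + p.2.2.1 ^ 2 + p.2.2.2 ^ 2 : ℤ) : ℝ) / 25 ^ l) := by
    rw [Finset.sum_image hinj]
    rfl
  rw [h1]
  unfold DK
  apply Finset.sum_le_sum_of_subset_of_nonneg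
  · intro q hq
    obtain ⟨p, hp, rfl⟩ := Finset.mem_image.1 hq
    rw [Finset.mem_filter, Finset.mem_product] at hp
    exact tup_mem l p hp.1.1 hp.1.2
  · intro q _ _
    exact hH _

lemma PS_step (H : ℝ → ℝ) (hH : ∀ s, 0 ≤ H s) (l : ℕ) (C : ℝ)
    (hC : ∀ v ∈ RW l, (∑ a : Fin 6, if v.head? ≠ some (a + 3) then (1 : ℝ) else 0) = C) :
    PS (l + 1) H ≤ C * PS l H + DK (l + 1) H := by
  refine le_trans (le_of_eq ?_) (add_le_add (part_eq H hH l C hC) (part_ne H hH (l + 1)))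
  unfold PS
  rw [← Finset.sum_add_distrib]
  apply Finset.sum_congr rfl
  intro w _
  rw [← Finset.sum_add_distrib]
  apply Finset.sum_congr rfl
  intro w' _
  by_cases h : w.head? = w'.head?
  · simp [h]
  · simp [h]

lemma PS_zero (H : ℝ → ℝ) : PS 0 H = H 0 := by
  simp [PS, RW, qw, im2]

theorem PS_bound (H : ℝ → ℝ) (hH : ∀ s, 0 ≤ H s) (l : ℕ) (hl : 1 ≤ l) :
    PS l H ≤ 6 * 5 ^ (l - 1) * H 0 + ∑ k ∈ Finset.Icc 1 l, 5 ^ (l - k) * DK k H := by
  induction l, hl using Nat.le_induction with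
  | base =>
    have h := PS_step H hH 0 6 (by
      intro v hv
      rw [RW, Finset.mem_singleton] at hv
      rw [hv, card_letters]
      simp)
    rw [PS_zero] at h
    simpa using h
  | succ l hl ih =>
    obtain ⟨m, rfl⟩ : ∃ m, l = m + 1 := ⟨l - 1, by omega⟩
    have h := PS_step H hH (m + 1) 5 (by
      intro v hv
      obtain ⟨b, hb⟩ := RW_ne_nil_ps m v hv
      rw [card_letters, hb]
      simp)
    have h2 : ∑ k ∈ Finset.Icc 1 (m + 1 + 1), (5 : ℝ) ^ (m + 1 + 1 - k) * DK k H =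
        5 * ∑ k ∈ Finset.Icc 1 (m + 1), (5 : ℝ) ^ (m + 1 - k) * DK k H + DK (m + 1 + 1) H := by
      rw [Finset.sum_Icc_succ_top (by omega), Nat.sub_self, pow_zero, one_mul, Finset.mul_sum]
      congr 1
      apply Finset.sum_congr rfl
      intro k hk
      rw [Finset.mem_Icc] at hk
      have : m + 1 + 1 - k = (m + 1 - k) + 1 := by omega
      rw [this, pow_succ]
      ring
    rw [h2]
    have h3 : (5 : ℝ) ^ (m + 1 + 1 - 1) = 5 * 5 ^ (m + 1 - 1) := by
      simp only [Nat.add_sub_cancel]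
      rw [pow_succ]
      ring
    rw [h3]
    linarith


end Pool.Agent.Helper557.Rz
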