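import Pool.Agent.Helper557.Rz.Base
import Pool.Agent.Helper557.Rz.Defs
import Pool.Agent.Helper557.Rz.FADefs
import Pool.Agent.Helper557.Rz.M_dk
import Pool.Agent.Helper557.Rz.M_ps

set_option autoImplicit false

open MeasureTheory Set
open scoped Quaternion

namespace Pool.Agent.Helper557.Rz



theorem count_bound : ∃ C θ : ℝ, 0 < C ∧ 0 < θ ∧ θ < 1 ∧ ∀ i : ℕ, 1 ≤ i →
    PS (10 * i) (BB (5 ^ 9) ((5 : ℝ) ^ (9 * i))) ≤ C * θ ^ i * ((5 : ℝ) ^ 20) ^ i := by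
  obtain ⟨C, hC, hD⟩ := DK_bound (5 ^ 9) (by norm_num)
  obtain ⟨q, hq⟩ : ∃ q : ℝ, q = (5 : ℝ) ^ (1 / 6 : ℝ) := ⟨_, rfl⟩
  have hq0 : 0 < q := by rw [hq]; positivity
  have hq1 : 1 ≤ q := by
    rw [hq]
    exact Real.one_le_rpow (by norm_num) (by norm_num)
  have hq6 : q ^ 6 = 5 := by
    rw [hq, ← Real.rpow_natCast, ← Real.rpow_mul (by norm_num)]
    norm_num
  have h2q : 2 < q ^ 5 := by
    have h1 : (64 : ℝ) < (q ^ 5) ^ 6 := by
      have : (q ^ 5) ^ 6 = (q ^ 6) ^ 5 := by ring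
      rw [this, hq6]; norm_num
    by_contra hcon
    push Not at hcon
    have h3 : (q ^ 5) ^ 6 ≤ 2 ^ 6 := pow_le_pow_left₀ (by positivity) hcon 6
    norm_num at h3 h1
    linarith
  have e1 : ∀ k : ℕ, ((5 : ℝ) ^ k) ^ (5 / 6 : ℝ) = q ^ (5 * k) := by
    intro k
    rw [hq, ← Real.rpow_natCast, ← Real.rpow_natCast, ← Real.rpow_mul (by norm_num),
      ← Real.rpow_mul (by norm_num)]
    congr 1
    push_cast
    ring
  have e2 : ∀ k : ℕ, ((5 : ℝ) ^ k) ^ (8 / 3 : ℝ) = q ^ (16 * k) := by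
    intro k
    rw [hq, ← Real.rpow_natCast, ← Real.rpow_natCast, ← Real.rpow_mul (by norm_num),
      ← Real.rpow_mul (by norm_num)]
    congr 1
    push_cast
    ring
  have e3 : ∀ i : ℕ, ((5 : ℝ) ^ (9 * i)) ^ (-(5 / 6) : ℝ) = (q ^ (45 * i))⁻¹ := by
    intro i
    rw [hq, ← Real.rpow_natCast, ← Real.rpow_natCast, ← Real.rpow_mul (by norm_num),
      ← Real.rpow_mul (by norm_num), ← Real.rpow_neg (by norm_num)]
    congr 1
    push_cast
    ring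
  have e4 : ∀ k : ℕ, (5 : ℝ) ^ k = q ^ (6 * k) := by
    intro k
    rw [pow_mul, hq6]
  refine ⟨6 * 5 ^ 9 + 30 * C, 2 / q ^ 5, by positivity, by positivity, ?_, ?_⟩
  · rw [div_lt_one (by positivity)]
    exact h2q
  intro i hi
  have hi1 : (1 : ℝ) ≤ i := by exact_mod_cast hi
  have hH : ∀ s, 0 ≤ BB (5 ^ 9) ((5 : ℝ) ^ (9 * i)) s := by
    intro s
    unfold BB
    split_ifs
    · positivity
    · exact le_min (by positivity) (by positivity)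
  have hB := PS_bound (BB (5 ^ 9) ((5 : ℝ) ^ (9 * i))) hH (10 * i) (by omega)
  refine hB.trans ?_
  have hH0 : BB (5 ^ 9) ((5 : ℝ) ^ (9 * i)) 0 = 5 ^ 9 * (5 : ℝ) ^ (9 * i) := by
    unfold BB
    rw [if_pos le_rfl]
  have hQ0 : (0:ℝ) < q ^ (115 * i) := by positivity
  -- first term
  have t0 : 6 * (5 : ℝ) ^ (10 * i - 1) * BB (5 ^ 9) ((5 : ℝ) ^ (9 * i)) 0 ≤
      6 * 5 ^ 9 * q ^ (115 * i) := by
    rw [hH0, e4 (10 * i - 1), e4 (9 * i)]
    have : q ^ (6 * (10 * i - 1)) * q ^ (6 * (9 * i)) ≤ q ^ (115 * i) := by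
      rw [← pow_add]
      exact pow_le_pow_right₀ hq1 (by omega)
    nlinarith
  -- the other terms
  have t1 : ∀ k ∈ Finset.Icc 1 (10 * i),
      (5 : ℝ) ^ (10 * i - k) * DK k (BB (5 ^ 9) ((5 : ℝ) ^ (9 * i))) ≤ 3 * C * q ^ (115 * i) := by
    intro k hk
    rw [Finset.mem_Icc] at hk
    have h1 := hD k (5 ^ (9 * i)) (Nat.one_le_pow _ _ (by norm_num))
    have hc : (((5 ^ (9 * i) : ℕ) : ℝ)) = (5 : ℝ) ^ (9 * i) := by push_cast; rfl
    rw [hc, e1, e2, e3] at h1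
    have h2 : (5 : ℝ) ^ (10 * i - k) * DK k (BB (5 ^ 9) ((5 : ℝ) ^ (9 * i))) ≤
        (5 : ℝ) ^ (10 * i - k) * (C * ((5 : ℝ) ^ (9 * i) + q ^ (5 * k) * (5 : ℝ) ^ (9 * i) +
          q ^ (16 * k) * (q ^ (45 * i))⁻¹)) := mul_le_mul_of_nonneg_left h1 (by positivity)
    refine h2.trans ?_
    rw [e4 (10 * i - k), e4 (9 * i)]
    have a1 : q ^ (6 * (10 * i - k)) * q ^ (6 * (9 * i)) ≤ q ^ (115 * i) := by
      rw [← pow_add]
      exact pow_le_pow_right₀ hq1 (by omega)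
    have a2 : q ^ (6 * (10 * i - k)) * (q ^ (5 * k) * q ^ (6 * (9 * i))) ≤ q ^ (115 * i) := by
      rw [← pow_add, ← pow_add]
      exact pow_le_pow_right₀ hq1 (by omega)
    have a3 : q ^ (6 * (10 * i - k)) * (q ^ (16 * k) * (q ^ (45 * i))⁻¹) ≤ q ^ (115 * i) := by
      rw [← mul_assoc, ← pow_add, mul_inv_le_iff₀ (by positivity), ← pow_add]
      exact pow_le_pow_right₀ hq1 (by omega)
    calc q ^ (6 * (10 * i - k)) * (C * (q ^ (6 * (9 * i)) + q ^ (5 * k) * q ^ (6 * (9 * i)) +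
          q ^ (16 * k) * (q ^ (45 * i))⁻¹))
        = C * (q ^ (6 * (10 * i - k)) * q ^ (6 * (9 * i)) +
          q ^ (6 * (10 * i - k)) * (q ^ (5 * k) * q ^ (6 * (9 * i))) +
          q ^ (6 * (10 * i - k)) * (q ^ (16 * k) * (q ^ (45 * i))⁻¹)) := by ring
      _ ≤ C * (q ^ (115 * i) + q ^ (115 * i) + q ^ (115 * i)) := by gcongr
      _ = _ := by ring
  have t2 : ∑ k ∈ Finset.Icc 1 (10 * i),
      (5 : ℝ) ^ (10 * i - k) * DK k (BB (5 ^ 9) ((5 : ℝ) ^ (9 * i))) ≤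
      (10 * i) * (3 * C * q ^ (115 * i)) := by
    have := Finset.sum_le_card_nsmul _ _ _ t1
    rw [Nat.card_Icc, nsmul_eq_mul] at this
    refine this.trans (le_of_eq ?_)
    congr 1
    have : 10 * i + 1 - 1 = 10 * i := by omega
    rw [this]
    push_cast
    ring
  have t3 : 6 * 5 ^ 9 * q ^ (115 * i) + (10 * i) * (3 * C * q ^ (115 * i)) ≤
      (6 * 5 ^ 9 + 30 * C) * (i * q ^ (115 * i)) := by
    have : q ^ (115 * i) ≤ i * q ^ (115 * i) := by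
      nlinarith
    nlinarith
  refine (add_le_add t0 t2).trans (t3.trans ?_)
  have t4 : (i : ℝ) ≤ 2 ^ i := by
    have := Nat.lt_two_pow_self (n := i)
    exact_mod_cast this.le
  have t5 : (2 / q ^ 5) ^ i * ((5 : ℝ) ^ 20) ^ i = 2 ^ i * q ^ (115 * i) := by
    rw [e4 20, ← mul_pow, pow_mul q 115 i, ← mul_pow]
    congr 1
    field_simp
  rw [mul_assoc, t5]
  gcongr


end Pool.Agent.Helper557.Rz
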