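import Pool.Agent.Helper557.Rz.Base
import Pool.Agent.Helper557.Rz.Defs
import Pool.Agent.Helper557.Rz.FADefs

set_option autoImplicit false

open MeasureTheory Set
open scoped Quaternion

namespace Pool.Agent.Helper557.Rz
theorem er_ext {x y : E 3} (h0 : x 0 = y 0) (h1 : x 1 = y 1) (h2 : x 2 = y 2) : x = y := by
  ext i
  fin_cases i
  · exact h0
  · exact h1
  · exact h2

theorem er_sq (x : S 3) : ((x : E 3) 0) ^ 2 + (((x : E 3) 1) ^ 2 + ((x : E 3) 2) ^ 2) = 1 := by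
  have h1 := EuclideanSpace.real_norm_sq_eq (x : E 3)
  have h2 : ‖(x : E 3)‖ = 1 := by simp
  rw [h2, Fin.sum_univ_three] at h1
  linarith

/-- rotation about the first axis -/
noncomputable def er_vx (θ : ℝ) (x : E 3) : E 3 :=
  !₂[x 0, Real.cos θ * x 1 - Real.sin θ * x 2, Real.sin θ * x 1 + Real.cos θ * x 2]

/-- rotation about the third axis -/
noncomputable def er_vz (θ : ℝ) (x : E 3) : E 3 :=
  !₂[Real.cos θ * x 0 - Real.sin θ * x 1, Real.sin θ * x 0 + Real.cos θ * x 1, x 2]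

theorem er_vx_norm (θ : ℝ) (x : E 3) : ‖er_vx θ x‖ = ‖x‖ := by
  have h1 : ‖er_vx θ x‖ ^ 2 = ‖x‖ ^ 2 := by
    rw [EuclideanSpace.real_norm_sq_eq, EuclideanSpace.real_norm_sq_eq, Fin.sum_univ_three,
      Fin.sum_univ_three]
    have h := Real.sin_sq_add_cos_sq θ
    simp only [er_vx]
    simp
    linear_combination ((x 1) ^ 2 + (x 2) ^ 2) * h
  exact (pow_left_inj₀ (norm_nonneg _) (norm_nonneg _) two_ne_zero).1 h1

theorem er_vz_norm (θ : ℝ) (x : E 3) : ‖er_vz θ x‖ = ‖x‖ := by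
  have h1 : ‖er_vz θ x‖ ^ 2 = ‖x‖ ^ 2 := by
    rw [EuclideanSpace.real_norm_sq_eq, EuclideanSpace.real_norm_sq_eq, Fin.sum_univ_three,
      Fin.sum_univ_three]
    have h := Real.sin_sq_add_cos_sq θ
    simp only [er_vz]
    simp
    linear_combination ((x 0) ^ 2 + (x 1) ^ 2) * h
  exact (pow_left_inj₀ (norm_nonneg _) (norm_nonneg _) two_ne_zero).1 h1

/-- rotation about the first axis, on the sphere -/
noncomputable def er_rx (θ : ℝ) (x : S 3) : S 3 :=
  ⟨er_vx θ x.1, by rw [mem_sphere_zero_iff_norm, er_vx_norm]; simp⟩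

/-- rotation about the third axis, on the sphere -/
noncomputable def er_rz (θ : ℝ) (x : S 3) : S 3 :=
  ⟨er_vz θ x.1, by rw [mem_sphere_zero_iff_norm, er_vz_norm]; simp⟩

theorem er_vx_cont (x : E 3) : Continuous fun θ => er_vx θ x := by
  unfold er_vx
  apply (PiLp.continuous_toLp 2 _).comp
  apply continuous_pi
  intro i
  fin_cases i
  · exact continuous_const
  · show Continuous fun θ => Real.cos θ * x 1 - Real.sin θ * x 2
    fun_prop
  · show Continuous fun θ => Real.sin θ * x 1 + Real.cos θ * x 2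
    fun_prop

theorem er_vz_cont (x : E 3) : Continuous fun θ => er_vz θ x := by
  unfold er_vz
  apply (PiLp.continuous_toLp 2 _).comp
  apply continuous_pi
  intro i
  fin_cases i
  · show Continuous fun θ => Real.cos θ * x 0 - Real.sin θ * x 1
    fun_prop
  · show Continuous fun θ => Real.sin θ * x 0 + Real.cos θ * x 1
    fun_prop
  · exact continuous_const

theorem er_circle (ψ : C(S 3, ℝ)) (f : ℝ → S 3 → S 3) {t : ℝ}
    (hirr : Irrational (t / (2 * Real.pi))) (h0 : ∀ x, f 0 x = x)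
    (hadd : ∀ a b x, f (a + b) x = f a (f b x)) (hcont : ∀ x, Continuous fun θ => f θ x)
    (h2 : ∀ x, f (2 * Real.pi) x = x) (ht : ∀ x, ψ (f t x) = ψ x) :
    ∀ θ x, ψ (f θ x) = ψ x := by
  set H : AddSubgroup ℝ :=
    { carrier := {θ | ∀ x, ψ (f θ x) = ψ x}
      zero_mem' := fun x => by rw [h0]
      add_mem' := fun {a b} ha hb x => by rw [hadd, ha, hb]
      neg_mem' := fun {a} ha x => by
        have h3 := ha (f (-a) x)
        rw [← hadd, add_neg_cancel, h0] at h3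
        exact h3.symm } with hH
  have hclosed : IsClosed (H : Set ℝ) := by
    have : (H : Set ℝ) = ⋂ x, {θ | ψ (f θ x) = ψ x} := by
      ext θ
      simp only [Set.mem_iInter]
      rfl
    rw [this]
    exact isClosed_iInter fun x => isClosed_eq (ψ.continuous.comp (hcont x)) continuous_const
  have hle : AddSubgroup.closure {t, 2 * Real.pi} ≤ H := by
    rw [AddSubgroup.closure_le]
    intro a ha
    rcases ha with rfl | ha
    · exact ht
    · rw [Set.mem_singleton_iff] at ha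
      subst ha
      intro x
      rw [h2]
  have hdense : Dense (H : Set ℝ) :=
    (dense_addSubgroupClosure_pair_iff.2 hirr).mono hle
  intro θ
  have : θ ∈ (H : Set ℝ) := by
    rw [← hclosed.closure_eq]
    exact hdense θ
  exact this

theorem er_pow (n : ℕ) : ∃ a b : ℤ, (-3 + 4 * Complex.I) ^ (n + 1) = (a : ℂ) + b * Complex.I ∧
    ((a % 5 = 2 ∧ b % 5 = 4) ∨ (a % 5 = 3 ∧ b % 5 = 1)) := by
  induction n with
  | zero => exact ⟨-3, 4, by push_cast; ring, by omega⟩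
  | succ n ih =>
    obtain ⟨a, b, h1, h2⟩ := ih
    refine ⟨-3 * a - 4 * b, 4 * a - 3 * b, ?_, by omega⟩
    rw [pow_succ, h1]
    push_cast
    have hI := Complex.I_sq
    linear_combination (4 * (b : ℂ)) * hI

theorem er_angle : ∃ t : ℝ, Real.cos t = -(3 / 5) ∧ Real.sin t = 4 / 5 ∧
    Irrational (t / (2 * Real.pi)) := by
  refine ⟨Real.arccos (-(3 / 5)), Real.cos_arccos (by norm_num) (by norm_num), ?_, ?_⟩
  · rw [Real.sin_arccos]
    rw [show (1 : ℝ) - (-(3 / 5)) ^ 2 = (4 / 5) ^ 2 by norm_num]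
    exact Real.sqrt_sq (by norm_num)
  · have hc : Real.cos (Real.arccos (-(3 / 5))) = -(3 / 5) :=
      Real.cos_arccos (by norm_num) (by norm_num)
    have hs : Real.sin (Real.arccos (-(3 / 5))) = 4 / 5 := by
      rw [Real.sin_arccos, show (1 : ℝ) - (-(3 / 5)) ^ 2 = (4 / 5) ^ 2 by norm_num]
      exact Real.sqrt_sq (by norm_num)
    set t := Real.arccos (-(3 / 5)) with ht
    rintro ⟨r, hr⟩
    have hpi := Real.pi_pos
    have h1 : t * r.den = 2 * Real.pi * r.num := by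
      have h2 : (r : ℝ) = r.num / r.den := by exact_mod_cast (Rat.num_div_den r).symm
      have h3 : (r.den : ℝ) ≠ 0 := by exact_mod_cast r.den_nz
      rw [h2, div_eq_div_iff h3 (by positivity)] at hr
      linarith
    have h4 : Complex.exp (t * Complex.I) ^ r.den = 1 := by
      rw [← Complex.exp_nat_mul, Complex.exp_eq_one_iff]
      refine ⟨r.num, ?_⟩
      have h5 : ((t * r.den : ℝ) : ℂ) = ((2 * Real.pi * r.num : ℝ) : ℂ) := congrArg _ h1
      push_cast at h5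
      linear_combination Complex.I * h5
    have h6 : Complex.exp (t * Complex.I) = (-3 + 4 * Complex.I) / 5 := by
      rw [Complex.exp_mul_I, ← Complex.ofReal_cos, ← Complex.ofReal_sin, hc, hs]
      push_cast
      ring
    rw [h6, div_pow, div_eq_one_iff_eq (pow_ne_zero _ (by norm_num))] at h4
    have h7 : r.den = (r.den - 1) + 1 := by
      have := r.den_pos
      omega
    obtain ⟨a, b, h8, h9⟩ := er_pow (r.den - 1)
    rw [← h7, h4] at h8
    have h10 := congrArg Complex.im h8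
    have h11 : ((5 : ℂ) ^ r.den).im = 0 := by
      have : ((5 : ℂ) ^ r.den) = (((5 : ℝ) ^ r.den : ℝ) : ℂ) := by push_cast; rfl
      rw [this, Complex.ofReal_im]
    rw [h11] at h10
    simp at h10
    have h12 : b = 0 := by exact_mod_cast h10.symm
    rw [h12] at h9
    omega

theorem er_polar (a b : ℝ) : ∃ θ r : ℝ, Real.cos θ * a - Real.sin θ * b = r ∧
    Real.sin θ * a + Real.cos θ * b = 0 := by
  refine ⟨-Complex.arg ⟨a, b⟩, ‖(⟨a, b⟩ : ℂ)‖, ?_, ?_⟩
  · have h1 := Complex.norm_mul_cos_arg (⟨a, b⟩ : ℂ)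
    have h2 := Complex.norm_mul_sin_arg (⟨a, b⟩ : ℂ)
    rw [Real.cos_neg, Real.sin_neg]
    have h3 := Real.sin_sq_add_cos_sq (Complex.arg ⟨a, b⟩)
    simp only at h1 h2
    calc Real.cos (Complex.arg ⟨a, b⟩) * a - -Real.sin (Complex.arg ⟨a, b⟩) * b
        = Real.cos (Complex.arg ⟨a, b⟩) * (‖(⟨a, b⟩ : ℂ)‖ * Real.cos (Complex.arg ⟨a, b⟩)) +
          Real.sin (Complex.arg ⟨a, b⟩) * (‖(⟨a, b⟩ : ℂ)‖ * Real.sin (Complex.arg ⟨a, b⟩)) := by
          rw [h1, h2]; ring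
      _ = ‖(⟨a, b⟩ : ℂ)‖ * (Real.sin (Complex.arg ⟨a, b⟩) ^ 2 +
          Real.cos (Complex.arg ⟨a, b⟩) ^ 2) := by ring
      _ = _ := by rw [h3, mul_one]
  · have h1 := Complex.norm_mul_cos_arg (⟨a, b⟩ : ℂ)
    have h2 := Complex.norm_mul_sin_arg (⟨a, b⟩ : ℂ)
    rw [Real.cos_neg, Real.sin_neg]
    simp only at h1 h2
    calc -Real.sin (Complex.arg ⟨a, b⟩) * a + Real.cos (Complex.arg ⟨a, b⟩) * b
        = -Real.sin (Complex.arg ⟨a, b⟩) * (‖(⟨a, b⟩ : ℂ)‖ * Real.cos (Complex.arg ⟨a, b⟩)) +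
          Real.cos (Complex.arg ⟨a, b⟩) * (‖(⟨a, b⟩ : ℂ)‖ * Real.sin (Complex.arg ⟨a, b⟩)) := by
          rw [h1, h2]
      _ = 0 := by ring

theorem er_mul (R : ℍ[ℝ]ˣ →* Iso 3) (hR : ∀ (q : ℍ[ℝ]ˣ) (x : E 3),
    imq (R q x) = (q : ℍ[ℝ]) * imq x * ((q⁻¹ : ℍ[ℝ]ˣ) : ℍ[ℝ])) (a : Fin 6) (x : E 3) :
    imq (R (ua a) x) * cz (al a) = cz (al a) * imq x := by
  rw [hR]
  have h1 : ((ua a : ℍ[ℝ]ˣ) : ℍ[ℝ]) = cz (al a) := rfl
  rw [← h1, mul_assoc, Units.inv_mul, mul_one]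

theorem er_R0 (R : ℍ[ℝ]ˣ →* Iso 3) (hR : ∀ (q : ℍ[ℝ]ˣ) (x : E 3),
    imq (R q x) = (q : ℍ[ℝ]) * imq x * ((q⁻¹ : ℍ[ℝ]ˣ) : ℍ[ℝ])) (x : E 3) :
    (R (ua 0) x) 0 = x 0 ∧ (R (ua 0) x) 1 = -(3 / 5) * x 1 - 4 / 5 * x 2 ∧
      (R (ua 0) x) 2 = 4 / 5 * x 1 - 3 / 5 * x 2 := by
  have h := er_mul R hR 0 x
  have h1 := congrArg QuaternionAlgebra.re h
  have h2 := congrArg QuaternionAlgebra.imI h
  have h3 := congrArg QuaternionAlgebra.imJ h
  have h4 := congrArg QuaternionAlgebra.imK h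
  simp [imq, cz, al] at h1 h2 h3 h4
  refine ⟨?_, ?_, ?_⟩ <;> linarith

theorem er_R2 (R : ℍ[ℝ]ˣ →* Iso 3) (hR : ∀ (q : ℍ[ℝ]ˣ) (x : E 3),
    imq (R q x) = (q : ℍ[ℝ]) * imq x * ((q⁻¹ : ℍ[ℝ]ˣ) : ℍ[ℝ])) (x : E 3) :
    (R (ua 2) x) 0 = -(3 / 5) * x 0 - 4 / 5 * x 1 ∧ (R (ua 2) x) 1 = 4 / 5 * x 0 - 3 / 5 * x 1 ∧
      (R (ua 2) x) 2 = x 2 := by
  have h := er_mul R hR 2 x
  have h1 := congrArg QuaternionAlgebra.re h
  have h2 := congrArg QuaternionAlgebra.imI h
  have h3 := congrArg QuaternionAlgebra.imJ h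
  have h4 := congrArg QuaternionAlgebra.imK h
  simp [imq, cz, al] at h1 h2 h3 h4
  refine ⟨?_, ?_, ?_⟩ <;> linarith


theorem ergodic3 (R : ℍ[ℝ]ˣ →* Iso 3) (hR : ∀ (q : ℍ[ℝ]ˣ) (x : E 3),
    imq (R q x) = (q : ℍ[ℝ]) * imq x * ((q⁻¹ : ℍ[ℝ]ˣ) : ℍ[ℝ])) (ψ : C(S 3, ℝ))
    (h : ∀ a x, ψ (rot (R (ua a)) x) = ψ x) (x y : S 3) : ψ x = ψ y := by
  obtain ⟨t, hc, hs, hirr⟩ := er_angle
  have hx : ∀ θ x, ψ (er_rx θ x) = ψ x := by
    apply er_circle ψ er_rx hirr
    · intro x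
      apply Subtype.ext
      apply er_ext <;> simp [er_rx, er_vx]
    · intro a b x
      apply Subtype.ext
      apply er_ext
      · simp [er_rx, er_vx]
      · simp [er_rx, er_vx, Real.cos_add, Real.sin_add]; ring
      · simp [er_rx, er_vx, Real.cos_add, Real.sin_add]; ring
    · intro x
      apply Continuous.subtype_mk
      exact er_vx_cont x.1
    · intro x
      apply Subtype.ext
      apply er_ext <;> simp [er_rx, er_vx]
    · intro x
      have e1 : er_rx t x = rot (R (ua 0)) x := by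
        apply Subtype.ext
        have h1 := er_R0 R hR x.1
        apply er_ext
        · simp [er_rx, er_vx, h1.1]
        · simp [er_rx, er_vx, h1.2.1, hc, hs]
        · simp [er_rx, er_vx, h1.2.2, hc, hs]; ring
      rw [e1]
      exact h 0 x
  have hz : ∀ θ x, ψ (er_rz θ x) = ψ x := by
    apply er_circle ψ er_rz hirr
    · intro x
      apply Subtype.ext
      apply er_ext <;> simp [er_rz, er_vz]
    · intro a b x
      apply Subtype.ext
      apply er_ext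
      · simp [er_rz, er_vz, Real.cos_add, Real.sin_add]; ring
      · simp [er_rz, er_vz, Real.cos_add, Real.sin_add]; ring
      · simp [er_rz, er_vz]
    · intro x
      apply Continuous.subtype_mk
      exact er_vz_cont x.1
    · intro x
      apply Subtype.ext
      apply er_ext <;> simp [er_rz, er_vz]
    · intro x
      have e1 : er_rz t x = rot (R (ua 2)) x := by
        apply Subtype.ext
        have h1 := er_R2 R hR x.1
        apply er_ext
        · simp [er_rz, er_vz, h1.1, hc, hs]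
        · simp [er_rz, er_vz, h1.2.1, hc, hs]; ring
        · simp [er_rz, er_vz, h1.2.2]
      rw [e1]
      exact h 2 x
  have key : ∀ x : S 3, ∃ θ φ : ℝ, ((er_rz φ (er_rx θ x) : S 3) : E 3) 0 = 1 ∧
      ((er_rz φ (er_rx θ x) : S 3) : E 3) 1 = 0 ∧ ((er_rz φ (er_rx θ x) : S 3) : E 3) 2 = 0 := by
    intro x
    have hn := er_sq x
    obtain ⟨θ, r, h1, h2⟩ := er_polar ((x : E 3) 1) ((x : E 3) 2)
    have h3 : ((x : E 3) 0) ^ 2 + r ^ 2 = 1 := by
      have h4 := Real.sin_sq_add_cos_sq θ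
      have h5 : r ^ 2 + 0 ^ 2 = ((x : E 3) 1) ^ 2 + ((x : E 3) 2) ^ 2 := by
        rw [← h1, ← h2]
        linear_combination (((x : E 3) 1) ^ 2 + ((x : E 3) 2) ^ 2) * h4
      linarith
    obtain ⟨φ, h4, h5⟩ : ∃ φ : ℝ, Real.cos φ = (x : E 3) 0 ∧ Real.sin φ = -r := by
      have h6 : ‖(⟨(x : E 3) 0, -r⟩ : ℂ)‖ = 1 := by
        rw [Complex.norm_def, Complex.normSq_mk]
        rw [show (x : E 3) 0 * (x : E 3) 0 + -r * -r = 1 by linarith]
        exact Real.sqrt_one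
      have h7 := Complex.norm_mul_cos_arg (⟨(x : E 3) 0, -r⟩ : ℂ)
      have h8 := Complex.norm_mul_sin_arg (⟨(x : E 3) 0, -r⟩ : ℂ)
      rw [h6, one_mul] at h7 h8
      exact ⟨_, h7, h8⟩
    refine ⟨θ, φ, ?_, ?_, ?_⟩
    · simp only [er_rz, er_vz, er_rx, er_vx]
      simp
      rw [h4, h5, h1]
      linarith
    · simp only [er_rz, er_vz, er_rx, er_vx]
      simp
      rw [h4, h5, h1]
      ring
    · simp only [er_rz, er_vz, er_rx, er_vx]
      simp
      exact h2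
  obtain ⟨θ1, φ1, a1, b1, c1⟩ := key x
  obtain ⟨θ2, φ2, a2, b2, c2⟩ := key y
  have hE : er_rz φ1 (er_rx θ1 x) = er_rz φ2 (er_rx θ2 y) := by
    apply Subtype.ext
    apply er_ext
    · rw [a1, a2]
    · rw [b1, b2]
    · rw [c1, c2]
  rw [← hx θ1 x, ← hz φ1 (er_rx θ1 x), hE, hz φ2, hx θ2]



end Pool.Agent.Helper557.Rz
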