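import Pool.Agent.Helper557.Rz.Base
import Pool.Agent.Helper557.Rz.Defs
import Pool.Agent.Helper557.Rz.FADefs
import Pool.Agent.Helper557.Rz.M_meas
import Pool.Agent.Helper557.Rz.M_poly

set_option autoImplicit false

open MeasureTheory Set
open scoped Quaternion

namespace Pool.Agent.Helper557.Rz

theorem even_int (f : ℝ → ℝ) (hf : Continuous f) (he : ∀ t, f (-t) = f t) :
    ∫ t in (-1 : ℝ)..1, f t = 2 * ∫ t in (0 : ℝ)..1, f t := by
  have h1 : ∫ t in (-1 : ℝ)..0, f t = ∫ t in (0 : ℝ)..1, f t := by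
    have := intervalIntegral.integral_comp_neg (a := 0) (b := 1) (f := f)
    rw [neg_zero] at this
    rw [← this]
    exact intervalIntegral.integral_congr (fun t _ => he t)
  rw [← intervalIntegral.integral_add_adjacent_intervals (b := 0)
    (hf.intervalIntegrable _ _) (hf.intervalIntegrable _ _), h1]
  ring

theorem tr_eval (N : ℕ) (hN : 1 ≤ N) (g : Iso 3) (s : ℝ) (hs : 0 ≤ s) (b : E 3) (hb : ‖b‖ ^ 2 = s)
    (h : ∀ x : S 3, u x (rot g x) = 1 - s + (inner ℝ b (x : E 3)) ^ 2) :
    ∫ x, kk N x (rot g x) ∂(sg 3) = fN N s := by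
  rcases hs.eq_or_lt with h0 | hpos
  · have hs0 : s = 0 := h0.symm
    subst hs0
    have hb0 : b = 0 := by
      have : ‖b‖ = 0 := by
        have := hb
        exact pow_eq_zero_iff (two_ne_zero) |>.1 this
      exact norm_eq_zero.1 this
    have e : ∀ x : S 3, kk N x (rot g x) = N := by
      intro x
      unfold kk
      rw [h x, hb0]
      simp
    simp only [e]
    haveI := sg_prob 3 (by norm_num)
    rw [integral_const]
    simp [fN]
  · have hbn : 0 < ‖b‖ := by
      rcases (norm_nonneg b).eq_or_lt with h1 | h1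
      · rw [← h1] at hb; simp at hb; linarith
      · exact h1
    let b' : S 3 := ⟨(‖b‖⁻¹ : ℝ) • b, by
      rw [mem_sphere_zero_iff_norm, norm_smul, norm_inv, norm_norm, inv_mul_cancel₀ hbn.ne']⟩
    have e : ∀ x : S 3, kk N x (rot g x) =
        (Polynomial.C (N : ℝ) * (Polynomial.C (1 - s) + Polynomial.C s * Polynomial.X ^ 2) ^ (N - 1)).eval
          (inner ℝ (b' : E 3) (x : E 3)) := by
      intro x
      have h1 : inner ℝ (b' : E 3) (x : E 3) = ‖b‖⁻¹ * inner ℝ b (x : E 3) := by
        show inner ℝ ((‖b‖⁻¹ : ℝ) • b) (x : E 3) = _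
        rw [real_inner_smul_left]
      unfold kk
      rw [h x]
      simp only [Polynomial.eval_mul, Polynomial.eval_pow, Polynomial.eval_add, Polynomial.eval_C,
        Polynomial.eval_X]
      rw [h1, mul_pow, ← hb, inv_pow, mul_inv_cancel_left₀ (pow_ne_zero 2 hbn.ne')]
    simp only [e]
    rw [sph_poly]
    have e2 : ∀ t : ℝ, (Polynomial.C (N : ℝ) * (Polynomial.C (1 - s) +
        Polynomial.C s * Polynomial.X ^ 2) ^ (N - 1)).eval t = N * (1 - s + s * t ^ 2) ^ (N - 1) := by
      intro t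
      simp only [Polynomial.eval_mul, Polynomial.eval_pow, Polynomial.eval_add, Polynomial.eval_C,
        Polynomial.eval_X]
    simp only [e2]
    rw [even_int _ (by fun_prop) (by intro t; simp), intervalIntegral.integral_const_mul]
    unfold fN
    ring

theorem ker3 (N : ℕ) (hN : 1 ≤ N) (x : S 3) : ∫ y, kk N x y ∂(sg 3) = 1 := by
  have e : ∀ y : S 3, kk N x y =
      (Polynomial.C (N : ℝ) * (Polynomial.C (1 / 2) * (1 + Polynomial.X)) ^ (N - 1)).eval
        (inner ℝ (x : E 3) (y : E 3)) := by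
    intro y
    unfold kk u
    simp only [Polynomial.eval_mul, Polynomial.eval_pow, Polynomial.eval_add, Polynomial.eval_C,
      Polynomial.eval_X, Polynomial.eval_one]
    congr 2
    ring
  simp only [e]
  rw [sph_poly]
  have hN0 : (N : ℝ) ≠ 0 := by
    have : N ≠ 0 := by omega
    exact_mod_cast this
  have hd : ∀ t ∈ Set.uIcc (-1 : ℝ) 1, HasDerivAt (fun t : ℝ => 2 * ((1 / 2) * (1 + t)) ^ N)
      ((Polynomial.C (N : ℝ) * (Polynomial.C (1 / 2) * (1 + Polynomial.X)) ^ (N - 1)).eval t) t := by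
    intro t _
    have h1 : HasDerivAt (fun t : ℝ => (1 / 2) * (1 + t)) (1 / 2) t := by
      simpa using ((hasDerivAt_id t).const_add 1).const_mul (1 / 2 : ℝ)
    have h2 := (h1.fun_pow N).const_mul 2
    have e3 : (Polynomial.C (N : ℝ) * (Polynomial.C (1 / 2) * (1 + Polynomial.X)) ^ (N - 1)).eval t
        = 2 * (↑N * (1 / 2 * (1 + t)) ^ (N - 1) * (1 / 2)) := by
      simp only [Polynomial.eval_mul, Polynomial.eval_pow, Polynomial.eval_add, Polynomial.eval_C,
        Polynomial.eval_X, Polynomial.eval_one]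
      ring
    rw [e3]
    exact h2
  rw [intervalIntegral.integral_eq_sub_of_hasDerivAt hd
    ((Polynomial.continuous _).intervalIntegrable _ _)]
  have hN1 : N ≠ 0 := by omega
  norm_num [hN1]


end Pool.Agent.Helper557.Rz
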