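import Pool.Agent.Helper557.Rz.Base
import Pool.Agent.Helper557.Rz.Defs
import Pool.Agent.Helper557.Rz.FADefs
import Pool.Agent.Helper557.Rz.M_kera
import Pool.Agent.Helper557.Rz.M_kerc
import Pool.Agent.Helper557.Rz.M_meas
import Pool.Agent.Helper557.Rz.M_treval

set_option autoImplicit false

open MeasureTheory Set
open scoped Quaternion

namespace Pool.Agent.Helper557.Rz

theorem MN_tendsto (ψ : C(S 3, ℝ)) (ε : ℝ) (hε : 0 < ε) :
    ∃ N₀ : ℕ, 1 ≤ N₀ ∧ ∀ N : ℕ, N₀ ≤ N → ∀ x : S 3, |MN N ψ x - ψ x| ≤ ε := by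
  obtain ⟨M, hM⟩ := ker_approx 3 (by norm_num) ψ ε hε
  refine ⟨M + 1, by omega, fun N hN x => ?_⟩
  have h1 := hM (N - 1) (by omega) x
  have h2 : MN N ψ x = N * ∫ y, u x y ^ (N - 1) * ψ y ∂(sg 3) := by
    rw [MN, ← integral_const_mul]
    congr 1
    funext y
    rw [kk]; ring
  have h3 : (N : ℝ) * ∫ y, u x y ^ (N - 1) ∂(sg 3) = 1 := by
    rw [← integral_const_mul]
    exact ker3 N (by omega) x
  have hN0 : (0 : ℝ) ≤ N := Nat.cast_nonneg N
  have h4 : MN N ψ x - ψ x = N * (∫ y, u x y ^ (N - 1) * ψ y ∂(sg 3) -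
      (∫ y, u x y ^ (N - 1) ∂(sg 3)) * ψ x) := by
    rw [h2, mul_sub, ← mul_assoc, h3, one_mul]
  rw [h4, abs_mul, abs_of_nonneg hN0]
  calc (N : ℝ) * |∫ y, u x y ^ (N - 1) * ψ y ∂(sg 3) -
      (∫ y, u x y ^ (N - 1) ∂(sg 3)) * ψ x| ≤ N * (ε * ∫ y, u x y ^ (N - 1) ∂(sg 3)) :=
        mul_le_mul_of_nonneg_left h1 hN0
    _ = ε * (N * ∫ y, u x y ^ (N - 1) ∂(sg 3)) := by ring
    _ = ε := by rw [h3, mul_one]

theorem MN_facts (N : ℕ) (hN : 1 ≤ N) : ∃ L : C(S 3, ℝ) →ₗ[ℝ] C(S 3, ℝ),
    (∀ ψ x, L ψ x = MN N ψ x) ∧ FiniteDimensional ℝ (LinearMap.range L) ∧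
    (∀ (g : Iso 3) ψ, L (cr g ψ) = cr g (L ψ)) ∧
    (∀ ψ, ∫ x, L ψ x ∂(sg 3) = ∫ x, ψ x ∂(sg 3)) := by
  haveI := sg_prob 3 (by norm_num)
  obtain ⟨J, _, φ, hφ⟩ := ker_gram 3 (N - 1)
  have hint : ∀ f : S 3 → ℝ, Continuous f → Integrable f (sg 3) := fun f hf =>
    hf.integrable_of_hasCompactSupport (HasCompactSupport.of_compactSpace _)
  let ell : J → C(S 3, ℝ) →ₗ[ℝ] ℝ := fun j =>
    { toFun := fun ψ => ∫ y, φ j y * ψ y ∂(sg 3)
      map_add' := by
        intro a b
        have ha : Integrable (fun y => φ j y * a y) (sg 3) :=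
          hint _ ((φ j).continuous.mul a.continuous)
        have hb : Integrable (fun y => φ j y * b y) (sg 3) :=
          hint _ ((φ j).continuous.mul b.continuous)
        rw [← integral_add ha hb]
        congr 1
        funext y
        rw [ContinuousMap.add_apply, mul_add]
      map_smul' := by
        intro c a
        rw [RingHom.id_apply, smul_eq_mul, ← integral_const_mul]
        congr 1
        funext y
        rw [ContinuousMap.smul_apply, smul_eq_mul]; ring }
  let L : C(S 3, ℝ) →ₗ[ℝ] C(S 3, ℝ) := (N : ℝ) • ∑ j, (ell j).smulRight (φ j)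
  have hLval : ∀ ψ x, L ψ x = N * ∑ j, (∫ y, φ j y * ψ y ∂(sg 3)) * φ j x := by
    intro ψ x
    show ((N : ℝ) • ∑ j, (ell j).smulRight (φ j)) ψ x = _
    rw [LinearMap.smul_apply, LinearMap.sum_apply, ContinuousMap.smul_apply, smul_eq_mul,
      ContinuousMap.sum_apply]
    rfl
  have hL : ∀ ψ x, L ψ x = MN N ψ x := by
    intro ψ x
    rw [hLval, MN, Finset.mul_sum]
    have h1 : (fun y => kk N x y * ψ y) = fun y => ∑ j, (N * φ j x) * (φ j y * ψ y) := by
      funext y
      rw [kk, hφ, Finset.mul_sum, Finset.sum_mul]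
      apply Finset.sum_congr rfl
      intro j _
      ring
    rw [h1, integral_finsetSum]
    · apply Finset.sum_congr rfl
      intro j _
      rw [integral_const_mul]
      ring
    · intro j _
      exact (hint _ ((φ j).continuous.mul ψ.continuous)).const_mul _
  have hkc : ∀ x : S 3, Continuous (fun y => kk N x y) := by
    intro x
    unfold kk
    have : Continuous fun y : S 3 => u x y :=
      (ker_cont 3).comp (continuous_const.prodMk continuous_id)
    exact continuous_const.mul (this.pow _)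
  refine ⟨L, hL, ?_, ?_, ?_⟩
  · have hle : LinearMap.range L ≤ Submodule.span ℝ (Set.range φ) := by
      rintro _ ⟨ψ, rfl⟩
      show ((N : ℝ) • ∑ j, (ell j).smulRight (φ j)) ψ ∈ _
      rw [LinearMap.smul_apply, LinearMap.sum_apply]
      apply Submodule.smul_mem
      apply Submodule.sum_mem
      intro j _
      rw [LinearMap.smulRight_apply]
      exact Submodule.smul_mem _ _ (Submodule.subset_span ⟨j, rfl⟩)
    haveI : FiniteDimensional ℝ (Submodule.span ℝ (Set.range φ)) :=
      FiniteDimensional.span_of_finite ℝ (Set.finite_range φ)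
    exact Submodule.finiteDimensional_of_le hle
  · intro g ψ
    ext x
    rw [hL, cr_apply, hL, MN, MN]
    have h1 : (fun y => kk N x y * cr g ψ y) =
        fun y => (fun z => kk N (rot g x) z * ψ z) (rot g y) := by
      funext y
      simp only [cr_apply, kk]
      rw [ker_rot]
    rw [h1]
    have hmp := rot_mp 3 (by norm_num) g
    have h2 : ∫ y, (fun z => kk N (rot g x) z * ψ z) (rot g y) ∂(sg 3) =
        ∫ z, (fun z => kk N (rot g x) z * ψ z) z ∂(Measure.map (rot g) (sg 3)) := by
      rw [integral_map hmp.measurable.aemeasurable]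
      exact (((hkc _).mul ψ.continuous)).aestronglyMeasurable
    rw [h2, hmp.map_eq]
  · intro ψ
    have h1 : ∀ y : S 3, (N : ℝ) * ∑ j, φ j y * (∫ x, φ j x ∂(sg 3)) = 1 := by
      intro y
      rw [← ker3 N hN y]
      have h2 : (fun x => kk N y x) = fun x => ∑ j, (N * φ j y) * φ j x := by
        funext x
        rw [kk, hφ, Finset.mul_sum]
        apply Finset.sum_congr rfl
        intro j _
        ring
      rw [h2, integral_finsetSum, Finset.mul_sum]
      · apply Finset.sum_congr rfl
        intro j _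
        rw [integral_const_mul]
        ring
      · intro j _
        exact (hint _ (φ j).continuous).const_mul _
    simp only [hLval]
    rw [integral_const_mul, integral_finsetSum]
    · have h3 : (fun y => ψ y) = fun y => ∑ j, ((N : ℝ) * ∫ x, φ j x ∂(sg 3)) * (φ j y * ψ y) := by
        funext y
        have := h1 y
        calc ψ y = ((N : ℝ) * ∑ j, φ j y * (∫ x, φ j x ∂(sg 3))) * ψ y := by rw [this, one_mul]
          _ = _ := by
            rw [Finset.mul_sum, Finset.sum_mul]
            apply Finset.sum_congr rfl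
            intro j _
            ring
      rw [h3, integral_finsetSum, Finset.mul_sum]
      · apply Finset.sum_congr rfl
        intro j _
        rw [integral_const_mul, integral_const_mul]
        ring
      · intro j _
        exact (hint _ ((φ j).continuous.mul ψ.continuous)).const_mul _
    · intro j _
      exact (hint _ (φ j).continuous).const_mul _


end Pool.Agent.Helper557.Rz
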