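import Pool.Agent.Helper557.Rz.Defs

set_option autoImplicit false

open MeasureTheory Set

namespace Pool.Agent.Helper557.Rz

theorem fN_le (N : ℕ) (hN : 1 ≤ N) (s : ℝ) (h0 : 0 ≤ s) (h1 : s ≤ 1) : fN N s ≤ N := by
  unfold fN
  have h2 : (∫ t in (0 : ℝ)..1, (1 - s + s * t ^ 2) ^ (N - 1)) ≤ ∫ t in (0 : ℝ)..1, (1 : ℝ) := by
    apply intervalIntegral.integral_mono_on (by norm_num)
    · apply Continuous.intervalIntegrable; fun_prop
    · apply Continuous.intervalIntegrable; fun_prop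
    · intro t ht
      have h3 : t ^ 2 ≤ 1 := by nlinarith [ht.1, ht.2]
      apply pow_le_one₀
      · nlinarith [sq_nonneg t]
      · nlinarith
  have h3 : (∫ t in (0 : ℝ)..1, (1 : ℝ)) = 1 := by simp
  rw [h3] at h2
  have : (0 : ℝ) ≤ N := by positivity
  nlinarith

theorem fN_lower (N : ℕ) (hN : 1 ≤ N) (s : ℝ) (h0 : 0 < s) (h1 : s ≤ 1) :
    (1 - (1 - s) ^ N) / (2 * s) ≤ fN N s := by
  have e1 : ∫ t in (0 : ℝ)..1, (N : ℝ) * (t * (1 - s + s * t ^ 2) ^ (N - 1)) =
      (1 - (1 - s) ^ N) / (2 * s) := by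
    rw [intervalIntegral.integral_eq_sub_of_hasDerivAt
      (f := fun t : ℝ => (1 - s + s * t ^ 2) ^ N / (2 * s))]
    · simp; ring
    · intro t _
      have h2 : HasDerivAt (fun t : ℝ => 1 - s + s * t ^ 2) (s * (2 * t)) t := by
        have := ((hasDerivAt_pow 2 t).const_mul s).const_add (1 - s)
        simpa using this
      have h3 := (h2.pow N).div_const (2 * s)
      refine h3.congr_deriv ?_
      field_simp
    · apply Continuous.intervalIntegrable; fun_prop
  rw [← e1]
  unfold fN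
  rw [← intervalIntegral.integral_const_mul]
  apply intervalIntegral.integral_mono_on (by norm_num)
  · apply Continuous.intervalIntegrable; fun_prop
  · apply Continuous.intervalIntegrable; fun_prop
  · intro t ht
    have h3 : 0 ≤ (1 - s + s * t ^ 2) ^ (N - 1) := by
      apply pow_nonneg; nlinarith [sq_nonneg t]
    have h4 : t * (1 - s + s * t ^ 2) ^ (N - 1) ≤ (1 - s + s * t ^ 2) ^ (N - 1) := by
      nlinarith [ht.1, ht.2]
    have : (0 : ℝ) ≤ N := by positivity
    nlinarith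

theorem fN_upper (N : ℕ) (hN : 1 ≤ N) (s : ℝ) (h0 : 0 < s) (h1 : s ≤ 1) :
    fN N s ≤ 1 / (2 * s) + 1 / (N * s ^ 2) := by
  have hN0 : (0 : ℝ) < N := by exact_mod_cast hN
  have e1 : ∫ t in (0 : ℝ)..1, (N : ℝ) * (t * (1 - s + s * t ^ 2) ^ (N - 1)) =
      (1 - (1 - s) ^ N) / (2 * s) := by
    rw [intervalIntegral.integral_eq_sub_of_hasDerivAt
      (f := fun t : ℝ => (1 - s + s * t ^ 2) ^ N / (2 * s))]
    · simp; ring
    · intro t _
      have h2 : HasDerivAt (fun t : ℝ => 1 - s + s * t ^ 2) (s * (2 * t)) t := by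
        have := ((hasDerivAt_pow 2 t).const_mul s).const_add (1 - s)
        simpa using this
      have h3 := (h2.pow N).div_const (2 * s)
      refine h3.congr_deriv ?_
      field_simp
    · apply Continuous.intervalIntegrable; fun_prop
  have e2 : ∫ t in (0 : ℝ)..1, (N : ℝ) * ((1 - t) * (1 - s + s * t) ^ (N - 1)) =
      (1 - (N : ℝ) / (N + 1)) / s ^ 2 -
        ((1 - s) ^ N - N / (N + 1) * (1 - s) ^ (N + 1)) / s ^ 2 := by
    rw [intervalIntegral.integral_eq_sub_of_hasDerivAt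
      (f := fun t : ℝ => ((1 - s + s * t) ^ N - N / (N + 1) * (1 - s + s * t) ^ (N + 1)) / s ^ 2)]
    · simp
    · intro t _
      have h2 : HasDerivAt (fun t : ℝ => 1 - s + s * t) s t := by
        have := ((hasDerivAt_id t).const_mul s).const_add (1 - s)
        simpa using this
      have h3 := ((h2.pow N).sub ((h2.pow (N + 1)).const_mul ((N : ℝ) / (N + 1)))).div_const (s ^ 2)
      refine h3.congr_deriv ?_
      obtain ⟨m, rfl⟩ : ∃ m, N = m + 1 := ⟨N - 1, by omega⟩
      simp only [Nat.add_sub_cancel]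
      push_cast
      have : (m : ℝ) + 1 + 1 ≠ 0 := by positivity
      field_simp
      ring
    · apply Continuous.intervalIntegrable; fun_prop
  have e3 : fN N s ≤ (∫ t in (0 : ℝ)..1, (N : ℝ) * (t * (1 - s + s * t ^ 2) ^ (N - 1))) +
      ∫ t in (0 : ℝ)..1, (N : ℝ) * ((1 - t) * (1 - s + s * t) ^ (N - 1)) := by
    rw [← intervalIntegral.integral_add]
    · unfold fN
      rw [← intervalIntegral.integral_const_mul]
      apply intervalIntegral.integral_mono_on (by norm_num)
      · apply Continuous.intervalIntegrable; fun_prop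
      · apply Continuous.intervalIntegrable; fun_prop
      · intro t ht
        have h3 : (1 - s + s * t ^ 2) ^ (N - 1) ≤ (1 - s + s * t) ^ (N - 1) := by
          apply pow_le_pow_left₀
          · nlinarith [sq_nonneg t]
          · have : t ^ 2 ≤ t := by nlinarith [ht.1, ht.2]
            nlinarith
        have h4 : (1 - t) * (1 - s + s * t ^ 2) ^ (N - 1) ≤
            (1 - t) * (1 - s + s * t) ^ (N - 1) :=
          mul_le_mul_of_nonneg_left h3 (by linarith [ht.2])
        nlinarith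
    · apply Continuous.intervalIntegrable; fun_prop
    · apply Continuous.intervalIntegrable; fun_prop
  rw [e1, e2] at e3
  have h5 : 0 ≤ (1 - s) ^ N := pow_nonneg (by linarith) _
  have h6 : (1 - s) ^ (N + 1) ≤ (1 - s) ^ N := by
    rw [pow_succ]; nlinarith
  have h7 : (N : ℝ) / (N + 1) ≤ 1 := by
    rw [div_le_one (by positivity)]; linarith
  have h8 : 0 ≤ (N : ℝ) / (N + 1) := by positivity
  have h9 : (N : ℝ) / (N + 1) * (1 - s) ^ (N + 1) ≤ (1 - s) ^ N := by
    have : 0 ≤ (1 - s) ^ (N + 1) := pow_nonneg (by linarith) _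
    nlinarith
  have h10 : 0 ≤ ((1 - s) ^ N - N / (N + 1) * (1 - s) ^ (N + 1)) / s ^ 2 := by
    apply div_nonneg (by linarith) (by positivity)
  have h11 : (1 - (N : ℝ) / (N + 1)) / s ^ 2 ≤ 1 / (N * s ^ 2) := by
    have : 1 - (N : ℝ) / (N + 1) = 1 / (N + 1) := by field_simp; ring
    rw [this, div_div]
    apply one_div_le_one_div_of_le (by positivity)
    nlinarith [sq_nonneg s]
  have h12 : (1 - (1 - s) ^ N) / (2 * s) ≤ 1 / (2 * s) := by
    apply div_le_div_of_nonneg_right _ (by positivity); linarith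
  linarith

theorem fN_diff (N N' : ℕ) (hN : 1 ≤ N) (h : N ≤ N') (s : ℝ) (h0 : 0 < s) (h1 : s ≤ 1) :
    fN N' s - fN N s ≤ (3 / 2) / (N * s ^ 2) := by
  have hN0 : (0 : ℝ) < N := by exact_mod_cast hN
  have hNN : (N : ℝ) ≤ N' := by exact_mod_cast h
  have a1 := fN_upper N' (hN.trans h) s h0 h1
  have a2 := fN_lower N hN s h0 h1
  have a3 : (1 : ℝ) / (N' * s ^ 2) ≤ 1 / (N * s ^ 2) := by
    apply one_div_le_one_div_of_le (by positivity)
    nlinarith [sq_nonneg s]
  have a4 : (1 - s) ^ N * (1 + N * s) ≤ 1 := by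
    have b1 : (1 : ℝ) + N * s ≤ (1 + s) ^ N := one_add_mul_le_pow (by linarith) N
    have b2 : (1 - s) ^ N * (1 + s) ^ N ≤ 1 := by
      rw [← mul_pow]
      apply pow_le_one₀ <;> nlinarith
    have b3 : 0 ≤ (1 - s) ^ N := pow_nonneg (by linarith) _
    nlinarith
  have a5 : 1 / (2 * s) - (1 - (1 - s) ^ N) / (2 * s) ≤ (1 / 2) / (N * s ^ 2) := by
    have : 1 / (2 * s) - (1 - (1 - s) ^ N) / (2 * s) = (1 - s) ^ N / (2 * s) := by ring
    rw [this, div_le_div_iff₀ (by positivity) (by positivity)]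
    have b3 : 0 ≤ (1 - s) ^ N := pow_nonneg (by linarith) _
    have b4 : (1 - s) ^ N * (N * s) ≤ 1 := by nlinarith
    nlinarith
  have a6 : (3 / 2) / (N * s ^ 2) = 1 / (N * s ^ 2) + (1 / 2) / (N * s ^ 2) := by ring
  linarith

end Pool.Agent.Helper557.Rz
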