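import Pool.Agent.Helper557.Rz.Base
import Pool.Agent.Helper557.Rz.Defs
import Pool.Agent.Helper557.Rz.FADefs
import Pool.Agent.Helper557.Rz.M_inj

set_option autoImplicit false

open MeasureTheory Set
open scoped Quaternion

namespace Pool.Agent.Helper557.Rz

theorem letter_five : (5 : ℍ[ℤ]) = ⟨5, 0, 0, 0⟩ := rfl

theorem letter_al5 (a : Fin 6) : al (a + 3) * al a = 5 := by
  rw [letter_five]
  fin_cases a <;> ext <;> simp [al]

theorem letter_cz5 (l : ℕ) : cz ((5 : ℍ[ℤ]) ^ l) = (((5 : ℝ) ^ l : ℝ) : ℍ[ℝ]) := by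
  induction l with
  | zero => simp [cz_one]
  | succ l ih =>
    rw [pow_succ, cz_mul, ih, pow_succ]
    have h5 : cz (5 : ℍ[ℤ]) = ((5 : ℝ) : ℍ[ℝ]) := by
      rw [letter_five]
      ext <;> simp [cz]
    rw [h5]
    push_cast
    rfl

theorem letter_imq_inj (x y : E 3) (h : imq x = imq y) : x = y := by
  have h1 := congrArg QuaternionAlgebra.imI h
  have h2 := congrArg QuaternionAlgebra.imJ h
  have h3 := congrArg QuaternionAlgebra.imK h
  ext i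
  fin_cases i
  · exact h1
  · exact h2
  · exact h3

theorem ua_inv (R : ℍ[ℝ]ˣ →* Iso 3) (hR : ∀ (q : ℍ[ℝ]ˣ) (x : E 3),
    imq (R q x) = (q : ℍ[ℝ]) * imq x * ((q⁻¹ : ℍ[ℝ]ˣ) : ℍ[ℝ])) (a : Fin 6) (x : S 3) :
    rot (R (ua (a + 3))) (rot (R (ua a)) x) = x := by
  rw [← rot_mul, ← map_mul]
  set q : ℍ[ℝ]ˣ := ua (a + 3) * ua a with hq
  have hq5 : (q : ℍ[ℝ]) = ((5 : ℝ) : ℍ[ℝ]) := by
    show cz (al (a + 3)) * cz (al a) = _
    rw [← cz_mul, letter_al5]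
    have := letter_cz5 1
    simpa using this
  apply Subtype.ext
  rw [rot_coe]
  apply letter_imq_inj
  rw [hR]
  have hc : (q : ℍ[ℝ]) * imq x.1 = imq x.1 * q := by
    rw [hq5]
    exact Quaternion.coe_commutes 5 (imq x.1)
  rw [hc, mul_assoc, Units.mul_inv, mul_one]

theorem letter_uw (w : List (Fin 6)) : (uw w : ℍ[ℝ]) = cz (qw w) := by
  induction w with
  | nil => exact cz_one.symm
  | cons a v ih =>
    show (uw v : ℍ[ℝ]) * (ua a : ℍ[ℝ]) = cz (qw v * al a)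
    rw [cz_mul, ih]
    rfl

theorem letter_norm (l : ℕ) (w : List (Fin 6)) (hw : w ∈ RW l) :
    Quaternion.normSq (cz (qw w)) = 5 ^ l := by
  have h := Quaternion.self_mul_star (cz (qw w))
  rw [← cz_star, ← cz_mul, qw_norm l w hw, letter_cz5] at h
  exact (Quaternion.coe_injective h).symm

theorem sq_word (l : ℕ) (w w' : List (Fin 6)) (hw : w ∈ RW l) (hw' : w' ∈ RW l) :
    sq ((uw w * (uw w')⁻¹ : ℍ[ℝ]ˣ) : ℍ[ℝ]) = (im2 (qw w * star (qw w')) : ℝ) / 25 ^ l := by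
  set q : ℍ[ℝ] := ((uw w * (uw w')⁻¹ : ℍ[ℝ]ˣ) : ℍ[ℝ]) with hq
  have h1 : q * cz (qw w') = cz (qw w) := by
    rw [← letter_uw w', ← letter_uw w, hq, ← Units.val_mul, inv_mul_cancel_right]
  have h2 : cz (qw w * star (qw w')) = q * (((5 : ℝ) ^ l : ℝ) : ℍ[ℝ]) := by
    rw [cz_mul, ← h1, mul_assoc, ← cz_mul, qw_norm l w' hw', letter_cz5]
  have h3 : Quaternion.normSq (cz (qw w * star (qw w'))) = 25 ^ l := by
    rw [cz_mul, map_mul, letter_norm l w hw, cz_star, Quaternion.normSq_star,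
      letter_norm l w' hw', ← mul_pow]
    norm_num
  have h5 : (0 : ℝ) < 5 ^ l := by positivity
  have h4 : sq (cz (qw w * star (qw w'))) = sq q := by
    unfold sq
    rw [h2, map_mul, Quaternion.normSq_coe]
    have e1 : ∀ t : ℝ, (q * (t : ℍ[ℝ])).imI = q.imI * t := by intro t; simp
    have e2 : ∀ t : ℝ, (q * (t : ℍ[ℝ])).imJ = q.imJ * t := by intro t; simp
    have e3 : ∀ t : ℝ, (q * (t : ℍ[ℝ])).imK = q.imK * t := by intro t; simp
    rw [e1, e2, e3]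
    have e4 : (q.imI * 5 ^ l) ^ 2 + (q.imJ * 5 ^ l) ^ 2 + (q.imK * 5 ^ l) ^ 2 =
        (q.imI ^ 2 + q.imJ ^ 2 + q.imK ^ 2) * ((5 : ℝ) ^ l) ^ 2 := by ring
    rw [e4]
    exact mul_div_mul_right _ _ (by positivity)
  rw [← h4]
  unfold sq
  rw [h3]
  congr 1
  simp [cz, im2]


end Pool.Agent.Helper557.Rz
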