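import Pool.Agent.Helper557.Rz.Base
import Pool.Agent.Helper557.Rz.Defs
import Pool.Agent.Helper557.Rz.FADefs
import Pool.Agent.Helper557.Rz.M_kerc

set_option autoImplicit false

open MeasureTheory Set
open scoped Quaternion

namespace Pool.Agent.Helper557.Rz

theorem feat_9335 {X : Type} (v w : X → Fin 4 → ℝ) (M : ℕ) :
    ∃ (ι : Type) (_ : Fintype ι) (p q : X → ι → ℝ),
      (∀ x y, ∑ k, p x k * p y k = (∑ a, v x a * v y a) ^ (M + 1)) ∧
      (∀ x y, ∑ k, q x k * p y k = (M + 1) * (∑ a, w x a * v y a) * (∑ a, v x a * v y a) ^ M) ∧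
      (∀ x y, ∑ k, q x k * q y k = (M + 1) * (∑ a, w x a * w y a) * (∑ a, v x a * v y a) ^ M
        + (M + 1) * M * (∑ a, w x a * v y a) * (∑ a, v x a * w y a) *
          (∑ a, v x a * v y a) ^ (M - 1)) := by
  induction M with
  | zero =>
    refine ⟨Fin 4, inferInstance, v, w, ?_, ?_, ?_⟩
    · intro x y; simp
    · intro x y; simp
    · intro x y; simp
  | succ M ih =>
    obtain ⟨ι, hι, p, q, h1, h2, h3⟩ := ih
    have hprod : ∀ (f g : ι → ℝ) (s t : Fin 4 → ℝ),
        ∑ k : ι × Fin 4, (f k.1 * s k.2) * (g k.1 * t k.2) = (∑ k, f k * g k) * (∑ a, s a * t a) := by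
      intro f g s t
      rw [Finset.sum_mul_sum, Fintype.sum_prod_type]
      refine Finset.sum_congr rfl fun k _ => Finset.sum_congr rfl fun a _ => ?_
      ring
    have h2' : ∀ x y, ∑ k, p x k * q y k = (M + 1) * (∑ a, v x a * w y a) * (∑ a, v x a * v y a) ^ M := by
      intro x y
      have h4 := h2 y x
      have e1 : ∑ k, q y k * p x k = ∑ k, p x k * q y k := Finset.sum_congr rfl fun k _ => mul_comm _ _
      have e2 : ∑ a, w y a * v x a = ∑ a, v x a * w y a := Finset.sum_congr rfl fun k _ => mul_comm _ _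
      have e3 : ∑ a, v y a * v x a = ∑ a, v x a * v y a := Finset.sum_congr rfl fun k _ => mul_comm _ _
      rw [e1, e2, e3] at h4
      exact h4
    refine ⟨ι × Fin 4, inferInstance, fun x k => p x k.1 * v x k.2,
      fun x k => q x k.1 * v x k.2 + p x k.1 * w x k.2, ?_, ?_, ?_⟩
    · intro x y
      rw [hprod, h1]
      ring
    · intro x y
      simp only [add_mul, Finset.sum_add_distrib]
      rw [hprod, hprod, h1, h2]
      push_cast
      ring
    · intro x y
      simp only [add_mul, mul_add, Finset.sum_add_distrib]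
      rw [hprod, hprod, hprod, hprod, h1, h2, h3, h2']
      push_cast
      rcases M with _ | M
      · simp
        ring
      · simp only [Nat.add_sub_cancel]
        push_cast
        ring

theorem psdfeat_9335 {X ι : Type} [Fintype ι] (q : X → ι → ℝ) (n : ℕ) (x : Fin n → X) (c : Fin n → ℝ) :
    0 ≤ ∑ i, ∑ j, c i * c j * ∑ k, q (x i) k * q (x j) k := by
  have h : ∑ i, ∑ j, c i * c j * ∑ k, q (x i) k * q (x j) k = ∑ k, (∑ i, c i * q (x i) k) ^ 2 := by
    symm
    calc ∑ k, (∑ i, c i * q (x i) k) ^ 2 = ∑ k, ∑ i, ∑ j, (c i * q (x i) k) * (c j * q (x j) k) := by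
          refine Finset.sum_congr rfl fun k _ => ?_
          rw [pow_two, Finset.sum_mul_sum]
      _ = ∑ i, ∑ k, ∑ j, (c i * q (x i) k) * (c j * q (x j) k) := Finset.sum_comm
      _ = ∑ i, ∑ j, ∑ k, (c i * q (x i) k) * (c j * q (x j) k) :=
          Finset.sum_congr rfl fun i _ => Finset.sum_comm
      _ = ∑ i, ∑ j, c i * c j * ∑ k, q (x i) k * q (x j) k := by
          refine Finset.sum_congr rfl fun i _ => Finset.sum_congr rfl fun j _ => ?_
          rw [Finset.mul_sum]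
          refine Finset.sum_congr rfl fun k _ => ?_
          ring
  rw [h]
  exact Finset.sum_nonneg fun k _ => sq_nonneg _

theorem u_eq_9335 (x y : S 3) :
    u x y = (1 + (x.1 0 * y.1 0 + x.1 1 * y.1 1 + x.1 2 * y.1 2)) / 2 := by
  unfold u
  rw [PiLp.inner_apply, Fin.sum_univ_three]
  simp
  ring

theorem unit_9335 (x : S 3) : x.1 0 * x.1 0 + x.1 1 * x.1 1 + x.1 2 * x.1 2 = 1 := by
  have h1 : ‖x.1‖ = 1 := by simpa using x.2
  have h2 := EuclideanSpace.norm_sq_eq x.1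
  rw [h1, Fin.sum_univ_three] at h2
  simp at h2
  linarith

theorem key_9335 (M : ℕ) : PSDK (fun x y => kk (M + 2) x y - kk (M + 1) x y) := by
  intro n x c
  let v : S 3 → Fin 4 → ℝ := fun z => ![1, z.1 0, z.1 1, z.1 2]
  let w0 : S 3 → Fin 4 → ℝ := fun z => ![0, 0, - z.1 2, z.1 1]
  let w1 : S 3 → Fin 4 → ℝ := fun z => ![0, z.1 2, 0, - z.1 0]
  let w2 : S 3 → Fin 4 → ℝ := fun z => ![0, - z.1 1, z.1 0, 0]
  obtain ⟨ι0, i0, p0, q0, -, -, h0⟩ := feat_9335 v w0 M
  obtain ⟨ι1, i1, p1, q1, -, -, h1⟩ := feat_9335 v w1 M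
  obtain ⟨ι2, i2, p2, q2, -, -, h2⟩ := feat_9335 v w2 M
  have s0 := psdfeat_9335 q0 n x c
  have s1 := psdfeat_9335 q1 n x c
  have s2 := psdfeat_9335 q2 n x c
  have key : ∀ y z : S 3, ∑ k, q0 y k * q0 z k + ∑ k, q1 y k * q1 z k + ∑ k, q2 y k * q2 z k
      = (M + 1) * 2 ^ (M + 1) * (kk (M + 2) y z - kk (M + 1) y z) := by
    intro y z
    rw [h0, h1, h2]
    unfold kk
    rw [u_eq_9335]
    have hy := unit_9335 y
    have hz := unit_9335 z
    simp only [v, w0, w1, w2, Fin.sum_univ_four]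
    simp only [Matrix.cons_val_zero, Matrix.cons_val_one, Matrix.cons_val, mul_zero, zero_mul,
      zero_add, add_zero, one_mul, mul_one]
    generalize y.1 0 = y0 at *
    generalize y.1 1 = y1 at *
    generalize y.1 2 = y2 at *
    generalize z.1 0 = z0 at *
    generalize z.1 1 = z1 at *
    generalize z.1 2 = z2 at *
    have e0 : (1 + y0 * z0 + y1 * z1 + y2 * z2) = 1 + (y0 * z0 + y1 * z1 + y2 * z2) := by ring
    have hS : (-y2 * z1 + y1 * z2) * (y1 * -z2 + y2 * z1) + (y2 * z0 + -y0 * z2) * (y0 * z2 + y2 * -z0)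
        + (-y1 * z0 + y0 * z1) * (y0 * -z1 + y1 * z0) =
        (y0 * z0 + y1 * z1 + y2 * z2) ^ 2 - (y0 * y0 + y1 * y1 + y2 * y2) * (z0 * z0 + z1 * z1 + z2 * z2) := by
      ring
    rw [hy, hz] at hS
    rw [e0]
    have hT : (-y2 * -z2 + y1 * z1) + (y2 * z2 + -y0 * -z0) + (-y1 * -z1 + y0 * z0) =
        2 * (y0 * z0 + y1 * z1 + y2 * z2) := by ring
    generalize y0 * z0 + y1 * z1 + y2 * z2 = t at *
    have e3 : (M : ℝ) + 1 ≠ 0 := by positivity
    rcases M with _ | M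
    · simp only [Nat.cast_zero, zero_add, mul_zero, zero_mul, add_zero, pow_zero, mul_one, one_mul]
      norm_num
      linear_combination hT
    · simp only [Nat.add_sub_cancel, div_pow]
      have e4 : M + 1 + 2 - 1 = M + 2 := by omega
      rw [e4]
      push_cast
      have h2 : (2:ℝ) ^ M ≠ 0 := by positivity
      have hR : ((M:ℝ) + 1 + 1) * 2 ^ (M + 1 + 1) * (((M:ℝ) + 1 + 2) * ((1 + t) ^ (M + 2) / 2 ^ (M + 2)) -
          ((M:ℝ) + 1 + 1) * ((1 + t) ^ (M + 1) / 2 ^ (M + 1))) =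
          ((M:ℝ) + 2) * (((M:ℝ) + 3) * (1 + t) ^ (M + 2) - 2 * ((M:ℝ) + 2) * (1 + t) ^ (M + 1)) := by
        have e5 : (2:ℝ) ^ (M + 2) = 2 ^ M * 4 := by ring
        have e6 : (2:ℝ) ^ (M + 1) = 2 ^ M * 2 := by ring
        have e7 : (2:ℝ) ^ (M + 1 + 1) = 2 ^ M * 4 := by ring
        rw [e5, e6]
        field_simp
        ring
      rw [hR]
      linear_combination (1 + t) * (((M:ℝ) + 1 + 1)) * (1 + t) ^ M * hT + ((M:ℝ) + 1 + 1) * ((M:ℝ) + 1) * (1 + t) ^ M * hS
  have tot : ∑ i, ∑ j, c i * c j * (∑ k, q0 (x i) k * q0 (x j) k) +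
      ∑ i, ∑ j, c i * c j * (∑ k, q1 (x i) k * q1 (x j) k) +
      ∑ i, ∑ j, c i * c j * (∑ k, q2 (x i) k * q2 (x j) k) =
      (M + 1) * 2 ^ (M + 1) * ∑ i, ∑ j, c i * c j * (kk (M + 2) (x i) (x j) - kk (M + 1) (x i) (x j)) := by
    rw [Finset.mul_sum, ← Finset.sum_add_distrib, ← Finset.sum_add_distrib]
    refine Finset.sum_congr rfl fun i _ => ?_
    rw [Finset.mul_sum, ← Finset.sum_add_distrib, ← Finset.sum_add_distrib]
    refine Finset.sum_congr rfl fun j _ => ?_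
    rw [← mul_add, ← mul_add, key]
    ring
  have hpos : (0 : ℝ) < (M + 1) * 2 ^ (M + 1) := by positivity
  have h5 : 0 ≤ ((M : ℝ) + 1) * 2 ^ (M + 1) * ∑ i, ∑ j, c i * c j * (kk (M + 2) (x i) (x j) - kk (M + 1) (x i) (x j)) := by
    rw [← tot]; positivity
  exact nonneg_of_mul_nonneg_right h5 hpos

theorem psd_step (N : ℕ) (hN : 1 ≤ N) : PSDK (fun x y => kk (N + 1) x y - kk N x y) := by
  obtain ⟨M, rfl⟩ : ∃ M, N = M + 1 := ⟨N - 1, by omega⟩
  exact key_9335 M

theorem psd_diff (N N' : ℕ) (hN : 1 ≤ N) (h : N ≤ N') :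
    PSDK (fun x y => kk N' x y - kk N x y) := by
  induction N', h using Nat.le_induction with
  | base => intro n x c; simp
  | succ N' hN' ih =>
    intro n x c
    have h1 := psd_step N' (hN.trans hN') n x c
    have h2 := ih n x c
    have h3 : ∑ i, ∑ j, c i * c j * (kk (N' + 1) (x i) (x j) - kk N (x i) (x j)) =
        ∑ i, ∑ j, c i * c j * (kk (N' + 1) (x i) (x j) - kk N' (x i) (x j)) +
        ∑ i, ∑ j, c i * c j * (kk N' (x i) (x j) - kk N (x i) (x j)) := by
      rw [← Finset.sum_add_distrib]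
      refine Finset.sum_congr rfl fun i _ => ?_
      rw [← Finset.sum_add_distrib]
      refine Finset.sum_congr rfl fun j _ => ?_
      ring
    show 0 ≤ ∑ i, ∑ j, c i * c j * (kk (N' + 1) (x i) (x j) - kk N (x i) (x j))
    rw [h3]
    exact add_nonneg h1 h2


end Pool.Agent.Helper557.Rz
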