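import Pool.Agent.Helper557.Rz.Base
import Pool.Agent.Helper557.Rz.Defs
import Pool.Agent.Helper557.Rz.FADefs

set_option autoImplicit false

open MeasureTheory Set
open scoped Quaternion

namespace Pool.Agent.Helper557.Rz

/-- vector of the imaginary part -/
noncomputable def toV (y : ℍ[ℝ]) : E 3 := !₂[y.imI, y.imJ, y.imK]

lemma toV_0 (y : ℍ[ℝ]) : toV y 0 = y.imI := rfl
lemma toV_1 (y : ℍ[ℝ]) : toV y 1 = y.imJ := rfl
lemma toV_2 (y : ℍ[ℝ]) : toV y 2 = y.imK := rfl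

lemma imq_toV {y : ℍ[ℝ]} (h : y.re = 0) : imq (toV y) = y := by
  ext
  · exact h.symm
  · rfl
  · rfl
  · rfl

lemma toV_imq (x : E 3) : toV (imq x) = x := by
  ext i
  fin_cases i <;> rfl

lemma imq_inj {x y : E 3} (h : imq x = imq y) : x = y := by
  rw [← toV_imq x, h, toV_imq]

lemma imq_add (x y : E 3) : imq (x + y) = imq x + imq y := by
  ext <;> simp [imq]

lemma imq_smul (c : ℝ) (x : E 3) : imq (c • x) = c • imq x := by
  ext <;> simp [imq]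

lemma normSq_imq (x : E 3) : Quaternion.normSq (imq x) = ‖x‖ ^ 2 := by
  rw [Quaternion.normSq_def', EuclideanSpace.norm_sq_eq, Fin.sum_univ_three]
  simp [imq]

lemma unit_inv (q : ℍ[ℝ]ˣ) : ((q⁻¹ : ℍ[ℝ]ˣ) : ℍ[ℝ]) =
    (Quaternion.normSq (q : ℍ[ℝ]))⁻¹ • star (q : ℍ[ℝ]) := by
  rw [Units.val_inv_eq_inv_val]; rfl

lemma conj_re (q : ℍ[ℝ]ˣ) (x : E 3) :
    ((q : ℍ[ℝ]) * imq x * ((q⁻¹ : ℍ[ℝ]ˣ) : ℍ[ℝ])).re = 0 := by
  rw [unit_inv, mul_smul_comm]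
  simp [imq]
  ring

/-- conjugation -/
noncomputable def cj (q : ℍ[ℝ]ˣ) (x : E 3) : E 3 :=
  toV ((q : ℍ[ℝ]) * imq x * ((q⁻¹ : ℍ[ℝ]ˣ) : ℍ[ℝ]))

lemma imq_cj (q : ℍ[ℝ]ˣ) (x : E 3) :
    imq (cj q x) = (q : ℍ[ℝ]) * imq x * ((q⁻¹ : ℍ[ℝ]ˣ) : ℍ[ℝ]) := imq_toV (conj_re q x)

lemma cj_mul (p q : ℍ[ℝ]ˣ) (x : E 3) : cj (p * q) x = cj p (cj q x) := by
  apply imq_inj
  rw [imq_cj, imq_cj, imq_cj, mul_inv_rev, Units.val_mul, Units.val_mul]
  simp only [mul_assoc]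

lemma cj_one (x : E 3) : cj 1 x = x := by
  apply imq_inj
  rw [imq_cj]
  simp

lemma cj_norm (q : ℍ[ℝ]ˣ) (x : E 3) : ‖cj q x‖ = ‖x‖ := by
  have h : ‖cj q x‖ ^ 2 = ‖x‖ ^ 2 := by
    rw [← normSq_imq, ← normSq_imq, imq_cj, map_mul, map_mul, mul_comm, ← mul_assoc,
      ← map_mul, Units.inv_mul, map_one, one_mul]
  exact (pow_left_inj₀ (norm_nonneg _) (norm_nonneg _) two_ne_zero).1 h

/-- the rotation of a quaternion -/
noncomputable def Rq (q : ℍ[ℝ]ˣ) : Iso 3 where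
  toFun := cj q
  invFun := cj q⁻¹
  left_inv := fun x => by rw [← cj_mul, inv_mul_cancel, cj_one]
  right_inv := fun x => by rw [← cj_mul, mul_inv_cancel, cj_one]
  map_add' := fun x y => by
    apply imq_inj
    rw [imq_add, imq_cj, imq_cj, imq_cj, imq_add, mul_add, add_mul]
  map_smul' := fun c x => by
    apply imq_inj
    rw [RingHom.id_apply, imq_smul, imq_cj, imq_cj, imq_smul, mul_smul_comm, smul_mul_assoc]
  norm_map' := cj_norm q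

theorem exists_RQ : ∃ R : ℍ[ℝ]ˣ →* Iso 3, ∀ (q : ℍ[ℝ]ˣ) (x : E 3),
    imq (R q x) = (q : ℍ[ℝ]) * imq x * ((q⁻¹ : ℍ[ℝ]ˣ) : ℍ[ℝ]) := by
  refine ⟨⟨⟨Rq, ?_⟩, ?_⟩, fun q x => imq_cj q x⟩
  · ext1 x
    exact cj_one x
  · intro p q
    ext1 x
    exact cj_mul p q x

theorem RQ_u (R : ℍ[ℝ]ˣ →* Iso 3) (hR : ∀ (q : ℍ[ℝ]ˣ) (x : E 3),
    imq (R q x) = (q : ℍ[ℝ]) * imq x * ((q⁻¹ : ℍ[ℝ]ˣ) : ℍ[ℝ])) (q : ℍ[ℝ]ˣ) :
    0 ≤ sq (q : ℍ[ℝ]) ∧ sq (q : ℍ[ℝ]) ≤ 1 ∧ ∃ b : E 3, ‖b‖ ^ 2 = sq (q : ℍ[ℝ]) ∧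
      ∀ x : S 3, u x (rot (R q) x) = 1 - sq (q : ℍ[ℝ]) + (inner ℝ b (x : E 3)) ^ 2 := by
  have hN : 0 < Quaternion.normSq (q : ℍ[ℝ]) := by
    refine lt_of_le_of_ne Quaternion.normSq_nonneg ?_
    intro h
    exact q.ne_zero (Quaternion.normSq_eq_zero.1 h.symm)
  have hNd := Quaternion.normSq_def' (q : ℍ[ℝ])
  have hsqN : Real.sqrt (Quaternion.normSq (q : ℍ[ℝ])) ^ 2 = Quaternion.normSq (q : ℍ[ℝ]) :=
    Real.sq_sqrt hN.le
  have hsN : 0 < Real.sqrt (Quaternion.normSq (q : ℍ[ℝ])) := Real.sqrt_pos.2 hN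
  have hinv := unit_inv q
  refine ⟨by unfold sq; positivity, ?_, ?_⟩
  · unfold sq
    rw [div_le_one hN, hNd]
    nlinarith [sq_nonneg (q : ℍ[ℝ]).re]
  · refine ⟨(Real.sqrt (Quaternion.normSq (q : ℍ[ℝ])))⁻¹ • toV (q : ℍ[ℝ]), ?_, ?_⟩
    · rw [norm_smul, mul_pow, EuclideanSpace.norm_sq_eq, Fin.sum_univ_three, toV_0, toV_1, toV_2,
        norm_inv, inv_pow, Real.norm_eq_abs, Real.norm_eq_abs, Real.norm_eq_abs,
        Real.norm_eq_abs, sq_abs, sq_abs, sq_abs, sq_abs, hsqN]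
      unfold sq
      rw [div_eq_inv_mul]
    · intro x
      have hx : (x : E 3) 0 ^ 2 + (x : E 3) 1 ^ 2 + (x : E 3) 2 ^ 2 = 1 := by
        have h1 : ‖(x : E 3)‖ = 1 := by simp
        have h2 := EuclideanSpace.norm_sq_eq (x : E 3)
        rw [h1, Fin.sum_univ_three] at h2
        simp only [Real.norm_eq_abs, sq_abs] at h2
        linarith
      have hRx := hR q (x : E 3)
      rw [hinv, mul_smul_comm] at hRx
      have r0 : (R q (x : E 3)) 0 = (imq (R q (x : E 3))).imI := rfl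
      have r1 : (R q (x : E 3)) 1 = (imq (R q (x : E 3))).imJ := rfl
      have r2 : (R q (x : E 3)) 2 = (imq (R q (x : E 3))).imK := rfl
      rw [hRx] at r0 r1 r2
      unfold u sq
      rw [rot_coe, real_inner_smul_left, PiLp.inner_apply, PiLp.inner_apply,
        Fin.sum_univ_three, Fin.sum_univ_three, r0, r1, r2, toV_0, toV_1, toV_2, mul_pow,
        inv_pow, hsqN]
      simp [imq]
      generalize Quaternion.normSq (q : ℍ[ℝ]) = N at *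
      generalize (q : ℍ[ℝ]).re = a at *
      generalize (q : ℍ[ℝ]).imI = b at *
      generalize (q : ℍ[ℝ]).imJ = c at *
      generalize (q : ℍ[ℝ]).imK = d at *
      generalize (x : E 3) 0 = x0 at *
      generalize (x : E 3) 1 = x1 at *
      generalize (x : E 3) 2 = x2 at *
      field_simp
      rw [hNd]
      linear_combination (a ^ 2 - b ^ 2 - c ^ 2 - d ^ 2) * hx


end Pool.Agent.Helper557.Rz
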