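import Pool.Agent.Helper557.Rz.Base
import Pool.Agent.Helper557.Rz.Defs
import Pool.Agent.Helper557.Rz.FADefs
import Pool.Agent.Helper557.Rz.M_kerc
import Pool.Agent.Helper557.Rz.M_meas

set_option autoImplicit false

open MeasureTheory Set
open scoped Quaternion

namespace Pool.Agent.Helper557.Rz

theorem trace_ineq (K : S 3 → S 3 → ℝ) (hc : Continuous (fun p : S 3 × S 3 => K p.1 p.2))
    (hs : ∀ x y, K x y = K y x) (hK : PSDK K) (ψ : C(S 3, ℝ)) :
    ∫ x, ∫ y, K x y * ψ x * ψ y ∂(sg 3) ∂(sg 3) ≤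
      (∫ x, K x x ∂(sg 3)) * ∫ x, ψ x ^ 2 ∂(sg 3) := by
  have hprob : IsProbabilityMeasure (sg 3) := sg_prob 3 (by norm_num)
  have hpt : ∀ x y, K x y * ψ x * ψ y ≤ (K x x * ψ y ^ 2 + K y y * ψ x ^ 2) / 2 := by
    intro x y
    have h := hK 2 ![x, y] ![ψ y, -ψ x]
    simp only [Fin.sum_univ_two, Matrix.cons_val_zero, Matrix.cons_val_one] at h
    have h2 := hs y x
    rw [h2] at h
    nlinarith
  have hK1 : Continuous (fun p : S 3 × S 3 => K p.1 p.1) :=
    hc.comp (continuous_fst.prodMk continuous_fst)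
  have hK2 : Continuous (fun p : S 3 × S 3 => K p.2 p.2) :=
    hc.comp (continuous_snd.prodMk continuous_snd)
  have hF1 : Continuous (fun p : S 3 × S 3 => K p.1 p.2 * ψ p.1 * ψ p.2) :=
    (hc.mul (ψ.continuous.comp continuous_fst)).mul (ψ.continuous.comp continuous_snd)
  have hF2a : Continuous (fun p : S 3 × S 3 => K p.1 p.1 * ψ p.2 ^ 2) :=
    hK1.mul ((ψ.continuous.comp continuous_snd).pow 2)
  have hF2b : Continuous (fun p : S 3 × S 3 => ψ p.1 ^ 2 * K p.2 p.2) :=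
    ((ψ.continuous.comp continuous_fst).pow 2).mul hK2
  have hint : ∀ F : S 3 × S 3 → ℝ, Continuous F → Integrable F ((sg 3).prod (sg 3)) := fun F hF =>
    hF.integrable_of_hasCompactSupport (HasCompactSupport.of_compactSpace F)
  have h1 : ∫ x, ∫ y, K x y * ψ x * ψ y ∂(sg 3) ∂(sg 3) =
      ∫ p, K p.1 p.2 * ψ p.1 * ψ p.2 ∂((sg 3).prod (sg 3)) :=
    (integral_prod _ (hint _ hF1)).symm
  rw [h1]
  have h2 : ∫ p, K p.1 p.2 * ψ p.1 * ψ p.2 ∂((sg 3).prod (sg 3)) ≤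
      ∫ p, (K p.1 p.1 * ψ p.2 ^ 2 + ψ p.1 ^ 2 * K p.2 p.2) / 2 ∂((sg 3).prod (sg 3)) := by
    apply integral_mono (hint _ hF1) (hint _ ((hF2a.add hF2b).div_const 2))
    intro p
    have := hpt p.1 p.2
    show K p.1 p.2 * ψ p.1 * ψ p.2 ≤ (K p.1 p.1 * ψ p.2 ^ 2 + ψ p.1 ^ 2 * K p.2 p.2) / 2
    linarith
  refine h2.trans (le_of_eq ?_)
  rw [integral_div, integral_add (hint _ hF2a) (hint _ hF2b),
    integral_prod_mul (fun x => K x x) (fun y => ψ y ^ 2),
    integral_prod_mul (fun x => ψ x ^ 2) (fun y => K y y)]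
  ring

theorem psd_family {W : Type} [Fintype W] (K : S 3 → S 3 → ℝ) (hK : PSDK K) (g : W → S 3 → S 3) :
    PSDK (fun x y => ∑ w, ∑ w', K (g w x) (g w' y)) := by
  classical
  intro n x c
  let e : Fin (Fintype.card (Fin n × W)) ≃ Fin n × W := (Fintype.equivFin (Fin n × W)).symm
  have h := hK _ (fun k => g (e k).2 (x (e k).1)) (fun k => c (e k).1)
  have h1 : ∑ k, ∑ l, c (e k).1 * c (e l).1 * K (g (e k).2 (x (e k).1)) (g (e l).2 (x (e l).1)) =
      ∑ i, ∑ j, c i * c j * (∑ w, ∑ w', K (g w (x i)) (g w' (x j))) := by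
    have e1 : ∀ k, ∑ l, c (e k).1 * c (e l).1 * K (g (e k).2 (x (e k).1)) (g (e l).2 (x (e l).1)) =
        ∑ q : Fin n × W, c (e k).1 * c q.1 * K (g (e k).2 (x (e k).1)) (g q.2 (x q.1)) := fun k =>
      Equiv.sum_comp e (fun q : Fin n × W => c (e k).1 * c q.1 * K (g (e k).2 (x (e k).1)) (g q.2 (x q.1)))
    rw [Finset.sum_congr rfl (fun k _ => e1 k),
      Equiv.sum_comp e (fun p : Fin n × W => ∑ q : Fin n × W, c p.1 * c q.1 * K (g p.2 (x p.1)) (g q.2 (x q.1)))]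
    rw [Fintype.sum_prod_type]
    apply Finset.sum_congr rfl
    intro i _
    have e2 : ∀ w : W, ∑ q : Fin n × W, c i * c q.1 * K (g w (x i)) (g q.2 (x q.1)) =
        ∑ j, ∑ w', c i * c j * K (g w (x i)) (g w' (x j)) := fun w => by
      rw [Fintype.sum_prod_type]
    rw [Finset.sum_congr rfl (fun w _ => e2 w), Finset.sum_comm]
    apply Finset.sum_congr rfl
    intro j _
    rw [Finset.mul_sum]
    apply Finset.sum_congr rfl
    intro w _
    rw [Finset.mul_sum]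
  rw [h1] at h
  exact h


end Pool.Agent.Helper557.Rz
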