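import Pool.Agent.Helper557.Rz.Base
import Pool.Agent.Helper557.Rz.Defs
import Pool.Agent.Helper557.Rz.FADefs
import Pool.Agent.Helper557.Rz.M_act
import Pool.Agent.Helper557.Rz.M_fnb
import Pool.Agent.Helper557.Rz.M_kerc
import Pool.Agent.Helper557.Rz.M_letter
import Pool.Agent.Helper557.Rz.M_meas
import Pool.Agent.Helper557.Rz.M_psd
import Pool.Agent.Helper557.Rz.M_rq
import Pool.Agent.Helper557.Rz.M_tr
import Pool.Agent.Helper557.Rz.M_treval

set_option autoImplicit false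

open MeasureTheory Set
open scoped Quaternion

namespace Pool.Agent.Helper557.Rz
/-! ### auxiliary -/
lemma s_int (f : S 3 → ℝ) (hf : Continuous f) : Integrable f (sg 3) := by
  have := sg_prob 3 (by norm_num)
  exact hf.integrable_of_hasCompactSupport (HasCompactSupport.of_compactSpace f)

lemma s_par (F : S 3 → S 3 → ℝ) (hF : Continuous fun p : S 3 × S 3 => F p.1 p.2) :
    Continuous fun x => ∫ y, F x y ∂(sg 3) := by
  have := sg_prob 3 (by norm_num)
  have h := continuous_parametric_integral_of_continuous (μ := sg 3) (f := F) hF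
    (s := Set.univ) isCompact_univ
  simpa using h

lemma s_fst (F : S 3 → S 3 → ℝ) (hF : Continuous fun p : S 3 × S 3 => F p.1 p.2) (x : S 3) :
    Continuous fun y => F x y :=
  hF.comp (Continuous.prodMk_right x)

lemma s_diag (F : S 3 → S 3 → ℝ) (hF : Continuous fun p : S 3 × S 3 => F p.1 p.2) :
    Continuous fun y => F y y :=
  hF.comp (continuous_id.prodMk continuous_id)

lemma int_sum2 {ι : Type} (s : Finset ι) (F : ι → ι → S 3 → S 3 → ℝ)
    (hF : ∀ i j, Continuous fun p : S 3 × S 3 => F i j p.1 p.2) :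
    ∫ x, ∫ y, ∑ i ∈ s, ∑ j ∈ s, F i j x y ∂(sg 3) ∂(sg 3) =
      ∑ i ∈ s, ∑ j ∈ s, ∫ x, ∫ y, F i j x y ∂(sg 3) ∂(sg 3) := by
  have h1 : ∀ x, ∫ y, ∑ i ∈ s, ∑ j ∈ s, F i j x y ∂(sg 3) =
      ∑ i ∈ s, ∑ j ∈ s, ∫ y, F i j x y ∂(sg 3) := by
    intro x
    rw [integral_finsetSum]
    · refine Finset.sum_congr rfl fun i _ => ?_
      rw [integral_finsetSum]
      intro j _
      exact s_int _ (s_fst _ (hF i j) x)
    · intro i _
      refine integrable_finsetSum _ fun j _ => ?_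
      exact s_int _ (s_fst _ (hF i j) x)
  simp_rw [h1]
  rw [integral_finsetSum]
  · refine Finset.sum_congr rfl fun i _ => ?_
    rw [integral_finsetSum]
    intro j _
    exact s_int _ (s_par _ (hF i j))
  · intro i _
    refine integrable_finsetSum _ fun j _ => ?_
    exact s_int _ (s_par _ (hF i j))

lemma kk_cont (N : ℕ) : Continuous fun p : S 3 × S 3 => kk N p.1 p.2 := by
  unfold kk
  have := ker_cont 3
  fun_prop

lemma rot_comp_int (g : Iso 3) (f : S 3 → ℝ) (hf : Continuous f) :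
    ∫ x, f (rot g x) ∂(sg 3) = ∫ x, f x ∂(sg 3) := by
  have hmp := rot_mp 3 (by norm_num) g
  have h := integral_map (μ := sg 3) (φ := rot g) hmp.measurable.aemeasurable (f := f)
    hf.aestronglyMeasurable
  rw [hmp.map_eq] at h
  exact h.symm

lemma fN_nonneg' (N : ℕ) (s : ℝ) (h0 : 0 ≤ s) (h1 : s ≤ 1) : 0 ≤ fN N s := by
  unfold fN
  refine mul_nonneg (Nat.cast_nonneg _) ?_
  refine intervalIntegral.integral_nonneg (by norm_num) fun t ht => ?_
  refine pow_nonneg ?_ _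
  have : 0 ≤ s * t ^ 2 := by positivity
  linarith

lemma comp_c (K : S 3 → S 3 → ℝ) (hKc : Continuous fun p : S 3 × S 3 => K p.1 p.2)
    (a b : Iso 3) : Continuous fun p : S 3 × S 3 => K (rot a p.1) (rot b p.2) :=
  hKc.comp ((rot_continuous a).prodMap (rot_continuous b))

lemma comp_m (K : S 3 → S 3 → ℝ) (hKc : Continuous fun p : S 3 × S 3 => K p.1 p.2)
    (f g : S 3 → ℝ) (hf : Continuous f) (hg : Continuous g) :
    Continuous fun p : S 3 × S 3 => K p.1 p.2 * f p.1 * g p.2 :=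
  (hKc.mul (hf.comp continuous_fst)).mul (hg.comp continuous_snd)

lemma block_gen (K : S 3 → S 3 → ℝ) (hKc : Continuous fun p : S 3 × S 3 => K p.1 p.2)
    (hKs : ∀ x y, K x y = K y x) (hKp : PSDK K)
    (hKr : ∀ (g : Iso 3) x y, K (rot g x) (rot g y) = K x y)
    {ι : Type} (L : Finset ι) (g : ι → Iso 3) (ψ : C(S 3, ℝ)) (c : ℝ)
    (hw : ∀ x, ∑ w ∈ L, ψ (rot (g w) x) = c * ψ x) :
    c ^ 2 * ∫ x, ∫ y, K x y * ψ x * ψ y ∂(sg 3) ∂(sg 3) ≤
      (∑ w ∈ L, ∑ w' ∈ L, ∫ x, K x (rot (g w * (g w')⁻¹) x) ∂(sg 3)) *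
        ∫ x, ψ x ^ 2 ∂(sg 3) := by
  have := sg_prob 3 (by norm_num)
  have hψc : Continuous fun x : S 3 => ψ x := ψ.continuous
  -- the kernel
  obtain ⟨K', hK'def⟩ : ∃ K' : S 3 → S 3 → ℝ, ∀ x y, K' x y = ∑ w ∈ L, ∑ w' ∈ L,
    K (rot (g w)⁻¹ x) (rot (g w')⁻¹ y) := ⟨_, fun _ _ => rfl⟩
  have hK'c : Continuous fun p : S 3 × S 3 => K' p.1 p.2 := by
    simp only [hK'def]
    refine continuous_finsetSum _ fun w _ => continuous_finsetSum _ fun w' _ => comp_c K hKc _ _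
  have hK's : ∀ x y, K' x y = K' y x := by
    intro x y
    simp only [hK'def]
    rw [Finset.sum_comm]
    refine Finset.sum_congr rfl fun w _ => Finset.sum_congr rfl fun w' _ => hKs _ _
  have hK'p : PSDK K' := by
    have h := psd_family (W := Fin L.card) K hKp
      (fun w x => rot (g (L.equivFin.symm w).1)⁻¹ x)
    have e : (fun x y => ∑ w : Fin L.card, ∑ w' : Fin L.card,
        K (rot (g (L.equivFin.symm w).1)⁻¹ x) (rot (g (L.equivFin.symm w').1)⁻¹ y)) = K' := by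
      funext x y
      rw [hK'def]
      rw [← Finset.sum_coe_sort L]
      rw [← Equiv.sum_comp L.equivFin.symm]
      refine Finset.sum_congr rfl fun w _ => ?_
      rw [← Finset.sum_coe_sort L]
      rw [← Equiv.sum_comp L.equivFin.symm]
    rw [← e]; exact h
  have htr := trace_ineq K' hK'c hK's hK'p ψ
  -- left side
  have hL : c ^ 2 * ∫ x, ∫ y, K x y * ψ x * ψ y ∂(sg 3) ∂(sg 3) =
      ∫ x, ∫ y, K' x y * ψ x * ψ y ∂(sg 3) ∂(sg 3) := by
    have e1 : c ^ 2 * ∫ x, ∫ y, K x y * ψ x * ψ y ∂(sg 3) ∂(sg 3) =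
        ∫ x, ∫ y, ∑ w ∈ L, ∑ w' ∈ L, K x y * ψ (rot (g w) x) * ψ (rot (g w') y)
          ∂(sg 3) ∂(sg 3) := by
      rw [← integral_const_mul]
      congr 1
      funext x
      rw [← integral_const_mul]
      congr 1
      funext y
      calc c ^ 2 * (K x y * ψ x * ψ y)
          = K x y * (c * ψ x) * (c * ψ y) := by ring
        _ = K x y * (∑ w ∈ L, ψ (rot (g w) x)) * (∑ w' ∈ L, ψ (rot (g w') y)) := by
            rw [hw x, hw y]
        _ = _ := by
            rw [Finset.mul_sum L _ (K x y), Finset.sum_mul]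
            refine Finset.sum_congr rfl fun w _ => ?_
            rw [Finset.mul_sum]
    have e2 : ∫ x, ∫ y, K' x y * ψ x * ψ y ∂(sg 3) ∂(sg 3) =
        ∫ x, ∫ y, ∑ w ∈ L, ∑ w' ∈ L, K (rot (g w)⁻¹ x) (rot (g w')⁻¹ y) * ψ x * ψ y
          ∂(sg 3) ∂(sg 3) := by
      congr 1
      funext x
      congr 1
      funext y
      rw [hK'def, Finset.sum_mul, Finset.sum_mul]
      refine Finset.sum_congr rfl fun w _ => ?_
      rw [Finset.sum_mul, Finset.sum_mul]
    rw [e1, e2, int_sum2 L (fun w w' x y => K x y * ψ (rot (g w) x) * ψ (rot (g w') y)),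
      int_sum2 L (fun w w' x y => K (rot (g w)⁻¹ x) (rot (g w')⁻¹ y) * ψ x * ψ y)]
    · refine Finset.sum_congr rfl fun w _ => Finset.sum_congr rfl fun w' _ => ?_
      have hc : Continuous fun p : S 3 × S 3 =>
          K (rot (g w)⁻¹ p.1) (rot (g w')⁻¹ p.2) * ψ p.1 * ψ p.2 :=
        comp_m (fun x y => K (rot (g w)⁻¹ x) (rot (g w')⁻¹ y)) (comp_c K hKc _ _) _ _ hψc hψc
      have r1 := rot_comp_int (g w)
        (fun x => ∫ y, K (rot (g w)⁻¹ x) (rot (g w')⁻¹ y) * ψ x * ψ y ∂(sg 3))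
        (s_par (fun x y => K (rot (g w)⁻¹ x) (rot (g w')⁻¹ y) * ψ x * ψ y) hc)
      simp only [rot_inv_rot] at r1
      rw [← r1]
      congr 1
      funext x
      have hc2 : Continuous fun y : S 3 => K x (rot (g w')⁻¹ y) * ψ (rot (g w) x) * ψ y := by
        have := s_fst (fun x y => K (rot (g w)⁻¹ x) (rot (g w')⁻¹ y) * ψ x * ψ y) hc
          (rot (g w) x)
        simpa only [rot_inv_rot] using this
      have r2 := rot_comp_int (g w') _ hc2
      simp only [rot_inv_rot] at r2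
      exact r2
    · intro w w'
      exact comp_m (fun x y => K (rot (g w)⁻¹ x) (rot (g w')⁻¹ y)) (comp_c K hKc _ _) _ _ hψc hψc
    · intro w w'
      exact comp_m K hKc _ _ (hψc.comp (rot_continuous _)) (hψc.comp (rot_continuous _))
  -- the trace
  have hT : ∫ x, K' x x ∂(sg 3) =
      ∑ w ∈ L, ∑ w' ∈ L, ∫ x, K x (rot (g w * (g w')⁻¹) x) ∂(sg 3) := by
    have e2 : ∀ w w' x, K (rot (g w)⁻¹ x) (rot (g w')⁻¹ x) =
        K x (rot (g w * (g w')⁻¹) x) := by
      intro w w' x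
      rw [← hKr (g w) (rot (g w)⁻¹ x) (rot (g w')⁻¹ x), rot_rot_inv, ← rot_mul]
    have hd : ∀ w w', Continuous fun x : S 3 => K x (rot (g w * (g w')⁻¹) x) := by
      intro w w'
      have := s_diag (fun x y => K (rot (g w)⁻¹ x) (rot (g w')⁻¹ y)) (comp_c K hKc _ _)
      simpa only [e2] using this
    simp only [hK'def, e2]
    rw [integral_finsetSum]
    · refine Finset.sum_congr rfl fun w _ => ?_
      rw [integral_finsetSum]
      intro w' _
      exact s_int _ (hd w w')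
    · intro w _
      exact integrable_finsetSum _ fun w' _ => s_int _ (hd w w')
  rw [hL, ← hT]
  exact htr


theorem block_bound (R : ℍ[ℝ]ˣ →* Iso 3) (hR : ∀ (q : ℍ[ℝ]ˣ) (x : E 3),
    imq (R q x) = (q : ℍ[ℝ]) * imq x * ((q⁻¹ : ℍ[ℝ]ˣ) : ℍ[ℝ]))
    (N N' : ℕ) (hN : 1 ≤ N) (hNN : N ≤ N') (A : ℝ) (hA : (N' : ℝ) ≤ A * N) (ψ : C(S 3, ℝ)) (lm : ℝ)
    (hψ : ∀ x, ∑ a, ψ (rot (R (ua a)) x) = lm * ψ x) (l : ℕ) :
    (lam lm l) ^ 2 * ∫ x, ∫ y, (kk N' x y - kk N x y) * ψ x * ψ y ∂(sg 3) ∂(sg 3) ≤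
      PS l (BB A N) * ∫ x, ψ x ^ 2 ∂(sg 3) := by
  have := sg_prob 3 (by norm_num)
  have hN' : 1 ≤ N' := hN.trans hNN
  have hw := word_eigen (X := S 3) (fun a => rot (R (ua a))) (fun a x => ua_inv R hR a x)
    (fun w x => rot (R (uw w)) x) (fun x => by simp [uw, rot_one])
    (fun a v x => by simp [uw, rot_mul]) ψ lm hψ l
  have hb := block_gen (fun x y => kk N' x y - kk N x y) ((kk_cont N').sub (kk_cont N))
    (fun x y => by simp only [kk, ker_sym 3 x y]) (psd_diff N N' hN hNN)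
    (fun g x y => by simp only [kk, ker_rot]) (RW l) (fun w => R (uw w)) ψ (lam lm l) hw
  refine hb.trans (mul_le_mul_of_nonneg_right ?_ (integral_nonneg fun x => sq_nonneg _))
  rw [PS]
  refine Finset.sum_le_sum fun w hwl => Finset.sum_le_sum fun w' hwl' => ?_
  have e3 : R (uw w) * (R (uw w'))⁻¹ = R (uw w * (uw w')⁻¹) := by rw [map_mul, map_inv]
  simp only [e3]
  obtain ⟨h0, h1, b, hb, hu⟩ := RQ_u R hR (uw w * (uw w')⁻¹)
  have hkc : ∀ M : ℕ, Continuous fun x : S 3 => kk M x (rot (R (uw w * (uw w')⁻¹)) x) := by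
    intro M
    exact (kk_cont M).comp (continuous_id.prodMk (rot_continuous _))
  rw [integral_sub (s_int _ (hkc N')) (s_int _ (hkc N)),
    tr_eval N' hN' _ _ h0 b hb hu, tr_eval N hN _ _ h0 b hb hu, ← sq_word l w w' hwl hwl']
  generalize sq ((uw w * (uw w')⁻¹ : ℍ[ℝ]ˣ) : ℍ[ℝ]) = s at h0 h1
  have hA' : fN N' s - fN N s ≤ A * N := by
    have a1 := fN_le N' hN' s h0 h1
    have a2 := fN_nonneg' N s h0 h1
    linarith
  unfold BB
  split_ifs with hs0
  · exact hA'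
  · exact le_min hA' (fN_diff N N' hN hNN s (not_le.mp hs0) h1)


end Pool.Agent.Helper557.Rz
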