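import Pool.Agent.Helper557.Rz.Base
import Pool.Agent.Helper557.Rz.Defs
import Pool.Agent.Helper557.Rz.FADefs
import Pool.Agent.Helper557.Rz.M_act
import Pool.Agent.Helper557.Rz.M_count
import Pool.Agent.Helper557.Rz.M_kerc
import Pool.Agent.Helper557.Rz.M_meas
import Pool.Agent.Helper557.Rz.M_mn
import Pool.Agent.Helper557.Rz.M_tb

set_option autoImplicit false

open MeasureTheory Set
open scoped Quaternion

namespace Pool.Agent.Helper557.Rz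
lemma ev_inner (N : ℕ) (ψ : C(S 3, ℝ)) (x : S 3) :
    ∫ y, kk N x y * ψ x * ψ y ∂(sg 3) = ψ x * MN N ψ x := by
  unfold MN
  rw [← integral_const_mul]
  refine integral_congr_ae (Filter.Eventually.of_forall fun y => ?_)
  show kk N x y * ψ x * ψ y = ψ x * (kk N x y * ψ y)
  ring

lemma ev_integrable {g : S 3 → ℝ} (hg : Continuous g) : Integrable g (sg 3) := by
  have := sg_prob 3 (by norm_num)
  exact hg.integrable_of_hasCompactSupport (HasCompactSupport.of_compactSpace _)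

lemma ev_kk_cont (N : ℕ) (x : S 3) : Continuous (fun y => kk N x y) := by
  unfold kk
  have h : Continuous (fun y : S 3 => u x y) :=
    (ker_cont 3).comp (Continuous.prodMk continuous_const continuous_id)
  exact continuous_const.mul (h.pow _)

lemma ev_MN_cont (N : ℕ) (hN : 1 ≤ N) (ψ : C(S 3, ℝ)) : Continuous (fun x => MN N ψ x) := by
  obtain ⟨L, hL, _⟩ := MN_facts N hN
  have : (fun x => MN N ψ x) = fun x => L ψ x := by
    funext x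
    rw [hL]
  rw [this]
  exact (L ψ).continuous

lemma ev_diff (N N' : ℕ) (hN : 1 ≤ N) (hN' : 1 ≤ N') (ψ : C(S 3, ℝ)) :
    ∫ x, ∫ y, (kk N' x y - kk N x y) * ψ x * ψ y ∂(sg 3) ∂(sg 3) =
      ∫ x, ψ x * MN N' ψ x ∂(sg 3) - ∫ x, ψ x * MN N ψ x ∂(sg 3) := by
  have i1 : Integrable (fun x => ψ x * MN N' ψ x) (sg 3) :=
    ev_integrable (ψ.continuous.mul (ev_MN_cont N' hN' ψ))
  have i2 : Integrable (fun x => ψ x * MN N ψ x) (sg 3) :=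
    ev_integrable (ψ.continuous.mul (ev_MN_cont N hN ψ))
  rw [← integral_sub i1 i2]
  refine integral_congr_ae (Filter.Eventually.of_forall fun x => ?_)
  show ∫ y, (kk N' x y - kk N x y) * ψ x * ψ y ∂(sg 3) = ψ x * MN N' ψ x - ψ x * MN N ψ x
  have i3 : Integrable (fun y => kk N' x y * ψ x * ψ y) (sg 3) :=
    ev_integrable (((ev_kk_cont N' x).mul continuous_const).mul ψ.continuous)
  have i4 : Integrable (fun y => kk N x y * ψ x * ψ y) (sg 3) :=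
    ev_integrable (((ev_kk_cont N x).mul continuous_const).mul ψ.continuous)
  rw [← ev_inner N' ψ x, ← ev_inner N ψ x, ← integral_sub i3 i4]
  refine integral_congr_ae (Filter.Eventually.of_forall fun y => ?_)
  show (kk N' x y - kk N x y) * ψ x * ψ y = kk N' x y * ψ x * ψ y - kk N x y * ψ x * ψ y
  ring

lemma ev_close (N : ℕ) (hN : 1 ≤ N) (ψ : C(S 3, ℝ)) (ε : ℝ) (hε : 0 < ε)
    (h : ∀ x : S 3, |MN N ψ x - ψ x| ≤ ε) (h1 : ∫ x, ψ x ^ 2 ∂(sg 3) = 1) :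
    1 ≤ ∫ x, ψ x * MN N ψ x ∂(sg 3) + ε := by
  have hp := sg_prob 3 (by norm_num)
  have i1 : Integrable (fun x => ψ x ^ 2) (sg 3) := ev_integrable (ψ.continuous.pow 2)
  have i2 : Integrable (fun x => ψ x * MN N ψ x) (sg 3) :=
    ev_integrable (ψ.continuous.mul (ev_MN_cont N hN ψ))
  have i3 : Integrable (fun x => ε * ((1 + ψ x ^ 2) / 2)) (sg 3) :=
    ev_integrable (continuous_const.mul ((continuous_const.add (ψ.continuous.pow 2)).div_const 2))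
  have h2 : ∫ x, ψ x ^ 2 ∂(sg 3) ≤ ∫ x, (ψ x * MN N ψ x + ε * ((1 + ψ x ^ 2) / 2)) ∂(sg 3) := by
    refine integral_mono i1 (i2.add i3) fun x => ?_
    show ψ x ^ 2 ≤ ψ x * MN N ψ x + ε * ((1 + ψ x ^ 2) / 2)
    have h3 : |ψ x * (MN N ψ x - ψ x)| ≤ |ψ x| * ε := by
      rw [abs_mul]
      exact mul_le_mul_of_nonneg_left (h x) (abs_nonneg _)
    have h4 : |ψ x| ≤ (1 + ψ x ^ 2) / 2 := by
      have := sq_nonneg (|ψ x| - 1)
      rw [sub_sq, sq_abs] at this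
      linarith
    have h5 := (abs_le.1 h3).1
    nlinarith [mul_le_mul_of_nonneg_right h4 hε.le]
  have h6 : ∫ x, (ψ x * MN N ψ x + ε * ((1 + ψ x ^ 2) / 2)) ∂(sg 3) =
      ∫ x, ψ x * MN N ψ x ∂(sg 3) + ε := by
    rw [integral_add i2 i3, integral_const_mul, integral_div, integral_add (integrable_const _) i1,
      h1]
    simp
  rw [h1, h6] at h2
  exact h2


theorem eig_low (R : ℍ[ℝ]ˣ →* Iso 3) (hR : ∀ (q : ℍ[ℝ]ˣ) (x : E 3),
    imq (R q x) = (q : ℍ[ℝ]) * imq x * ((q⁻¹ : ℍ[ℝ]ˣ) : ℍ[ℝ])) :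
    ∃ (l₀ : ℝ) (N₀ : ℕ), l₀ < 6 ∧ 1 ≤ N₀ ∧ ∀ (ψ : C(S 3, ℝ)) (lm : ℝ),
      (∀ x, ∑ a, ψ (rot (R (ua a)) x) = lm * ψ x) → ∫ x, ψ x ^ 2 ∂(sg 3) = 1 →
      l₀ ≤ lm → lm ≤ 6 → 1 / 2 ≤ ∫ x, ∫ y, kk N₀ x y * ψ x * ψ y ∂(sg 3) ∂(sg 3) := by
  obtain ⟨C, θ, hC, hθ0, hθ1, hcount⟩ := count_bound
  -- the constant `a₀`
  obtain ⟨a₀, ha1, ha2, ha3⟩ : ∃ a₀ : ℝ, Real.sqrt 5 < a₀ ∧ a₀ < 5 ∧ θ * 5 ^ 20 < a₀ ^ 20 := by
    have e1 : ∀ᶠ a in nhdsWithin (5 : ℝ) (Iio 5), θ * 5 ^ 20 < a ^ 20 := by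
      refine (Filter.Eventually.filter_mono nhdsWithin_le_nhds ?_)
      have hc : Continuous fun a : ℝ => a ^ 20 := by fun_prop
      refine (continuousAt_const.eventually_lt hc.continuousAt ?_)
      have : (0 : ℝ) < 5 ^ 20 := by positivity
      nlinarith
    have e2 : ∀ᶠ a in nhdsWithin (5 : ℝ) (Iio 5), Real.sqrt 5 < a := by
      refine (Filter.Eventually.filter_mono nhdsWithin_le_nhds ?_)
      refine lt_mem_nhds ?_
      rw [Real.sqrt_lt' (by norm_num)]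
      norm_num
    have e3 : ∀ᶠ a in nhdsWithin (5 : ℝ) (Iio 5), a < 5 := self_mem_nhdsWithin
    obtain ⟨a, h1, h2, h3⟩ := (e1.and (e2.and e3)).exists
    exact ⟨a, h2, h3, h1⟩
  have hs5 : (1 : ℝ) < Real.sqrt 5 := by
    rw [Real.lt_sqrt (by norm_num)]; norm_num
  have ha0 : 0 < a₀ := by linarith
  have ha1' : 1 < a₀ := by linarith
  obtain ⟨ρ, hρ⟩ : ∃ ρ : ℝ, ρ = θ * 5 ^ 20 / a₀ ^ 20 := ⟨_, rfl⟩
  have hρ0 : 0 < ρ := by rw [hρ]; positivity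
  have hρ1 : ρ < 1 := by
    rw [hρ, div_lt_one (by positivity)]
    exact ha3
  have hl : a₀ + 5 / a₀ < 6 := by
    have : a₀ * (a₀ + 5 / a₀) < a₀ * 6 := by
      have e : a₀ * (a₀ + 5 / a₀) = a₀ ^ 2 + 5 := by field_simp
      rw [e]
      nlinarith
    exact lt_of_mul_lt_mul_left this ha0.le
  obtain ⟨i₀, hi₀, hi₀'⟩ : ∃ i₀ : ℕ, 1 ≤ i₀ ∧ C * ρ ^ i₀ / (1 - ρ) ≤ 1 / 2 := by
    have h1ρ : 0 < 1 - ρ := by linarith
    obtain ⟨m, hm⟩ := exists_pow_lt_of_lt_one (show 0 < (1 - ρ) / (2 * C) by positivity) hρ1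
    refine ⟨m + 1, by omega, ?_⟩
    rw [div_le_iff₀ h1ρ]
    have h2 : ρ ^ (m + 1) ≤ ρ ^ m := pow_le_pow_of_le_one hρ0.le hρ1.le (by omega)
    have h3 : C * ρ ^ (m + 1) ≤ C * ((1 - ρ) / (2 * C)) :=
      mul_le_mul_of_nonneg_left (h2.trans hm.le) hC.le
    have h4 : C * ((1 - ρ) / (2 * C)) = 1 / 2 * (1 - ρ) := by field_simp
    linarith
  refine ⟨a₀ + 5 / a₀, 5 ^ (9 * i₀), hl, Nat.one_le_pow _ _ (by norm_num), ?_⟩
  intro ψ lm hψ hnorm hlm1 hlm2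
  have hI : ∀ N : ℕ, ∫ x, ∫ y, kk N x y * ψ x * ψ y ∂(sg 3) ∂(sg 3) =
      ∫ x, ψ x * MN N ψ x ∂(sg 3) := by
    intro N
    refine integral_congr_ae (Filter.Eventually.of_forall fun x => ?_)
    exact ev_inner N ψ x
  rw [hI]
  have hNpos : ∀ i : ℕ, 1 ≤ 5 ^ (9 * i) := fun i => Nat.one_le_pow _ _ (by norm_num)
  -- one block
  have hblock : ∀ i : ℕ, 1 ≤ i → ∫ x, ψ x * MN (5 ^ (9 * (i + 1))) ψ x ∂(sg 3) -
      ∫ x, ψ x * MN (5 ^ (9 * i)) ψ x ∂(sg 3) ≤ C * ρ ^ i := by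
    intro i hi
    rw [← ev_diff _ _ (hNpos i) (hNpos (i + 1)) ψ]
    have h1 := block_bound R hR (5 ^ (9 * i)) (5 ^ (9 * (i + 1))) (hNpos i)
      (Nat.pow_le_pow_right (by norm_num) (by omega)) (5 ^ 9) (by
        push_cast
        rw [← pow_add]
        exact le_of_eq (by congr 1; ring)) ψ lm hψ (10 * i)
    have h2 := hcount i hi
    rw [hnorm, mul_one] at h1
    have hcast : (((5 ^ (9 * i) : ℕ)) : ℝ) = (5 : ℝ) ^ (9 * i) := by push_cast; rfl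
    rw [hcast] at h1
    have h3 := lam_lower a₀ ha1 ha2 lm hlm1 hlm2 (10 * i) (by omega)
    generalize (∫ x, ∫ y, (kk (5 ^ (9 * (i + 1))) x y - kk (5 ^ (9 * i)) x y) * ψ x * ψ y
      ∂(sg 3) ∂(sg 3)) = Q at h1 ⊢
    by_cases hQ : Q ≤ 0
    · exact hQ.trans (by positivity)
    have hQ' : 0 < Q := not_le.1 hQ
    have h4 : (a₀ ^ (10 * i)) ^ 2 ≤ (lam lm (10 * i)) ^ 2 :=
      pow_le_pow_left₀ (by positivity) h3 2
    have h5 : (a₀ ^ (10 * i)) ^ 2 * Q ≤ C * θ ^ i * ((5 : ℝ) ^ 20) ^ i :=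
      (mul_le_mul_of_nonneg_right h4 hQ'.le).trans (h1.trans h2)
    have h6 : (a₀ ^ (10 * i)) ^ 2 = (a₀ ^ 20) ^ i := by
      rw [← pow_mul, ← pow_mul]
      congr 1
      ring
    rw [h6] at h5
    have h7 : C * ρ ^ i = C * θ ^ i * ((5 : ℝ) ^ 20) ^ i / (a₀ ^ 20) ^ i := by
      rw [hρ, div_pow, mul_pow]
      ring
    rw [h7, le_div_iff₀ (by positivity)]
    linarith [mul_comm Q ((a₀ ^ 20) ^ i)]
  -- the sum
  have h1ρ : 0 < 1 - ρ := by linarith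
  have hsum : ∀ i : ℕ, i₀ ≤ i → ∫ x, ψ x * MN (5 ^ (9 * i)) ψ x ∂(sg 3) ≤
      ∫ x, ψ x * MN (5 ^ (9 * i₀)) ψ x ∂(sg 3) + C * (ρ ^ i₀ - ρ ^ i) / (1 - ρ) := by
    intro i hi
    induction i, hi using Nat.le_induction with
    | base => simp
    | succ i hi ih =>
      have h2 := hblock i (hi₀.trans hi)
      have h3 : C * (ρ ^ i₀ - ρ ^ (i + 1)) / (1 - ρ) =
          C * (ρ ^ i₀ - ρ ^ i) / (1 - ρ) + C * ρ ^ i := by
        field_simp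
        ring
      linarith
  refine le_of_forall_pos_le_add fun ε hε => ?_
  obtain ⟨N₀, _, hN₀⟩ := MN_tendsto ψ ε hε
  obtain ⟨i, hi1, hi2⟩ : ∃ i : ℕ, i₀ ≤ i ∧ N₀ ≤ 5 ^ (9 * i) := by
    refine ⟨max i₀ N₀, le_max_left _ _, ?_⟩
    have h2 : 9 * max i₀ N₀ < 5 ^ (9 * max i₀ N₀) := Nat.lt_pow_self (by norm_num)
    have h3 : N₀ ≤ max i₀ N₀ := le_max_right _ _
    omega
  have h2 := ev_close (5 ^ (9 * i)) (hNpos i) ψ ε hε (hN₀ _ hi2) hnorm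
  have h3 := hsum i hi1
  have h4 : C * (ρ ^ i₀ - ρ ^ i) / (1 - ρ) ≤ C * ρ ^ i₀ / (1 - ρ) := by
    refine div_le_div_of_nonneg_right ?_ h1ρ.le
    refine mul_le_mul_of_nonneg_left ?_ hC.le
    have : 0 < ρ ^ i := pow_pos hρ0 i
    linarith
  linarith



end Pool.Agent.Helper557.Rz
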