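import Pool.Agent.Helper557.Rz.Base
import Pool.Agent.Helper557.Rz.FADefs

set_option autoImplicit false

open MeasureTheory Set

namespace Pool.Agent.Helper557.Rz


theorem fa_empty {X : Type} [MeasurableSpace X] (m : Set X → ℝ)
    (ha : ∀ A B, MeasurableSet A → MeasurableSet B → Disjoint A B → m (A ∪ B) = m A + m B) :
    m ∅ = 0 := by
  have h := ha ∅ ∅ MeasurableSet.empty MeasurableSet.empty (disjoint_bot_left)
  rw [Set.union_empty] at h
  linarith

theorem fa_biUnion {X : Type} [MeasurableSpace X] (m : Set X → ℝ)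
    (ha : ∀ A B, MeasurableSet A → MeasurableSet B → Disjoint A B → m (A ∪ B) = m A + m B)
    {I : Type} [DecidableEq I] (s : Finset I) (B : I → Set X) (hB : ∀ i, MeasurableSet (B i))
    (hd : ∀ i j, i ≠ j → Disjoint (B i) (B j)) :
    m (⋃ i ∈ s, B i) = ∑ i ∈ s, m (B i) := by
  induction s using Finset.induction_on with
  | empty => simp [fa_empty m ha]
  | insert a s has ih =>
    rw [Finset.set_biUnion_insert, Finset.sum_insert has, ha _ _ (hB a)
      (Finset.measurableSet_biUnion s (fun i _ => hB i)), ih]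
    rw [Set.disjoint_iUnion₂_right]
    intro i hi
    refine hd a i ?_
    rintro rfl
    exact has hi

theorem fa_pos {X : Type} [MeasurableSpace X] (m : Set X → ℝ) (hn : ∀ A, MeasurableSet A → 0 ≤ m A)
    (ha : ∀ A B, MeasurableSet A → MeasurableSet B → Disjoint A B → m (A ∪ B) = m A + m B)
    {J : Type} [Fintype J] (A : J → Set X) (hA : ∀ j, MeasurableSet (A j)) (c : J → ℝ)
    (h : ∀ x, 0 ≤ ∑ j, c j * (A j).indicator (fun _ => (1 : ℝ)) x) :
    0 ≤ ∑ j, c j * m (A j) := by
  classical
  let atom : Finset J → Set X := fun T => {x | ∀ j, x ∈ A j ↔ j ∈ T}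
  have hatom : ∀ T, MeasurableSet (atom T) := by
    intro T
    have : atom T = ⋂ j, (if j ∈ T then A j else (A j)ᶜ) := by
      ext x
      rw [Set.mem_iInter]
      show (∀ j, x ∈ A j ↔ j ∈ T) ↔ _
      refine forall_congr' (fun j => ?_)
      by_cases hj : j ∈ T
      · simp [hj]
      · simp [hj]
    rw [this]
    refine MeasurableSet.iInter (fun j => ?_)
    by_cases hj : j ∈ T
    · simp only [hj, if_true]; exact hA j
    · simp only [hj, if_false]; exact (hA j).compl
  have hdis : ∀ T T', T ≠ T' → Disjoint (atom T) (atom T') := by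
    intro T T' hT
    rw [Set.disjoint_left]
    intro x hx hx'
    apply hT
    ext j
    rw [← hx j, ← hx' j]
  have hAj : ∀ j, m (A j) = ∑ T : Finset J, if j ∈ T then m (atom T) else 0 := by
    intro j
    have h1 : A j = ⋃ T ∈ (Finset.univ.filter (fun T : Finset J => j ∈ T)), atom T := by
      ext x
      constructor
      · intro hx
        refine Set.mem_iUnion₂.2 ⟨Finset.univ.filter (fun i => x ∈ A i), ?_, ?_⟩
        · simp [hx]
        · intro i
          simp
      · intro hx
        obtain ⟨T, hT, hxT⟩ := Set.mem_iUnion₂.1 hx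
        exact (hxT j).2 (Finset.mem_filter.1 hT).2
    rw [h1, fa_biUnion m ha _ atom hatom hdis, Finset.sum_filter]
  have hsum : ∑ j, c j * m (A j) = ∑ T : Finset J, (∑ j, if j ∈ T then c j else 0) * m (atom T) := by
    have h1 : ∀ j, c j * m (A j) = ∑ T : Finset J, (if j ∈ T then c j else 0) * m (atom T) := by
      intro j
      rw [hAj j, Finset.mul_sum]
      refine Finset.sum_congr rfl (fun T _ => ?_)
      by_cases hj : j ∈ T <;> simp [hj]
    rw [Finset.sum_congr rfl (fun j _ => h1 j), Finset.sum_comm]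
    refine Finset.sum_congr rfl (fun T _ => ?_)
    rw [Finset.sum_mul]
  rw [hsum]
  refine Finset.sum_nonneg (fun T _ => ?_)
  rcases Set.eq_empty_or_nonempty (atom T) with hT | ⟨x, hx⟩
  · rw [hT, fa_empty m ha, mul_zero]
  · refine mul_nonneg ?_ (hn _ (hatom T))
    have h2 := h x
    have h3 : ∑ j, c j * (A j).indicator (fun _ => (1 : ℝ)) x = ∑ j, if j ∈ T then c j else 0 := by
      refine Finset.sum_congr rfl (fun j _ => ?_)
      by_cases hj : j ∈ T
      · have := (hx j).2 hj
        simp [hj, this]
      · have : x ∉ A j := fun hxj => hj ((hx j).1 hxj)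
        simp [hj, this]
    rw [h3] at h2
    exact h2


end Pool.Agent.Helper557.Rz
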