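import Pool.Agent.Helper557.Rz.Base
import Pool.Agent.Helper557.Rz.FADefs
import Pool.Agent.Helper557.Rz.M_fapos

set_option autoImplicit false

open MeasureTheory Set

namespace Pool.Agent.Helper557.Rz

theorem sum_level (M n : ℕ) (hn : n ≤ M) :
    ∑ v : Fin M, (if (v : ℕ) + 1 ≤ n then (1 : ℝ) else 0) = n := by
  rw [Fin.sum_univ_eq_sum_range (fun v => if v + 1 ≤ n then (1 : ℝ) else 0) M]
  rw [← Finset.sum_filter]
  have : (Finset.range M).filter (fun v => v + 1 ≤ n) = Finset.range n := by
    ext v
    simp only [Finset.mem_filter, Finset.mem_range]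
    omega
  rw [this]
  simp

theorem fa_flow (d k : ℕ) (g : Fin k → Iso d) (m : Set (S d) → ℝ) (hm : IsFA d m)
    (U : Set (S d)) (hU : MeasurableSet U) (F : Fin k → S d → ℝ) (hF : ∀ i, Measurable (F i))
    (C : ℝ) (hC : ∀ i x, |F i x| ≤ C) (ε : ℝ)
    (h : ∀ x, ∑ i, (F i (rot (g i) x) - F i x) ≤ ε - U.indicator (fun _ => (1 : ℝ)) x) :
    m U ≤ ε := by
  -- main estimate
  have main : ∀ N : ℕ, (N : ℝ) * (m U - ε) ≤ k := by
    intro N
    set M : ℕ := ⌊2 * C * N⌋₊ + 1 with hM
    set n : Fin k → S d → ℕ := fun i x => ⌊(N : ℝ) * (F i x + C)⌋₊ with hn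
    have hpos : ∀ i x, 0 ≤ (N : ℝ) * (F i x + C) := by
      intro i x
      have := (abs_le.1 (hC i x)).1
      exact mul_nonneg (Nat.cast_nonneg _) (by linarith)
    have hnM : ∀ i x, n i x ≤ M := by
      intro i x
      have h1 := (abs_le.1 (hC i x)).2
      have h2 : (N : ℝ) * (F i x + C) ≤ 2 * C * N := by
        have : (0 : ℝ) ≤ N := Nat.cast_nonneg _
        nlinarith
      exact (Nat.floor_le_floor h2).trans (Nat.le_succ _)
    have hnmeas : ∀ i, Measurable (n i) := fun i =>
      Nat.measurable_floor.comp (measurable_const.mul ((hF i).add_const C))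
    set B : Fin k → Fin M → Set (S d) := fun i v => {x | (v : ℕ) + 1 ≤ n i x} with hB
    have hBm : ∀ i v, MeasurableSet (B i v) := fun i v =>
      measurableSet_le measurable_const (hnmeas i)
    have hrot : ∀ i, Measurable (rot (g i)) := fun i => (rot_continuous (g i)).measurable
    have hBind : ∀ i x, ∑ v, (B i v).indicator (fun _ => (1 : ℝ)) x = n i x := by
      intro i x
      rw [← sum_level M (n i x) (hnM i x)]
      refine Finset.sum_congr rfl fun v _ => ?_
      by_cases hv : (v : ℕ) + 1 ≤ n i x
      · rw [Set.indicator_of_mem (show x ∈ B i v from hv), if_pos hv]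
      · rw [Set.indicator_of_notMem (show x ∉ B i v from hv), if_neg hv]
    let A : Fin 2 ⊕ (Fin k × Fin M × Fin 2) → Set (S d) := fun j =>
      match j with
      | Sum.inl a => if a = 0 then Set.univ else U
      | Sum.inr (i, v, b) => if b = 0 then rot (g i) ⁻¹' (B i v) else B i v
    let c : Fin 2 ⊕ (Fin k × Fin M × Fin 2) → ℝ := fun j =>
      match j with
      | Sum.inl a => if a = 0 then (N * ε + k) else -(N : ℝ)
      | Sum.inr (_, _, b) => if b = 0 then -1 else 1
    have hA : ∀ j, MeasurableSet (A j) := by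
      rintro (a | ⟨i, v, b⟩)
      · show MeasurableSet (if a = 0 then Set.univ else U)
        split_ifs
        · exact MeasurableSet.univ
        · exact hU
      · show MeasurableSet (if b = 0 then rot (g i) ⁻¹' (B i v) else B i v)
        split_ifs
        · exact (hrot i) (hBm i v)
        · exact hBm i v
    have key := fa_pos m hm.nonneg hm.add A hA c ?_
    · have e : ∑ j, c j * m (A j) = (N * ε + k) * m Set.univ + -(N : ℝ) * m U := by
        rw [Fintype.sum_sum_type, Fin.sum_univ_two]
        have : ∑ p : Fin k × Fin M × Fin 2, c (Sum.inr p) * m (A (Sum.inr p)) = 0 := by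
          rw [Fintype.sum_prod_type]
          refine Finset.sum_eq_zero fun i _ => ?_
          rw [Fintype.sum_prod_type]
          refine Finset.sum_eq_zero fun v _ => ?_
          rw [Fin.sum_univ_two]
          show -1 * m (rot (g i) ⁻¹' (B i v)) + 1 * m (B i v) = 0
          rw [hm.inv (g i) (B i v) (hBm i v)]
          ring
        rw [this, add_zero]
        rfl
      rw [e, hm.univ] at key
      nlinarith
    · intro x
      have e : ∑ j, c j * (A j).indicator (fun _ => (1 : ℝ)) x
          = (N * ε + k) * 1 + -(N : ℝ) * U.indicator (fun _ => (1 : ℝ)) x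
            - ∑ i, ((n i (rot (g i) x) : ℝ) - n i x) := by
        rw [Fintype.sum_sum_type, Fin.sum_univ_two]
        have : ∑ p : Fin k × Fin M × Fin 2,
            c (Sum.inr p) * (A (Sum.inr p)).indicator (fun _ => (1 : ℝ)) x
            = - ∑ i, ((n i (rot (g i) x) : ℝ) - n i x) := by
          rw [Fintype.sum_prod_type, ← Finset.sum_neg_distrib]
          refine Finset.sum_congr rfl fun i _ => ?_
          rw [Fintype.sum_prod_type]
          rw [← hBind i x, ← hBind i (rot (g i) x), ← Finset.sum_sub_distrib,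
            ← Finset.sum_neg_distrib]
          refine Finset.sum_congr rfl fun v _ => ?_
          rw [Fin.sum_univ_two]
          show -1 * (rot (g i) ⁻¹' (B i v)).indicator (fun _ => (1 : ℝ)) x
            + 1 * (B i v).indicator (fun _ => (1 : ℝ)) x = _
          have : (rot (g i) ⁻¹' (B i v)).indicator (fun _ => (1 : ℝ)) x
              = (B i v).indicator (fun _ => (1 : ℝ)) (rot (g i) x) := rfl
          rw [this]
          ring
        rw [this]
        show (N * ε + k) * (Set.univ : Set (S d)).indicator (fun _ => (1 : ℝ)) x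
          + -(N : ℝ) * U.indicator (fun _ => (1 : ℝ)) x + _ = _
        rw [Set.indicator_univ]
        ring
      rw [e]
      have h3 : ∑ i, ((n i (rot (g i) x) : ℝ) - n i x)
          ≤ ∑ i, ((N : ℝ) * (F i (rot (g i) x) - F i x) + 1) := by
        refine Finset.sum_le_sum fun i _ => ?_
        have h4 : ((n i (rot (g i) x) : ℕ) : ℝ) ≤ (N : ℝ) * (F i (rot (g i) x) + C) :=
          Nat.floor_le (hpos i _)
        have h5 : (N : ℝ) * (F i x + C) < (n i x : ℝ) + 1 := Nat.lt_floor_add_one _
        nlinarith
      rw [Finset.sum_add_distrib, ← Finset.mul_sum] at h3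
      have h6 : (N : ℝ) * ∑ i, (F i (rot (g i) x) - F i x)
          ≤ N * (ε - U.indicator (fun _ => (1 : ℝ)) x) :=
        mul_le_mul_of_nonneg_left (h x) (Nat.cast_nonneg _)
      simp only [Finset.sum_const, Finset.card_univ, Fintype.card_fin, nsmul_eq_mul, mul_one] at h3
      nlinarith
  by_contra hcon
  push Not at hcon
  have hpos : 0 < m U - ε := by linarith
  obtain ⟨N, hN⟩ := exists_nat_gt ((k : ℝ) / (m U - ε))
  have := main N
  rw [div_lt_iff₀ hpos] at hN
  linarith


end Pool.Agent.Helper557.Rz
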