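import Pool.Agent.Helper557.Rz.Base
import Pool.Agent.Helper557.Rz.FADefs

set_option autoImplicit false

open MeasureTheory Set

namespace Pool.Agent.Helper557.Rz

theorem top_eig {V : Type} [AddCommGroup V] [Module ℝ V] [FiniteDimensional ℝ V] [Nontrivial V]
    (B : V →ₗ[ℝ] V →ₗ[ℝ] ℝ) (hs : ∀ x y, B x y = B y x) (hp : ∀ x, x ≠ 0 → 0 < B x x)
    (T : V →ₗ[ℝ] V) (hT : ∀ x y, B (T x) y = B x (T y)) :
    ∃ v : V, v ≠ 0 ∧ ∃ lm : ℝ, T v = lm • v ∧ ∀ w, B (T w) w ≤ lm * B w w := by
  classical
  let core : InnerProductSpace.Core ℝ V :=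
    { inner := fun x y => B x y
      conj_inner_symm := fun x y => by simpa using hs y x
      re_inner_nonneg := fun x => by
        by_cases hx : x = 0
        · simp [hx]
        · simpa using (hp x hx).le
      add_left := fun x y z => by simp
      smul_left := fun x y r => by simp
      definite := fun x hx => by
        by_contra h
        exact absurd hx (hp x h).ne' }
  letI : NormedAddCommGroup V := core.toNormedAddCommGroup
  letI : InnerProductSpace ℝ V := InnerProductSpace.ofCore core.toCore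
  have hin : ∀ x y : V, inner ℝ x y = B x y := fun x y => rfl
  have hsym : T.IsSymmetric := fun x y => hT x y
  have h := hsym.hasEigenvalue_iSup_of_finiteDimensional
  obtain ⟨v, hv⟩ := h.exists_hasEigenvector
  refine ⟨v, hv.2, _, hv.apply_eq_smul, fun w => ?_⟩
  by_cases hw : w = 0
  · simp [hw]
  · have hbdd : BddAbove (Set.range fun x : {x : V // x ≠ 0} =>
        RCLike.re (inner ℝ (T (x : V)) (x : V)) / ‖(x : V)‖ ^ 2) := by
      refine ⟨‖LinearMap.toContinuousLinearMap T‖, ?_⟩
      rintro _ ⟨x, rfl⟩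
      have hx : 0 < ‖(x : V)‖ := norm_pos_iff.mpr x.2
      simp only
      rw [div_le_iff₀ (by positivity)]
      have h1 := real_inner_le_norm (T (x : V)) (x : V)
      have h2 := (LinearMap.toContinuousLinearMap T).le_opNorm (x : V)
      have h3 : ‖T (x : V)‖ ≤ ‖LinearMap.toContinuousLinearMap T‖ * ‖(x : V)‖ := h2
      calc RCLike.re (inner ℝ (T (x : V)) (x : V)) = inner ℝ (T (x : V)) (x : V) := rfl
        _ ≤ ‖T (x : V)‖ * ‖(x : V)‖ := h1
        _ ≤ ‖LinearMap.toContinuousLinearMap T‖ * ‖(x : V)‖ * ‖(x : V)‖ := by gcongr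
        _ = _ := by ring
    have h1 := le_ciSup hbdd ⟨w, hw⟩
    have hwn : 0 < ‖w‖ := norm_pos_iff.mpr hw
    simp only at h1
    rw [div_le_iff₀ (by positivity)] at h1
    have h2 : ‖w‖ ^ 2 = B w w := by
      rw [← real_inner_self_eq_norm_sq]
      exact hin w w
    rw [h2] at h1
    exact h1


end Pool.Agent.Helper557.Rz
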