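import Pool.Agent.Helper557.Rz.Base
import Pool.Agent.Helper557.Rz.Defs
import Pool.Agent.Helper557.Rz.FADefs
import Pool.Agent.Helper557.Rz.M_erg
import Pool.Agent.Helper557.Rz.M_ev
import Pool.Agent.Helper557.Rz.M_kerc
import Pool.Agent.Helper557.Rz.M_letter
import Pool.Agent.Helper557.Rz.M_meas
import Pool.Agent.Helper557.Rz.M_mn
import Pool.Agent.Helper557.Rz.M_rq
import Pool.Agent.Helper557.Rz.M_topeig

set_option autoImplicit false

open MeasureTheory Set
open scoped Quaternion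

namespace Pool.Agent.Helper557.Rz
/-! ### auxiliary -/
lemma intc (f : C(S 3, ℝ)) : Integrable (fun x => f x) (sg 3) := by
  haveI := sg_prob 3 (by norm_num)
  exact f.continuous.integrable_of_hasCompactSupport (HasCompactSupport.of_compactSpace _)

/-- the integral as a linear map -/
noncomputable def II : C(S 3, ℝ) →ₗ[ℝ] ℝ where
  toFun f := ∫ x, f x ∂(sg 3)
  map_add' f g := by
    simpa using integral_add (intc f) (intc g)
  map_smul' c f := by
    simp [integral_const_mul]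

lemma II_apply (f : C(S 3, ℝ)) : II f = ∫ x, f x ∂(sg 3) := rfl

lemma II_le (f : C(S 3, ℝ)) : |II f| ≤ ‖f‖ := by
  haveI := sg_prob 3 (by norm_num)
  have h := norm_integral_le_of_norm_le_const (μ := sg 3) (f := fun x => f x) (C := ‖f‖)
    (Filter.Eventually.of_forall (fun x => f.norm_coe_le_norm x))
  simpa [II_apply] using h

lemma II_cont : Continuous II := by
  have h : LipschitzWith 1 (fun f : C(S 3, ℝ) => II f) := by
    apply LipschitzWith.of_dist_le_mul
    intro f g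
    rw [dist_eq_norm, dist_eq_norm, ← map_sub, Real.norm_eq_abs]
    simpa using II_le (f - g)
  exact h.continuous

lemma II_rot (g : Iso 3) (f : C(S 3, ℝ)) : II (cr g f) = II f := by
  have hm := rot_mp 3 (by norm_num) g
  rw [II_apply, II_apply]
  calc ∫ x, cr g f x ∂(sg 3) = ∫ x, f (rot g x) ∂(sg 3) := rfl
    _ = ∫ y, f y ∂(Measure.map (rot g) (sg 3)) :=
        (integral_map hm.measurable.aemeasurable f.continuous.aestronglyMeasurable).symm
    _ = ∫ y, f y ∂(sg 3) := by rw [hm.map_eq]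

lemma II_pos (f : C(S 3, ℝ)) (hf : f ≠ 0) : 0 < II (f * f) := by
  haveI := sg_prob 3 (by norm_num)
  haveI := sg_open_pos 3 (by norm_num)
  obtain ⟨x, hx⟩ : ∃ x, f x ≠ 0 := by
    by_contra h
    push Not at h
    exact hf (ContinuousMap.ext h)
  rw [II_apply]
  exact (f * f).continuous.integral_pos_of_hasCompactSupport_nonneg_nonzero
    (HasCompactSupport.of_compactSpace _) (fun y => mul_self_nonneg (f y))
    (x := x) (mul_self_ne_zero.mpr hx)

lemma II_nonneg (f : C(S 3, ℝ)) : 0 ≤ II (f * f) := by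
  by_cases h : f = 0
  · simp [h]
  · exact (II_pos f h).le

lemma II_const (c : ℝ) : II (ContinuousMap.const _ c) = c := by
  haveI := sg_prob 3 (by norm_num)
  simp [II_apply]

/-- `cr` as a linear map -/
noncomputable def crL (g : Iso 3) : C(S 3, ℝ) →ₗ[ℝ] C(S 3, ℝ) where
  toFun := cr g
  map_add' _ _ := rfl
  map_smul' _ _ := rfl

lemma crL_apply (g : Iso 3) (f : C(S 3, ℝ)) : crL g f = cr g f := rfl

lemma cr_cont (g : Iso 3) : Continuous (fun f : C(S 3, ℝ) => cr g f) :=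
  ContinuousMap.continuous_precomp _

/-- the averaging operator -/
noncomputable def TT (R : ℍ[ℝ]ˣ →* Iso 3) : C(S 3, ℝ) →ₗ[ℝ] C(S 3, ℝ) :=
  ∑ a : Fin 6, crL (R (ua a))

lemma TT_eq (R : ℍ[ℝ]ˣ →* Iso 3) (f : C(S 3, ℝ)) : TT R f = ∑ a : Fin 6, cr (R (ua a)) f := by
  rw [TT, LinearMap.sum_apply]
  rfl

lemma TT_apply (R : ℍ[ℝ]ˣ →* Iso 3) (f : C(S 3, ℝ)) (x : S 3) :
    TT R f x = ∑ a : Fin 6, f (rot (R (ua a)) x) := by
  rw [TT_eq, ContinuousMap.sum_apply]
  rfl

lemma TT_cont (R : ℍ[ℝ]ˣ →* Iso 3) : Continuous (fun f : C(S 3, ℝ) => TT R f) := by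
  have : (fun f : C(S 3, ℝ) => TT R f) = fun f => ∑ a : Fin 6, cr (R (ua a)) f := by
    funext f
    exact TT_eq R f
  rw [this]
  exact continuous_finsetSum _ (fun a _ => cr_cont _)

lemma TT_sym (R : ℍ[ℝ]ˣ →* Iso 3) (hR : ∀ (q : ℍ[ℝ]ˣ) (x : E 3),
    imq (R q x) = (q : ℍ[ℝ]) * imq x * ((q⁻¹ : ℍ[ℝ]ˣ) : ℍ[ℝ])) (f h : C(S 3, ℝ)) :
    II (TT R f * h) = II (f * TT R h) := by
  rw [TT_eq, TT_eq, Finset.sum_mul, Finset.mul_sum, map_sum, map_sum]
  have h1 : ∀ a : Fin 6, II (cr (R (ua a)) f * h) = II (f * cr (R (ua (a + 3))) h) := by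
    intro a
    rw [← II_rot (R (ua a)) (f * cr (R (ua (a + 3))) h)]
    congr 1
    ext x
    show f (rot (R (ua a)) x) * h x =
      f (rot (R (ua a)) x) * h (rot (R (ua (a + 3))) (rot (R (ua a)) x))
    rw [ua_inv R hR a x]
  rw [Finset.sum_congr rfl (fun a _ => h1 a)]
  exact Equiv.sum_comp (Equiv.addRight (3 : Fin 6)) (fun a => II (f * cr (R (ua a)) h))

lemma key_id (R : ℍ[ℝ]ˣ →* Iso 3) (f : C(S 3, ℝ)) :
    ∑ a : Fin 6, II ((cr (R (ua a)) f - f) * (cr (R (ua a)) f - f)) =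
      12 * II (f * f) - 2 * II (TT R f * f) := by
  have h1 : ∀ a : Fin 6, II ((cr (R (ua a)) f - f) * (cr (R (ua a)) f - f)) =
      2 * II (f * f) - 2 * II (cr (R (ua a)) f * f) := by
    intro a
    have e : (cr (R (ua a)) f - f) * (cr (R (ua a)) f - f) =
        cr (R (ua a)) (f * f) + f * f - (2 : ℝ) • (cr (R (ua a)) f * f) := by
      ext x
      show (f (rot (R (ua a)) x) - f x) * (f (rot (R (ua a)) x) - f x) =
        f (rot (R (ua a)) x) * f (rot (R (ua a)) x) + f x * f x -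
          (2 : ℝ) * (f (rot (R (ua a)) x) * f x)
      ring
    rw [e, map_sub, map_add, II_rot, map_smul, smul_eq_mul]
    ring
  have h2 : II (TT R f * f) = ∑ a : Fin 6, II (cr (R (ua a)) f * f) := by
    rw [TT_eq, Finset.sum_mul, map_sum]
  rw [Finset.sum_congr rfl (fun a _ => h1 a), Finset.sum_sub_distrib, h2, Finset.mul_sum,
    Finset.sum_const, Finset.card_univ, Fintype.card_fin, nsmul_eq_mul]
  push_cast
  ring

lemma TT_le (R : ℍ[ℝ]ˣ →* Iso 3) (f : C(S 3, ℝ)) : II (TT R f * f) ≤ 6 * II (f * f) := by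
  have h1 := key_id R f
  have h2 : 0 ≤ ∑ a : Fin 6, II ((cr (R (ua a)) f - f) * (cr (R (ua a)) f - f)) :=
    Finset.sum_nonneg (fun a _ => II_nonneg _)
  linarith

lemma TT_eq_six (R : ℍ[ℝ]ˣ →* Iso 3) (hR : ∀ (q : ℍ[ℝ]ˣ) (x : E 3),
    imq (R q x) = (q : ℍ[ℝ]) * imq x * ((q⁻¹ : ℍ[ℝ]ˣ) : ℍ[ℝ])) (f : C(S 3, ℝ))
    (h6 : II (TT R f * f) = 6 * II (f * f)) (h0 : II f = 0) : f = 0 := by
  have h1 := key_id R f
  rw [h6] at h1
  have h2 : ∑ a : Fin 6, II ((cr (R (ua a)) f - f) * (cr (R (ua a)) f - f)) = 0 := by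
    rw [h1]; ring
  rw [Finset.sum_eq_zero_iff_of_nonneg (fun a _ => II_nonneg _)] at h2
  have h3 : ∀ a : Fin 6, cr (R (ua a)) f = f := by
    intro a
    by_contra h
    have := II_pos _ (sub_ne_zero.mpr h)
    rw [h2 a (Finset.mem_univ a)] at this
    exact lt_irrefl _ this
  have h4 : ∀ x y : S 3, f x = f y := ergodic3 R hR f (fun a x => by
    have := congrArg (fun F : C(S 3, ℝ) => F x) (h3 a)
    exact this)
  ext x
  have h5 : f = ContinuousMap.const _ (f x) := by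
    ext y
    exact h4 y x
  have h7 := h0
  rw [h5, II_const] at h7
  simpa using h7

lemma topV (T : C(S 3, ℝ) →ₗ[ℝ] C(S 3, ℝ)) (hT : ∀ f h, II (T f * h) = II (f * T h))
    (V : Submodule ℝ C(S 3, ℝ)) (hfd : FiniteDimensional ℝ V) (hV : V ≠ ⊥)
    (hTV : ∀ f ∈ V, T f ∈ V) :
    ∃ v ∈ V, v ≠ 0 ∧ ∃ lm : ℝ, T v = lm • v ∧ ∀ w ∈ V, II (T w * w) ≤ lm * II (w * w) := by
  haveI : Nontrivial V := Submodule.nontrivial_iff_ne_bot.mpr hV
  let B0 : C(S 3, ℝ) →ₗ[ℝ] C(S 3, ℝ) →ₗ[ℝ] ℝ := (LinearMap.mul ℝ C(S 3, ℝ)).compr₂ II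
  have hB0 : ∀ f h, B0 f h = II (f * h) := fun f h => rfl
  let B : V →ₗ[ℝ] V →ₗ[ℝ] ℝ := B0.compl₁₂ V.subtype V.subtype
  have hB : ∀ f h : V, B f h = II ((f : C(S 3, ℝ)) * (h : C(S 3, ℝ))) := fun f h => rfl
  obtain ⟨v, hv, lm, h1, h2⟩ := top_eig B (fun x y => by rw [hB, hB, mul_comm])
    (fun x hx => by
      rw [hB]
      apply II_pos
      simpa using hx) (T.restrict hTV) (fun x y => by
      rw [hB, hB]
      exact hT _ _)
  refine ⟨v, v.2, by simpa using hv, lm, ?_, ?_⟩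
  · have := congrArg Subtype.val h1
    simpa using this
  · intro w hw
    have := h2 ⟨w, hw⟩
    rw [hB, hB] at this
    exact this


theorem gap3 : SG 3 := by
  classical
  haveI := sg_prob 3 (by norm_num)
  obtain ⟨R, hR⟩ := exists_RQ
  obtain ⟨l₀, N₀, hl₀, hN₀, hlow⟩ := eig_low R hR
  -- stable spaces
  have hstab : ∀ N : ℕ, 1 ≤ N → ∃ (L : C(S 3, ℝ) →ₗ[ℝ] C(S 3, ℝ)) (V : Submodule ℝ C(S 3, ℝ)),
      (∀ ψ x, L ψ x = MN N ψ x) ∧ FiniteDimensional ℝ V ∧ (∀ f, L (TT R f) = TT R (L f)) ∧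
      (∀ f ∈ V, TT R f ∈ V) ∧ (∀ f ∈ V, II f = 0) ∧ (∀ f, II f = 0 → L f ∈ V) := by
    intro N hN
    obtain ⟨L, hL1, hL2, hL3, hL4⟩ := MN_facts N hN
    have hc : ∀ f, L (TT R f) = TT R (L f) := by
      intro f
      rw [TT_eq, TT_eq, map_sum]
      exact Finset.sum_congr rfl (fun a _ => hL3 _ _)
    refine ⟨L, LinearMap.range L ⊓ LinearMap.ker II, hL1, ?_, hc, ?_, ?_, ?_⟩
    · haveI := hL2
      exact Submodule.finiteDimensional_inf_left _ _
    · rintro f ⟨⟨f', rfl⟩, hf⟩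
      refine ⟨⟨TT R f', hc f'⟩, ?_⟩
      have h1 : II (L f') = 0 := hf
      show II (TT R (L f')) = 0
      rw [TT_eq, map_sum]
      exact Finset.sum_eq_zero (fun a _ => by rw [II_rot, h1])
    · rintro f ⟨_, hf⟩
      exact hf
    · intro f hf
      refine ⟨⟨f, rfl⟩, ?_⟩
      show II (L f) = 0
      rw [II_apply, hL4 f]
      exact hf
  -- the bound on the spaces
  obtain ⟨l₁, hl₁, hbound⟩ : ∃ l₁ : ℝ, l₁ < 6 ∧ ∀ N : ℕ, 1 ≤ N → ∀ (V : Submodule ℝ C(S 3, ℝ)),
      FiniteDimensional ℝ V → (∀ f ∈ V, TT R f ∈ V) → (∀ f ∈ V, II f = 0) →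
      ∀ f ∈ V, II (TT R f * f) ≤ l₁ * II (f * f) := by
    obtain ⟨L₀, V₀, hL₀, hfd₀, hcom₀, hTV₀, hZ₀, hLV₀⟩ := hstab N₀ hN₀
    -- common step
    have hstep : ∀ (l₁ : ℝ), l₀ ≤ l₁ → (∀ φ ∈ V₀, φ ≠ 0 → ∀ lm : ℝ, TT R φ = lm • φ → lm ≤ l₁) →
        ∀ (V : Submodule ℝ C(S 3, ℝ)),
        FiniteDimensional ℝ V → (∀ f ∈ V, TT R f ∈ V) → (∀ f ∈ V, II f = 0) →
        ∀ f ∈ V, II (TT R f * f) ≤ l₁ * II (f * f) := by
      intro l₁ hl hφ V hfd hTV hZ f hf
      by_cases hV : V = ⊥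
      · subst hV
        have : f = 0 := by simpa using hf
        subst this
        simp
      obtain ⟨v, hv, hv0, lm, hlm, htop⟩ := topV (TT R) (TT_sym R hR) V hfd hV hTV
      have hlm1 : lm ≤ l₁ := by
        by_contra hcon
        push Not at hcon
        have hvp := II_pos v hv0
        have hlm6 : lm ≤ 6 := by
          have h1 := TT_le R v
          rw [hlm, smul_mul_assoc, map_smul, smul_eq_mul] at h1
          exact le_of_mul_le_mul_right h1 hvp
        -- normalise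
        set s := (Real.sqrt (II (v * v)))⁻¹ with hs
        have hsp : 0 < Real.sqrt (II (v * v)) := Real.sqrt_pos.mpr hvp
        have hs2 : s * s * II (v * v) = 1 := by
          have h2 : Real.sqrt (II (v * v)) * Real.sqrt (II (v * v)) = II (v * v) :=
            Real.mul_self_sqrt hvp.le
          rw [hs]
          nth_rewrite 3 [← h2]
          field_simp
        set w := s • v with hw
        have hww : II (w * w) = 1 := by
          rw [hw, smul_mul_smul_comm, map_smul, smul_eq_mul]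
          exact hs2
        have hTw : TT R w = lm • w := by
          rw [hw, map_smul, hlm, smul_comm]
        have hw0 : II w = 0 := by
          rw [hw, map_smul, hZ v hv, smul_zero]
        have h1 := hlow w lm (fun x => by
          rw [← TT_apply, hTw]
          rfl) (by
          rw [← hww, II_apply]
          refine integral_congr_ae (Filter.Eventually.of_forall (fun x => ?_))
          show w x ^ 2 = w x * w x
          ring) (hl.trans hcon.le) hlm6
        have h2 : ∫ x, ∫ y, kk N₀ x y * w x * w y ∂(sg 3) ∂(sg 3) = II (w * L₀ w) := by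
          rw [II_apply]
          refine integral_congr_ae (Filter.Eventually.of_forall (fun x => ?_))
          show ∫ y, kk N₀ x y * w x * w y ∂(sg 3) = w x * L₀ w x
          rw [hL₀, MN, ← integral_const_mul]
          refine integral_congr_ae (Filter.Eventually.of_forall (fun y => ?_))
          show kk N₀ x y * w x * w y = w x * (kk N₀ x y * w y)
          ring
        rw [h2] at h1
        have hne : L₀ w ≠ 0 := by
          intro h
          rw [h, mul_zero, map_zero] at h1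
          norm_num at h1
        have h3 := hφ (L₀ w) (hLV₀ w hw0) hne lm (by rw [← hcom₀, hTw, map_smul])
        linarith
      have hf2 := htop f hf
      exact hf2.trans (mul_le_mul_of_nonneg_right hlm1 (II_nonneg f))
    by_cases hV₀ : V₀ = ⊥
    · refine ⟨l₀, hl₀, fun N hN V => hstep l₀ le_rfl ?_ V⟩
      intro φ hφ hφ0
      exfalso
      apply hφ0
      rw [hV₀] at hφ
      simpa using hφ
    · obtain ⟨v, hv, hv0, ls, hls, htop⟩ := topV (TT R) (TT_sym R hR) V₀ hfd₀ hV₀ hTV₀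
      have hvp := II_pos v hv0
      have h1 : II (TT R v * v) = ls * II (v * v) := by
        rw [hls, smul_mul_assoc, map_smul, smul_eq_mul]
      have hls6 : ls < 6 := by
        have hle : ls ≤ 6 := by
          have h2 := TT_le R v
          rw [h1] at h2
          exact le_of_mul_le_mul_right h2 hvp
        rcases hle.lt_or_eq with h | h
        · exact h
        · exfalso
          apply hv0
          rw [h] at h1
          exact TT_eq_six R hR v h1 (hZ₀ v hv)
      refine ⟨max l₀ ls, max_lt hl₀ hls6, fun N hN V => hstep _ (le_max_left _ _) ?_ V⟩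
      intro φ hφ hφ0 lm hlm
      have h2 := htop φ hφ
      rw [hlm, smul_mul_assoc, map_smul, smul_eq_mul] at h2
      exact (le_of_mul_le_mul_right h2 (II_pos φ hφ0)).trans (le_max_right _ _)
  -- zero mean functions
  have hzero : ∀ ψ : C(S 3, ℝ), II ψ = 0 → II (TT R ψ * ψ) ≤ l₁ * II (ψ * ψ) := by
    intro ψ hψ
    have hch : ∀ N : ℕ, 1 ≤ N → ∃ f : C(S 3, ℝ), (∀ x, f x = MN N ψ x) ∧
        II (TT R f * f) ≤ l₁ * II (f * f) := by
      intro N hN
      obtain ⟨L, V, hL, hfd, hcom, hTV, hZ, hLV⟩ := hstab N hN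
      exact ⟨L ψ, hL ψ, hbound N hN V hfd hTV hZ (L ψ) (hLV ψ hψ)⟩
    choose! f hf1 hf2 using hch
    have hlim : Filter.Tendsto f Filter.atTop (nhds ψ) := by
      rw [Metric.tendsto_atTop]
      intro ε hε
      obtain ⟨N₁, hN₁, h1⟩ := MN_tendsto ψ (ε / 2) (by positivity)
      refine ⟨N₁, fun N hN => ?_⟩
      have h2 : dist (f N) ψ ≤ ε / 2 := by
        rw [ContinuousMap.dist_le (by positivity)]
        intro x
        rw [Real.dist_eq, hf1 N (hN₁.trans hN)]
        exact h1 N hN x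
      linarith
    have hc : Continuous (fun f : C(S 3, ℝ) => l₁ * II (f * f) - II (TT R f * f)) := by
      have h1 : Continuous (fun f : C(S 3, ℝ) => II (f * f)) :=
        II_cont.comp (continuous_id.mul continuous_id)
      have h2 : Continuous (fun f : C(S 3, ℝ) => II (TT R f * f)) :=
        II_cont.comp ((TT_cont R).mul continuous_id)
      exact (continuous_const.mul h1).sub h2
    have hl := (hc.tendsto ψ).comp hlim
    have h0 : 0 ≤ l₁ * II (ψ * ψ) - II (TT R ψ * ψ) := by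
      refine ge_of_tendsto hl ?_
      filter_upwards [Filter.eventually_ge_atTop 1] with N hN
      have := hf2 N hN
      simp only [Function.comp]
      linarith
    linarith
  -- conclusion
  refine ⟨6, fun a => R (ua a), 2 * (6 - l₁), by linarith, ?_⟩
  intro ψ
  set c := II ψ with hcdef
  set ψ₀ := ψ - ContinuousMap.const _ c with hψ₀
  have hψ0 : II ψ₀ = 0 := by
    rw [hψ₀, map_sub, II_const, hcdef, sub_self]
  have h1 := hzero ψ₀ hψ0
  have h2 := key_id R ψ₀
  have h3 : II (ψ₀ * ψ₀) = II (ψ * ψ) - c ^ 2 := by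
    have e : ψ₀ * ψ₀ = ψ * ψ - (2 * c) • ψ + ContinuousMap.const _ (c ^ 2) := by
      ext x
      show (ψ x - c) * (ψ x - c) = ψ x * ψ x - (2 * c) * ψ x + c ^ 2
      ring
    rw [e, map_add, map_sub, map_smul, II_const, smul_eq_mul, ← hcdef]
    ring
  have h4 : ∀ a : Fin 6, II ((cr (R (ua a)) ψ₀ - ψ₀) * (cr (R (ua a)) ψ₀ - ψ₀)) =
      ∫ x, (ψ (rot (R (ua a)) x) - ψ x) ^ 2 ∂(sg 3) := by
    intro a
    rw [II_apply]
    refine integral_congr_ae (Filter.Eventually.of_forall (fun x => ?_))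
    show ((ψ (rot (R (ua a)) x) - c) - (ψ x - c)) * ((ψ (rot (R (ua a)) x) - c) - (ψ x - c)) =
      (ψ (rot (R (ua a)) x) - ψ x) ^ 2
    ring
  have h5 : ∫ x, ψ x ^ 2 ∂(sg 3) = II (ψ * ψ) := by
    rw [II_apply]
    refine integral_congr_ae (Filter.Eventually.of_forall (fun x => ?_))
    show ψ x ^ 2 = ψ x * ψ x
    ring
  have h6 : ∫ x, ψ x ∂(sg 3) = c := rfl
  rw [h5, h6, ← Finset.sum_congr rfl (fun a _ => h4 a), h2, ← h3]
  nlinarith [h1]


end Pool.Agent.Helper557.Rz
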