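import Pool.Agent.Helper557.Rz.Base
import Pool.Agent.Helper557.Rz.FADefs

set_option autoImplicit false

open MeasureTheory Set

namespace Pool.Agent.Helper557.Rz

theorem rho_sum (w : ℕ → ℝ) (h0 : ∀ k, 0 ≤ w k) (h1 : ∀ k, w k ≤ 1) (n : ℕ) :
    ∑ k ∈ Finset.range n, w k * ∏ j ∈ Finset.range k, (1 - w j) =
      1 - ∏ j ∈ Finset.range n, (1 - w j) := by
  induction n with
  | zero => simp
  | succ n ih =>
    rw [Finset.sum_range_succ, ih, Finset.prod_range_succ]
    ring

theorem rho_diff (w w' δ : ℕ → ℝ) (h0 : ∀ k, 0 ≤ w k) (h1 : ∀ k, w k ≤ 1)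
    (h0' : ∀ k, 0 ≤ w' k) (h1' : ∀ k, w' k ≤ 1) (hd : ∀ k, |w k - w' k| ≤ δ k) (n : ℕ) :
    ∑ k ∈ Finset.range n, |w k * ∏ j ∈ Finset.range k, (1 - w j) -
      w' k * ∏ j ∈ Finset.range k, (1 - w' j)| ≤ 2 * ∑ k ∈ Finset.range n, δ k := by
  have hp0 : ∀ k, 0 ≤ ∏ j ∈ Finset.range k, (1 - w j) := fun k =>
    Finset.prod_nonneg fun j _ => sub_nonneg.2 (h1 j)
  have hp1 : ∀ k, ∏ j ∈ Finset.range k, (1 - w j) ≤ 1 := fun k =>
    Finset.prod_le_one (fun j _ => sub_nonneg.2 (h1 j)) (fun j _ => by linarith [h0 j])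
  have key : ∀ n : ℕ, ∑ k ∈ Finset.range n, |w k * ∏ j ∈ Finset.range k, (1 - w j) -
      w' k * ∏ j ∈ Finset.range k, (1 - w' j)| +
      |∏ j ∈ Finset.range n, (1 - w j) - ∏ j ∈ Finset.range n, (1 - w' j)| ≤ 2 * ∑ k ∈ Finset.range n, δ k := by
    intro n
    induction n with
    | zero => simp
    | succ n ih =>
      rw [Finset.sum_range_succ, Finset.sum_range_succ, Finset.prod_range_succ, Finset.prod_range_succ]
      have hn0 := hp0 n
      have hn1 := hp1 n
      set a := ∏ j ∈ Finset.range n, (1 - w j)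
      set b := ∏ j ∈ Finset.range n, (1 - w' j)
      have e1 : |w n * a - w' n * b| ≤ δ n + w' n * |a - b| := by
        have : w n * a - w' n * b = (w n - w' n) * a + w' n * (a - b) := by ring
        rw [this]
        refine (abs_add_le _ _).trans ?_
        rw [abs_mul, abs_mul, abs_of_nonneg hn0, abs_of_nonneg (h0' n)]
        have := mul_le_mul (hd n) hn1 hn0 ((abs_nonneg _).trans (hd n))
        linarith
      have e2 : |a * (1 - w n) - b * (1 - w' n)| ≤ |a - b| * (1 - w' n) + δ n := by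
        have : a * (1 - w n) - b * (1 - w' n) = (a - b) * (1 - w' n) + -((w n - w' n) * a) := by ring
        rw [this]
        refine (abs_add_le _ _).trans ?_
        rw [abs_neg, abs_mul, abs_mul, abs_of_nonneg hn0, abs_of_nonneg (sub_nonneg.2 (h1' n))]
        have := mul_le_mul (hd n) hn1 hn0 ((abs_nonneg _).trans (hd n))
        linarith
      linarith
  have := key n
  have h2 := abs_nonneg (∏ j ∈ Finset.range n, (1 - w j) - ∏ j ∈ Finset.range n, (1 - w' j))
  linarith


end Pool.Agent.Helper557.Rz
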