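import Pool.Agent.Helper557.Rz.Base
import Pool.Agent.Helper557.Rz.FADefs
import Pool.Agent.Helper557.Rz.M_exh
import Pool.Agent.Helper557.Rz.M_faflow
import Pool.Agent.Helper557.Rz.M_meas
import Pool.Agent.Helper557.Rz.M_rho

set_option autoImplicit false

open MeasureTheory Set

namespace Pool.Agent.Helper557.Rz
/-- one thickening step -/
def gstep8881 {d k : ℕ} (g : Fin k → Iso d) (A : Set (S d)) : Set (S d) :=
  A ∪ ⋃ i, (rot (g i)⁻¹ ⁻¹' A ∪ rot (g i) ⁻¹' A)

/-- iterated thickening -/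
def gT8881 {d k : ℕ} (g : Fin k → Iso d) (P : Set (S d)) : ℕ → Set (S d)
  | 0 => P
  | r + 1 => gstep8881 g (gT8881 g P r)

theorem gT_closed8881 {d k : ℕ} (g : Fin k → Iso d) (P : Set (S d)) (hP : IsClosed P) (r : ℕ) :
    IsClosed (gT8881 g P r) := by
  induction r with
  | zero => exact hP
  | succ r ih =>
    refine ih.union (isClosed_iUnion_of_finite (fun i => ?_))
    exact (ih.preimage (rot_continuous _)).union (ih.preimage (rot_continuous _))

theorem gT_meas8881 {d k : ℕ} (hd : 1 ≤ d) (g : Fin k → Iso d) (P : Set (S d)) (hP : IsClosed P)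
    (r : ℕ) : sg d (gT8881 g P r) ≤ ((1 + 2 * k : ℕ) : ENNReal) ^ r * sg d P := by
  induction r with
  | zero => simp [gT8881]
  | succ r ih =>
    have hA : MeasurableSet (gT8881 g P r) := (gT_closed8881 g P hP r).measurableSet
    calc sg d (gT8881 g P (r + 1))
        ≤ sg d (gT8881 g P r) + sg d (⋃ i, (rot (g i)⁻¹ ⁻¹' (gT8881 g P r) ∪
            rot (g i) ⁻¹' (gT8881 g P r))) := measure_union_le _ _
      _ ≤ sg d (gT8881 g P r) + ∑ i, sg d (rot (g i)⁻¹ ⁻¹' (gT8881 g P r) ∪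
            rot (g i) ⁻¹' (gT8881 g P r)) := by
          gcongr
          exact measure_iUnion_fintype_le _ _
      _ ≤ sg d (gT8881 g P r) + ∑ _i : Fin k, (sg d (gT8881 g P r) + sg d (gT8881 g P r)) := by
          gcongr with i
          refine (measure_union_le _ _).trans ?_
          rw [(rot_mp d hd (g i)⁻¹).measure_preimage hA.nullMeasurableSet,
            (rot_mp d hd (g i)).measure_preimage hA.nullMeasurableSet]
      _ = ((1 + 2 * k : ℕ) : ENNReal) * sg d (gT8881 g P r) := by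
          rw [Finset.sum_const, Finset.card_univ, Fintype.card_fin, nsmul_eq_mul]
          push_cast
          ring
      _ ≤ ((1 + 2 * k : ℕ) : ENNReal) * (((1 + 2 * k : ℕ) : ENNReal) ^ r * sg d P) := by gcongr
      _ = ((1 + 2 * k : ℕ) : ENNReal) ^ (r + 1) * sg d P := by ring

theorem gT_mono8881 {d k : ℕ} (g : Fin k → Iso d) (P : Set (S d)) {r s : ℕ} (h : r ≤ s) :
    gT8881 g P r ⊆ gT8881 g P s := by
  induction h with
  | refl => exact le_rfl
  | step h ih => exact ih.trans subset_union_left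

theorem gT_fwd8881 {d k : ℕ} (g : Fin k → Iso d) (P : Set (S d)) (r : ℕ) (i : Fin k) (x : S d)
    (h : x ∈ gT8881 g P r) : rot (g i) x ∈ gT8881 g P (r + 1) := by
  refine Or.inr (mem_iUnion.2 ⟨i, Or.inl ?_⟩)
  rw [mem_preimage, rot_inv_rot]
  exact h

theorem gT_bwd8881 {d k : ℕ} (g : Fin k → Iso d) (P : Set (S d)) (r : ℕ) (i : Fin k) (x : S d)
    (h : rot (g i) x ∈ gT8881 g P r) : x ∈ gT8881 g P (r + 1) :=
  Or.inr (mem_iUnion.2 ⟨i, Or.inr h⟩)

/-- the weight -/
noncomputable def gw8881 {d k : ℕ} (g : Fin k → Iso d) (P : Set (S d)) (N : ℕ) (x : S d) : ℝ :=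
  (1 / (N : ℝ)) * ∑ r ∈ Finset.range N, (gT8881 g P r).indicator (fun _ => (1 : ℝ)) x

theorem ind01_8881 {X : Type*} (A : Set X) (x : X) :
    0 ≤ A.indicator (fun _ => (1 : ℝ)) x ∧ A.indicator (fun _ => (1 : ℝ)) x ≤ 1 := by
  by_cases h : x ∈ A
  · rw [indicator_of_mem h]; norm_num
  · rw [indicator_of_notMem h]; norm_num

theorem gw_nonneg8881 {d k : ℕ} (g : Fin k → Iso d) (P : Set (S d)) (N : ℕ) (x : S d) :
    0 ≤ gw8881 g P N x :=
  mul_nonneg (by positivity) (Finset.sum_nonneg (fun r _ => (ind01_8881 _ _).1))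

theorem gw_le8881 {d k : ℕ} (g : Fin k → Iso d) (P : Set (S d)) (N : ℕ) (hN : 1 ≤ N) (x : S d) :
    gw8881 g P N x ≤ 1 := by
  have hN' : (0 : ℝ) < N := by exact_mod_cast hN
  have h : ∑ r ∈ Finset.range N, (gT8881 g P r).indicator (fun _ => (1 : ℝ)) x ≤ N := by
    calc _ ≤ ∑ r ∈ Finset.range N, (1 : ℝ) := Finset.sum_le_sum (fun r _ => (ind01_8881 _ _).2)
      _ = N := by simp
  unfold gw8881
  rw [one_div, inv_mul_le_iff₀ hN', mul_one]
  exact h

theorem gw_eq_one8881 {d k : ℕ} (g : Fin k → Iso d) (P : Set (S d)) (N : ℕ) (hN : 1 ≤ N) (x : S d)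
    (hx : x ∈ P) : gw8881 g P N x = 1 := by
  have hN' : (0 : ℝ) < N := by exact_mod_cast hN
  have h : ∑ r ∈ Finset.range N, (gT8881 g P r).indicator (fun _ => (1 : ℝ)) x = N := by
    calc _ = ∑ r ∈ Finset.range N, (1 : ℝ) := Finset.sum_congr rfl (fun r _ => by
          rw [indicator_of_mem]
          exact gT_mono8881 g P (Nat.zero_le r) hx)
      _ = N := by simp
  unfold gw8881
  rw [h, one_div, inv_mul_cancel₀ hN'.ne']

theorem gw_meas8881 {d k : ℕ} (g : Fin k → Iso d) (P : Set (S d)) (hP : IsClosed P) (N : ℕ) :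
    Measurable (gw8881 g P N) := by
  refine Measurable.const_mul ?_ _
  refine Finset.measurable_sum _ (fun r _ => ?_)
  exact measurable_const.indicator (gT_closed8881 g P hP r).measurableSet

theorem gw_ne8881 {d k : ℕ} (g : Fin k → Iso d) (P : Set (S d)) (N : ℕ) (x : S d)
    (hx : gw8881 g P N x ≠ 0) : x ∈ gT8881 g P N := by
  by_contra hcon
  apply hx
  unfold gw8881
  rw [Finset.sum_eq_zero, mul_zero]
  intro r hr
  rw [indicator_of_notMem]
  intro h
  exact hcon (gT_mono8881 g P (Finset.mem_range.1 hr).le h)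

theorem sum_shift8881 (a b : ℕ → ℝ) (ha : ∀ r, 0 ≤ a r ∧ a r ≤ 1) (hab : ∀ r, b r ≤ a (r + 1))
    (N : ℕ) : ∑ r ∈ Finset.range N, b r ≤ ∑ r ∈ Finset.range N, a r + 1 := by
  have h1 : ∑ r ∈ Finset.range N, b r ≤ ∑ r ∈ Finset.range N, a (r + 1) :=
    Finset.sum_le_sum (fun r _ => hab r)
  have h2 : ∑ r ∈ Finset.range N, a (r + 1) + a 0 = ∑ r ∈ Finset.range N, a r + a N := by
    rw [← Finset.sum_range_succ', Finset.sum_range_succ]
  have := (ha 0).1
  have := (ha N).2
  linarith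

theorem gw_lip8881 {d k : ℕ} (g : Fin k → Iso d) (P : Set (S d)) (N : ℕ) (hN : 1 ≤ N) (i : Fin k)
    (x : S d) : |gw8881 g P N (rot (g i) x) - gw8881 g P N x| ≤ 1 / N := by
  have hN' : (0 : ℝ) < N := by exact_mod_cast hN
  unfold gw8881
  rw [← mul_sub, abs_mul, abs_of_pos (by positivity)]
  have key : |∑ r ∈ Finset.range N, (gT8881 g P r).indicator (fun _ => (1 : ℝ)) (rot (g i) x) -
      ∑ r ∈ Finset.range N, (gT8881 g P r).indicator (fun _ => (1 : ℝ)) x| ≤ 1 := by
    have h1 := sum_shift8881 (fun r => (gT8881 g P r).indicator (fun _ => (1 : ℝ)) x)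
      (fun r => (gT8881 g P r).indicator (fun _ => (1 : ℝ)) (rot (g i) x))
      (fun r => ind01_8881 _ _) (fun r => by
        by_cases h : rot (g i) x ∈ gT8881 g P r
        · rw [indicator_of_mem h, indicator_of_mem (gT_bwd8881 g P r i x h)]
        · rw [indicator_of_notMem h]; exact (ind01_8881 _ _).1) N
    have h2 := sum_shift8881 (fun r => (gT8881 g P r).indicator (fun _ => (1 : ℝ)) (rot (g i) x))
      (fun r => (gT8881 g P r).indicator (fun _ => (1 : ℝ)) x)
      (fun r => ind01_8881 _ _) (fun r => by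
        by_cases h : x ∈ gT8881 g P r
        · rw [indicator_of_mem h, indicator_of_mem (gT_fwd8881 g P r i x h)]
        · rw [indicator_of_notMem h]; exact (ind01_8881 _ _).1) N
    simp only at h1 h2
    rw [abs_le]
    constructor <;> linarith
  calc 1 / (N : ℝ) * _ ≤ 1 / N * 1 := by gcongr
    _ = 1 / N := mul_one _

theorem half_sum8881 (M : ℕ) : ∑ n ∈ Finset.range M, (1 / 2 : ℝ) ^ (n + 1) ≤ 1 := by
  have : ∑ n ∈ Finset.range M, (1 / 2 : ℝ) ^ (n + 1) = 1 - (1 / 2) ^ M := by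
    induction M with
    | zero => simp
    | succ M ih => rw [Finset.sum_range_succ, ih]; ring
  rw [this]
  have : (0 : ℝ) ≤ (1 / 2) ^ M := by positivity
  linarith

theorem exists_N8881 (D ε : ℝ) (hD : 0 ≤ D) (hε : 0 < ε) :
    ∃ N : ℕ → ℕ, (∀ n, 1 ≤ N n) ∧ ∀ M, D * ∑ n ∈ Finset.range M, 1 / (N n : ℝ) ≤ ε := by
  refine ⟨fun n => ⌈2 ^ (n + 1) * (D + 1) / ε⌉₊ + 1, fun n => Nat.le_add_left _ _, fun M => ?_⟩
  have h1 : ∀ n, 1 / ((⌈2 ^ (n + 1) * (D + 1) / ε⌉₊ + 1 : ℕ) : ℝ) ≤ ε / (D + 1) * (1 / 2) ^ (n + 1) := by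
    intro n
    have h2 : 2 ^ (n + 1) * (D + 1) / ε ≤ ((⌈2 ^ (n + 1) * (D + 1) / ε⌉₊ + 1 : ℕ) : ℝ) := by
      push_cast
      linarith [Nat.le_ceil (2 ^ (n + 1) * (D + 1) / ε)]
    have h3 : 0 < 2 ^ (n + 1) * (D + 1) / ε := by positivity
    calc 1 / ((⌈2 ^ (n + 1) * (D + 1) / ε⌉₊ + 1 : ℕ) : ℝ) ≤ 1 / (2 ^ (n + 1) * (D + 1) / ε) :=
          one_div_le_one_div_of_le h3 h2
      _ = ε / (D + 1) * (1 / 2) ^ (n + 1) := by
          rw [one_div_pow]
          field_simp
  calc D * ∑ n ∈ Finset.range M, 1 / ((⌈2 ^ (n + 1) * (D + 1) / ε⌉₊ + 1 : ℕ) : ℝ)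
      ≤ D * ∑ n ∈ Finset.range M, ε / (D + 1) * (1 / 2) ^ (n + 1) := by
        gcongr with n _
        exact h1 n
    _ = D * (ε / (D + 1)) * ∑ n ∈ Finset.range M, (1 / 2 : ℝ) ^ (n + 1) := by
        rw [← Finset.mul_sum]; ring
    _ ≤ D * (ε / (D + 1)) * 1 := by
        gcongr
        exact half_sum8881 M
    _ ≤ ε := by
        rw [mul_one, mul_div_assoc', div_le_iff₀ (by positivity)]
        nlinarith


theorem glue (d : ℕ) (hd : 1 ≤ d) (k : ℕ) (g : Fin k → Iso d) (C : ℝ) (hC : 0 < C)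
    (hf : Flow d k g C) (m : Set (S d) → ℝ) (hm : IsFA d m) (ε : ℝ) (hε : 0 < ε) :
    ∃ η : ℝ, 0 < η ∧ ∀ U : Set (S d), IsOpen U → sg d U ≤ ENNReal.ofReal η → m U ≤ ε := by
  obtain ⟨N, hN1, hNs⟩ := exists_N8881 (2 * k * C) ε (by positivity) hε
  let q : ℝ := 1 + 2 * k
  have hq : 1 ≤ q := by
    show (1 : ℝ) ≤ 1 + 2 * k
    have : (0 : ℝ) ≤ k := Nat.cast_nonneg k
    linarith
  have hq0 : 0 < q := by linarith
  let η : ℕ → ℝ := fun n => (1 / 8) / q ^ (N n)
  have hη : ∀ n, 0 < η n := fun n => by positivity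
  refine ⟨η 0, hη 0, fun U hU hsU => ?_⟩
  have hprob := sg_prob d hd
  obtain ⟨P, hPc, hPm, hPU⟩ := exhaust d (sg d) U hU η hη hsU
  have hKm : ∀ n, sg d (gT8881 g (P n) (N n)) ≤ ENNReal.ofReal (1 / 8) := by
    intro n
    refine (gT_meas8881 hd g (P n) (hPc n) (N n)).trans ?_
    have e1 : ((1 + 2 * k : ℕ) : ENNReal) ^ (N n) = ENNReal.ofReal (q ^ (N n)) := by
      rw [ENNReal.ofReal_pow hq0.le]
      congr 1
      rw [← ENNReal.ofReal_natCast]
      congr 1
      push_cast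
      rfl
    calc ((1 + 2 * k : ℕ) : ENNReal) ^ (N n) * sg d (P n)
        ≤ ENNReal.ofReal (q ^ (N n)) * ENNReal.ofReal (η n) := by
          rw [e1]
          gcongr
          exact hPm n
      _ = ENNReal.ofReal (1 / 8) := by
          rw [← ENNReal.ofReal_mul (by positivity)]
          congr 1
          show q ^ N n * ((1 / 8) / q ^ N n) = 1 / 8
          field_simp
  choose f hfC hfK using fun n => hf (gT8881 g (P n) (N n)) (gT_closed8881 g (P n) (hPc n) (N n)) (hKm n)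
  let w : ℕ → S d → ℝ := fun n x => gw8881 g (P n) (N n) x
  have hw0 : ∀ x n, 0 ≤ w n x := fun x n => gw_nonneg8881 _ _ _ _
  have hw1 : ∀ x n, w n x ≤ 1 := fun x n => gw_le8881 _ _ _ (hN1 n) _
  let ρ : ℕ → S d → ℝ := fun n x => w n x * ∏ j ∈ Finset.range n, (1 - w j x)
  have hρ0 : ∀ n x, 0 ≤ ρ n x := fun n x =>
    mul_nonneg (hw0 x n) (Finset.prod_nonneg (fun j _ => sub_nonneg.2 (hw1 x j)))
  have hρs : ∀ x M, ∑ n ∈ Finset.range M, ρ n x = 1 - ∏ j ∈ Finset.range M, (1 - w j x) :=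
    fun x M => rho_sum (fun n => w n x) (hw0 x) (hw1 x) M
  have hρ1 : ∀ x M, ∑ n ∈ Finset.range M, ρ n x ≤ 1 := by
    intro x M
    rw [hρs]
    have : 0 ≤ ∏ j ∈ Finset.range M, (1 - w j x) :=
      Finset.prod_nonneg (fun j _ => sub_nonneg.2 (hw1 x j))
    linarith
  have hρsum : ∀ x, Summable (fun n => ρ n x) := fun x =>
    summable_of_sum_range_le (fun n => hρ0 n x) (hρ1 x)
  have habs : ∀ i x n, |ρ n x * f n i x| ≤ C * ρ n x := by
    intro i x n
    rw [abs_mul, abs_of_nonneg (hρ0 n x), mul_comm]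
    exact mul_le_mul_of_nonneg_right (hfC n i x) (hρ0 n x)
  have hsum : ∀ i x, Summable (fun n => ρ n x * f n i x) := fun i x =>
    Summable.of_norm_bounded ((hρsum x).mul_left C) (fun n => by
      rw [Real.norm_eq_abs]; exact habs i x n)
  let F : Fin k → S d → ℝ := fun i x => ∑' n, ρ n x * f n i x
  have htend : ∀ i x, Filter.Tendsto (fun M => ∑ n ∈ Finset.range M, ρ n x * f n i x) Filter.atTop
      (nhds (F i x)) := fun i x => (hsum i x).hasSum.tendsto_sum_nat
  have hρm : ∀ n, Measurable (ρ n) := by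
    intro n
    have hwm : ∀ j, Measurable (w j) := fun j => gw_meas8881 g (P j) (hPc j) (N j)
    refine (hwm n).mul ?_
    refine Finset.measurable_prod _ (fun j _ => ?_)
    exact measurable_const.sub (hwm j)
  have hFm : ∀ i, Measurable (F i) := by
    intro i
    refine measurable_of_tendsto_metrizable (f := fun M x => ∑ n ∈ Finset.range M, ρ n x * f n i x)
      (fun M => ?_) (tendsto_pi_nhds.2 (fun x => htend i x))
    refine Finset.measurable_sum _ (fun n _ => ?_)
    exact (hρm n).mul (f n i).continuous.measurable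
  have hFC : ∀ i x, |F i x| ≤ C := by
    intro i x
    refine le_of_tendsto (htend i x).abs (Filter.Eventually.of_forall (fun M => ?_))
    calc |∑ n ∈ Finset.range M, ρ n x * f n i x| ≤ ∑ n ∈ Finset.range M, |ρ n x * f n i x| :=
          Finset.abs_sum_le_sum_abs _ _
      _ ≤ ∑ n ∈ Finset.range M, C * ρ n x := Finset.sum_le_sum (fun n _ => habs i x n)
      _ = C * ∑ n ∈ Finset.range M, ρ n x := by rw [Finset.mul_sum]
      _ ≤ C * 1 := by gcongr; exact hρ1 x M
      _ = C := mul_one C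
  refine fa_flow d k g m hm U hU.measurableSet F hFm C hFC ε (fun x => ?_)
  have hlim : Filter.Tendsto (fun M => ∑ i, ((∑ n ∈ Finset.range M, ρ n (rot (g i) x) *
      f n i (rot (g i) x)) - ∑ n ∈ Finset.range M, ρ n x * f n i x)) Filter.atTop
      (nhds (∑ i, (F i (rot (g i) x) - F i x))) :=
    tendsto_finsetSum _ (fun i _ => (htend i (rot (g i) x)).sub (htend i x))
  -- the bound for partial sums
  have hbound : ∀ M, ∑ i, ((∑ n ∈ Finset.range M, ρ n (rot (g i) x) *
      f n i (rot (g i) x)) - ∑ n ∈ Finset.range M, ρ n x * f n i x)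
      ≤ ε - ∑ n ∈ Finset.range M, ρ n x := by
    intro M
    have e1 : ∑ i, ((∑ n ∈ Finset.range M, ρ n (rot (g i) x) *
        f n i (rot (g i) x)) - ∑ n ∈ Finset.range M, ρ n x * f n i x)
        = ∑ i, (∑ n ∈ Finset.range M, (ρ n (rot (g i) x) - ρ n x) * f n i (rot (g i) x))
          + ∑ n ∈ Finset.range M, ρ n x * ∑ i, (f n i (rot (g i) x) - f n i x) := by
      have e2 : ∑ n ∈ Finset.range M, ρ n x * ∑ i, (f n i (rot (g i) x) - f n i x)
          = ∑ i, ∑ n ∈ Finset.range M, ρ n x * (f n i (rot (g i) x) - f n i x) := by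
        rw [Finset.sum_comm]
        refine Finset.sum_congr rfl (fun n _ => ?_)
        rw [Finset.mul_sum]
      rw [e2, ← Finset.sum_add_distrib]
      refine Finset.sum_congr rfl (fun i _ => ?_)
      rw [← Finset.sum_sub_distrib, ← Finset.sum_add_distrib]
      refine Finset.sum_congr rfl (fun n _ => ?_)
      ring
    rw [e1]
    have b1 : ∀ i : Fin k, ∑ n ∈ Finset.range M, (ρ n (rot (g i) x) - ρ n x) * f n i (rot (g i) x)
        ≤ C * (2 * ∑ n ∈ Finset.range M, 1 / (N n : ℝ)) := by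
      intro i
      have hrd := rho_diff (fun n => w n (rot (g i) x)) (fun n => w n x) (fun n => 1 / (N n : ℝ))
        (hw0 _) (hw1 _) (hw0 _) (hw1 _) (fun n => gw_lip8881 g (P n) (N n) (hN1 n) i x) M
      calc ∑ n ∈ Finset.range M, (ρ n (rot (g i) x) - ρ n x) * f n i (rot (g i) x)
          ≤ ∑ n ∈ Finset.range M, C * |ρ n (rot (g i) x) - ρ n x| := by
            refine Finset.sum_le_sum (fun n _ => ?_)
            refine (le_abs_self _).trans ?_
            rw [abs_mul, mul_comm]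
            exact mul_le_mul_of_nonneg_right (hfC n i _) (abs_nonneg _)
        _ = C * ∑ n ∈ Finset.range M, |ρ n (rot (g i) x) - ρ n x| := by rw [Finset.mul_sum]
        _ ≤ C * (2 * ∑ n ∈ Finset.range M, 1 / (N n : ℝ)) :=
            mul_le_mul_of_nonneg_left hrd hC.le
    have b2 : ∑ n ∈ Finset.range M, ρ n x * ∑ i, (f n i (rot (g i) x) - f n i x)
        ≤ - ∑ n ∈ Finset.range M, ρ n x := by
      rw [← Finset.sum_neg_distrib]
      refine Finset.sum_le_sum (fun n _ => ?_)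
      by_cases hz : ρ n x = 0
      · rw [hz]; simp
      · have hwn : gw8881 g (P n) (N n) x ≠ 0 := by
          intro h0
          apply hz
          show w n x * _ = 0
          rw [show w n x = 0 from h0, zero_mul]
        have hx : x ∈ gT8881 g (P n) (N n) := gw_ne8881 _ _ _ _ hwn
        have := mul_le_mul_of_nonneg_left (hfK n x hx) (hρ0 n x)
        linarith
    have b3 : ∑ i : Fin k, (∑ n ∈ Finset.range M, (ρ n (rot (g i) x) - ρ n x) * f n i (rot (g i) x))
        ≤ ε := by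
      calc _ ≤ ∑ _i : Fin k, C * (2 * ∑ n ∈ Finset.range M, 1 / (N n : ℝ)) :=
            Finset.sum_le_sum (fun i _ => b1 i)
        _ = 2 * k * C * ∑ n ∈ Finset.range M, 1 / (N n : ℝ) := by
            rw [Finset.sum_const, Finset.card_univ, Fintype.card_fin, nsmul_eq_mul]; ring
        _ ≤ ε := hNs M
    linarith
  refine le_of_tendsto hlim ?_
  by_cases hxU : x ∈ U
  · obtain ⟨n0, hn0⟩ := mem_iUnion.1 (hPU hxU)
    rw [indicator_of_mem hxU]
    filter_upwards [Filter.eventually_gt_atTop n0] with M hM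
    refine (hbound M).trans ?_
    rw [hρs]
    have hw : w n0 x = 1 := gw_eq_one8881 g (P n0) (N n0) (hN1 n0) x hn0
    have : ∏ j ∈ Finset.range M, (1 - w j x) = 0 := by
      rw [Finset.prod_eq_zero_iff]
      exact ⟨n0, Finset.mem_range.2 hM, by rw [hw, sub_self]⟩
    rw [this, sub_zero]
  · rw [indicator_of_notMem hxU, sub_zero]
    refine Filter.Eventually.of_forall (fun M => ?_)
    refine (hbound M).trans ?_
    have : 0 ≤ ∑ n ∈ Finset.range M, ρ n x := Finset.sum_nonneg (fun n _ => hρ0 n x)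
    linarith



end Pool.Agent.Helper557.Rz
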